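import Pool.Agent.LibEY38.Defs

open Complex Set Filter Topology MeasureTheory
open scoped ComplexConjugate

namespace LibEY38

private theorem A1_one (f : ℂ → ℂ) (η ρ M k : ℝ) (hk : 0 ≤ k) (hk2 : k ≤ 2) (hρ : 0 < ρ) (hρ1 : ρ ≤ 1)
    (hf : DifferentiableOn ℂ f (St η)) (hb : ∀ t ∈ St η, ‖f t‖ ≤ M * Real.exp (-(k * |t.re|))) :
    ∀ t ∈ St (η - ρ), ‖deriv f t‖ ≤ 8 * M / ρ * Real.exp (-(k * |t.re|)) := by
  intro t ht
  have ht' : |t.im| < η - ρ := ht
  have hball : ∀ s ∈ Metric.closedBall t ρ, s ∈ St η := by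
    intro s hs
    rw [mem_closedBall_iff_norm] at hs
    have h1 : |s.im - t.im| ≤ ρ := by
      have := Complex.abs_im_le_norm (s - t)
      rw [Complex.sub_im] at this
      exact this.trans hs
    have h2 : |s.im| ≤ |t.im| + ρ := by
      have := abs_sub_abs_le_abs_sub s.im t.im
      linarith
    show |s.im| < η
    linarith
  have hM : 0 ≤ M := by
    have h0 := hb t (hball t (Metric.mem_closedBall_self hρ.le))
    have h1 : 0 ≤ M * Real.exp (-(k * |t.re|)) := (norm_nonneg _).trans h0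
    exact nonneg_of_mul_nonneg_left h1 (Real.exp_pos _)
  have hS : ∀ s ∈ Metric.sphere t ρ, ‖f s‖ ≤ 8 * M * Real.exp (-(k * |t.re|)) := by
    intro s hs
    have hs' := hball s (Metric.sphere_subset_closedBall hs)
    refine (hb s hs').trans ?_
    have h1 : |s.re - t.re| ≤ ρ := by
      have := Complex.abs_re_le_norm (s - t)
      rw [Complex.sub_re] at this
      rw [mem_sphere_iff_norm] at hs
      linarith
    have h2 : |t.re| ≤ |s.re| + ρ := by
      have := abs_sub_abs_le_abs_sub t.re s.re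
      rw [abs_sub_comm] at this
      linarith
    have h3 : Real.exp (-(k * |s.re|)) ≤ Real.exp 2 * Real.exp (-(k * |t.re|)) := by
      rw [← Real.exp_add]
      apply Real.exp_le_exp.mpr
      have : k * |t.re| ≤ k * |s.re| + k * ρ := by nlinarith
      have h4 : k * ρ ≤ 2 := by nlinarith
      linarith
    have h5 : Real.exp 2 ≤ 8 := by
      have h6 : Real.exp 2 = Real.exp 1 * Real.exp 1 := by rw [← Real.exp_add]; norm_num
      have h7 := Real.exp_one_lt_d9
      have h8 := Real.exp_pos 1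
      rw [h6]
      nlinarith
    have h9 := Real.exp_pos (-(k * |t.re|))
    calc M * Real.exp (-(k * |s.re|)) ≤ M * (Real.exp 2 * Real.exp (-(k * |t.re|))) :=
          mul_le_mul_of_nonneg_left h3 hM
      _ ≤ M * (8 * Real.exp (-(k * |t.re|))) :=
          mul_le_mul_of_nonneg_left (mul_le_mul_of_nonneg_right h5 h9.le) hM
      _ = 8 * M * Real.exp (-(k * |t.re|)) := by ring
  have hd : DiffContOnCl ℂ f (Metric.ball t ρ) := by
    apply DifferentiableOn.diffContOnCl
    rw [closure_ball t hρ.ne']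
    exact hf.mono hball
  have h := Complex.norm_deriv_le_of_forall_mem_sphere_norm_le hρ hd hS
  calc ‖deriv f t‖ ≤ 8 * M * Real.exp (-(k * |t.re|)) / ρ := h
    _ = 8 * M / ρ * Real.exp (-(k * |t.re|)) := by ring

theorem cauchy_w (f : ℂ → ℂ) (η ρ M k : ℝ) (hk : 0 ≤ k) (hk2 : k ≤ 2) (hρ : 0 < ρ) (hρ1 : ρ ≤ 1)
    (hf : DifferentiableOn ℂ f (St η)) (hb : ∀ t ∈ St η, ‖f t‖ ≤ M * Real.exp (-(k * |t.re|))) :
    (∀ t ∈ St (η - ρ), ‖deriv f t‖ ≤ 8 * M / ρ * Real.exp (-(k * |t.re|))) ∧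
    (∀ t ∈ St (η - ρ), ‖deriv (deriv f) t‖ ≤ 256 * M / ρ ^ 2 * Real.exp (-(k * |t.re|))) := by
  refine ⟨A1_one f η ρ M k hk hk2 hρ hρ1 hf hb, ?_⟩
  have h1 := A1_one f η (ρ / 2) M k hk hk2 (by linarith) (by linarith) hf hb
  have hopen : IsOpen (St η) := by
    have : St η = (fun z : ℂ => |z.im|) ⁻¹' (Set.Iio η) := rfl
    rw [this]
    exact isOpen_Iio.preimage (Complex.continuous_im.abs)
  have hsub : St (η - ρ / 2) ⊆ St η := by
    intro z hz
    have hz' : |z.im| < η - ρ / 2 := hz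
    show |z.im| < η
    linarith
  have hd : DifferentiableOn ℂ (deriv f) (St (η - ρ / 2)) := (hf.deriv hopen).mono hsub
  have h2 := A1_one (deriv f) (η - ρ / 2) (ρ / 2) (8 * M / (ρ / 2)) k hk hk2 (by linarith) (by linarith) hd h1
  intro t ht
  have ht2 : t ∈ St (η - ρ / 2 - ρ / 2) := by
    have : η - ρ / 2 - ρ / 2 = η - ρ := by ring
    rw [this]
    exact ht
  have h3 := h2 t ht2
  have h4 : 8 * (8 * M / (ρ / 2)) / (ρ / 2) = 256 * M / ρ ^ 2 := by
    field_simp
    ring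
  rw [h4] at h3
  exact h3

end LibEY38
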