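import Pool.Agent.LibEY38.Defs

open Complex Set Filter Topology MeasureTheory
open scoped ComplexConjugate

namespace LibEY38

/-
ROW A2 (MEDIUM, only Mathlib). Sums over integer translates, two-sided and one-sided.
Plan: exp(-(k|Re t + n|)) <= exp(k|Re t|) exp(-(k|n|)) summable, locally uniform in t: differentiableOn_tsum_of_summable_norm
(on St η ∩ {|Re t| < R}, glue), or hasSumLocallyUniformlyOn. Bounds: for |Re t| = r: by periodicity (shift by floor) the two-sided sum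
of exp(-k|x+n|) is at most 2/(1-exp(-k)) for every real x. One-sided: Re t <= 0: |Re (t-n)| = |Re t| + n, geometric series;
Re t >= 0: |Re(t+n)| = |Re t| + n.
-/
private theorem A2_q {k : ℝ} (hk : 0 < k) : 0 < 1 - Real.exp (-k) := by
  have h : Real.exp (-k) < 1 := Real.exp_lt_one_iff.2 (by linarith)
  linarith

private theorem A2_geo {k : ℝ} (hk : 0 < k) :
    Summable (fun n : ℕ => Real.exp (-(k * (n : ℝ)))) ∧
      ∑' n : ℕ, Real.exp (-(k * (n : ℝ))) = (1 - Real.exp (-k))⁻¹ := by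
  have h : ∀ n : ℕ, Real.exp (-(k * (n : ℝ))) = Real.exp (-k) ^ n := fun n => by
    rw [← Real.exp_nat_mul]
    congr 1
    ring
  simp only [h]
  have h1 : Real.exp (-k) < 1 := Real.exp_lt_one_iff.2 (by linarith)
  exact ⟨summable_geometric_of_lt_one (Real.exp_pos _).le h1,
    tsum_geometric_of_lt_one (Real.exp_pos _).le h1⟩

private theorem A2_int {k : ℝ} (hk : 0 < k) :
    Summable (fun n : ℤ => Real.exp (-(k * |(n : ℝ)|))) := by
  refine Summable.of_nat_of_neg_add_one ?_ ?_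
  · refine (A2_geo hk).1.congr fun n => ?_
    rw [Int.cast_natCast, Nat.abs_cast]
  · refine Summable.of_nonneg_of_le (fun n => (Real.exp_pos _).le) (fun n => ?_) (A2_geo hk).1
    rw [Real.exp_le_exp]
    have h1 : (n : ℝ) ≤ |((-((n : ℤ) + 1) : ℤ) : ℝ)| := by
      push_cast
      rw [abs_neg]
      exact le_trans (by linarith) (le_abs_self _)
    nlinarith

private theorem A2_mem {η : ℝ} {t : ℂ} (ht : t ∈ St η) (n : ℤ) : t + (n : ℂ) ∈ St η := by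
  have h1 : |t.im| < η := ht
  have h2 : (t + (n : ℂ)).im = t.im := by simp
  show |(t + (n : ℂ)).im| < η
  rw [h2]
  exact h1

private theorem A2_re (t : ℂ) (n : ℤ) : (t + (n : ℂ)).re = t.re + n := by simp

private theorem A2_M {f : ℂ → ℂ} {η M k : ℝ} (hb : ∀ t ∈ St η, ‖f t‖ ≤ M * Real.exp (-(k * |t.re|)))
    {t : ℂ} (ht : t ∈ St η) : 0 ≤ M := by
  by_contra h
  push Not at h
  have h1 := hb t ht
  have h2 : M * Real.exp (-(k * |t.re|)) < 0 := mul_neg_of_neg_of_pos h (Real.exp_pos _)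
  linarith [norm_nonneg (f t)]

private theorem A2_bd {f : ℂ → ℂ} {η M k : ℝ} (hk : 0 < k)
    (hb : ∀ t ∈ St η, ‖f t‖ ≤ M * Real.exp (-(k * |t.re|)))
    {t : ℂ} (ht : t ∈ St η) {a : ℝ} (ha : a ≤ |t.re|) : ‖f t‖ ≤ M * Real.exp (-(k * a)) := by
  refine (hb t ht).trans (mul_le_mul_of_nonneg_left ?_ (A2_M hb ht))
  rw [Real.exp_le_exp]
  have := mul_le_mul_of_nonneg_left ha hk.le
  linarith

private theorem A2_tr {f : ℂ → ℂ} {η M k : ℝ} (hk : 0 < k)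
    (hb : ∀ t ∈ St η, ‖f t‖ ≤ M * Real.exp (-(k * |t.re|)))
    {t : ℂ} (ht : t ∈ St η) {R : ℝ} (hR : |t.re| ≤ R) (n : ℤ) :
    ‖f (t + (n : ℂ))‖ ≤ M * Real.exp (k * R) * Real.exp (-(k * |(n : ℝ)|)) := by
  have h1 : |(n : ℝ)| - R ≤ |(t + (n : ℂ)).re| := by
    rw [A2_re]
    have h2 : |(n : ℝ)| ≤ |t.re + n| + |t.re| := by
      have h3 := abs_sub (t.re + n) t.re
      rwa [add_sub_cancel_left] at h3
    linarith
  refine (A2_bd hk hb (A2_mem ht n) h1).trans (le_of_eq ?_)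
  rw [mul_assoc, ← Real.exp_add]
  congr 2
  ring

private theorem A2_sm {f : ℂ → ℂ} {η M k : ℝ} (hk : 0 < k)
    (hb : ∀ t ∈ St η, ‖f t‖ ≤ M * Real.exp (-(k * |t.re|)))
    {t : ℂ} (ht : t ∈ St η) : Summable (fun n : ℤ => ‖f (t + (n : ℂ))‖) :=
  Summable.of_nonneg_of_le (fun _ => norm_nonneg _) (fun n => A2_tr hk hb ht le_rfl n)
    ((A2_int hk).mul_left _)

private theorem A2_open (η : ℝ) : IsOpen (St η) :=
  isOpen_lt (continuous_abs.comp Complex.continuous_im) continuous_const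

private theorem A2_df {ι : Type} {f : ℂ → ℂ} {η M k : ℝ} (hk : 0 < k)
    (hf : DifferentiableOn ℂ f (St η))
    (hb : ∀ t ∈ St η, ‖f t‖ ≤ M * Real.exp (-(k * |t.re|))) (c : ι → ℤ)
    (hc : Function.Injective c) :
    DifferentiableOn ℂ (fun t => ∑' i, f (t + (c i : ℂ))) (St η) := by
  intro t0 ht0
  have hU : IsOpen (St η ∩ {t : ℂ | |t.re| < |t0.re| + 1}) :=
    (A2_open η).inter (isOpen_lt (continuous_abs.comp Complex.continuous_re) continuous_const)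
  have h1 : DifferentiableOn ℂ (fun t => ∑' i, f (t + (c i : ℂ)))
      (St η ∩ {t : ℂ | |t.re| < |t0.re| + 1}) := by
    refine differentiableOn_tsum_of_summable_norm
      (u := fun i => M * Real.exp (k * (|t0.re| + 1)) * Real.exp (-(k * |((c i : ℤ) : ℝ)|)))
      (((A2_int hk).comp_injective hc).mul_left _) (fun i => ?_) hU (fun i w hw => ?_)
    · exact hf.comp ((differentiable_id.add_const _).differentiableOn)
        (fun w hw => A2_mem hw.1 (c i))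
    · exact A2_tr hk hb hw.1 (le_of_lt hw.2) (c i)
  have h2 : St η ∩ {t : ℂ | |t.re| < |t0.re| + 1} ∈ 𝓝 t0 :=
    hU.mem_nhds ⟨ht0, by show |t0.re| < |t0.re| + 1; linarith⟩
  exact (h1.differentiableAt h2).differentiableWithinAt

private theorem A2_zb {f : ℂ → ℂ} {η M k : ℝ} (hk : 0 < k)
    (hb : ∀ t ∈ St η, ‖f t‖ ≤ M * Real.exp (-(k * |t.re|)))
    {t : ℂ} (ht : t ∈ St η) :
    ∑' n : ℤ, ‖f (t + (n : ℂ))‖ ≤ 2 * M / (1 - Real.exp (-k)) := by
  obtain ⟨m, hm⟩ : ∃ m : ℤ, m = ⌊t.re⌋ := ⟨_, rfl⟩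
  have hm1 : (m : ℝ) ≤ t.re := by rw [hm]; exact Int.floor_le _
  have hm2 : t.re < m + 1 := by rw [hm]; exact Int.lt_floor_add_one _
  have hs := A2_sm hk hb ht
  have h0 : ∑' n : ℤ, ‖f (t + (n : ℂ))‖ = ∑' n : ℤ, ‖f (t + ((n - m : ℤ) : ℂ))‖ :=
    ((Equiv.subRight m).tsum_eq (fun n : ℤ => ‖f (t + (n : ℂ))‖)).symm
  have hs' : Summable (fun n : ℤ => ‖f (t + ((n - m : ℤ) : ℂ))‖) :=
    hs.comp_injective (Equiv.subRight m).injective
  have hs1 : Summable (fun n : ℕ => ‖f (t + (((n : ℤ) - m : ℤ) : ℂ))‖) :=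
    hs'.comp_injective (i := fun n : ℕ => (n : ℤ)) Nat.cast_injective
  have hs2 : Summable (fun n : ℕ => ‖f (t + ((-((n : ℤ) + 1) - m : ℤ) : ℂ))‖) :=
    hs'.comp_injective (i := fun n : ℕ => -((n : ℤ) + 1)) (fun a b hab => by
      have : -((a : ℤ) + 1) = -((b : ℤ) + 1) := hab
      omega)
  have hg := A2_geo hk
  have h1 : ∑' n : ℕ, ‖f (t + (((n : ℤ) - m : ℤ) : ℂ))‖ ≤ M * (1 - Real.exp (-k))⁻¹ := by
    rw [← hg.2, ← tsum_mul_left]
    refine hs1.tsum_le_tsum (fun n => ?_) (hg.1.mul_left M)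
    refine A2_bd hk hb (A2_mem ht _) ?_
    rw [A2_re]
    push_cast
    exact le_trans (by linarith) (le_abs_self _)
  have h2 : ∑' n : ℕ, ‖f (t + ((-((n : ℤ) + 1) - m : ℤ) : ℂ))‖ ≤
      M * (1 - Real.exp (-k))⁻¹ := by
    rw [← hg.2, ← tsum_mul_left]
    refine hs2.tsum_le_tsum (fun n => ?_) (hg.1.mul_left M)
    refine A2_bd hk hb (A2_mem ht _) ?_
    rw [A2_re]
    push_cast
    exact le_trans (by linarith) (neg_le_abs _)
  rw [h0, tsum_of_nat_of_neg_add_one (f := fun n : ℤ => ‖f (t + ((n - m : ℤ) : ℂ))‖) hs1 hs2]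
  calc _ ≤ M * (1 - Real.exp (-k))⁻¹ + M * (1 - Real.exp (-k))⁻¹ := add_le_add h1 h2
    _ = 2 * M / (1 - Real.exp (-k)) := by rw [div_eq_mul_inv]; ring

private theorem A2_cb {ι : Type} {f : ℂ → ℂ} {η M k : ℝ} (hk : 0 < k)
    (hb : ∀ t ∈ St η, ‖f t‖ ≤ M * Real.exp (-(k * |t.re|))) (c : ι → ℤ)
    (hc : Function.Injective c) {t : ℂ} (ht : t ∈ St η) :
    ‖∑' i, f (t + (c i : ℂ))‖ ≤ 2 * M / (1 - Real.exp (-k)) := by
  have hs := A2_sm hk hb ht
  have hs' : Summable (fun i => ‖f (t + (c i : ℂ))‖) := hs.comp_injective hc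
  exact (norm_tsum_le_tsum_norm hs').trans ((tsum_comp_le_tsum_of_inj hs
    (fun _ => norm_nonneg _) hc).trans (A2_zb hk hb ht))

private theorem A2_half {f : ℂ → ℂ} {η M k : ℝ} (hk : 0 < k)
    (hb : ∀ t ∈ St η, ‖f t‖ ≤ M * Real.exp (-(k * |t.re|))) (c : ℕ → ℤ)
    {t : ℂ} (ht : t ∈ St η) (hc : ∀ n : ℕ, |t.re| + n ≤ |t.re + ((c n : ℤ) : ℝ)|) :
    ‖∑' n : ℕ, f (t + (c n : ℂ))‖ ≤
      M / (1 - Real.exp (-k)) * Real.exp (-(k * |t.re|)) := by
  have hg := A2_geo hk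
  have h1 : ∀ n : ℕ, ‖f (t + (c n : ℂ))‖ ≤
      M * Real.exp (-(k * |t.re|)) * Real.exp (-(k * (n : ℝ))) := by
    intro n
    refine (A2_bd hk hb (A2_mem ht (c n)) (a := |t.re| + n) ?_).trans (le_of_eq ?_)
    · rw [A2_re]
      exact hc n
    · rw [mul_assoc, ← Real.exp_add]
      congr 2
      ring
  have h2 : HasSum (fun n : ℕ => M * Real.exp (-(k * |t.re|)) * Real.exp (-(k * (n : ℝ))))
      (M * Real.exp (-(k * |t.re|)) * (1 - Real.exp (-k))⁻¹) := by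
    rw [← hg.2]
    exact hg.1.hasSum.mul_left _
  refine (tsum_of_norm_bounded h2 h1).trans (le_of_eq ?_)
  rw [div_eq_mul_inv]
  ring

theorem tsum_strip (f : ℂ → ℂ) (η M k : ℝ) (hk : 0 < k) (hf : DifferentiableOn ℂ f (St η))
    (hb : ∀ t ∈ St η, ‖f t‖ ≤ M * Real.exp (-(k * |t.re|))) :
    (∀ t ∈ St η, Summable (fun n : ℤ => ‖f (t + n)‖)) ∧
    DifferentiableOn ℂ (fun t => ∑' n : ℤ, f (t + n)) (St η) ∧
    (∀ t ∈ St η, ‖∑' n : ℤ, f (t + n)‖ ≤ 2 * M / (1 - Real.exp (-k))) ∧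
    (∀ t, (∑' n : ℤ, f (t + 1 + n)) = ∑' n : ℤ, f (t + n)) := by
  refine ⟨fun t ht => A2_sm hk hb ht, A2_df hk hf hb (fun n : ℤ => n) (fun _ _ h => h),
    fun t ht => A2_cb hk hb (fun n : ℤ => n) (fun _ _ h => h) ht, fun t => ?_⟩
  rw [← (Equiv.addRight (1 : ℤ)).tsum_eq (fun n : ℤ => f (t + (n : ℂ)))]
  refine tsum_congr fun n => ?_
  congr 1
  rw [Equiv.coe_addRight]
  push_cast
  ring

theorem tsum_half (f : ℂ → ℂ) (η M k : ℝ) (hk : 0 < k) (hf : DifferentiableOn ℂ f (St η))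
    (hb : ∀ t ∈ St η, ‖f t‖ ≤ M * Real.exp (-(k * |t.re|))) :
    (∀ t ∈ St η, Summable (fun n : ℕ => ‖f (t + n)‖) ∧ Summable (fun n : ℕ => ‖f (t - n)‖)) ∧
    DifferentiableOn ℂ (fun t => ∑' n : ℕ, f (t + n)) (St η) ∧
    DifferentiableOn ℂ (fun t => ∑' n : ℕ, f (t - n)) (St η) ∧
    (∀ t ∈ St η, 0 ≤ t.re → ‖∑' n : ℕ, f (t + n)‖ ≤ M / (1 - Real.exp (-k)) * Real.exp (-(k * |t.re|))) ∧
    (∀ t ∈ St η, t.re ≤ 0 → ‖∑' n : ℕ, f (t - n)‖ ≤ M / (1 - Real.exp (-k)) * Real.exp (-(k * |t.re|))) ∧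
    (∀ t ∈ St η, ‖∑' n : ℕ, f (t + n)‖ ≤ 2 * M / (1 - Real.exp (-k)) ∧
      ‖∑' n : ℕ, f (t - n)‖ ≤ 2 * M / (1 - Real.exp (-k))) ∧
    (∀ t ∈ St η, (∑' n : ℤ, f (t + n)) = (∑' n : ℕ, f (t - n)) + ∑' n : ℕ, f (t + (n + 1))) := by
  have hcp : Function.Injective (fun n : ℕ => (n : ℤ)) := Nat.cast_injective
  have hcn : Function.Injective (fun n : ℕ => -(n : ℤ)) := fun a b hab => by
    have : -(a : ℤ) = -(b : ℤ) := hab
    omega
  have ep : ∀ (t : ℂ) (n : ℕ), f (t + ((n : ℤ) : ℂ)) = f (t + n) := fun t n => by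
    rw [Int.cast_natCast]
  have en : ∀ (t : ℂ) (n : ℕ), f (t + ((-(n : ℤ) : ℤ) : ℂ)) = f (t - n) := fun t n => by
    congr 1
    push_cast
    ring
  have hsp : ∀ t ∈ St η, Summable (fun n : ℕ => ‖f (t + n)‖) := fun t ht => by
    have h := (A2_sm hk hb ht).comp_injective hcp
    refine h.congr fun n => ?_
    show ‖f (t + ((n : ℤ) : ℂ))‖ = ‖f (t + n)‖
    rw [ep]
  have hsn : ∀ t ∈ St η, Summable (fun n : ℕ => ‖f (t - n)‖) := fun t ht => by
    have h := (A2_sm hk hb ht).comp_injective hcn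
    refine h.congr fun n => ?_
    show ‖f (t + ((-(n : ℤ) : ℤ) : ℂ))‖ = ‖f (t - n)‖
    rw [en]
  have tp : ∀ t : ℂ, ∑' n : ℕ, f (t + ((n : ℤ) : ℂ)) = ∑' n : ℕ, f (t + n) := fun t =>
    tsum_congr fun n => ep t n
  have tn : ∀ t : ℂ, ∑' n : ℕ, f (t + ((-(n : ℤ) : ℤ) : ℂ)) = ∑' n : ℕ, f (t - n) := fun t =>
    tsum_congr fun n => en t n
  refine ⟨fun t ht => ⟨hsp t ht, hsn t ht⟩, ?_, ?_, ?_, ?_, ?_, ?_⟩
  · have h := A2_df hk hf hb (fun n : ℕ => (n : ℤ)) hcp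
    simp only [tp] at h
    exact h
  · have h := A2_df hk hf hb (fun n : ℕ => -(n : ℤ)) hcn
    simp only [tn] at h
    exact h
  · intro t ht h0
    rw [← tp]
    refine A2_half hk hb (fun n : ℕ => (n : ℤ)) ht fun n => ?_
    rw [Int.cast_natCast, abs_of_nonneg h0]
    exact le_abs_self _
  · intro t ht h0
    rw [← tn]
    refine A2_half hk hb (fun n : ℕ => -(n : ℤ)) ht fun n => ?_
    push_cast
    rw [abs_of_nonpos h0]
    exact le_trans (by linarith) (neg_le_abs _)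
  · intro t ht
    constructor
    · rw [← tp]
      exact A2_cb hk hb (fun n : ℕ => (n : ℤ)) hcp ht
    · rw [← tn]
      exact A2_cb hk hb (fun n : ℕ => -(n : ℤ)) hcn ht
  · intro t ht
    have h0 : ∑' n : ℤ, f (t + (n : ℂ)) = ∑' n : ℤ, f (t - (n : ℂ)) := by
      rw [← (Equiv.neg ℤ).tsum_eq (fun n : ℤ => f (t + (n : ℂ)))]
      refine tsum_congr fun n => ?_
      congr 1
      rw [Equiv.neg_apply]
      push_cast
      ring
    have e2 : ∀ n : ℕ, f (t - ((-((n : ℤ) + 1) : ℤ) : ℂ)) = f (t + (n + 1)) := fun n => by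
      congr 1
      push_cast
      ring
    have e1 : ∀ n : ℕ, f (t - (((n : ℤ) : ℤ) : ℂ)) = f (t - n) := fun n => by
      rw [Int.cast_natCast]
    have s1 : Summable (fun n : ℕ => f (t - (((n : ℤ) : ℤ) : ℂ))) := by
      simp only [e1]
      exact (hsn t ht).of_norm
    have s2 : Summable (fun n : ℕ => f (t - ((-((n : ℤ) + 1) : ℤ) : ℂ))) := by
      simp only [e2]
      have h := (hsp t ht).comp_injective (i := fun n : ℕ => n + 1) (add_left_injective 1)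
      refine Summable.of_norm (h.congr fun n => ?_)
      show ‖f (t + ((n + 1 : ℕ) : ℂ))‖ = ‖f (t + (n + 1))‖
      rw [Nat.cast_add, Nat.cast_one]
    rw [h0, tsum_of_nat_of_neg_add_one (f := fun n : ℤ => f (t - (n : ℂ))) s1 s2]
    exact congrArg₂ (· + ·) (tsum_congr e1) (tsum_congr e2)

end LibEY38
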