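import Pool.Agent.LibEY38.Defs

open Complex Set Filter Topology MeasureTheory
open scoped ComplexConjugate

namespace LibEY38

/-
ROW A3 (MEDIUM/STRONG, only Mathlib). Periodic Cauchy formula.
(1/2πi)(∫ lower - ∫ upper) of m(τ) π cot(π(τ-t)) = m(t) for |Im t| < η.
Plan: (m(τ)-m(t)) π cot(π(τ-t)) extends to a differentiable 1-periodic function on St η' (write it as
φ(τ) * (π (τ-t)) cos(π(τ-t))/sin(π(τ-t)) with φ = dslope m t; near the other zeros τ = t + n use periodicity of m, or: the function is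
periodic, so only the strip |Re(τ-t)| < 1 matters). Its integrals over the two segments agree: rectangle theorem
(Complex.integral_boundary_rect_eq_zero_of_differentiableOn) and the vertical sides cancel by periodicity.
Then ∫_{-1/2}^{1/2} π cot(π(r - iη - t)) dr = π i for |Im t| < η and = -π i for the upper line:
cot(πζ) = i (e^{2πiζ}+1)/(e^{2πiζ}-1), geometric series (lower: Im ζ < 0: i(1 + 2 ∑_{k>=1} e^{-2πikζ})), each ∫ e^{-2πikr} dr = 0.
(Alternative: expand m in its Fourier series; any proof is fine.)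
-/

/-- the average of the cotangent over a period, upper half plane -/
private theorem A3_up (a : ℝ) (b : ℂ) (hb : 0 < b.im) :
    ∫ r in a..(a + 1), Complex.cot (Real.pi * ((r : ℂ) + b)) = -I := by
  obtain ⟨ρ, hρ⟩ : ∃ ρ : ℝ, ρ = Real.exp (-(2 * Real.pi * b.im)) := ⟨_, rfl⟩
  have hρ0 : 0 < ρ := hρ ▸ Real.exp_pos _
  have hρ1 : ρ < 1 := by
    have := mul_pos (mul_pos two_pos Real.pi_pos) hb
    rw [hρ, ← Real.exp_zero]
    exact Real.exp_lt_exp.2 (by linarith)
  let F : ℂ → ℂ := fun w => (1 + w) / (1 - w)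
  have h1 : ∀ r : ℝ, Complex.cot (Real.pi * ((r : ℂ) + b)) =
      -I * F (circleMap 0 ρ (2 * Real.pi * r + 2 * Real.pi * b.re)) := by
    intro r
    have h2 : Complex.exp (2 * Real.pi * I * ((r : ℂ) + b)) =
        circleMap 0 ρ (2 * Real.pi * r + 2 * Real.pi * b.re) := by
      rw [circleMap, hρ, Complex.ofReal_exp, zero_add, ← Complex.exp_add]
      congr 1
      apply Complex.ext
      · simp
      · simp
        ring
    rw [Complex.cot_pi_eq_exp_ratio, h2, div_mul_eq_div_div, Complex.div_I]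
    simp only [F]
    ring
  simp only [h1]
  rw [intervalIntegral.integral_const_mul]
  have h3 : ∫ r in a..(a + 1), F (circleMap 0 ρ (2 * Real.pi * r + 2 * Real.pi * b.re)) = 1 := by
    rw [intervalIntegral.integral_comp_mul_add (fun θ => F (circleMap 0 ρ θ))
      (Real.two_pi_pos.ne') (2 * Real.pi * b.re)]
    have hper : Function.Periodic (fun θ => F (circleMap 0 ρ θ)) (2 * Real.pi) := fun θ => by
      simp only [periodic_circleMap 0 ρ θ]
    have e1 : 2 * Real.pi * (a + 1) + 2 * Real.pi * b.re =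
        (2 * Real.pi * a + 2 * Real.pi * b.re) + 2 * Real.pi := by ring
    rw [e1, hper.intervalIntegral_add_eq _ 0, zero_add]
    have hF : DiffContOnCl ℂ F (Metric.ball 0 |ρ|) := by
      apply DifferentiableOn.diffContOnCl
      rw [closure_ball _ (abs_pos.2 hρ0.ne').ne']
      intro w hw
      have hw1 : (1 : ℂ) - w ≠ 0 := by
        intro h
        have h4 : w = 1 := (sub_eq_zero.1 h).symm
        rw [h4, mem_closedBall_zero_iff, norm_one, abs_of_pos hρ0] at hw
        linarith
      exact (DifferentiableAt.div (by fun_prop) (by fun_prop) hw1).differentiableWithinAt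
    have h4 := hF.circleAverage
    rw [Real.circleAverage_def] at h4
    rw [h4]
    simp [F]
  rw [h3, mul_one]

/-- the average of the cotangent over a period, lower half plane -/
private theorem A3_down (a : ℝ) (b : ℂ) (hb : b.im < 0) :
    ∫ r in a..(a + 1), Complex.cot (Real.pi * ((r : ℂ) + b)) = I := by
  have h1 : ∀ r : ℝ, Complex.cot (Real.pi * ((r : ℂ) + b)) =
      -Complex.cot (Real.pi * (((-r : ℝ) : ℂ) + (-b))) := by
    intro r
    have h2 : (Real.pi : ℂ) * (((-r : ℝ) : ℂ) + (-b)) = -(Real.pi * ((r : ℂ) + b)) := by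
      push_cast
      ring
    rw [h2, Complex.cot, Complex.cot, Complex.cos_neg, Complex.sin_neg, div_neg, neg_neg]
  simp only [h1]
  rw [intervalIntegral.integral_neg,
    intervalIntegral.integral_comp_neg (fun r : ℝ => Complex.cot (Real.pi * ((r : ℂ) + (-b))))]
  have e : -a = -(a + 1) + 1 := by ring
  rw [e, A3_up _ _ (by simpa using hb), neg_neg]

private theorem A3_cont (b : ℂ) (hb : b.im ≠ 0) :
    Continuous fun r : ℝ => Complex.cot (Real.pi * ((r : ℂ) + b)) := by
  unfold Complex.cot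
  refine Continuous.div (by fun_prop) (by fun_prop) fun r h => ?_
  obtain ⟨k, hk⟩ := Complex.sin_eq_zero_iff.1 h
  have h1 : ((r : ℂ) + b) = k := by
    have hpi : (Real.pi : ℂ) ≠ 0 := Complex.ofReal_ne_zero.2 Real.pi_ne_zero
    have h2 : (Real.pi : ℂ) * ((r : ℂ) + b - k) = 0 := by
      rw [mul_sub, hk]
      ring
    exact sub_eq_zero.1 ((mul_eq_zero.1 h2).resolve_left hpi)
  apply hb
  have h3 := congrArg Complex.im h1
  simpa using h3

private theorem A3_cot_add_one (x : ℂ) :
    Complex.cot (Real.pi * (x + 1)) = Complex.cot (Real.pi * x) := by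
  have h : (Real.pi : ℂ) * (x + 1) = Real.pi * x + Real.pi := by ring
  rw [h, Complex.cot, Complex.cot, Complex.cos_add_pi, Complex.sin_add_pi, neg_div_neg_eq]

/-- `sin (π ζ) / ζ` -/
private noncomputable def A3_S : ℂ → ℂ := dslope (fun ζ => Complex.sin (Real.pi * ζ)) 0

private theorem A3_S_diff : Differentiable ℂ A3_S := by
  rw [← differentiableOn_univ]
  exact (Complex.differentiableOn_dslope univ_mem).2 (by fun_prop)

private theorem A3_S_of_ne {ζ : ℂ} (h : ζ ≠ 0) : A3_S ζ = Complex.sin (Real.pi * ζ) / ζ := by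
  rw [A3_S, dslope_of_ne _ h, slope_def_field]
  simp

private theorem A3_S_ne {ζ : ℂ} (h : |ζ.re| ≤ 1 / 2) : A3_S ζ ≠ 0 := by
  have hpi : (Real.pi : ℂ) ≠ 0 := Complex.ofReal_ne_zero.2 Real.pi_ne_zero
  by_cases h0 : ζ = 0
  · rw [h0, A3_S, dslope_same]
    have h1 : HasDerivAt (fun ζ : ℂ => Complex.sin (Real.pi * ζ))
        (Complex.cos (Real.pi * 0) * (Real.pi * 1)) 0 :=
      ((hasDerivAt_id (0 : ℂ)).const_mul (Real.pi : ℂ)).csin
    rw [h1.deriv]
    simp
  · rw [A3_S_of_ne h0]
    refine div_ne_zero (fun h1 => ?_) h0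
    obtain ⟨k, hk⟩ := Complex.sin_eq_zero_iff.1 h1
    have h2 : ζ = k := by
      have h3 : (Real.pi : ℂ) * (ζ - k) = 0 := by
        rw [mul_sub, hk]
        ring
      exact sub_eq_zero.1 ((mul_eq_zero.1 h3).resolve_left hpi)
    rw [h2] at h h0
    have h4 : |(k : ℝ)| ≤ 1 / 2 := by simpa using h
    have h5 : |k| ≤ 0 := by
      by_contra h6
      have h7 : (1 : ℤ) ≤ |k| := by omega
      have h8 : (1 : ℝ) ≤ |(k : ℝ)| := by exact_mod_cast h7
      linarith
    have h6 : k = 0 := abs_eq_zero.1 (le_antisymm h5 (abs_nonneg k))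
    exact h0 (by rw [h6, Int.cast_zero])

/-- the regularised integrand -/
private noncomputable def A3_G (m : ℂ → ℂ) (t τ : ℂ) : ℂ :=
  dslope m t τ * (Real.pi * Complex.cos (Real.pi * (τ - t)) / A3_S (τ - t))

private theorem A3_G_of_ne (m : ℂ → ℂ) {t τ : ℂ} (h : τ ≠ t) :
    A3_G m t τ = (m τ - m t) * (Real.pi * Complex.cot (Real.pi * (τ - t))) := by
  have h0 : τ - t ≠ 0 := sub_ne_zero.2 h
  rw [A3_G, dslope_of_ne _ h, slope_def_field, A3_S_of_ne h0, Complex.cot]
  by_cases hs : Complex.sin (Real.pi * (τ - t)) = 0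
  · rw [hs]
    simp
  · field_simp

private theorem A3_G_diff {m : ℂ → ℂ} {η η' : ℝ} (h1 : η < η')
    (hm : DifferentiableOn ℂ m (St η')) {t : ℂ} (ht : t ∈ St η) :
    DifferentiableOn ℂ (A3_G m t) {τ | |τ.re - t.re| ≤ 1 / 2 ∧ |τ.im| ≤ η} := by
  have hopen : IsOpen (St η') := isOpen_lt (by fun_prop) continuous_const
  have htn : St η' ∈ 𝓝 t := hopen.mem_nhds (lt_trans ht h1)
  have hd : DifferentiableOn ℂ (dslope m t) (St η') := (Complex.differentiableOn_dslope htn).2 hm
  intro τ hτ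
  have hτ' : τ ∈ St η' := lt_of_le_of_lt hτ.2 h1
  have e1 : DifferentiableAt ℂ (dslope m t) τ := hd.differentiableAt (hopen.mem_nhds hτ')
  have e2 : DifferentiableAt ℂ (fun τ => A3_S (τ - t)) τ :=
    (A3_S_diff (τ - t)).comp τ (by fun_prop : DifferentiableAt ℂ (fun τ => τ - t) τ)
  have e3 : A3_S (τ - t) ≠ 0 := A3_S_ne (by simpa using hτ.1)
  refine (DifferentiableAt.mul e1 (DifferentiableAt.div ?_ e2 e3)).differentiableWithinAt
  fun_prop

theorem percauchy (m : ℂ → ℂ) (η η' : ℝ) (h0 : 0 < η) (h1 : η < η') (hm : DifferentiableOn ℂ m (St η'))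
    (hp : ∀ t ∈ St η', m (t + 1) = m t) (t : ℂ) (ht : t ∈ St η) :
    arc η (fun τ => m τ * (Real.pi * Complex.cot (Real.pi * (τ - t)))) = m t := by
  have htim : |t.im| < η := ht
  obtain ⟨ht1, ht2⟩ := abs_lt.1 htim
  obtain ⟨a, ha⟩ : ∃ a : ℝ, a = t.re - 1 / 2 := ⟨_, rfl⟩
  -- the integrand is periodic
  have hper : ∀ τ ∈ St η', m (τ + 1) * (Real.pi * Complex.cot (Real.pi * (τ + 1 - t))) =
      m τ * (Real.pi * Complex.cot (Real.pi * (τ - t))) := by
    intro τ hτ
    have e : τ + 1 - t = (τ - t) + 1 := by ring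
    rw [e, A3_cot_add_one, hp τ hτ]
  -- one line
  have key : ∀ y : ℝ, |y| ≤ η → y ≠ t.im →
      (∫ r in (-(1 / 2) : ℝ)..(1 / 2), m ((r : ℂ) + (y : ℂ) * I) *
        (Real.pi * Complex.cot (Real.pi * ((r : ℂ) + (y : ℂ) * I - t)))) =
      (∫ r in a..(a + 1), A3_G m t ((r : ℂ) + (y : ℂ) * I)) +
        m t * (Real.pi * ∫ r in a..(a + 1), Complex.cot (Real.pi * ((r : ℂ) + ((y : ℂ) * I - t)))) := by
    intro y hy hyt
    have hP : Function.Periodic (fun r : ℝ => m ((r : ℂ) + (y : ℂ) * I) *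
        (Real.pi * Complex.cot (Real.pi * ((r : ℂ) + (y : ℂ) * I - t)))) 1 := by
      intro r
      have e : ((r + 1 : ℝ) : ℂ) + (y : ℂ) * I = ((r : ℂ) + (y : ℂ) * I) + 1 := by
        push_cast
        ring
      simp only [e]
      exact hper _ (by
        show |((r : ℂ) + (y : ℂ) * I).im| < η'
        simpa using lt_of_le_of_lt hy h1)
    have e1 : (∫ r in (-(1 / 2) : ℝ)..(1 / 2), m ((r : ℂ) + (y : ℂ) * I) *
        (Real.pi * Complex.cot (Real.pi * ((r : ℂ) + (y : ℂ) * I - t)))) =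
        ∫ r in a..(a + 1), m ((r : ℂ) + (y : ℂ) * I) *
        (Real.pi * Complex.cot (Real.pi * ((r : ℂ) + (y : ℂ) * I - t))) := by
      have e2 := hP.intervalIntegral_add_eq (-(1 / 2)) a
      have e3 : (-(1 / 2) : ℝ) + 1 = 1 / 2 := by norm_num
      rw [e3] at e2
      exact e2
    rw [e1]
    have hb : ((y : ℂ) * I - t).im ≠ 0 := by
      simpa [sub_eq_zero] using hyt
    have i1 : IntervalIntegrable (fun r : ℝ => A3_G m t ((r : ℂ) + (y : ℂ) * I))
        MeasureTheory.volume a (a + 1) := by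
      apply ContinuousOn.intervalIntegrable
      refine (A3_G_diff h1 hm ht).continuousOn.comp (by fun_prop) ?_
      intro r hr
      rw [uIcc_of_le (by linarith)] at hr
      refine ⟨?_, by simpa using hy⟩
      have hr1 := hr.1
      have hr2 := hr.2
      simp only [add_re, ofReal_re, mul_re, I_re, mul_zero, ofReal_im, I_im, mul_one, sub_self,
        add_zero]
      rw [abs_le]
      constructor <;> linarith
    have i2 : IntervalIntegrable (fun r : ℝ => m t * (Real.pi *
        Complex.cot (Real.pi * ((r : ℂ) + ((y : ℂ) * I - t))))) MeasureTheory.volume a (a + 1) :=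
      (((A3_cont _ hb).const_mul _).const_mul _).intervalIntegrable _ _
    rw [← intervalIntegral.integral_const_mul, ← intervalIntegral.integral_const_mul,
      ← intervalIntegral.integral_add i1 i2]
    apply intervalIntegral.integral_congr
    intro r _
    have hne : (r : ℂ) + (y : ℂ) * I ≠ t := by
      intro h
      apply hyt
      have := congrArg Complex.im h
      simpa using this
    simp only
    rw [A3_G_of_ne m hne, ← add_sub_assoc]
    ring
  -- the rectangle
  have rect := Complex.integral_boundary_rect_eq_zero_of_differentiableOn (A3_G m t)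
    ((a : ℂ) + ((-η : ℝ) : ℂ) * I) (((a + 1 : ℝ) : ℂ) + (η : ℂ) * I) (by
      refine (A3_G_diff h1 hm ht).mono ?_
      intro τ hτ
      rw [mem_reProdIm] at hτ
      simp only [add_re, ofReal_re, mul_re, I_re, mul_zero, ofReal_im, I_im, mul_one, sub_self,
        add_zero, add_im, mul_im, zero_add] at hτ
      rw [uIcc_of_le (by linarith), uIcc_of_le (by linarith)] at hτ
      obtain ⟨⟨hr1, hr2⟩, hi⟩ := hτ
      refine ⟨?_, abs_le.2 hi⟩
      rw [abs_le]
      constructor <;> linarith)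
  simp only [add_re, ofReal_re, mul_re, I_re, mul_zero, ofReal_im, I_im, mul_one, sub_self,
        add_zero, add_im, mul_im, zero_add] at rect
  have vert : (∫ y : ℝ in (-η)..η, A3_G m t (((a + 1 : ℝ) : ℂ) + (y : ℂ) * I)) =
      ∫ y : ℝ in (-η)..η, A3_G m t ((a : ℂ) + (y : ℂ) * I) := by
    apply intervalIntegral.integral_congr
    intro y hy
    rw [uIcc_of_le (by linarith)] at hy
    have hne : (a : ℂ) + (y : ℂ) * I ≠ t := by
      intro h
      have := congrArg Complex.re h
      simp at this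
      linarith
    have hne' : ((a + 1 : ℝ) : ℂ) + (y : ℂ) * I ≠ t := by
      intro h
      have := congrArg Complex.re h
      simp at this
      linarith
    simp only
    rw [A3_G_of_ne m hne, A3_G_of_ne m hne']
    have e : ((a + 1 : ℝ) : ℂ) + (y : ℂ) * I = ((a : ℂ) + (y : ℂ) * I) + 1 := by
      push_cast
      ring
    have e' : (a : ℂ) + (y : ℂ) * I + 1 - t = ((a : ℂ) + (y : ℂ) * I - t) + 1 := by ring
    rw [e, e', A3_cot_add_one, hp]
    show |((a : ℂ) + (y : ℂ) * I).im| < η'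
    have : |y| ≤ η := abs_le.2 hy
    simpa using lt_of_le_of_lt this h1
  rw [vert] at rect
  have hGG : (∫ x : ℝ in a..(a + 1), A3_G m t ((x : ℂ) + ((-η : ℝ) : ℂ) * I)) =
      ∫ x : ℝ in a..(a + 1), A3_G m t ((x : ℂ) + (η : ℂ) * I) := by
    linear_combination rect
  have k1 := key (-η) (by rw [abs_neg, abs_of_pos h0]) (by linarith)
  have k2 := key η (by rw [abs_of_pos h0]) (by linarith)
  rw [A3_down _ _ (by simp; linarith)] at k1
  rw [A3_up _ _ (by simp; linarith)] at k2
  unfold arc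
  have l1 : (∫ r in (-(1 / 2) : ℝ)..(1 / 2), m ((r : ℂ) - (η : ℂ) * I) *
      (Real.pi * Complex.cot (Real.pi * ((r : ℂ) - (η : ℂ) * I - t)))) =
      ∫ r in (-(1 / 2) : ℝ)..(1 / 2), m ((r : ℂ) + ((-η : ℝ) : ℂ) * I) *
        (Real.pi * Complex.cot (Real.pi * ((r : ℂ) + ((-η : ℝ) : ℂ) * I - t))) := by
    have e : ∀ r : ℝ, (r : ℂ) - (η : ℂ) * I = (r : ℂ) + ((-η : ℝ) : ℂ) * I := by
      intro r
      push_cast
      ring
    simp only [e]
  rw [l1, k1, k2, hGG]
  have hpi : (Real.pi : ℂ) ≠ 0 := Complex.ofReal_ne_zero.2 Real.pi_ne_zero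
  generalize (∫ x : ℝ in a..(a + 1), A3_G m t ((x : ℂ) + (η : ℂ) * I)) = g
  field_simp
  ring

end LibEY38
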