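import Pool.Agent.LibEY38.Defs
import Pool.Agent.LibEY38.A3

open Complex Set Filter Topology MeasureTheory
open scoped ComplexConjugate

namespace LibEY38

private lemma sin_ne (z : ℂ) (hz : z.im ≠ 0) : Complex.sin z ≠ 0 := by
  intro h
  rw [Complex.sin_eq_zero_iff] at h
  obtain ⟨k, rfl⟩ := h
  apply hz
  simp

private lemma cot_upper (z : ℂ) (a : ℝ) (ha : 0 < a) (hz : a ≤ z.im) :
    ‖Complex.cot z + I‖ ≤ 2 * Real.exp (-(2 * a)) / (1 - Real.exp (-(2 * a))) := by
  have hE : ‖Complex.exp (2 * I * z)‖ ≤ Real.exp (-(2 * a)) := by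
    rw [Complex.norm_exp]
    apply Real.exp_le_exp.mpr
    simp
    linarith
  have hq : Real.exp (-(2 * a)) < 1 := by
    rw [Real.exp_lt_one_iff]
    linarith
  have hee : Complex.cot z = (Complex.exp (2 * I * z) + 1) / (I * (1 - Complex.exp (2 * I * z))) :=
    Complex.cot_eq_exp_ratio z
  generalize Complex.exp (2 * I * z) = E at hE hee
  have h1 : 1 - Real.exp (-(2 * a)) ≤ ‖1 - E‖ := by
    have := norm_sub_norm_le (1 : ℂ) E
    rw [norm_one] at this
    linarith
  have hne : (1 - E) ≠ 0 := by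
    intro h
    rw [h, norm_zero] at h1
    linarith
  have h2 : Complex.cot z + I = 2 * E / (I * (1 - E)) := by
    rw [hee, div_add' _ _ _ (mul_ne_zero I_ne_zero hne)]
    congr 1
    linear_combination (1 - E) * Complex.I_mul_I
  rw [h2, norm_div, norm_mul, norm_mul, Complex.norm_I, one_mul]
  apply div_le_div₀
  · positivity
  · simp only [Complex.norm_ofNat]
    linarith
  · linarith
  · exact h1

private lemma cot_lower (z : ℂ) (a : ℝ) (ha : 0 < a) (hz : z.im ≤ -a) :
    ‖Complex.cot z - I‖ ≤ 2 * Real.exp (-(2 * a)) / (1 - Real.exp (-(2 * a))) := by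
  have h := cot_upper (-z) a ha (by rw [Complex.neg_im]; linarith)
  have h1 : Complex.cot (-z) + I = -(Complex.cot z - I) := by
    have : Complex.cot (-z) = -Complex.cot z := by
      rw [Complex.cot, Complex.cot, Complex.cos_neg, Complex.sin_neg, div_neg]
    rw [this]
    ring
  rw [h1, norm_neg] at h
  exact h

private lemma line_cont (G : ℂ → ℂ) (H' s : ℝ) (hG : DifferentiableOn ℂ G (St H')) (hs : |s| < H')
    (t : ℂ) (ht : t.im ≠ s) :
    Continuous (fun r : ℝ => G ((r : ℂ) + (s : ℂ) * I) *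
      (Real.pi * Complex.cot (Real.pi * (((r : ℂ) + (s : ℂ) * I) - t)))) := by
  apply Continuous.mul
  · apply hG.continuousOn.comp_continuous (by fun_prop)
    intro r
    show |((r : ℂ) + (s : ℂ) * I).im| < H'
    simpa using hs
  · apply Continuous.mul continuous_const
    have : (fun r : ℝ => Complex.cot (Real.pi * (((r : ℂ) + (s : ℂ) * I) - t))) =
        fun r : ℝ => Complex.cos (Real.pi * (((r : ℂ) + (s : ℂ) * I) - t)) /
          Complex.sin (Real.pi * (((r : ℂ) + (s : ℂ) * I) - t)) := by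
      funext r
      rfl
    rw [this]
    apply Continuous.div
    · fun_prop
    · fun_prop
    · intro r
      apply sin_ne
      have : (Real.pi * (((r : ℂ) + (s : ℂ) * I) - t) : ℂ).im = Real.pi * (s - t.im) := by
        rw [Complex.im_ofReal_mul]
        simp
      rw [this]
      exact mul_ne_zero Real.pi_ne_zero (sub_ne_zero.mpr (Ne.symm ht))

private lemma line_bound (G : ℂ → ℂ) (h H H' B s : ℝ) (h0 : 0 ≤ h) (h1 : h + 1 ≤ H) (h2 : H < H')
    (hG : DifferentiableOn ℂ G (St H'))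
    (hB : ∀ t : ℂ, |t.im| = H → ‖G t‖ ≤ B) (t : ℂ) (ht : |t.im| ≤ h) (hs : s = H ∨ s = -H) :
    ‖(∫ r in (-(1 / 2) : ℝ)..(1 / 2), G ((r : ℂ) + (s : ℂ) * I) *
      (Real.pi * Complex.cot (Real.pi * (((r : ℂ) + (s : ℂ) * I) - t)))) -
      ∫ r in (-(1 / 2) : ℝ)..(1 / 2), G ((r : ℂ) + (s : ℂ) * I) *
      (Real.pi * Complex.cot (Real.pi * (((r : ℂ) + (s : ℂ) * I) - 0)))‖ ≤
      B * (Real.pi * (2 * (2 * Real.exp (-(2 * (Real.pi * (H - h)))) /
        (1 - Real.exp (-(2 * (Real.pi * (H - h)))))))) := by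
  have hH : 1 ≤ H := by linarith
  have habs : |s| = H := by
    rcases hs with rfl | rfl
    · exact abs_of_nonneg (by linarith)
    · rw [abs_neg]
      exact abs_of_nonneg (by linarith)
  have hsH : |s| < H' := by rw [habs]; exact h2
  have hta := abs_le.mp ht
  have hts : t.im ≠ s := by
    rcases hs with rfl | rfl
    · intro h'; linarith [hta.1, hta.2]
    · intro h'; linarith [hta.1, hta.2]
  have h0s : (0 : ℂ).im ≠ s := by
    rw [Complex.zero_im]
    rcases hs with rfl | rfl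
    · intro h'; linarith
    · intro h'; linarith
  have hpi := Real.pi_pos
  have ha : 0 < Real.pi * (H - h) := mul_pos hpi (by linarith)
  rw [← intervalIntegral.integral_sub ((line_cont G H' s hG hsH t hts).intervalIntegrable _ _)
    ((line_cont G H' s hG hsH 0 h0s).intervalIntegrable _ _)]
  have hB0 : 0 ≤ B := by
    have := hB ((s : ℂ) * I) (by simpa using habs)
    exact (norm_nonneg _).trans this
  set Q := 2 * Real.exp (-(2 * (Real.pi * (H - h)))) / (1 - Real.exp (-(2 * (Real.pi * (H - h))))) with hQ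
  have key : ∀ r : ℝ, ‖Complex.cot (Real.pi * (((r : ℂ) + (s : ℂ) * I) - t)) -
      Complex.cot (Real.pi * (((r : ℂ) + (s : ℂ) * I) - 0))‖ ≤ 2 * Q := by
    intro r
    have im1 : (Real.pi * (((r : ℂ) + (s : ℂ) * I) - t) : ℂ).im = Real.pi * (s - t.im) := by
      rw [Complex.im_ofReal_mul]
      simp
    have im2 : (Real.pi * (((r : ℂ) + (s : ℂ) * I) - 0) : ℂ).im = Real.pi * s := by
      rw [Complex.im_ofReal_mul]
      simp
    rcases hs with rfl | rfl
    · have e1 := cot_upper (Real.pi * (((r : ℂ) + (s : ℂ) * I) - t)) (Real.pi * (s - h)) ha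
        (by rw [im1]; exact mul_le_mul_of_nonneg_left (by linarith [hta.2]) hpi.le)
      have e2 := cot_upper (Real.pi * (((r : ℂ) + (s : ℂ) * I) - 0)) (Real.pi * (s - h)) ha
        (by rw [im2]; exact mul_le_mul_of_nonneg_left (by linarith [hta.2]) hpi.le)
      rw [← hQ] at e1 e2
      calc _ = ‖(Complex.cot (Real.pi * (((r : ℂ) + (s : ℂ) * I) - t)) + I) -
            (Complex.cot (Real.pi * (((r : ℂ) + (s : ℂ) * I) - 0)) + I)‖ := by
            congr 1
            ring
        _ ≤ _ := norm_sub_le _ _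
        _ ≤ 2 * Q := by linarith
    · have e1 := cot_lower (Real.pi * (((r : ℂ) + ((-H : ℝ) : ℂ) * I) - t)) (Real.pi * (H - h)) ha
        (by
          rw [im1]
          have : Real.pi * (-H - t.im) ≤ Real.pi * (-(H - h)) :=
            mul_le_mul_of_nonneg_left (by linarith [hta.1]) hpi.le
          linarith)
      have e2 := cot_lower (Real.pi * (((r : ℂ) + ((-H : ℝ) : ℂ) * I) - 0)) (Real.pi * (H - h)) ha
        (by
          rw [im2]
          have : Real.pi * (-H) ≤ Real.pi * (-(H - h)) :=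
            mul_le_mul_of_nonneg_left (by linarith [hta.1]) hpi.le
          linarith)
      rw [← hQ] at e1 e2
      calc _ = ‖(Complex.cot (Real.pi * (((r : ℂ) + ((-H : ℝ) : ℂ) * I) - t)) - I) -
            (Complex.cot (Real.pi * (((r : ℂ) + ((-H : ℝ) : ℂ) * I) - 0)) - I)‖ := by
            congr 1
            ring
        _ ≤ _ := norm_sub_le _ _
        _ ≤ 2 * Q := by linarith
  have hb := intervalIntegral.norm_integral_le_of_norm_le_const (a := (-(1 / 2) : ℝ)) (b := 1 / 2)
    (C := B * (Real.pi * (2 * Q)))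
    (f := fun r : ℝ => G ((r : ℂ) + (s : ℂ) * I) *
      (Real.pi * Complex.cot (Real.pi * (((r : ℂ) + (s : ℂ) * I) - t))) -
      G ((r : ℂ) + (s : ℂ) * I) *
      (Real.pi * Complex.cot (Real.pi * (((r : ℂ) + (s : ℂ) * I) - 0)))) (by
    intro r _
    show ‖G ((r : ℂ) + (s : ℂ) * I) *
      (Real.pi * Complex.cot (Real.pi * (((r : ℂ) + (s : ℂ) * I) - t))) -
      G ((r : ℂ) + (s : ℂ) * I) *
      (Real.pi * Complex.cot (Real.pi * (((r : ℂ) + (s : ℂ) * I) - 0)))‖ ≤ B * (Real.pi * (2 * Q))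
    have e : G ((r : ℂ) + (s : ℂ) * I) *
      (Real.pi * Complex.cot (Real.pi * (((r : ℂ) + (s : ℂ) * I) - t))) -
      G ((r : ℂ) + (s : ℂ) * I) *
      (Real.pi * Complex.cot (Real.pi * (((r : ℂ) + (s : ℂ) * I) - 0))) =
      G ((r : ℂ) + (s : ℂ) * I) * (Real.pi * (Complex.cot (Real.pi * (((r : ℂ) + (s : ℂ) * I) - t)) -
        Complex.cot (Real.pi * (((r : ℂ) + (s : ℂ) * I) - 0)))) := by ring
    rw [e, norm_mul, norm_mul, Complex.norm_real, Real.norm_of_nonneg hpi.le]
    apply mul_le_mul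
    · apply hB
      simpa using habs
    · exact mul_le_mul_of_nonneg_left (key r) hpi.le
    · positivity
    · exact hB0)
  have e1 : |(1 / 2 : ℝ) - -(1 / 2)| = 1 := by norm_num
  rw [e1, mul_one] at hb
  exact hb

/-
ROW A4 (MEDIUM). Fourier tail: a periodic analytic function on a wide strip is nearly constant on a thin one.
Plan: percauchy at height H for t and for 0: G t - G 0 = arc H (G τ π [cot π(τ-t) - cot πτ]);
|cot(πζ) ∓ i| <= 2q/(1-q) with q = exp(-2π|Im ζ|) (upper sign for Im ζ < 0: cot(πζ) = i(1+w)/(1-w), w = e^{-2πiζ}),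
|Im(τ - t)| >= H - h >= 1, so q <= exp(-2π(H-h)) <= 1/100; |arc H f| <= (1/2π)(sup lower + sup upper).
Total <= (1/2π) * 2 * B * π * 4q/(1-q) <= 8 B q.
-/
theorem fourier_tail (G : ℂ → ℂ) (h H H' B : ℝ) (h0 : 0 ≤ h) (h1 : h + 1 ≤ H) (h2 : H < H')
    (hG : DifferentiableOn ℂ G (St H')) (hp : ∀ t ∈ St H', G (t + 1) = G t)
    (hB : ∀ t : ℂ, |t.im| = H → ‖G t‖ ≤ B) (t : ℂ) (ht : |t.im| ≤ h) :
    ‖G t - G 0‖ ≤ 8 * B * Real.exp (-(2 * Real.pi * (H - h))) := by
  have hH : 1 ≤ H := by linarith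
  have hpi := Real.pi_pos
  have htS : t ∈ St H := by
    show |t.im| < H
    linarith
  have h0S : (0 : ℂ) ∈ St H := by
    show |(0 : ℂ).im| < H
    simp
    linarith
  have p1 := percauchy G H H' (by linarith) h2 hG hp t htS
  have p2 := percauchy G H H' (by linarith) h2 hG hp 0 h0S
  have hB0 : 0 ≤ B := by
    have := hB ((H : ℂ) * I) (by simp; linarith)
    exact (norm_nonneg _).trans this
  have lo := line_bound G h H H' B (-H) h0 h1 h2 hG hB t ht (Or.inr rfl)
  have up := line_bound G h H H' B H h0 h1 h2 hG hB t ht (Or.inl rfl)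
  set q := Real.exp (-(2 * (Real.pi * (H - h)))) with hq
  have hq0 : 0 < q := Real.exp_pos _
  have hq1 : q ≤ 1 / 2 := by
    have h3 : q ≤ Real.exp (-1) := by
      apply Real.exp_le_exp.mpr
      have : (3 : ℝ) ≤ Real.pi := Real.pi_gt_three.le
      nlinarith
    have h4 := Real.exp_neg_one_lt_d9
    linarith
  rw [← p1, ← p2]
  unfold arc
  rw [← mul_sub]
  have conv : ∀ f : ℂ → ℂ, (∫ r in (-(1 / 2) : ℝ)..(1 / 2), f ((r : ℂ) - (H : ℂ) * I)) =
      ∫ r in (-(1 / 2) : ℝ)..(1 / 2), f ((r : ℂ) + ((-H : ℝ) : ℂ) * I) := by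
    intro f
    congr 1
    funext r
    congr 1
    push_cast
    ring
  rw [conv (fun τ => G τ * (Real.pi * Complex.cot (Real.pi * (τ - t)))),
    conv (fun τ => G τ * (Real.pi * Complex.cot (Real.pi * (τ - 0))))]
  have e : ∀ a b c d : ℂ, (a - b) - (c - d) = (a - c) - (b - d) := by
    intro a b c d
    ring
  rw [e, norm_mul]
  have n1 : ‖(1 / (2 * (Real.pi : ℂ) * I))‖ = 1 / (2 * Real.pi) := by
    rw [norm_div, norm_mul, norm_mul, Complex.norm_I, Complex.norm_real, Real.norm_of_nonneg hpi.le]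
    simp
  rw [n1]
  have n2 := (norm_sub_le _ _).trans (add_le_add lo up)
  have e3 : Real.exp (-(2 * Real.pi * (H - h))) = q := by
    rw [hq]
    congr 1
    ring
  rw [e3]
  calc _ ≤ 1 / (2 * Real.pi) * (B * (Real.pi * (2 * (2 * q / (1 - q)))) +
        B * (Real.pi * (2 * (2 * q / (1 - q))))) := by
        apply mul_le_mul_of_nonneg_left n2
        positivity
    _ = 4 * B * (q / (1 - q)) := by
        field_simp
        ring
    _ ≤ 4 * B * (2 * q) := by
        apply mul_le_mul_of_nonneg_left _ (by positivity)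
        rw [div_le_iff₀ (by linarith)]
        nlinarith
    _ = 8 * B * q := by ring

end LibEY38
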