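import Pool.Agent.LibEY38.Defs

open Complex Set Filter Topology MeasureTheory
open scoped ComplexConjugate

namespace LibEY38

private theorem B0_cosb (x : ℝ) (hx : |x| ≤ 1) :
    1 - x ^ 2 / 2 - |x| ^ 4 * (5 / 96) ≤ Real.cos x ∧
      Real.cos x ≤ 1 - x ^ 2 / 2 + |x| ^ 4 * (5 / 96) := by
  have h := abs_le.mp (Real.cos_bound hx)
  constructor <;> linarith [h.1, h.2]

private theorem B0_c1 : 3 / 5 < Real.cos (9 / 10) := by
  have h1 : (9 / 10 : ℝ) = 2 * (9 / 20) := by norm_num
  have h2 := (B0_cosb (9 / 20) (by rw [abs_of_pos (by norm_num)]; norm_num)).1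
  rw [abs_of_pos (by norm_num : (0 : ℝ) < 9 / 20)] at h2
  have h3 : (0.8966 : ℝ) ≤ Real.cos (9 / 20) := by
    refine le_trans ?_ h2
    norm_num
  rw [h1, Real.cos_two_mul]
  nlinarith [h3]

private theorem B0_c2 : Real.cos (19 / 20) < 3 / 5 := by
  have h1 : (19 / 20 : ℝ) = 2 * (19 / 40) := by norm_num
  have h2 := (B0_cosb (19 / 40) (by rw [abs_of_pos (by norm_num)]; norm_num)).2
  rw [abs_of_pos (by norm_num : (0 : ℝ) < 19 / 40)] at h2
  have h3 : Real.cos (19 / 40) ≤ (0.8899 : ℝ) := by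
    refine le_trans h2 ?_
    norm_num
  have h4 : 0 ≤ Real.cos (19 / 40) := by
    have h5 := (B0_cosb (19 / 40) (by rw [abs_of_pos (by norm_num)]; norm_num)).1
    rw [abs_of_pos (by norm_num : (0 : ℝ) < 19 / 40)] at h5
    refine le_trans ?_ h5
    norm_num
  rw [h1, Real.cos_two_mul]
  nlinarith [h3, h4]

private theorem B0_sinh1 : Real.sinh (39 / 200) < 1 / 5 := by
  have h1 : Real.exp (39 / 200) ≤ 1.2157 := by
    have h := Real.exp_bound' (x := 39 / 200) (by norm_num) (by norm_num) (n := 3) (by norm_num)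
    refine le_trans h ?_
    simp only [Finset.sum_range_succ, Finset.sum_range_zero, Nat.factorial]
    norm_num
  have h0 : 0 < Real.exp (39 / 200) := Real.exp_pos _
  have h2 : 0.8225 ≤ Real.exp (-(39 / 200)) := by
    rw [Real.exp_neg, le_inv_comm₀ (by norm_num) h0]
    refine le_trans h1 ?_
    norm_num
  rw [Real.sinh_eq]
  linarith

private theorem B0_half : lam / 2 = Real.arsinh (1 / 5) := by
  unfold lam
  ring

private theorem B0_kap : kap + 1 / kap = 2 * Real.cosh lam := by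
  unfold kap
  rw [Real.cosh_eq, one_div, ← Real.exp_neg]
  ring

private theorem B0_cosh : Real.cosh lam = 27 / 25 := by
  have h1 : lam = 2 * (lam / 2) := by ring
  rw [h1, Real.cosh_two_mul, Real.cosh_sq, B0_half, Real.sinh_arsinh]
  norm_num

private theorem B0_lam1 : 39 / 100 < lam := by
  have h : 39 / 200 < Real.arsinh (1 / 5) := by
    rw [← Real.sinh_lt_sinh, Real.sinh_arsinh]
    exact B0_sinh1
  have h2 := B0_half
  linarith

private theorem B0_lam2 : lam < 2 / 5 := by
  have h : Real.arsinh (1 / 5) < 1 / 5 := by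
    rw [← Real.sinh_lt_sinh, Real.sinh_arsinh]
    exact Real.self_lt_sinh_iff.mpr (by norm_num)
  have h2 := B0_half
  linarith

/-
ROW B0 (SHORT, only Mathlib). Numbers.
sinh(lam/2) = 1/5 (Real.sinh_arsinh); cosh lam = 1 + 2 sinh^2(lam/2) = 27/25; kap + 1/kap = 2 cosh lam = 54/25; monotonicity of sinh:
sinh(39/200) < 1/5 < sinh(1/5); kap < 149/100 because x + 1/x is increasing for x > 1 and 149/100 + 100/149 > 54/25.
cos(9/10) > 3/5 > cos(19/20) (Real.cos_bound / cos series), sin aa = sqrt(1-9/25) = 4/5.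
-/
theorem numbers : 39 / 100 < lam ∧ lam < 2 / 5 ∧ 1 < kap ∧ kap < 149 / 100 ∧ kap + 1 / kap = 54 / 25 ∧
    Real.cosh lam = 27 / 25 ∧ Real.sinh (lam / 2) = 1 / 5 ∧ Real.cos aa = 3 / 5 ∧ Real.sin aa = 4 / 5 ∧
    9 / 10 < aa ∧ aa < 19 / 20 := by
  have hl1 := B0_lam1
  have hl2 := B0_lam2
  have hk1 : 1 < kap := by
    unfold kap
    rw [← Real.exp_zero]
    exact Real.exp_lt_exp.mpr (by linarith)
  have hk0 : 0 < kap := by linarith
  have hks : kap + 1 / kap = 54 / 25 := by
    rw [B0_kap, B0_cosh]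
    norm_num
  have hk2 : kap < 149 / 100 := by
    have h1 : kap * kap + 1 = 54 / 25 * kap := by
      have h2 : kap * (kap + 1 / kap) = kap * kap + 1 := by
        rw [mul_add, mul_one_div_cancel hk0.ne']
      rw [← h2, hks]
      ring
    by_contra hcon
    push Not at hcon
    nlinarith [hcon, hk1]
  have hcos : Real.cos aa = 3 / 5 := by
    unfold aa
    exact Real.cos_arccos (by norm_num) (by norm_num)
  have hsin : Real.sin aa = 4 / 5 := by
    unfold aa
    rw [Real.sin_arccos]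
    have h1 : (1 : ℝ) - (3 / 5) ^ 2 = (4 / 5) ^ 2 := by norm_num
    rw [h1, Real.sqrt_sq (by norm_num)]
  have hpi := Real.pi_gt_three
  have haa0 : 0 ≤ aa := Real.arccos_nonneg _
  have haa1 : aa ≤ Real.pi := Real.arccos_le_pi _
  have h9 : 9 / 10 < aa := by
    by_contra hcon
    push Not at hcon
    have h := Real.cos_le_cos_of_nonneg_of_le_pi haa0 (by linarith : (9 / 10 : ℝ) ≤ Real.pi) hcon
    rw [hcos] at h
    linarith [B0_c1]
  have h19 : aa < 19 / 20 := by
    by_contra hcon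
    push Not at hcon
    have h := Real.cos_le_cos_of_nonneg_of_le_pi (by norm_num : (0 : ℝ) ≤ 19 / 20) haa1 hcon
    rw [hcos] at h
    linarith [B0_c2]
  refine ⟨hl1, hl2, hk1, hk2, hks, B0_cosh, ?_, hcos, hsin, h9, h19⟩
  rw [B0_half, Real.sinh_arsinh]

end LibEY38
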