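import Pool.Agent.LibEY38.Defs
import Pool.Agent.LibEY38.B0

open Complex Set Filter Topology MeasureTheory
open scoped ComplexConjugate

namespace LibEY38

private theorem B1_sq {y : ℝ} (hy : |y| ≤ 7 / 10) : Real.sin y ^ 2 ≤ 1 / 2 := by
  have hpi := Real.pi_gt_three
  have h1 : 0 ≤ Real.cos (2 * y) := by
    have := abs_le.1 hy
    refine Real.cos_nonneg_of_neg_pi_div_two_le_of_le ?_ ?_ <;> linarith [this.1, this.2]
  rw [Real.cos_two_mul] at h1
  nlinarith [Real.sin_sq_add_cos_sq y]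

private theorem B1_dec (t : ℂ) : (lam : ℂ) * t / 2 =
    ((lam * t.re / 2 : ℝ) : ℂ) + ((lam * t.im / 2 : ℝ) : ℂ) * I := by
  apply Complex.ext
  · simp
  · simp

private theorem B1_cosh (x y : ℝ) : ‖Complex.cosh ((x : ℂ) + (y : ℂ) * I)‖ ^ 2 =
    Real.cosh x ^ 2 - Real.sin y ^ 2 := by
  have h : Complex.cosh ((x : ℂ) + (y : ℂ) * I) =
      ((Real.cosh x * Real.cos y : ℝ) : ℂ) + ((Real.sinh x * Real.sin y : ℝ) : ℂ) * I := by
    rw [Complex.cosh_add, Complex.cosh_mul_I, Complex.sinh_mul_I]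
    push_cast
    ring
  rw [h, ← Complex.normSq_eq_norm_sq, Complex.normSq_add_mul_I]
  nlinarith [Real.sin_sq_add_cos_sq y, Real.cosh_sq x]

private theorem B1_sinh (x y : ℝ) : ‖Complex.sinh ((x : ℂ) + (y : ℂ) * I)‖ ^ 2 =
    Real.cosh x ^ 2 - Real.cos y ^ 2 := by
  have h : Complex.sinh ((x : ℂ) + (y : ℂ) * I) =
      ((Real.sinh x * Real.cos y : ℝ) : ℂ) + ((Real.cosh x * Real.sin y : ℝ) : ℂ) * I := by
    rw [Complex.sinh_add, Complex.cosh_mul_I, Complex.sinh_mul_I]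
    push_cast
    ring
  rw [h, ← Complex.normSq_eq_norm_sq, Complex.normSq_add_mul_I]
  nlinarith [Real.sin_sq_add_cos_sq y, Real.cosh_sq x]

private theorem B1_im {t : ℂ} (ht : t ∈ St (7 / 2)) : |lam * t.im / 2| ≤ 7 / 10 := by
  obtain ⟨h1, h2, -⟩ := numbers
  have h3 : |t.im| < 7 / 2 := ht
  have h4 : 0 ≤ |t.im| := abs_nonneg _
  rw [abs_div, abs_mul, abs_of_pos (by linarith : (0 : ℝ) < lam), abs_of_pos (by norm_num : (0 : ℝ) < 2)]
  nlinarith

private theorem B1_ne {z : ℂ} (hz : ‖z‖ ≤ 1 / 2) : 1 + z * I ≠ 0 ∧ 1 - z * I ≠ 0 ∧ 1 + z ^ 2 ≠ 0 := by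
  have h0 : ‖z * I‖ ≤ 1 / 2 := by rw [norm_mul, Complex.norm_I, mul_one]; exact hz
  have h1 : 1 + z * I ≠ 0 := by
    intro h
    have h2 : z * I = -1 := by linear_combination h
    rw [h2, norm_neg, norm_one] at h0
    norm_num at h0
  have h2 : 1 - z * I ≠ 0 := by
    intro h
    have h2 : z * I = 1 := by linear_combination -h
    rw [h2, norm_one] at h0
    norm_num at h0
  refine ⟨h1, h2, ?_⟩
  have h3 : 1 + z ^ 2 = (1 + z * I) * (1 - z * I) := by
    have := Complex.I_sq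
    linear_combination z ^ 2 * this
  rw [h3]
  exact mul_ne_zero h1 h2

private theorem B1_slit {z : ℂ} (hz : ‖z‖ ≤ 1 / 2) :
    (1 + z * I) / (1 - z * I) ∈ Complex.slitPlane := by
  obtain ⟨-, h2, -⟩ := B1_ne hz
  have h0 : ‖z * I‖ ≤ 1 / 2 := by rw [norm_mul, Complex.norm_I, mul_one]; exact hz
  set w := z * I with hw
  have h3 : w.re ^ 2 + w.im ^ 2 ≤ 1 / 4 := by
    have h4 : Complex.normSq w = ‖w‖ ^ 2 := Complex.normSq_eq_norm_sq w
    rw [Complex.normSq_apply] at h4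
    nlinarith [norm_nonneg w]
  rw [Complex.mem_slitPlane_iff]
  left
  rw [Complex.div_re, ← add_div]
  refine div_pos ?_ (Complex.normSq_pos.2 h2)
  simp only [Complex.add_re, Complex.sub_re, Complex.one_re, Complex.add_im, Complex.sub_im,
    Complex.one_im]
  nlinarith

private theorem B1_arctan {z : ℂ} (hz : ‖z‖ ≤ 1 / 2) :
    HasDerivAt Complex.arctan (1 / (1 + z ^ 2)) z := by
  obtain ⟨h1, h2, h3⟩ := B1_ne hz
  have e1 : HasDerivAt (fun z : ℂ => 1 + z * I) I z := by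
    simpa using ((hasDerivAt_id z).mul_const I).const_add 1
  have e2 : HasDerivAt (fun z : ℂ => 1 - z * I) (-I) z := by
    simpa using ((hasDerivAt_id z).mul_const I).const_sub 1
  have e3 := ((e1.div e2 h2).clog (B1_slit hz)).const_mul (-I / 2)
  have e4 : HasDerivAt Complex.arctan (-I / 2 * ((I * (1 - z * I) - (1 + z * I) * -I) /
      (1 - z * I) ^ 2 / ((1 + z * I) / (1 - z * I)))) z := e3
  convert e4 using 1
  have h4 : 1 + z ^ 2 = (1 + z * I) * (1 - z * I) := by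
    have := Complex.I_sq
    linear_combination z ^ 2 * this
  have h5 : (I * (1 - z * I) - (1 + z * I) * -I) / (1 - z * I) ^ 2 / ((1 + z * I) / (1 - z * I)) =
      2 * I / ((1 + z * I) * (1 - z * I)) := by
    field_simp
    ring
  rw [h5, h4]
  have := Complex.I_sq
  field_simp
  linear_combination this

private theorem B1_exp {z : ℂ} (hz : ‖z‖ ≤ 1 / 2) :
    Complex.exp (2 * Complex.arctan z * I) = (1 + z * I) / (1 - z * I) := by
  obtain ⟨h1, h2, h3⟩ := B1_ne hz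
  have h4 : 2 * Complex.arctan z * I = Complex.log ((1 + z * I) / (1 - z * I)) := by
    unfold Complex.arctan
    have := Complex.I_sq
    linear_combination (-Complex.log ((1 + z * I) / (1 - z * I))) * this
  rw [h4, Complex.exp_log (div_ne_zero h1 h2)]

private theorem B1_cs {z : ℂ} (hz : ‖z‖ ≤ 1 / 2) :
    Complex.cos (2 * Complex.arctan z) * (1 + z ^ 2) = 1 - z ^ 2 ∧
    Complex.sin (2 * Complex.arctan z) * (1 + z ^ 2) = 2 * z := by
  obtain ⟨h1, h2, h3⟩ := B1_ne hz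
  have hI := Complex.I_sq
  have h4 : 1 + z ^ 2 = (1 + z * I) * (1 - z * I) := by
    linear_combination z ^ 2 * hI
  have e1 := B1_exp hz
  have e2 : Complex.exp (-(2 * Complex.arctan z) * I) = (1 - z * I) / (1 + z * I) := by
    rw [neg_mul, Complex.exp_neg, e1, inv_div]
  constructor
  · rw [Complex.cos, e1, e2, h4]
    field_simp
    linear_combination (2 * z ^ 2) * hI
  · rw [Complex.sin, e1, e2, h4]
    field_simp
    linear_combination (-4 * z) * hI

private theorem B1_Z {t : ℂ} (hc : Complex.cosh (lam * t / 2) ≠ 0) :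
    HasDerivAt (fun t : ℂ => Complex.tanh (lam * t / 2) / 2)
      (lam / (4 * Complex.cosh (lam * t / 2) ^ 2)) t := by
  have e0 : HasDerivAt (fun t : ℂ => (lam : ℂ) * t / 2) ((lam : ℂ) / 2) t := by
    simpa using ((hasDerivAt_id t).const_mul (lam : ℂ)).div_const 2
  have e1 : HasDerivAt (fun t : ℂ => Complex.sinh (lam * t / 2) / Complex.cosh (lam * t / 2) / 2)
      ((Complex.cosh (lam * t / 2) * (lam / 2) * Complex.cosh (lam * t / 2) -
        Complex.sinh (lam * t / 2) * (Complex.sinh (lam * t / 2) * (lam / 2))) /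
        Complex.cosh (lam * t / 2) ^ 2 / 2) t :=
    ((e0.csinh).div (e0.ccosh) hc).div_const 2
  have e2 : (fun t : ℂ => Complex.tanh (lam * t / 2) / 2) =
      fun t : ℂ => Complex.sinh (lam * t / 2) / Complex.cosh (lam * t / 2) / 2 := by
    funext t
    rw [Complex.tanh_eq_sinh_div_cosh]
  rw [e2]
  convert e1 using 1
  have h := Complex.cosh_sq_sub_sinh_sq (lam * t / 2)
  field_simp
  linear_combination (-4 * (lam : ℂ)) * h

private theorem B1_open : IsOpen (St (7 / 2)) :=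
  isOpen_lt (continuous_abs.comp Complex.continuous_im) continuous_const

/-
ROW B1 (MEDIUM). tanh on the strip St (7/2) and the reference link.
Write lam t/2 = x + iy, |y| < (2/5)(7/2)/2 = 7/10 < π/4. |cosh|^2 = sinh^2 x + cos^2 y, |sinh|^2 = sinh^2 x + sin^2 y <= |cosh|^2
(cos^2 y >= 1/2 >= sin^2 y). So ‖tanh‖ <= 1, z = tanh/2 has ‖z‖ <= 1/2, 1 ± z I has positive real part, Complex.arctan is
differentiable there (Complex.hasDerivAt_arctan or from the log formula) with derivative 1/(1+z^2).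
(b) deriv X0 t = 2 z'/(1+z^2), z' = (lam/4)(1 - tanh^2) = lam (1/4 - z^2); and cos (2 arctan z) = (1-z^2)/(1+z^2), so
cc (X0 t) = (8/5)(1/4 - z^2)/(1+z^2): deriv X0 = (5 lam/4) cc(X0). Also sin(2 arctan z) = 2z/(1+z^2).
(c) 1/4 - z^2 = 1/(4 cosh^2(lam t/2)).
-/
theorem tanh_strip (t : ℂ) (ht : t ∈ St (7 / 2)) :
    Complex.cosh (lam * t / 2) ≠ 0 ∧ ‖Complex.tanh (lam * t / 2)‖ ≤ 1 ∧
    Real.cosh (lam * t.re / 2) ^ 2 / 2 ≤ ‖Complex.cosh (lam * t / 2)‖ ^ 2 ∧
    ‖Complex.cosh (lam * t / 2)‖ ^ 2 ≤ Real.cosh (lam * t.re / 2) ^ 2 := by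
  have hy := B1_im ht
  have hs := B1_sq hy
  set x : ℝ := lam * t.re / 2 with hx
  set y : ℝ := lam * t.im / 2 with hyd
  have hw : (lam : ℂ) * t / 2 = (x : ℂ) + (y : ℂ) * I := B1_dec t
  have hc := B1_cosh x y
  have hsn := B1_sinh x y
  have h1 : 1 ≤ Real.cosh x := Real.one_le_cosh x
  have h2 := Real.sin_sq_add_cos_sq y
  rw [hw]
  have hpos : 0 < ‖Complex.cosh ((x : ℂ) + (y : ℂ) * I)‖ ^ 2 := by
    rw [hc]; nlinarith
  have hne : Complex.cosh ((x : ℂ) + (y : ℂ) * I) ≠ 0 := by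
    intro h
    rw [h, norm_zero] at hpos
    norm_num at hpos
  refine ⟨hne, ?_, ?_, ?_⟩
  · rw [Complex.tanh_eq_sinh_div_cosh, norm_div, div_le_one (norm_pos_iff.2 hne)]
    refine le_of_sq_le_sq ?_ (norm_nonneg _)
    rw [hc, hsn]
    linarith
  · rw [hc]; nlinarith
  · rw [hc]; nlinarith [sq_nonneg (Real.sin y)]

theorem X0_ode : DifferentiableOn ℂ X0 (St (7 / 2)) ∧
    (∀ t ∈ St (7 / 2), deriv X0 t = (5 * lam / 4) * cc (X0 t)) ∧
    (∀ t ∈ St (7 / 2), deriv (deriv X0) t = -((5 * lam / 4) * Complex.sin (X0 t) * deriv X0 t)) ∧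
    (∀ t ∈ St (7 / 2), deriv X0 t * (1 + (Complex.tanh (lam * t / 2) / 2) ^ 2) =
      lam / (2 * Complex.cosh (lam * t / 2) ^ 2)) ∧
    (∀ t ∈ St (7 / 2), Complex.cos (X0 t) * (1 + (Complex.tanh (lam * t / 2) / 2) ^ 2) =
      1 - (Complex.tanh (lam * t / 2) / 2) ^ 2) ∧
    (∀ t ∈ St (7 / 2), Complex.sin (X0 t) * (1 + (Complex.tanh (lam * t / 2) / 2) ^ 2) =
      Complex.tanh (lam * t / 2)) := by
  have hz : ∀ t ∈ St (7 / 2), ‖Complex.tanh (lam * t / 2) / 2‖ ≤ 1 / 2 := fun t ht => by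
    rw [norm_div, Complex.norm_ofNat]
    have := (tanh_strip t ht).2.1
    linarith
  have hD : ∀ t ∈ St (7 / 2), HasDerivAt X0
      (2 * (1 / (1 + (Complex.tanh (lam * t / 2) / 2) ^ 2) *
        (lam / (4 * Complex.cosh (lam * t / 2) ^ 2)))) t := fun t ht => by
    have e := HasDerivAt.comp (h₂ := Complex.arctan)
      (h := fun t : ℂ => Complex.tanh (lam * t / 2) / 2) t (B1_arctan (hz t ht))
      (B1_Z (tanh_strip t ht).1)
    exact e.const_mul 2
  have hden : ∀ t ∈ St (7 / 2), 1 + (Complex.tanh (lam * t / 2) / 2) ^ 2 ≠ 0 := fun t ht =>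
    (B1_ne (hz t ht)).2.2
  have h4 : ∀ t ∈ St (7 / 2), deriv X0 t * (1 + (Complex.tanh (lam * t / 2) / 2) ^ 2) =
      lam / (2 * Complex.cosh (lam * t / 2) ^ 2) := fun t ht => by
    rw [(hD t ht).deriv]
    have h1 := hden t ht
    have h2 := (tanh_strip t ht).1
    generalize 1 + (Complex.tanh (lam * t / 2) / 2) ^ 2 = A at h1 ⊢
    field_simp
    ring
  have h5 : ∀ t ∈ St (7 / 2), Complex.cos (X0 t) * (1 + (Complex.tanh (lam * t / 2) / 2) ^ 2) =
      1 - (Complex.tanh (lam * t / 2) / 2) ^ 2 := fun t ht => (B1_cs (hz t ht)).1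
  have h6 : ∀ t ∈ St (7 / 2), Complex.sin (X0 t) * (1 + (Complex.tanh (lam * t / 2) / 2) ^ 2) =
      Complex.tanh (lam * t / 2) := fun t ht => by
    have := (B1_cs (hz t ht)).2
    rw [show (2 : ℂ) * (Complex.tanh (lam * t / 2) / 2) = Complex.tanh (lam * t / 2) by ring] at this
    exact this
  have h2 : ∀ t ∈ St (7 / 2), deriv X0 t = (5 * lam / 4) * cc (X0 t) := fun t ht => by
    have e1 := hden t ht
    have e2 := (tanh_strip t ht).1
    have e3 : lam / (2 * Complex.cosh (lam * t / 2) ^ 2) =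
        2 * lam * (1 / 4 - (Complex.tanh (lam * t / 2) / 2) ^ 2) := by
      have h := Complex.cosh_sq_sub_sinh_sq (lam * t / 2)
      rw [Complex.tanh_eq_sinh_div_cosh]
      field_simp
      linear_combination (-4 * (lam : ℂ)) * h
    refine mul_right_cancel₀ e1 ?_
    rw [h4 t ht, e3]
    unfold cc
    linear_combination (-(5 * (lam : ℂ) / 4)) * h5 t ht
  refine ⟨fun t ht => (hD t ht).differentiableAt.differentiableWithinAt, h2, ?_, h4, h5, h6⟩
  intro t ht
  have e1 : deriv X0 =ᶠ[𝓝 t] fun t => (5 * lam / 4) * cc (X0 t) :=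
    Filter.eventually_of_mem (B1_open.mem_nhds ht) h2
  rw [e1.deriv_eq]
  have e2 : HasDerivAt X0 (deriv X0 t) t := (hD t ht).differentiableAt.hasDerivAt
  have e3 : HasDerivAt (fun t : ℂ => (5 * (lam : ℂ) / 4) * cc (X0 t))
      ((5 * (lam : ℂ) / 4) * (-Complex.sin (X0 t) * deriv X0 t)) t :=
    ((e2.ccos).sub_const (3 / 5)).const_mul _
  rw [e3.deriv]
  ring

end LibEY38
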