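import Pool.Agent.LibEY38.Defs
import Pool.Agent.LibEY38.B0
import Pool.Agent.LibEY38.B1

open Complex Set Filter Topology MeasureTheory
open scoped ComplexConjugate

namespace LibEY38

/-
ROW B2 (MEDIUM). Bounds of the reference link on St (7/2). True values (numerics): |X0'|/wt in [.199,.636],
|X0''|/wt <= .257, |X0| <= .928, |X0 - a|/wt <= 1.6, |cc(X0)|/wt in [.4,1.28].
From B1: |1+z^2| in [3/4,5/4]; cosh^2(lam r/2) between wt^{-1}/4 and wt^{-1}. X0 -> aa as Re t -> oo: X0 t - aa = -∫_0^oo X0'(t+s) ds,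
or directly: tan of half angles; tanh -> 1 and 2 arctan(1/2) = aa. |X0| <= 2 artanh(1/2) < 6/5.
-/

private theorem b2_cosh (X Y : ℝ) : Complex.cosh ((X : ℂ) + Y * I) =
    ((Real.cosh X * Real.cos Y : ℝ) : ℂ) + ((Real.sinh X * Real.sin Y : ℝ) : ℂ) * I := by
  rw [Complex.cosh_add, Complex.cosh_mul_I, Complex.sinh_mul_I]
  push_cast
  ring

private theorem b2_sinh (X Y : ℝ) : Complex.sinh ((X : ℂ) + Y * I) =
    ((Real.sinh X * Real.cos Y : ℝ) : ℂ) + ((Real.cosh X * Real.sin Y : ℝ) : ℂ) * I := by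
  rw [Complex.sinh_add, Complex.cosh_mul_I, Complex.sinh_mul_I]
  push_cast
  ring

private theorem b2_C2 (X Y : ℝ) : ‖Complex.cosh ((X : ℂ) + Y * I)‖ ^ 2 =
    Real.cosh X ^ 2 - Real.sin Y ^ 2 := by
  rw [b2_cosh, Complex.sq_norm, Complex.normSq_add_mul_I]
  have h1 := Real.cosh_sq X
  have h2 := Real.sin_sq_add_cos_sq Y
  have h3 : Real.cos Y ^ 2 = 1 - Real.sin Y ^ 2 := by linarith
  have h4 : Real.sinh X ^ 2 = Real.cosh X ^ 2 - 1 := by linarith
  rw [mul_pow, mul_pow, h3, h4]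
  ring

private theorem b2_arg (t : ℂ) : (lam : ℂ) * t / 2 =
    ((lam * t.re / 2 : ℝ) : ℂ) + ((lam * t.im / 2 : ℝ) : ℂ) * I := by
  conv_lhs => rw [← Complex.re_add_im t]
  push_cast
  ring

private theorem b2_sin2 (t : ℂ) (ht : t ∈ St (7 / 2)) : Real.sin (lam * t.im / 2) ^ 2 ≤ 1 / 2 := by
  obtain ⟨h1, h2, -⟩ := numbers
  have h3 : |t.im| < 7 / 2 := ht
  have h4 := abs_lt.mp h3
  have h5 : 0 ≤ Real.cos (2 * (lam * t.im / 2)) := by
    apply Real.cos_nonneg_of_mem_Icc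
    constructor
    · nlinarith [Real.pi_gt_three]
    · nlinarith [Real.pi_gt_three]
  have h6 := Real.cos_two_mul (lam * t.im / 2)
  have h7 := Real.sin_sq_add_cos_sq (lam * t.im / 2)
  linarith

private theorem b2_N (t : ℂ) (ht : t ∈ St (7 / 2)) :
    1 / 4 ≤ ‖Complex.cosh (lam * t / 2)‖ ^ 2 * wt t ∧ ‖Complex.cosh (lam * t / 2)‖ ^ 2 * wt t ≤ 1 := by
  obtain ⟨h1, h2, -⟩ := numbers
  have hs := b2_sin2 t ht
  have hs0 := sq_nonneg (Real.sin (lam * t.im / 2))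
  have hC := b2_C2 (lam * t.re / 2) (lam * t.im / 2)
  rw [← b2_arg t] at hC
  rw [hC]
  have h3 : |lam * t.re| = lam * |t.re| := by
    rw [abs_mul, abs_of_pos (by linarith)]
  have h4 : Real.cosh (lam * t.re) = 2 * Real.cosh (lam * t.re / 2) ^ 2 - 1 := by
    have e1 := Real.cosh_two_mul (lam * t.re / 2)
    have e2 := Real.cosh_sq (lam * t.re / 2)
    have e3 : 2 * (lam * t.re / 2) = lam * t.re := by ring
    rw [e3] at e1
    linarith
  have h5 : Real.cosh (lam * t.re) = (Real.exp (lam * |t.re|) + Real.exp (-(lam * |t.re|))) / 2 := by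
    rw [← Real.cosh_abs, h3, Real.cosh_eq]
  have hE : Real.exp (lam * |t.re|) * Real.exp (-(lam * |t.re|)) = 1 := by
    rw [← Real.exp_add]; simp
  have hE1 : 0 < Real.exp (-(lam * |t.re|)) := Real.exp_pos _
  have hE2 : 1 ≤ Real.exp (lam * |t.re|) := by
    apply Real.one_le_exp
    have := abs_nonneg t.re
    nlinarith
  have hE3 : Real.exp (-(lam * |t.re|)) ≤ 1 := by
    rw [Real.exp_le_one_iff]
    have := abs_nonneg t.re
    nlinarith
  unfold wt
  set e := Real.exp (-(lam * |t.re|)) with he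
  set E := Real.exp (lam * |t.re|) with hEE
  set S := Real.sin (lam * t.im / 2) ^ 2 with hS
  set K := Real.cosh (lam * t.re / 2) ^ 2 with hK
  have k1 : K = ((E + e) / 2 + 1) / 2 := by linarith
  constructor
  · have : E / 4 ≤ K - S := by linarith
    calc (1 : ℝ) / 4 = E / 4 * e := by rw [div_mul_eq_mul_div, hE]
      _ ≤ (K - S) * e := mul_le_mul_of_nonneg_right this hE1.le
  · have : K - S ≤ E := by linarith
    calc (K - S) * e ≤ E * e := mul_le_mul_of_nonneg_right this hE1.le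
      _ = 1 := hE

private theorem b2_z (t : ℂ) (ht : t ∈ St (7 / 2)) : ‖Complex.tanh (lam * t / 2) / 2‖ ≤ 1 / 2 := by
  have := (tanh_strip t ht).2.1
  rw [norm_div]
  simp only [Complex.norm_ofNat]
  linarith

private theorem b2_w (z : ℂ) (hz : ‖z‖ ≤ 1 / 2) : 3 / 4 ≤ ‖1 + z ^ 2‖ ∧ ‖1 + z ^ 2‖ ≤ 5 / 4 := by
  have h0 := norm_nonneg z
  have h1 : ‖z ^ 2‖ ≤ 1 / 4 := by
    rw [norm_pow]
    nlinarith
  constructor
  · have h2 : ‖(1 : ℂ)‖ ≤ ‖1 + z ^ 2‖ + ‖z ^ 2‖ := by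
      have := norm_sub_le (1 + z ^ 2) (z ^ 2)
      simpa using this
    rw [norm_one] at h2
    linarith
  · have h2 := norm_add_le (1 : ℂ) (z ^ 2)
    rw [norm_one] at h2
    linarith

private theorem b2_u (z : ℂ) (hz : ‖z‖ < 1) : (1 + z * I) / (1 - z * I) ∈ Complex.slitPlane ∧
    1 - z * I ≠ 0 ∧ 1 + z * I ≠ 0 := by
  have hn : z.re ^ 2 + z.im ^ 2 < 1 := by
    have h1 : ‖z‖ ^ 2 < 1 := by nlinarith [norm_nonneg z]
    rw [Complex.sq_norm, Complex.normSq_apply] at h1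
    nlinarith
  have h2 : 1 - z * I ≠ 0 := by
    intro h
    have := congrArg Complex.re h
    simp at this
    nlinarith
  have h3 : 1 + z * I ≠ 0 := by
    intro h
    have := congrArg Complex.re h
    simp at this
    nlinarith
  refine ⟨?_, h2, h3⟩
  rw [Complex.mem_slitPlane_iff]
  left
  rw [Complex.div_re]
  have h4 : 0 < Complex.normSq (1 - z * I) := Complex.normSq_pos.mpr h2
  rw [← add_div]
  apply div_pos _ h4
  simp
  nlinarith

private theorem b2_deriv (z : ℂ) (hz : ‖z‖ < 1) : HasDerivAt Complex.arctan (1 / (1 + z ^ 2)) z := by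
  obtain ⟨h1, h2, h3⟩ := b2_u z hz
  have d1 : HasDerivAt (fun w : ℂ => 1 + w * I) I z := by
    have := ((hasDerivAt_id z).mul_const I).const_add 1
    simpa using this
  have d2 : HasDerivAt (fun w : ℂ => 1 - w * I) (-I) z := by
    have := ((hasDerivAt_id z).mul_const I).const_sub 1
    simpa using this
  have d3 := d1.div d2 h2
  have d4 := (d3.clog h1).const_mul (-I / 2)
  have d5 : HasDerivAt Complex.arctan (-I / 2 * ((I * (1 - z * I) - (1 + z * I) * -I) /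
      (1 - z * I) ^ 2 / ((1 + z * I) / (1 - z * I)))) z := d4
  refine d5.congr_deriv ?_
  have e1 : I * (1 - z * I) - (1 + z * I) * -I = 2 * I := by ring
  have e2 : 1 + z ^ 2 = (1 + z * I) * (1 - z * I) := by
    linear_combination z ^ 2 * Complex.I_sq
  have e3 : -I / 2 * (2 * I / (1 - z * I) ^ 2 / ((1 + z * I) / (1 - z * I))) =
      (-(I ^ 2)) / ((1 + z * I) * (1 - z * I)) := by
    field_simp
  rw [e1, e2, e3, Complex.I_sq]
  norm_num

private theorem b2_lip (z w : ℂ) (hz : ‖z‖ ≤ 1 / 2) (hw : ‖w‖ ≤ 1 / 2) :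
    ‖Complex.arctan z - Complex.arctan w‖ ≤ 4 / 3 * ‖z - w‖ := by
  have hc : Convex ℝ (Metric.closedBall (0 : ℂ) (1 / 2)) := convex_closedBall 0 (1 / 2)
  have hd : ∀ x ∈ Metric.closedBall (0 : ℂ) (1 / 2), HasDerivWithinAt Complex.arctan
      (1 / (1 + x ^ 2)) (Metric.closedBall (0 : ℂ) (1 / 2)) x := by
    intro x hx
    have hx' : ‖x‖ ≤ 1 / 2 := by simpa using hx
    exact (b2_deriv x (by linarith)).hasDerivWithinAt
  refine hc.norm_image_sub_le_of_norm_hasDerivWithin_le hd ?_ (by simpa using hw) (by simpa using hz)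
  intro x hx
  have hx' : ‖x‖ ≤ 1 / 2 := by simpa using hx
  have h1 := (b2_w x hx').1
  rw [norm_div, norm_one, div_le_iff₀ (by linarith)]
  linarith

private theorem b2_neg (z : ℂ) (hz : ‖z‖ < 1) : Complex.arctan (-z) = -Complex.arctan z := by
  have h1 := (Complex.hasSum_arctan hz).neg
  have h2 := Complex.hasSum_arctan (z := -z) (by rwa [norm_neg])
  have h3 : (fun n : ℕ => (-1 : ℂ) ^ n * (-z) ^ (2 * n + 1) / ((2 * n + 1 : ℕ) : ℂ)) =
      fun n : ℕ => -((-1 : ℂ) ^ n * z ^ (2 * n + 1) / ((2 * n + 1 : ℕ) : ℂ)) := by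
    funext n
    have h4 : (-z) ^ (2 * n + 1) = -(z ^ (2 * n + 1)) := Odd.neg_pow ⟨n, rfl⟩ z
    rw [h4]
    ring
  rw [h3] at h2
  exact h2.unique h1

private theorem b2_oddX (t : ℂ) (ht : t ∈ St (7 / 2)) : X0 (-t) = -X0 t := by
  unfold X0
  have h1 : (lam : ℂ) * -t / 2 = -(lam * t / 2) := by ring
  rw [h1, Complex.tanh_neg, neg_div, b2_neg _ (by linarith [b2_z t ht])]
  ring

private theorem b2_norm (z : ℂ) (hz : ‖z‖ ≤ 1 / 2) : ‖Complex.arctan z‖ ≤ 5 / 9 := by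
  have hz1 : ‖z‖ < 1 := by linarith
  have h0 := norm_nonneg z
  have hs := Complex.hasSum_arctan hz1
  -- dominating series
  have hg : HasSum (fun n : ℕ => (if n = 0 then 1 / 3 else 0 : ℝ) + (1 / 6 : ℝ) * (1 / 4) ^ n)
      (1 / 3 + (1 / 6 : ℝ) * (1 - 1 / 4)⁻¹) := by
    refine HasSum.add ?_ ?_
    · exact hasSum_ite_eq 0 (1 / 3 : ℝ)
    · exact (hasSum_geometric_of_lt_one (by norm_num) (by norm_num)).mul_left _
  have hle : ∀ n : ℕ, ‖(-1 : ℂ) ^ n * z ^ (2 * n + 1) / ((2 * n + 1 : ℕ) : ℂ)‖ ≤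
      (if n = 0 then 1 / 3 else 0 : ℝ) + (1 / 6 : ℝ) * (1 / 4) ^ n := by
    intro n
    rw [norm_div, norm_mul, norm_pow, norm_pow, norm_neg, norm_one, one_pow, one_mul,
      Complex.norm_natCast]
    by_cases hn : n = 0
    · subst hn
      simp
      linarith
    · rw [if_neg hn, zero_add]
      have hn1 : 1 ≤ n := Nat.one_le_iff_ne_zero.mpr hn
      have h3 : (3 : ℝ) ≤ ((2 * n + 1 : ℕ) : ℝ) := by
        exact_mod_cast (by omega : 3 ≤ 2 * n + 1)
      have h4 : ‖z‖ ^ (2 * n + 1) ≤ (1 / 2) ^ (2 * n + 1) := pow_le_pow_left₀ h0 hz _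
      have h5 : ((1 : ℝ) / 2) ^ (2 * n + 1) = 1 / 2 * (1 / 4) ^ n := by
        rw [pow_succ, pow_mul]
        norm_num
        ring
      rw [div_le_iff₀ (by linarith)]
      have h6 : (0 : ℝ) ≤ (1 / 4) ^ n := by positivity
      rw [h5] at h4
      nlinarith
  have h := hs.norm_le_of_bounded hg hle
  norm_num at h
  linarith

private theorem b2_numbers (D W N e l : ℝ) (hW1 : 3 / 4 ≤ W) (hW2 : W ≤ 5 / 4)
    (hN1 : 1 / 4 ≤ N * e) (hN2 : N * e ≤ 1) (hl1 : 39 / 100 < l) (hl2 : l < 2 / 5) (hD : 0 ≤ D)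
    (h : D * W * (2 * N) = l) : 2 / 5 * l * e ≤ D ∧ D ≤ 8 / 3 * l * e := by
  have h1 : D * W * (2 * (N * e)) = l * e := by rw [← h]; ring
  constructor
  · have h2 : D * W * (2 * (N * e)) ≤ D * (5 / 4) * (2 * 1) := by
      apply mul_le_mul
      · exact mul_le_mul_of_nonneg_left hW2 hD
      · linarith
      · linarith
      · positivity
    linarith
  · have h2 : D * (3 / 4) * (2 * (1 / 4)) ≤ D * W * (2 * (N * e)) := by
      apply mul_le_mul
      · exact mul_le_mul_of_nonneg_left hW1 hD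
      · linarith
      · norm_num
      · exact mul_nonneg hD (by linarith)
    linarith

private theorem b2_dX (t : ℂ) (ht : t ∈ St (7 / 2)) :
    2 / 5 * lam * wt t ≤ ‖deriv X0 t‖ ∧ ‖deriv X0 t‖ ≤ 8 / 3 * lam * wt t := by
  obtain ⟨hl1, hl2, -⟩ := numbers
  have hN := b2_N t ht
  have hW := b2_w _ (b2_z t ht)
  have hC0 := (tanh_strip t ht).1
  have hode := X0_ode.2.2.2.1 t ht
  have he : 0 < wt t := Real.exp_pos _
  refine b2_numbers _ _ _ _ _ hW.1 hW.2 hN.1 hN.2 hl1 hl2 (norm_nonneg _) ?_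
  have h1 := congrArg norm hode
  rw [norm_mul, norm_div, norm_mul, norm_pow, Complex.norm_real, Real.norm_eq_abs,
    abs_of_pos (by linarith : (0 : ℝ) < lam), Complex.norm_ofNat] at h1
  rw [h1]
  have : ‖Complex.cosh (lam * t / 2)‖ ≠ 0 := norm_ne_zero_iff.mpr hC0
  field_simp

private theorem b2_aa : 2 * Complex.arctan (1 / 2) = (aa : ℂ) := by
  have h1 : Complex.arctan (1 / 2) = ((Real.arctan (1 / 2) : ℝ) : ℂ) := by
    rw [Complex.ofReal_arctan]
    norm_num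
  rw [h1]
  have h2 := Real.two_mul_arctan (x := 1 / 2) (by norm_num) (by norm_num)
  have h3 : aa = Real.arctan (4 / 3) := by
    unfold aa
    rw [Real.arccos_eq_arctan (by norm_num)]
    congr 1
    have : √(1 - (3 / 5 : ℝ) ^ 2) = 4 / 5 := by
      rw [show (1 - (3 / 5 : ℝ) ^ 2) = (4 / 5) ^ 2 by norm_num]
      exact Real.sqrt_sq (by norm_num)
    rw [this]
    norm_num
  rw [h3]
  have h4 : 2 * Real.arctan (1 / 2) = Real.arctan (4 / 3) := by
    rw [h2]
    norm_num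
  rw [← h4]
  push_cast
  ring

private theorem b2_pos (t : ℂ) (ht : t ∈ St (7 / 2)) (hr : 0 ≤ t.re) : ‖X0 t - aa‖ ≤ 6 * wt t := by
  obtain ⟨hl1, hl2, -⟩ := numbers
  have hC0 := (tanh_strip t ht).1
  have hN := b2_N t ht
  have he : 0 < wt t := Real.exp_pos _
  have h1 : X0 t - aa = 2 * (Complex.arctan (Complex.tanh (lam * t / 2) / 2) - Complex.arctan (1 / 2)) := by
    rw [← b2_aa]
    unfold X0
    ring
  have h2 := b2_lip _ (1 / 2) (b2_z t ht) (by norm_num)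
  have h3 : Complex.tanh (lam * t / 2) / 2 - 1 / 2 =
      -(Complex.exp (-(lam * t / 2)) / Complex.cosh (lam * t / 2)) / 2 := by
    rw [Complex.tanh_eq_sinh_div_cosh, ← Complex.cosh_sub_sinh]
    field_simp
    ring
  have h4 : ‖Complex.exp (-(lam * t / 2))‖ ^ 2 = wt t := by
    rw [Complex.norm_exp, ← Real.exp_nat_mul]
    unfold wt
    congr 1
    rw [abs_of_nonneg hr, b2_arg]
    simp
    ring
  have h5 : ‖Complex.tanh (lam * t / 2) / 2 - 1 / 2‖ ≤ wt t := by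
    rw [h3, norm_div, norm_neg, norm_div, Complex.norm_ofNat]
    have hC1 : 0 < ‖Complex.cosh (lam * t / 2)‖ := norm_pos_iff.mpr hC0
    rw [div_le_iff₀ (by norm_num), div_le_iff₀ hC1]
    apply le_of_sq_le_sq _ (by positivity)
    rw [h4, mul_pow, mul_pow]
    nlinarith [hN.1]
  rw [h1, norm_mul, Complex.norm_ofNat]
  linarith

theorem X0_bounds (t : ℂ) (ht : t ∈ St (7 / 2)) :
    3 / 20 * wt t ≤ ‖deriv X0 t‖ ∧ ‖deriv X0 t‖ ≤ 2 * wt t ∧ ‖deriv (deriv X0) t‖ ≤ 2 * wt t ∧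
    ‖X0 t‖ ≤ 6 / 5 ∧ (0 ≤ t.re → ‖X0 t - aa‖ ≤ 6 * wt t) ∧ (t.re ≤ 0 → ‖X0 t + aa‖ ≤ 6 * wt t) ∧
    3 / 10 * wt t ≤ ‖cc (X0 t)‖ ∧ ‖cc (X0 t)‖ ≤ 4 * wt t := by
  obtain ⟨hl1, hl2, -⟩ := numbers
  have he : 0 < wt t := Real.exp_pos _
  obtain ⟨hd1, hd2⟩ := b2_dX t ht
  have hle1 : 39 / 100 * wt t ≤ lam * wt t := mul_le_mul_of_nonneg_right hl1.le he.le
  have hle2 : lam * wt t ≤ 2 / 5 * wt t := mul_le_mul_of_nonneg_right hl2.le he.le
  have hW := b2_w _ (b2_z t ht)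
  have hT := (tanh_strip t ht).2.1
  refine ⟨by linarith, by linarith, ?_, ?_, b2_pos t ht, ?_, ?_⟩
  · -- second derivative
    have h1 := X0_ode.2.2.1 t ht
    have h2 := congrArg norm (X0_ode.2.2.2.2.2 t ht)
    rw [norm_mul] at h2
    have h3 : ‖Complex.sin (X0 t)‖ ≤ 4 / 3 := by
      have h0 := norm_nonneg (Complex.sin (X0 t))
      nlinarith [hW.1]
    rw [h1, norm_neg, norm_mul, norm_mul]
    have h4 : ‖(5 * (lam : ℂ) / 4)‖ ≤ 1 / 2 := by
      rw [norm_div, norm_mul, Complex.norm_real, Real.norm_eq_abs, abs_of_pos (by linarith : (0 : ℝ) < lam),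
        Complex.norm_ofNat, Complex.norm_ofNat]
      linarith
    have h5 : ‖(5 * (lam : ℂ) / 4)‖ * ‖Complex.sin (X0 t)‖ ≤ 1 / 2 * (4 / 3) :=
      mul_le_mul h4 h3 (norm_nonneg _) (by norm_num)
    have h6 : ‖(5 * (lam : ℂ) / 4)‖ * ‖Complex.sin (X0 t)‖ * ‖deriv X0 t‖ ≤
        1 / 2 * (4 / 3) * ‖deriv X0 t‖ := mul_le_mul_of_nonneg_right h5 (norm_nonneg _)
    linarith
  · unfold X0
    rw [norm_mul, Complex.norm_ofNat]
    have := b2_norm _ (b2_z t ht)
    linarith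
  · intro hr
    have ht' : -t ∈ St (7 / 2) := by
      have : |t.im| < 7 / 2 := ht
      change |(-t).im| < 7 / 2
      simpa using this
    have h1 := b2_pos (-t) ht' (by simpa using hr)
    rw [b2_oddX t ht] at h1
    have h2 : wt (-t) = wt t := by
      unfold wt
      simp
    rw [h2] at h1
    rw [← norm_neg]
    have h3 : -(X0 t + aa) = -X0 t - aa := by ring
    rw [h3]
    exact h1
  · have h1 := congrArg norm (X0_ode.2.1 t ht)
    rw [norm_mul, norm_div, norm_mul, Complex.norm_real, Real.norm_eq_abs, abs_of_pos (by linarith : (0 : ℝ) < lam),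
        Complex.norm_ofNat, Complex.norm_ofNat] at h1
    rw [h1] at hd1 hd2
    have h0 := norm_nonneg (cc (X0 t))
    have hl0 : 0 < lam := by linarith
    constructor
    · have h2 : lam * (2 / 5 * wt t) ≤ lam * (5 / 4 * ‖cc (X0 t)‖) := by linarith
      have h3 := le_of_mul_le_mul_left h2 hl0
      linarith
    · have h2 : lam * (5 / 4 * ‖cc (X0 t)‖) ≤ lam * (8 / 3 * wt t) := by linarith
      have h3 := le_of_mul_le_mul_left h2 hl0
      linarith

end LibEY38
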