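import Pool.Agent.LibEY38.Defs
import Pool.Agent.LibEY38.B0
import Pool.Agent.LibEY38.B1

open Complex Set Filter Topology MeasureTheory
open scoped ComplexConjugate

namespace LibEY38

/-
ROW B3 (SHORT/MEDIUM). Symmetries and separation of the reference link, heights.
sym: tanh odd, conj. Separation: 2 arctan z1 - 2 arctan z2 = 2 (z1 - z2) ∫_0^1 1/(1+z_s^2) ds, Re 1/(1+z^2) >= 4/5 for |z| <= 1/2, so
|X0 t - X0 τ| >= (8/5)|z_t - z_τ|, z_t - z_τ = (1/2) sinh(lam(t-τ)/2)/(cosh(lam t/2) cosh(lam τ/2)), |cosh(lam τ/2)| <= cosh(1/10),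
|cosh(lam t/2)| <= cosh(lam Re t/2), |sinh(x+iy)|^2 = sinh^2 x + sin^2 y, |y| <= 9/10. True minimum of the ratio: .189.
Height: for |Re τ| <= 1/2, 1/2 <= |Im τ| <= 1 one has |Im X0 τ| >= .0987 (true value). Real axis: X0 of a real number is real, increasing.
-/
private theorem b3_cosh (X Y : ℝ) : Complex.cosh ((X : ℂ) + Y * I) =
    ((Real.cosh X * Real.cos Y : ℝ) : ℂ) + ((Real.sinh X * Real.sin Y : ℝ) : ℂ) * I := by
  rw [Complex.cosh_add, Complex.cosh_mul_I, Complex.sinh_mul_I]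
  push_cast
  ring

private theorem b3_sinh (X Y : ℝ) : Complex.sinh ((X : ℂ) + Y * I) =
    ((Real.sinh X * Real.cos Y : ℝ) : ℂ) + ((Real.cosh X * Real.sin Y : ℝ) : ℂ) * I := by
  rw [Complex.sinh_add, Complex.cosh_mul_I, Complex.sinh_mul_I]
  push_cast
  ring

private theorem b3_C2 (X Y : ℝ) : ‖Complex.cosh ((X : ℂ) + Y * I)‖ ^ 2 =
    Real.cosh X ^ 2 - Real.sin Y ^ 2 := by
  rw [b3_cosh, Complex.sq_norm, Complex.normSq_add_mul_I]
  have h1 := Real.cosh_sq X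
  have h2 := Real.sin_sq_add_cos_sq Y
  have h3 : Real.cos Y ^ 2 = 1 - Real.sin Y ^ 2 := by linarith
  have h4 : Real.sinh X ^ 2 = Real.cosh X ^ 2 - 1 := by linarith
  rw [mul_pow, mul_pow, h3, h4]
  ring

private theorem b3_arg (t : ℂ) : (lam : ℂ) * t / 2 =
    ((lam * t.re / 2 : ℝ) : ℂ) + ((lam * t.im / 2 : ℝ) : ℂ) * I := by
  conv_lhs => rw [← Complex.re_add_im t]
  push_cast
  ring

private theorem b3_z (t : ℂ) (ht : t ∈ St (7 / 2)) : ‖Complex.tanh (lam * t / 2) / 2‖ ≤ 1 / 2 := by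
  have := (tanh_strip t ht).2.1
  rw [norm_div]
  simp only [Complex.norm_ofNat]
  linarith

private theorem b3_w (z : ℂ) (hz : ‖z‖ ≤ 1 / 2) : 3 / 4 ≤ ‖1 + z ^ 2‖ ∧ ‖1 + z ^ 2‖ ≤ 5 / 4 := by
  have h0 := norm_nonneg z
  have h1 : ‖z ^ 2‖ ≤ 1 / 4 := by
    rw [norm_pow]
    nlinarith
  constructor
  · have h2 : ‖(1 : ℂ)‖ ≤ ‖1 + z ^ 2‖ + ‖z ^ 2‖ := by
      have := norm_sub_le (1 + z ^ 2) (z ^ 2)
      simpa using this
    rw [norm_one] at h2
    linarith
  · have h2 := norm_add_le (1 : ℂ) (z ^ 2)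
    rw [norm_one] at h2
    linarith

private theorem b3_u (z : ℂ) (hz : ‖z‖ < 1) : (1 + z * I) / (1 - z * I) ∈ Complex.slitPlane ∧
    1 - z * I ≠ 0 ∧ 1 + z * I ≠ 0 := by
  have hn : z.re ^ 2 + z.im ^ 2 < 1 := by
    have h1 : ‖z‖ ^ 2 < 1 := by nlinarith [norm_nonneg z]
    rw [Complex.sq_norm, Complex.normSq_apply] at h1
    nlinarith
  have h2 : 1 - z * I ≠ 0 := by
    intro h
    have := congrArg Complex.re h
    simp at this
    nlinarith
  have h3 : 1 + z * I ≠ 0 := by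
    intro h
    have := congrArg Complex.re h
    simp at this
    nlinarith
  refine ⟨?_, h2, h3⟩
  rw [Complex.mem_slitPlane_iff]
  left
  rw [Complex.div_re]
  have h4 : 0 < Complex.normSq (1 - z * I) := Complex.normSq_pos.mpr h2
  rw [← add_div]
  apply div_pos _ h4
  simp
  nlinarith

private theorem b3_deriv (z : ℂ) (hz : ‖z‖ < 1) : HasDerivAt Complex.arctan (1 / (1 + z ^ 2)) z := by
  obtain ⟨h1, h2, h3⟩ := b3_u z hz
  have d1 : HasDerivAt (fun w : ℂ => 1 + w * I) I z := by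
    have := ((hasDerivAt_id z).mul_const I).const_add 1
    simpa using this
  have d2 : HasDerivAt (fun w : ℂ => 1 - w * I) (-I) z := by
    have := ((hasDerivAt_id z).mul_const I).const_sub 1
    simpa using this
  have d3 := d1.div d2 h2
  have d4 := (d3.clog h1).const_mul (-I / 2)
  have d5 : HasDerivAt Complex.arctan (-I / 2 * ((I * (1 - z * I) - (1 + z * I) * -I) /
      (1 - z * I) ^ 2 / ((1 + z * I) / (1 - z * I)))) z := d4
  refine d5.congr_deriv ?_
  have e1 : I * (1 - z * I) - (1 + z * I) * -I = 2 * I := by ring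
  have e2 : 1 + z ^ 2 = (1 + z * I) * (1 - z * I) := by
    linear_combination z ^ 2 * Complex.I_sq
  have e3 : -I / 2 * (2 * I / (1 - z * I) ^ 2 / ((1 + z * I) / (1 - z * I))) =
      (-(I ^ 2)) / ((1 + z * I) * (1 - z * I)) := by
    field_simp
  rw [e1, e2, e3, Complex.I_sq]
  norm_num

private theorem b3_neg (z : ℂ) (hz : ‖z‖ < 1) : Complex.arctan (-z) = -Complex.arctan z := by
  have h1 := (Complex.hasSum_arctan hz).neg
  have h2 := Complex.hasSum_arctan (z := -z) (by rwa [norm_neg])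
  have h3 : (fun n : ℕ => (-1 : ℂ) ^ n * (-z) ^ (2 * n + 1) / ((2 * n + 1 : ℕ) : ℂ)) =
      fun n : ℕ => -((-1 : ℂ) ^ n * z ^ (2 * n + 1) / ((2 * n + 1 : ℕ) : ℂ)) := by
    funext n
    have h4 : (-z) ^ (2 * n + 1) = -(z ^ (2 * n + 1)) := Odd.neg_pow ⟨n, rfl⟩ z
    rw [h4]
    ring
  rw [h3] at h2
  exact h2.unique h1

private theorem b3_S2 (X Y : ℝ) : ‖Complex.sinh ((X : ℂ) + Y * I)‖ ^ 2 =
    Real.sinh X ^ 2 + Real.sin Y ^ 2 := by
  rw [b3_sinh, Complex.sq_norm, Complex.normSq_add_mul_I]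
  have h1 := Real.cosh_sq X
  have h2 := Real.sin_sq_add_cos_sq Y
  have h3 : Real.cos Y ^ 2 = 1 - Real.sin Y ^ 2 := by linarith
  rw [mul_pow, mul_pow, h3, h1]
  ring

private theorem b3_conj (z : ℂ) (hz : ‖z‖ < 1) : Complex.arctan (conj z) = conj (Complex.arctan z) := by
  have h1 := (Complex.hasSum_arctan hz).map (starRingEnd ℂ) Complex.continuous_conj
  have h2 := Complex.hasSum_arctan (z := conj z) (by rwa [Complex.norm_conj])
  have h3 : (⇑(starRingEnd ℂ) ∘ fun n : ℕ => (-1 : ℂ) ^ n * z ^ (2 * n + 1) / ((2 * n + 1 : ℕ) : ℂ)) =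
      fun n : ℕ => (-1 : ℂ) ^ n * (conj z) ^ (2 * n + 1) / ((2 * n + 1 : ℕ) : ℂ) := by
    funext n
    simp only [Function.comp_apply, map_div₀, map_mul, map_pow, map_neg, map_one, map_natCast]
  rw [h3] at h1
  exact h2.unique h1

theorem X0_sym : Sym (7 / 2) X0 := by
  constructor
  · intro t ht
    unfold X0
    have h1 : (lam : ℂ) * -t / 2 = -(lam * t / 2) := by ring
    rw [h1, Complex.tanh_neg, neg_div, b3_neg _ (by linarith [b3_z t ht])]
    ring
  · intro t ht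
    unfold X0
    have hc2 : conj (2 : ℂ) = 2 := map_ofNat (starRingEnd ℂ) 2
    have h1 : (lam : ℂ) * conj t / 2 = conj ((lam : ℂ) * t / 2) := by
      rw [map_div₀, map_mul, hc2, Complex.conj_ofReal]
    have h2 : Complex.tanh (conj ((lam : ℂ) * t / 2)) / 2 = conj (Complex.tanh ((lam : ℂ) * t / 2) / 2) := by
      rw [Complex.tanh_conj, map_div₀, hc2]
    rw [h1, h2, b3_conj _ (by linarith [b3_z t ht]), map_mul, hc2]

private theorem b3_sepz (z w : ℂ) (hz : ‖z‖ ≤ 1 / 2) (hw : ‖w‖ ≤ 1 / 2) :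
    4 / 5 * ‖z - w‖ ≤ ‖Complex.arctan z - Complex.arctan w‖ := by
  have hc : Convex ℝ (Metric.closedBall (0 : ℂ) (1 / 2)) := convex_closedBall 0 (1 / 2)
  have hd : ∀ x ∈ Metric.closedBall (0 : ℂ) (1 / 2), HasDerivWithinAt
      (fun x : ℂ => Complex.arctan x - 16 / 15 * x)
      (1 / (1 + x ^ 2) - 16 / 15) (Metric.closedBall (0 : ℂ) (1 / 2)) x := by
    intro x hx
    have hx' : ‖x‖ ≤ 1 / 2 := by simpa using hx
    have h1 : HasDerivAt (fun x : ℂ => Complex.arctan x - 16 / 15 * x)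
        (1 / (1 + x ^ 2) - 16 / 15 * 1) x :=
      (b3_deriv x (by linarith)).sub ((hasDerivAt_id x).const_mul (16 / 15))
    rw [mul_one] at h1
    exact h1.hasDerivWithinAt
  have hb : ∀ x ∈ Metric.closedBall (0 : ℂ) (1 / 2), ‖1 / (1 + x ^ 2) - (16 / 15 : ℂ)‖ ≤ 4 / 15 := by
    intro x hx
    have hx' : ‖x‖ ≤ 1 / 2 := by simpa using hx
    have h1 := (b3_w x hx').1
    have h0 : 1 + x ^ 2 ≠ 0 := by
      intro h
      rw [h, norm_zero] at h1
      linarith
    have h2 : 1 / (1 + x ^ 2) - (16 / 15 : ℂ) = -(1 + 16 * x ^ 2) / (15 * (1 + x ^ 2)) := by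
      field_simp
      ring
    rw [h2, norm_div, norm_neg, norm_mul, Complex.norm_ofNat]
    rw [div_le_iff₀ (by linarith)]
    have h3 : ‖1 + 16 * x ^ 2‖ ≤ 4 * ‖1 + x ^ 2‖ := by
      apply le_of_sq_le_sq _ (by positivity)
      have h4 : ‖x ^ 2‖ ^ 2 ≤ 1 / 16 := by
        rw [norm_pow]
        have := norm_nonneg x
        have h5 : ‖x‖ ^ 2 ≤ 1 / 4 := by nlinarith
        have h6 : 0 ≤ ‖x‖ ^ 2 := sq_nonneg _
        nlinarith
      rw [mul_pow, Complex.sq_norm, Complex.sq_norm]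
      rw [Complex.sq_norm] at h4
      rw [Complex.normSq_apply] at h4 ⊢
      rw [Complex.normSq_apply]
      generalize x ^ 2 = v at h4 ⊢
      simp
      nlinarith
    linarith
  have h := hc.norm_image_sub_le_of_norm_hasDerivWithin_le hd hb (by simpa using hw) (by simpa using hz)
  have h1 : (16 / 15 : ℂ) * (z - w) = (Complex.arctan z - Complex.arctan w) -
      ((Complex.arctan z - 16 / 15 * z) - (Complex.arctan w - 16 / 15 * w)) := by ring
  have h2 := norm_sub_le (Complex.arctan z - Complex.arctan w)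
      ((Complex.arctan z - 16 / 15 * z) - (Complex.arctan w - 16 / 15 * w))
  rw [← h1, norm_mul] at h2
  have h3 : ‖(16 / 15 : ℂ)‖ = 16 / 15 := by
    rw [norm_div, Complex.norm_ofNat, Complex.norm_ofNat]
  rw [h3] at h2
  linarith

private theorem b3_farcase (x s d : ℝ) (hx : 1 / 5 ≤ x) (hs : Real.sinh x ≤ s) (hd : 0 ≤ d) :
    1 / 10 * min 1 d * (Real.cosh (x + 1 / 10) * Real.cosh (1 / 10)) ≤ 4 / 5 * s := by
  have h1 : Real.exp (1 / 10) ≤ 10 / 9 := by
    have := Real.exp_bound_div_one_sub_of_interval' (x := 1 / 10) (by norm_num) (by norm_num)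
    linarith
  have h2 : Real.cosh (1 / 10) + Real.sinh (1 / 10) ≤ 10 / 9 := by
    rw [Real.cosh_add_sinh]; exact h1
  have hsh : 0 ≤ Real.sinh (1 / 10 : ℝ) := Real.sinh_nonneg_iff.mpr (by norm_num)
  have hch : 0 < Real.cosh (1 / 10 : ℝ) := Real.cosh_pos _
  have hx0 : (0 : ℝ) ≤ x := by linarith
  have h3 : x ≤ Real.sinh x := Real.self_le_sinh_iff.mpr hx0
  have h4 : Real.cosh x ≤ 6 * Real.sinh x := by
    have e1 := Real.cosh_sub_sinh x
    have e2 : Real.exp (-x) ≤ 1 := Real.exp_le_one_iff.mpr (by linarith)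
    linarith
  have h5 : Real.cosh (x + 1 / 10) ≤ Real.cosh x * (10 / 9) := by
    rw [Real.cosh_add]
    have e1 : Real.sinh x * Real.sinh (1 / 10) ≤ Real.cosh x * Real.sinh (1 / 10) :=
      mul_le_mul_of_nonneg_right (Real.sinh_lt_cosh x).le hsh
    have e2 : Real.cosh x * (Real.cosh (1 / 10) + Real.sinh (1 / 10)) ≤ Real.cosh x * (10 / 9) :=
      mul_le_mul_of_nonneg_left h2 (Real.cosh_pos x).le
    linarith
  have h6 : Real.cosh (x + 1 / 10) * Real.cosh (1 / 10) ≤ (6 * Real.sinh x * (10 / 9)) * (10 / 9) := by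
    apply mul_le_mul _ (by linarith) hch.le
    · have : 0 ≤ Real.sinh x := by linarith
      positivity
    · have := mul_le_mul_of_nonneg_right h4 (by norm_num : (0 : ℝ) ≤ 10 / 9)
      linarith
  have hm0 : 0 ≤ min 1 d := le_min (by norm_num) hd
  have hm1 : min 1 d ≤ 1 := min_le_left _ _
  have hP : 0 ≤ Real.cosh (x + 1 / 10) * Real.cosh (1 / 10) :=
    mul_nonneg (Real.cosh_pos _).le hch.le
  calc 1 / 10 * min 1 d * (Real.cosh (x + 1 / 10) * Real.cosh (1 / 10))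
      ≤ 1 / 10 * 1 * (Real.cosh (x + 1 / 10) * Real.cosh (1 / 10)) := by
        apply mul_le_mul_of_nonneg_right _ hP
        linarith
    _ ≤ 4 / 5 * s := by linarith

private theorem b3_sinlow (b : ℝ) (hb : |b| ≤ 9 / 10) : (79 / 100) ^ 2 * b ^ 2 ≤ Real.sin b ^ 2 := by
  rcases eq_or_ne b 0 with h0 | h0
  · subst h0
    simp
  · have hp : 0 < |b| := abs_pos.mpr h0
    have h1 := Real.sin_gt_sub_cube hp
    have h2 : Real.sin |b| ^ 2 = Real.sin b ^ 2 := by
      rcases abs_choice b with h | h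
      · rw [h]
      · rw [h, Real.sin_neg, neg_sq]
    rw [← h2, ← sq_abs b]
    set c := |b| with hc
    have h3 : 79 / 100 * c ≤ Real.sin c := by
      have : c ^ 3 / 6 ≤ 21 / 100 * c := by
        have : c ^ 2 ≤ 81 / 100 := by nlinarith
        nlinarith
      linarith
    have h4 : 0 ≤ 79 / 100 * c := by linarith
    rw [← mul_pow]
    exact pow_le_pow_left₀ h4 h3 2

private theorem b3_nearcase (x b s d l : ℝ) (hx0 : 0 ≤ x) (hx : x ≤ 1 / 5) (hb : |b| ≤ 9 / 10)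
    (hl : 39 / 100 < l) (hd : 0 ≤ d) (hs0 : 0 ≤ s) (hab : x ^ 2 + b ^ 2 = (l / 2) ^ 2 * d ^ 2)
    (hs : s ^ 2 = Real.sinh x ^ 2 + Real.sin b ^ 2) :
    1 / 10 * min 1 d * (Real.cosh (x + 1 / 10) * Real.cosh (1 / 10)) ≤ 4 / 5 * s := by
  have h1 : Real.cosh (x + 1 / 10) * Real.cosh (1 / 10) ≤ 20 / 19 := by
    have e1 := Real.cosh_le_exp_half_sq (x + 1 / 10)
    have e2 := Real.cosh_le_exp_half_sq (1 / 10)
    have e3 : Real.exp ((x + 1 / 10) ^ 2 / 2) ≤ Real.exp (9 / 200) := by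
      apply Real.exp_le_exp.mpr
      nlinarith
    calc Real.cosh (x + 1 / 10) * Real.cosh (1 / 10)
        ≤ Real.exp (9 / 200) * Real.exp ((1 / 10) ^ 2 / 2) :=
          mul_le_mul (e1.trans e3) e2 (Real.cosh_pos _).le (Real.exp_pos _).le
      _ = Real.exp (1 / 20) := by
          rw [← Real.exp_add]
          norm_num
      _ ≤ 20 / 19 := by
          have := Real.exp_bound_div_one_sub_of_interval' (x := 1 / 20) (by norm_num) (by norm_num)
          linarith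
  have h2 : x ≤ Real.sinh x := Real.self_le_sinh_iff.mpr hx0
  have h3 := b3_sinlow b hb
  have h4 : (79 / 100 * (39 / 200) * d) ^ 2 ≤ s ^ 2 := by
    have e1 : x ^ 2 ≤ Real.sinh x ^ 2 := pow_le_pow_left₀ hx0 h2 2
    have e2 : (39 / 200) ^ 2 * d ^ 2 ≤ (l / 2) ^ 2 * d ^ 2 := by
      apply mul_le_mul_of_nonneg_right _ (sq_nonneg d)
      exact pow_le_pow_left₀ (by norm_num) (by linarith) 2
    have e3 := sq_nonneg x
    rw [hs]
    nlinarith
  have h5 : 79 / 100 * (39 / 200) * d ≤ s := by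
    exact le_of_sq_le_sq h4 hs0
  have hm1 : min 1 d ≤ d := min_le_right _ _
  have hm0 : 0 ≤ min 1 d := le_min (by norm_num) hd
  calc 1 / 10 * min 1 d * (Real.cosh (x + 1 / 10) * Real.cosh (1 / 10))
      ≤ 1 / 10 * min 1 d * (20 / 19) := by
        apply mul_le_mul_of_nonneg_left h1
        linarith
    _ ≤ 4 / 5 * s := by linarith

private theorem b3_key (a b s d l : ℝ) (hb : |b| ≤ 9 / 10)
    (hl : 39 / 100 < l) (hd : 0 ≤ d) (hs0 : 0 ≤ s) (hab : a ^ 2 + b ^ 2 = (l / 2) ^ 2 * d ^ 2)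
    (hs : s ^ 2 = Real.sinh a ^ 2 + Real.sin b ^ 2) :
    1 / 10 * min 1 d * (Real.cosh (|a| + 1 / 10) * Real.cosh (1 / 10)) ≤ 4 / 5 * s := by
  have h1 : Real.sinh |a| ^ 2 = Real.sinh a ^ 2 := by
    rcases abs_choice a with h | h
    · rw [h]
    · rw [h, Real.sinh_neg, neg_sq]
  rcases le_total (1 / 5) |a| with h | h
  · apply b3_farcase _ _ _ h _ hd
    have h2 : 0 ≤ Real.sinh |a| := Real.sinh_nonneg_iff.mpr (abs_nonneg a)
    apply le_of_sq_le_sq _ hs0
    rw [hs, h1]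
    linarith [sq_nonneg (Real.sin b)]
  · apply b3_nearcase |a| b s d l (abs_nonneg a) h hb hl hd hs0
    · rw [sq_abs]
      exact hab
    · rw [h1]
      exact hs

private theorem b3_mono (a b : ℝ) (h : |a| ≤ b) : Real.cosh a ≤ Real.cosh b := by
  rw [Real.cosh_le_cosh]
  exact h.trans (le_abs_self b)

theorem X0_sep (t τ : ℂ) (ht : t ∈ St (7 / 2)) (hτ : Pole τ) :
    1 / 10 * min 1 ‖t - τ‖ ≤ ‖X0 t - X0 τ‖ := by
  obtain ⟨hl1, hl2, -⟩ := numbers
  have hτ2 : |τ.im| ≤ 1 := hτ.2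
  have hτ1 : |τ.re| ≤ 1 / 2 := hτ.1
  have hτS : τ ∈ St (7 / 2) := by
    change |τ.im| < 7 / 2
    linarith
  have htS : |t.im| < 7 / 2 := ht
  have hC1 := tanh_strip t ht
  have hC2 := tanh_strip τ hτS
  have hn1 : 0 < ‖Complex.cosh (lam * t / 2)‖ := norm_pos_iff.mpr hC1.1
  have hn2 : 0 < ‖Complex.cosh (lam * τ / 2)‖ := norm_pos_iff.mpr hC2.1
  have h1 : X0 t - X0 τ = 2 * (Complex.arctan (Complex.tanh (lam * t / 2) / 2) -
      Complex.arctan (Complex.tanh (lam * τ / 2) / 2)) := by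
    unfold X0
    ring
  have h2 := b3_sepz _ _ (b3_z t ht) (b3_z τ hτS)
  have h3 : Complex.tanh (lam * t / 2) / 2 - Complex.tanh (lam * τ / 2) / 2 =
      Complex.sinh (lam * (t - τ) / 2) / (2 * (Complex.cosh (lam * t / 2) * Complex.cosh (lam * τ / 2))) := by
    have e1 : (lam : ℂ) * (t - τ) / 2 = lam * t / 2 - lam * τ / 2 := by ring
    rw [e1, Complex.sinh_sub, Complex.tanh_eq_sinh_div_cosh, Complex.tanh_eq_sinh_div_cosh]
    have := hC1.1
    have := hC2.1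
    field_simp
  rw [h3, norm_div, norm_mul, norm_mul, Complex.norm_ofNat] at h2
  have hS2 := b3_S2 (lam * (t - τ).re / 2) (lam * (t - τ).im / 2)
  rw [← b3_arg] at hS2
  have hk := b3_key (lam * (t - τ).re / 2) (lam * (t - τ).im / 2) ‖Complex.sinh (lam * (t - τ) / 2)‖
    ‖t - τ‖ lam ?_ hl1 (norm_nonneg _) (norm_nonneg _) ?_ hS2
  rotate_left
  · have e1 : |(t - τ).im| ≤ 9 / 2 := by
      rw [Complex.sub_im]
      calc |t.im - τ.im| ≤ |t.im| + |τ.im| := abs_sub _ _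
        _ ≤ 9 / 2 := by linarith
    rw [abs_div, abs_mul, abs_of_pos (by linarith : (0 : ℝ) < lam), abs_of_pos (by norm_num : (0 : ℝ) < 2)]
    nlinarith [abs_nonneg (t - τ).im]
  · rw [Complex.sq_norm, Complex.normSq_apply]
    ring
  have hc1 : ‖Complex.cosh (lam * t / 2)‖ ≤ Real.cosh (|lam * (t - τ).re / 2| + 1 / 10) := by
    have e1 : ‖Complex.cosh (lam * t / 2)‖ ≤ Real.cosh (lam * t.re / 2) :=
      le_of_sq_le_sq hC1.2.2.2 (Real.cosh_pos _).le
    refine e1.trans (b3_mono _ _ ?_)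
    have e2 : lam * t.re / 2 = lam * (t - τ).re / 2 + lam * τ.re / 2 := by
      rw [Complex.sub_re]
      ring
    rw [e2]
    refine (abs_add_le _ _).trans ?_
    have e3 : |lam * τ.re / 2| ≤ 1 / 10 := by
      rw [abs_div, abs_mul, abs_of_pos (by linarith : (0 : ℝ) < lam), abs_of_pos (by norm_num : (0 : ℝ) < 2)]
      nlinarith [abs_nonneg τ.re]
    linarith
  have hc2 : ‖Complex.cosh (lam * τ / 2)‖ ≤ Real.cosh (1 / 10) := by
    have e1 : ‖Complex.cosh (lam * τ / 2)‖ ≤ Real.cosh (lam * τ.re / 2) :=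
      le_of_sq_le_sq hC2.2.2.2 (Real.cosh_pos _).le
    refine e1.trans (b3_mono _ _ ?_)
    rw [abs_div, abs_mul, abs_of_pos (by linarith : (0 : ℝ) < lam), abs_of_pos (by norm_num : (0 : ℝ) < 2)]
    nlinarith [abs_nonneg τ.re]
  have hcc : ‖Complex.cosh (lam * t / 2)‖ * ‖Complex.cosh (lam * τ / 2)‖ ≤
      Real.cosh (|lam * (t - τ).re / 2| + 1 / 10) * Real.cosh (1 / 10) :=
    mul_le_mul hc1 hc2 hn2.le (Real.cosh_pos _).le
  have hm0 : 0 ≤ min 1 ‖t - τ‖ := le_min (by norm_num) (norm_nonneg _)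
  have hfin : 1 / 10 * min 1 ‖t - τ‖ * (‖Complex.cosh (lam * t / 2)‖ * ‖Complex.cosh (lam * τ / 2)‖) ≤
      4 / 5 * ‖Complex.sinh (lam * (t - τ) / 2)‖ := by
    refine le_trans (mul_le_mul_of_nonneg_left hcc (by linarith)) hk
  rw [h1, norm_mul, Complex.norm_ofNat]
  have hP : 0 < ‖Complex.cosh (lam * t / 2)‖ * ‖Complex.cosh (lam * τ / 2)‖ := mul_pos hn1 hn2
  have h6 : 1 / 10 * min 1 ‖t - τ‖ ≤ 4 / 5 * ‖Complex.sinh (lam * (t - τ) / 2)‖ /
      (‖Complex.cosh (lam * t / 2)‖ * ‖Complex.cosh (lam * τ / 2)‖) := by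
    rw [le_div_iff₀ hP]
    exact hfin
  have h7 : 4 / 5 * ‖Complex.sinh (lam * (t - τ) / 2)‖ /
      (‖Complex.cosh (lam * t / 2)‖ * ‖Complex.cosh (lam * τ / 2)‖) = 2 * (4 / 5 *
      (‖Complex.sinh (lam * (t - τ) / 2)‖ /
      (2 * (‖Complex.cosh (lam * t / 2)‖ * ‖Complex.cosh (lam * τ / 2)‖)))) := by
    field_simp
  rw [h7] at h6
  linarith

private theorem b3_TN (t : ℂ) (hC : Complex.cosh (lam * t / 2) ≠ 0) :
    (Complex.tanh (lam * t / 2)).re * ‖Complex.cosh (lam * t / 2)‖ ^ 2 =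
      Real.sinh (lam * t.re / 2) * Real.cosh (lam * t.re / 2) ∧
    (Complex.tanh (lam * t / 2)).im * ‖Complex.cosh (lam * t / 2)‖ ^ 2 =
      Real.sin (lam * t.im / 2) * Real.cos (lam * t.im / 2) ∧
    ‖Complex.tanh (lam * t / 2)‖ ^ 2 * ‖Complex.cosh (lam * t / 2)‖ ^ 2 =
      Real.sinh (lam * t.re / 2) ^ 2 + Real.sin (lam * t.im / 2) ^ 2 := by
  have hn : Complex.normSq (Complex.cosh (lam * t / 2)) ≠ 0 := by
    rw [ne_eq, Complex.normSq_eq_zero]
    exact hC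
  have hsc := Real.sin_sq_add_cos_sq (lam * t.im / 2)
  have hch := Real.cosh_sq (lam * t.re / 2)
  refine ⟨?_, ?_, ?_⟩
  · rw [Complex.tanh_eq_sinh_div_cosh, Complex.sq_norm, Complex.div_re]
    rw [← add_div, div_mul_cancel₀ _ hn]
    rw [b3_arg, b3_sinh, b3_cosh]
    simp only [Complex.add_re, Complex.add_im, Complex.mul_re, Complex.mul_im, Complex.ofReal_re,
      Complex.ofReal_im, Complex.I_re, Complex.I_im]
    linear_combination (Real.sinh (lam * t.re / 2) * Real.cosh (lam * t.re / 2)) * hsc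
  · rw [Complex.tanh_eq_sinh_div_cosh, Complex.sq_norm, Complex.div_im]
    rw [← sub_div, div_mul_cancel₀ _ hn]
    rw [b3_arg, b3_sinh, b3_cosh]
    simp only [Complex.add_re, Complex.add_im, Complex.mul_re, Complex.mul_im, Complex.ofReal_re,
      Complex.ofReal_im, Complex.I_re, Complex.I_im]
    linear_combination (Real.sin (lam * t.im / 2) * Real.cos (lam * t.im / 2)) * hch
  · rw [Complex.tanh_eq_sinh_div_cosh, norm_div, div_pow, div_mul_cancel₀ _ (by
      exact pow_ne_zero 2 (norm_ne_zero_iff.mpr hC))]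
    rw [b3_arg]
    exact b3_S2 _ _

private theorem b3_small (z : ℂ) (hz : ‖z‖ ≤ 1 / 8) : ‖Complex.arctan z - z‖ ≤ 1 / 504 := by
  have hc : Convex ℝ (Metric.closedBall (0 : ℂ) (1 / 8)) := convex_closedBall 0 (1 / 8)
  have hd : ∀ x ∈ Metric.closedBall (0 : ℂ) (1 / 8), HasDerivWithinAt
      (fun x : ℂ => Complex.arctan x - x)
      (1 / (1 + x ^ 2) - 1) (Metric.closedBall (0 : ℂ) (1 / 8)) x := by
    intro x hx
    have hx' : ‖x‖ ≤ 1 / 8 := by simpa using hx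
    exact ((b3_deriv x (by linarith)).sub (hasDerivAt_id x)).hasDerivWithinAt
  have hb : ∀ x ∈ Metric.closedBall (0 : ℂ) (1 / 8), ‖1 / (1 + x ^ 2) - (1 : ℂ)‖ ≤ 1 / 63 := by
    intro x hx
    have hx' : ‖x‖ ≤ 1 / 8 := by simpa using hx
    have hx2 : ‖x ^ 2‖ ≤ 1 / 64 := by
      rw [norm_pow]
      have := norm_nonneg x
      nlinarith
    have h1 : 63 / 64 ≤ ‖1 + x ^ 2‖ := by
      have h2 : ‖(1 : ℂ)‖ ≤ ‖1 + x ^ 2‖ + ‖x ^ 2‖ := by
        have := norm_sub_le (1 + x ^ 2) (x ^ 2)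
        simpa using this
      rw [norm_one] at h2
      linarith
    have h0 : 1 + x ^ 2 ≠ 0 := by
      intro h
      rw [h, norm_zero] at h1
      linarith
    have h2 : 1 / (1 + x ^ 2) - (1 : ℂ) = -(x ^ 2) / (1 + x ^ 2) := by
      field_simp
      ring
    rw [h2, norm_div, norm_neg, div_le_iff₀ (by linarith)]
    linarith
  have h := hc.norm_image_sub_le_of_norm_hasDerivWithin_le hd hb (x := 0) (y := z)
    (by simp) (by simpa using hz)
  simp only [Complex.arctan, sub_zero] at h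
  simp only [zero_mul, add_zero, sub_zero, div_one, Complex.log_one, mul_zero] at h
  have h5 : ‖Complex.arctan z - z‖ ≤ 1 / 63 * ‖z‖ := h
  linarith

private theorem b3_hnum (Y N Ti : ℝ) (hY1 : 39 / 400 ≤ |Y|) (hY2 : |Y| ≤ 1 / 5) (hN0 : 0 < N)
    (hN : N ≤ 100 / 99) (hT : Ti * N = Real.sin Y * Real.cos Y) : 21 / 250 ≤ |Ti| := by
  have hp : 0 < |Y| := by linarith
  have h1 := Real.sin_gt_sub_cube hp
  have h2 : |Real.sin Y| = Real.sin |Y| := by
    rcases abs_choice Y with h | h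
    · rw [h]
      apply abs_of_pos
      rw [h] at h1 hp hY2
      have h3 : Y ^ 3 / 6 ≤ Y / 100 := by
        have : Y ^ 2 ≤ 1 / 25 := by nlinarith
        nlinarith
      linarith
    · rw [h, Real.sin_neg]
      apply abs_of_neg
      rw [h] at h1 hp hY2
      rw [Real.sin_neg] at h1
      have h3 : (-Y) ^ 3 / 6 ≤ (-Y) / 100 := by
        have : (-Y) ^ 2 ≤ 1 / 25 := by nlinarith
        nlinarith
      linarith
  have h3 : 19 / 200 ≤ |Real.sin Y| := by
    rw [h2]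
    have : |Y| ^ 3 / 6 ≤ |Y| / 100 := by
      have : |Y| ^ 2 ≤ 1 / 25 := by nlinarith
      nlinarith
    linarith
  have h4 : 49 / 50 ≤ Real.cos Y := by
    have := Real.one_sub_sq_div_two_le_cos (x := Y)
    have h5 : Y ^ 2 ≤ 1 / 25 := by
      rw [← sq_abs]
      nlinarith
    linarith
  have h5 : |Ti| * N = |Real.sin Y| * Real.cos Y := by
    have := congrArg abs hT
    rw [abs_mul, abs_mul, abs_of_pos hN0, abs_of_nonneg (by linarith : 0 ≤ Real.cos Y)] at this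
    exact this
  have h6 : 19 / 200 * (49 / 50) ≤ |Ti| * N := by
    rw [h5]
    exact mul_le_mul h3 h4 (by norm_num) (abs_nonneg _)
  have h7 : |Ti| * N ≤ |Ti| * (100 / 99) := mul_le_mul_of_nonneg_left hN (abs_nonneg _)
  linarith

theorem X0_height (τ : ℂ) (hτ : Pole τ) (h : 1 / 2 ≤ |τ.im|) : 2 / 25 ≤ |(X0 τ).im| := by
  obtain ⟨hl1, hl2, -⟩ := numbers
  have hτ2 : |τ.im| ≤ 1 := hτ.2
  have hτ1 : |τ.re| ≤ 1 / 2 := hτ.1
  have hτS : τ ∈ St (7 / 2) := by
    change |τ.im| < 7 / 2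
    linarith
  have hC := (tanh_strip τ hτS).1
  obtain ⟨-, hTi, hTT⟩ := b3_TN τ hC
  have hCC := b3_C2 (lam * τ.re / 2) (lam * τ.im / 2)
  rw [← b3_arg] at hCC
  have hX : |lam * τ.re / 2| ≤ 1 / 10 := by
    rw [abs_div, abs_mul, abs_of_pos (by linarith : (0 : ℝ) < lam), abs_of_pos (by norm_num : (0 : ℝ) < 2)]
    nlinarith [abs_nonneg τ.re]
  have hY1 : 39 / 400 ≤ |lam * τ.im / 2| := by
    rw [abs_div, abs_mul, abs_of_pos (by linarith : (0 : ℝ) < lam), abs_of_pos (by norm_num : (0 : ℝ) < 2)]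
    nlinarith [abs_nonneg τ.im]
  have hY2 : |lam * τ.im / 2| ≤ 1 / 5 := by
    rw [abs_div, abs_mul, abs_of_pos (by linarith : (0 : ℝ) < lam), abs_of_pos (by norm_num : (0 : ℝ) < 2)]
    nlinarith [abs_nonneg τ.im]
  have hcX : Real.cosh (lam * τ.re / 2) ^ 2 ≤ 100 / 99 := by
    have e1 := Real.cosh_le_exp_half_sq (lam * τ.re / 2)
    have e2 : (lam * τ.re / 2) ^ 2 ≤ 1 / 100 := by
      rw [← sq_abs]
      nlinarith [abs_nonneg (lam * τ.re / 2)]
    have e3 := pow_le_pow_left₀ (Real.cosh_pos _).le e1 2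
    rw [← Real.exp_nat_mul] at e3
    have e4 : Real.exp ((2 : ℕ) * ((lam * τ.re / 2) ^ 2 / 2)) ≤ Real.exp (1 / 100) := by
      apply Real.exp_le_exp.mpr
      push_cast
      linarith
    have e5 := Real.exp_bound_div_one_sub_of_interval' (x := 1 / 100) (by norm_num) (by norm_num)
    linarith
  have hsY : Real.sin (lam * τ.im / 2) ^ 2 ≤ 1 / 25 := by
    have e1 : |Real.sin (lam * τ.im / 2)| ≤ |lam * τ.im / 2| := Real.abs_sin_le_abs
    rw [← sq_abs]
    nlinarith [abs_nonneg (Real.sin (lam * τ.im / 2))]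
  have hN0 : 0 < ‖Complex.cosh (lam * τ / 2)‖ ^ 2 := pow_pos (norm_pos_iff.mpr hC) 2
  have hN1 : ‖Complex.cosh (lam * τ / 2)‖ ^ 2 ≤ 100 / 99 := by
    rw [hCC]
    linarith [sq_nonneg (Real.sin (lam * τ.im / 2))]
  have hN2 : 24 / 25 ≤ ‖Complex.cosh (lam * τ / 2)‖ ^ 2 := by
    rw [hCC]
    have e1 := Real.cosh_sq (lam * τ.re / 2)
    linarith [sq_nonneg (Real.sinh (lam * τ.re / 2))]
  have hT1 : ‖Complex.tanh (lam * τ / 2)‖ ≤ 1 / 4 := by
    apply le_of_sq_le_sq _ (by norm_num)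
    have e1 := Real.cosh_sq (lam * τ.re / 2)
    have e2 : Real.sinh (lam * τ.re / 2) ^ 2 ≤ 1 / 99 := by linarith
    have e3 : ‖Complex.tanh (lam * τ / 2)‖ ^ 2 * (24 / 25) ≤
        ‖Complex.tanh (lam * τ / 2)‖ ^ 2 * ‖Complex.cosh (lam * τ / 2)‖ ^ 2 :=
      mul_le_mul_of_nonneg_left hN2 (sq_nonneg _)
    linarith
  have hTi2 := b3_hnum _ _ _ hY1 hY2 hN0 hN1 hTi
  have hz : ‖Complex.tanh (lam * τ / 2) / 2‖ ≤ 1 / 8 := by
    rw [norm_div, Complex.norm_ofNat]
    linarith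
  have hsm := b3_small _ hz
  have h1 : (X0 τ).im = (Complex.tanh (lam * τ / 2)).im + 2 *
      (Complex.arctan (Complex.tanh (lam * τ / 2) / 2) - Complex.tanh (lam * τ / 2) / 2).im := by
    have e1 : X0 τ = Complex.tanh (lam * τ / 2) + (2 : ℝ) *
      (Complex.arctan (Complex.tanh (lam * τ / 2) / 2) - Complex.tanh (lam * τ / 2) / 2) := by
      unfold X0
      push_cast
      ring
    rw [e1, Complex.add_im, Complex.im_ofReal_mul]
  have h2 := (Complex.abs_im_le_norm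
    (Complex.arctan (Complex.tanh (lam * τ / 2) / 2) - Complex.tanh (lam * τ / 2) / 2)).trans hsm
  rw [h1]
  have h3 := abs_le.mp h2
  rcases le_abs.mp hTi2 with h4 | h4
  · exact le_abs.mpr (Or.inl (by linarith))
  · exact le_abs.mpr (Or.inr (by linarith))

private theorem b3_argbound (u : ℂ) (hre : 0 ≤ u.re) (h : 3 * |u.im| ≤ 4 * u.re) : |u.arg| ≤ 19 / 20 := by
  obtain ⟨-, -, -, -, -, -, -, hca, hsa, ha1, ha2⟩ := numbers
  rw [Complex.arg_of_re_nonneg hre]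
  have h1 : |u.im| ≤ 4 / 5 * ‖u‖ := by
    apply le_of_sq_le_sq _ (by positivity)
    rw [mul_pow, Complex.sq_norm, Complex.normSq_apply, sq_abs]
    have h2 := pow_le_pow_left₀ (by positivity) h 2
    rw [mul_pow, sq_abs] at h2
    nlinarith
  have h2 : |u.im / ‖u‖| ≤ 4 / 5 := by
    rw [abs_div, abs_norm]
    rcases eq_or_lt_of_le (norm_nonneg u) with h0 | h0
    · rw [← h0]
      norm_num
    · rw [div_le_iff₀ h0]
      exact h1
  have h3 : Real.arcsin (4 / 5) = aa := by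
    rw [← hsa]
    apply Real.arcsin_sin
    · linarith [Real.pi_gt_three]
    · linarith [Real.pi_gt_three]
  have h4 := abs_le.mp h2
  rw [abs_le]
  constructor
  · have h5 := Real.monotone_arcsin h4.1
    rw [Real.arcsin_neg, h3] at h5
    linarith
  · have h5 := Real.monotone_arcsin h4.2
    rw [h3] at h5
    linarith

private theorem b3_expK : (7609 / 5000 : ℝ) ≤ Real.exp (21 / 50) := by
  have h := Real.sum_le_exp_of_nonneg (x := 21 / 50) (by norm_num) 5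
  refine le_trans ?_ h
  simp only [Finset.sum_range_succ, Finset.sum_range_zero, Nat.factorial]
  norm_num

private theorem b3_logbound (r : ℝ) (hr : 0 < r) (h1 : r ^ 2 ≤ 7609 / 5000) (h2 : 1 ≤ r ^ 2 * (7609 / 5000)) :
    |Real.log r| ≤ 21 / 100 := by
  have hK := b3_expK
  have hE : Real.exp (21 / 100) ^ 2 = Real.exp (21 / 50) := by
    rw [← Real.exp_nat_mul]
    norm_num
  have hE0 := Real.exp_pos (21 / 100 : ℝ)
  rw [abs_le]
  constructor
  · rw [Real.le_log_iff_exp_le hr, Real.exp_neg]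
    rw [inv_le_comm₀ hE0 hr]
    apply le_of_sq_le_sq _ hE0.le
    rw [hE, inv_pow]
    refine le_trans ?_ hK
    rw [inv_le_comm₀ (by positivity) (by norm_num)]
    rw [inv_eq_one_div, div_le_iff₀ (by norm_num)]
    exact h2
  · rw [Real.log_le_iff_le_exp hr]
    apply le_of_sq_le_sq _ hE0.le
    rw [hE]
    linarith

private theorem b3_ratio (p q : ℝ) (h : |q| ≤ 2063 / 10000 * (1 + (p ^ 2 + q ^ 2) / 4)) :
    ((1 + -(q / 2)) * (1 + -(q / 2)) + p / 2 * (p / 2)) /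
      ((1 + q / 2) * (1 + q / 2) + p / 2 * (p / 2)) ≤ 7609 / 5000 ∧
    1 ≤ ((1 + -(q / 2)) * (1 + -(q / 2)) + p / 2 * (p / 2)) /
        ((1 + q / 2) * (1 + q / 2) + p / 2 * (p / 2)) * (7609 / 5000) := by
  have hA : 1 ≤ 1 + (p ^ 2 + q ^ 2) / 4 := by nlinarith [sq_nonneg p, sq_nonneg q]
  have e1 : (1 + -(q / 2)) * (1 + -(q / 2)) + p / 2 * (p / 2) = (1 + (p ^ 2 + q ^ 2) / 4) - q := by ring
  have e2 : (1 + q / 2) * (1 + q / 2) + p / 2 * (p / 2) = (1 + (p ^ 2 + q ^ 2) / 4) + q := by ring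
  rw [e1, e2]
  generalize 1 + (p ^ 2 + q ^ 2) / 4 = A at h hA ⊢
  have h1 := abs_le.mp h
  have hp : 0 < A + q := by linarith
  constructor
  · rw [div_le_iff₀ hp]
    linarith
  · rw [div_mul_eq_mul_div, le_div_iff₀ hp]
    linarith

theorem X0_lens (t : ℂ) (ht : t ∈ St 1) : |(X0 t).re| ≤ 19 / 20 ∧ |(X0 t).im| ≤ 21 / 100 := by
  obtain ⟨hl1, hl2, -⟩ := numbers
  have ht1 : |t.im| < 1 := ht
  have htS : t ∈ St (7 / 2) := by
    change |t.im| < 7 / 2
    linarith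
  have hC := (tanh_strip t htS).1
  obtain ⟨hTr, hTi, hTT⟩ := b3_TN t hC
  have hCC := b3_C2 (lam * t.re / 2) (lam * t.im / 2)
  rw [← b3_arg] at hCC
  have hY2 : |lam * t.im / 2| ≤ 1 / 5 := by
    rw [abs_div, abs_mul, abs_of_pos (by linarith : (0 : ℝ) < lam), abs_of_pos (by norm_num : (0 : ℝ) < 2)]
    nlinarith [abs_nonneg t.im]
  have hsa : |Real.sin (lam * t.im / 2)| ≤ 1 / 5 := (Real.abs_sin_le_abs).trans hY2
  have hsY : Real.sin (lam * t.im / 2) ^ 2 ≤ 1 / 25 := by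
    rw [← sq_abs]
    nlinarith [abs_nonneg (Real.sin (lam * t.im / 2))]
  have hN0 : 0 < ‖Complex.cosh (lam * t / 2)‖ ^ 2 := pow_pos (norm_pos_iff.mpr hC) 2
  have hch := Real.cosh_sq (lam * t.re / 2)
  have hz := b3_z t htS
  have hz1 : ‖Complex.tanh (lam * t / 2) / 2‖ < 1 := by linarith
  -- the two inequalities for T
  have hA : 3 * |(Complex.tanh (lam * t / 2)).re| ≤ 4 - ‖Complex.tanh (lam * t / 2)‖ ^ 2 := by
    have e1 : |(Complex.tanh (lam * t / 2)).re| * ‖Complex.cosh (lam * t / 2)‖ ^ 2 ≤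
        Real.cosh (lam * t.re / 2) ^ 2 := by
      have e2 := congrArg abs hTr
      rw [abs_mul, abs_mul, abs_of_pos hN0, abs_of_pos (Real.cosh_pos _)] at e2
      rw [e2, sq]
      apply mul_le_mul_of_nonneg_right _ (Real.cosh_pos _).le
      rw [abs_le]
      constructor
      · have := Real.sinh_lt_cosh (-(lam * t.re / 2))
        rw [Real.sinh_neg, Real.cosh_neg] at this
        linarith
      · exact (Real.sinh_lt_cosh _).le
    have e3 : 3 * |(Complex.tanh (lam * t / 2)).re| * ‖Complex.cosh (lam * t / 2)‖ ^ 2 ≤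
        (4 - ‖Complex.tanh (lam * t / 2)‖ ^ 2) * ‖Complex.cosh (lam * t / 2)‖ ^ 2 := by
      rw [sub_mul, hTT]
      rw [hCC] at e1 ⊢
      nlinarith
    exact le_of_mul_le_mul_right e3 hN0
  have hB : |(Complex.tanh (lam * t / 2)).im| ≤ 2063 / 10000 * (1 + ‖Complex.tanh (lam * t / 2)‖ ^ 2 / 4) := by
    have e1 : |(Complex.tanh (lam * t / 2)).im| * ‖Complex.cosh (lam * t / 2)‖ ^ 2 ≤ 1 / 5 := by
      have e2 := congrArg abs hTi
      rw [abs_mul, abs_mul, abs_of_pos hN0] at e2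
      rw [e2]
      have e3 := Real.abs_cos_le_one (lam * t.im / 2)
      calc |Real.sin (lam * t.im / 2)| * |Real.cos (lam * t.im / 2)| ≤ 1 / 5 * 1 :=
            mul_le_mul hsa e3 (abs_nonneg _) (by norm_num)
        _ = 1 / 5 := by norm_num
    have e3 : |(Complex.tanh (lam * t / 2)).im| * ‖Complex.cosh (lam * t / 2)‖ ^ 2 ≤
        (2063 / 10000 * (1 + ‖Complex.tanh (lam * t / 2)‖ ^ 2 / 4)) * ‖Complex.cosh (lam * t / 2)‖ ^ 2 := by
      have e4 : (2063 / 10000 * (1 + ‖Complex.tanh (lam * t / 2)‖ ^ 2 / 4)) * ‖Complex.cosh (lam * t / 2)‖ ^ 2 =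
        2063 / 10000 * (‖Complex.cosh (lam * t / 2)‖ ^ 2 + (‖Complex.tanh (lam * t / 2)‖ ^ 2 *
          ‖Complex.cosh (lam * t / 2)‖ ^ 2) / 4) := by ring
      rw [e4, hTT]
      refine e1.trans ?_
      rw [hCC]
      nlinarith [sq_nonneg (Real.sinh (lam * t.re / 2))]
    exact le_of_mul_le_mul_right e3 hN0
  obtain ⟨hu, hd0, hn0⟩ := b3_u _ hz1
  have hX : X0 t = -I * Complex.log ((1 + Complex.tanh (lam * t / 2) / 2 * I) /
      (1 - Complex.tanh (lam * t / 2) / 2 * I)) := by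
    unfold X0 Complex.arctan
    ring
  generalize Complex.tanh (lam * t / 2) = T at hA hB hz hz1 hu hd0 hn0 hX
  have hTn : ‖T‖ ^ 2 = T.re ^ 2 + T.im ^ 2 := by
    rw [Complex.sq_norm, Complex.normSq_apply]
    ring
  rw [hTn] at hA hB
  have hre : (X0 t).re = ((1 + T / 2 * I) / (1 - T / 2 * I)).arg := by
    rw [hX]
    simp [Complex.log_im]
  have him : (X0 t).im = -Real.log ‖(1 + T / 2 * I) / (1 - T / 2 * I)‖ := by
    rw [hX]
    simp [Complex.log_re]
  have hn : 0 < Complex.normSq (1 - T / 2 * I) := Complex.normSq_pos.mpr hd0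
  rw [hre, him, abs_neg]
  constructor
  · apply b3_argbound
    · rw [Complex.div_re, ← add_div]
      apply div_nonneg _ hn.le
      simp
      nlinarith [abs_nonneg T.re]
    · rw [Complex.div_re, ← add_div, Complex.div_im, ← sub_div, abs_div, abs_of_pos hn,
        mul_div_assoc', mul_div_assoc', div_le_div_iff_of_pos_right hn]
      simp
      have h1 : T.re / 2 * (1 + T.im / 2) + (1 + -(T.im / 2)) * (T.re / 2) = T.re := by ring
      rw [h1]
      linarith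
  · apply b3_logbound
    · exact norm_pos_iff.mpr (div_ne_zero hn0 hd0)
    · rw [norm_div, div_pow, Complex.sq_norm, Complex.sq_norm, Complex.normSq_apply, Complex.normSq_apply]
      simp
      exact (b3_ratio T.re T.im hB).1
    · rw [norm_div, div_pow, Complex.sq_norm, Complex.sq_norm, Complex.normSq_apply, Complex.normSq_apply]
      simp
      exact (b3_ratio T.re T.im hB).2

end LibEY38
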