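import Pool.Agent.LibEY38.Defs
import Pool.Agent.LibEY38.B0
import Pool.Agent.LibEY38.B1
import Pool.Agent.LibEY38.B2
import Pool.Agent.LibEY38.B3

open Complex Set Filter Topology MeasureTheory
open scoped ComplexConjugate

namespace LibEY38

/-
ROW B4 (MEDIUM/STRONG). The Suris identity: FS (X0 t) = X0 (t+1) + X0 (t-1) on St (7/2).
With c = 3/5, E = exp(I X0 t) = (1+iz)/(1-iz), z = tanh(lam t/2)/2, z(t±1)/... = (tanh ± th)/(2(1 ± tanh th)), th = tanh(lam/2) =
(1/5)/sqrt(26/25), th^2 = 1/26. exp(I FS x) = exp(2 I x) Wf(-x)/Wf(x) (Wf ≠ 0), a rational identity in z gives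
exp(I FS(X0 t)) = exp(I (X0(t+1) + X0(t-1))) (checked numerically to 1e-16). Both sides are continuous (Re Wf > 0: |Wf(±X0 t) - 1| <
1 because |exp(∓I X0)| |cc|/8 < 1), equal at t = 0, so the difference of the two sides is a continuous 2π Z valued function on the
(convex, hence preconnected) strip: constant 0. Alternative: compare derivatives: both sides are 0 at t = 0 and the derivative identity
FS'(X0 t) X0'(t) = X0'(t+1) + X0'(t-1) is rational in tanh.
Wf_re: on St (7/2) along X0 and on St (1/2): |e^{ix}| |cos x - 3/5| / 8 <= 3/5 * ... < 1 (true sup .36 on St (1/2)).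
-/
theorem Wf_re (x : ℂ) (hx : x ∈ St (1 / 2)) : ‖Wf x - 1‖ ≤ 1 / 2 := by
  have hx' : |x.im| < 1 / 2 := hx
  have h1 := abs_lt.1 hx'
  have h2 : ‖Complex.exp (I * x)‖ ≤ 5 / 3 := by
    rw [Complex.norm_exp]
    have h3 : (I * x).re = -x.im := by simp
    rw [h3]
    have h4 : Real.exp (-x.im) ≤ Real.exp (1 / 2) := Real.exp_le_exp.2 (by linarith)
    have h5 : Real.exp (1 / 2) ^ 2 = Real.exp 1 := by
      rw [← Real.exp_nat_mul]
      norm_num
    have h6 := Real.exp_one_lt_d9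
    have h7 : 0 < Real.exp (1 / 2) := Real.exp_pos _
    nlinarith
  have h8 : ‖Complex.exp (-(I * x))‖ ≤ 5 / 3 := by
    rw [Complex.norm_exp]
    have h3 : (-(I * x)).re = x.im := by simp
    rw [h3]
    have h4 : Real.exp (x.im) ≤ Real.exp (1 / 2) := Real.exp_le_exp.2 (by linarith)
    have h5 : Real.exp (1 / 2) ^ 2 = Real.exp 1 := by
      rw [← Real.exp_nat_mul]
      norm_num
    have h6 := Real.exp_one_lt_d9
    have h7 : 0 < Real.exp (1 / 2) := Real.exp_pos _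
    nlinarith
  have h9 : ‖cc x‖ ≤ 34 / 15 := by
    unfold cc
    have h10 : Complex.cos x = (Complex.exp (I * x) + Complex.exp (-(I * x))) / 2 := by
      rw [Complex.cos]
      congr 2
      · rw [mul_comm]
      · congr 1
        ring
    rw [h10]
    calc ‖(Complex.exp (I * x) + Complex.exp (-(I * x))) / 2 - 3 / 5‖
        ≤ ‖(Complex.exp (I * x) + Complex.exp (-(I * x))) / 2‖ + ‖(3 / 5 : ℂ)‖ := norm_sub_le _ _
      _ ≤ (5 / 3 + 5 / 3) / 2 + 3 / 5 := by
          refine add_le_add ?_ ?_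
          · rw [norm_div]
            have h11 := norm_add_le (Complex.exp (I * x)) (Complex.exp (-(I * x)))
            have h12 : ‖(2 : ℂ)‖ = 2 := by simp
            rw [h12]
            linarith
          · norm_num
      _ ≤ 34 / 15 := by norm_num
  have h13 : Wf x - 1 = Complex.exp (I * x) * cc x / 8 := by
    unfold Wf
    ring
  rw [h13, norm_div, norm_mul]
  have h14 : ‖(8 : ℂ)‖ = 8 := by simp
  rw [h14]
  have h15 : ‖Complex.exp (I * x)‖ * ‖cc x‖ ≤ 5 / 3 * (34 / 15) :=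
    mul_le_mul h2 h9 (norm_nonneg _) (by norm_num)
  have h16 : (5 : ℝ) / 3 * (34 / 15) ≤ 4 := by norm_num
  linarith

/-- the algebraic relations, `s = sinh`, `c = cosh` -/
private lemma B4_rel (t : ℂ) (ht : t ∈ St (7 / 2)) :
    Complex.exp (I * X0 t) * (2 * Complex.cosh (lam * t / 2) - I * Complex.sinh (lam * t / 2)) =
      2 * Complex.cosh (lam * t / 2) + I * Complex.sinh (lam * t / 2) ∧
    Complex.exp (-(I * X0 t)) * (2 * Complex.cosh (lam * t / 2) + I * Complex.sinh (lam * t / 2)) =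
      2 * Complex.cosh (lam * t / 2) - I * Complex.sinh (lam * t / 2) ∧
    cc (X0 t) * ((2 * Complex.cosh (lam * t / 2) + I * Complex.sinh (lam * t / 2)) *
      (2 * Complex.cosh (lam * t / 2) - I * Complex.sinh (lam * t / 2))) = 8 / 5 ∧
    2 * Complex.cosh (lam * t / 2) + I * Complex.sinh (lam * t / 2) ≠ 0 ∧
    2 * Complex.cosh (lam * t / 2) - I * Complex.sinh (lam * t / 2) ≠ 0 ∧
    ‖Complex.exp (I * X0 t)‖ ≤ 3 ∧ ‖Complex.exp (-(I * X0 t))‖ ≤ 3 ∧ ‖cc (X0 t)‖ ≤ 16 / 15 := by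
  obtain ⟨hc0, hT, -, -⟩ := tanh_strip t ht
  obtain ⟨-, -, -, -, hcos, hsin⟩ := X0_ode
  have hcos := hcos t ht
  have hsin := hsin t ht
  set s := Complex.sinh (lam * t / 2) with hs
  set c := Complex.cosh (lam * t / 2) with hc
  set T := Complex.tanh (lam * t / 2) with hTd
  have hTc : T * c = s := by
    rw [hTd, Complex.tanh_eq_sinh_div_cosh, ← hs, ← hc, div_mul_cancel₀ _ hc0]
  have hcs : c ^ 2 - s ^ 2 = 1 := by
    rw [hc, hs]
    exact Complex.cosh_sq_sub_sinh_sq _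
  have hz2 : ‖(T / 2) ^ 2‖ ≤ 1 / 4 := by
    rw [norm_pow, norm_div]
    have h12 : ‖(2 : ℂ)‖ = 2 := by simp
    rw [h12]
    have : ‖T‖ / 2 ≤ 1 / 2 := by linarith
    calc (‖T‖ / 2) ^ 2 ≤ (1 / 2) ^ 2 := pow_le_pow_left₀ (by positivity) this 2
      _ = 1 / 4 := by norm_num
  have hlow : 3 / 4 ≤ ‖1 + (T / 2) ^ 2‖ := by
    have h1 := norm_sub_le (1 + (T / 2) ^ 2) ((T / 2) ^ 2)
    have h2 : ‖1 + (T / 2) ^ 2 - (T / 2) ^ 2‖ = 1 := by
      rw [add_sub_cancel_right]
      exact norm_one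
    rw [h2] at h1
    linarith
  have hne : 1 + (T / 2) ^ 2 ≠ 0 := by
    intro h
    rw [h, norm_zero] at hlow
    linarith
  have hT2 : ‖I * (T / 2)‖ ≤ 1 / 2 := by
    rw [norm_mul, Complex.norm_I, one_mul, norm_div]
    have h12 : ‖(2 : ℂ)‖ = 2 := by simp
    rw [h12]
    linarith
  -- exponentials
  have he1 : Complex.exp (I * X0 t) * (1 + (T / 2) ^ 2) = (1 + I * (T / 2)) ^ 2 := by
    rw [mul_comm I (X0 t), Complex.exp_mul_I, add_mul, hcos, mul_right_comm, hsin]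
    linear_combination (-(T / 2) ^ 2) * Complex.I_sq
  have he2 : Complex.exp (-(I * X0 t)) * (1 + (T / 2) ^ 2) = (1 - I * (T / 2)) ^ 2 := by
    have h1 : -(I * X0 t) = (-X0 t) * I := by ring
    rw [h1, Complex.exp_mul_I, Complex.cos_neg, Complex.sin_neg, add_mul, hcos, mul_right_comm,
      neg_mul, hsin]
    linear_combination (-(T / 2) ^ 2) * Complex.I_sq
  have hfac : (2 * c + I * s) * (2 * c - I * s) = 4 * c ^ 2 * (1 + (T / 2) ^ 2) := by
    rw [← hTc]
    linear_combination (-(T * c) ^ 2) * Complex.I_sq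
  have hp0 : (2 * c + I * s) * (2 * c - I * s) ≠ 0 := by
    rw [hfac]
    exact mul_ne_zero (mul_ne_zero (by norm_num) (pow_ne_zero 2 hc0)) hne
  have hp1 : 2 * c + I * s ≠ 0 := left_ne_zero_of_mul hp0
  have hp2 : 2 * c - I * s ≠ 0 := right_ne_zero_of_mul hp0
  have hq1 : 2 * c * (1 + I * (T / 2)) = 2 * c + I * s := by
    rw [← hTc]
    ring
  have hq2 : 2 * c * (1 - I * (T / 2)) = 2 * c - I * s := by
    rw [← hTc]
    ring
  have hE1 : Complex.exp (I * X0 t) * (2 * c - I * s) = 2 * c + I * s := by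
    apply mul_left_cancel₀ hp1
    calc (2 * c + I * s) * (Complex.exp (I * X0 t) * (2 * c - I * s))
        = Complex.exp (I * X0 t) * ((2 * c + I * s) * (2 * c - I * s)) := by ring
      _ = 4 * c ^ 2 * (Complex.exp (I * X0 t) * (1 + (T / 2) ^ 2)) := by rw [hfac]; ring
      _ = (2 * c * (1 + I * (T / 2))) * (2 * c * (1 + I * (T / 2))) := by rw [he1]; ring
      _ = (2 * c + I * s) * (2 * c + I * s) := by rw [hq1]
  have hE2 : Complex.exp (-(I * X0 t)) * (2 * c + I * s) = 2 * c - I * s := by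
    apply mul_left_cancel₀ hp2
    calc (2 * c - I * s) * (Complex.exp (-(I * X0 t)) * (2 * c + I * s))
        = Complex.exp (-(I * X0 t)) * ((2 * c + I * s) * (2 * c - I * s)) := by ring
      _ = 4 * c ^ 2 * (Complex.exp (-(I * X0 t)) * (1 + (T / 2) ^ 2)) := by rw [hfac]; ring
      _ = (2 * c * (1 - I * (T / 2))) * (2 * c * (1 - I * (T / 2))) := by rw [he2]; ring
      _ = (2 * c - I * s) * (2 * c - I * s) := by rw [hq2]
  have hcc : cc (X0 t) * (1 + (T / 2) ^ 2) = 2 / 5 - 8 / 5 * (T / 2) ^ 2 := by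
    unfold cc
    rw [sub_mul, hcos]
    ring
  refine ⟨hE1, hE2, ?_, hp1, hp2, ?_, ?_, ?_⟩
  · rw [hfac]
    calc cc (X0 t) * (4 * c ^ 2 * (1 + (T / 2) ^ 2)) = 4 * c ^ 2 * (cc (X0 t) * (1 + (T / 2) ^ 2)) := by
          ring
      _ = 8 / 5 * (c ^ 2 - (T * c) ^ 2) := by rw [hcc]; ring
      _ = 8 / 5 := by rw [hTc, hcs, mul_one]
  · have h1 : ‖Complex.exp (I * X0 t)‖ * ‖1 + (T / 2) ^ 2‖ = ‖1 + I * (T / 2)‖ ^ 2 := by
      rw [← norm_mul, he1, norm_pow]
    have h2 : ‖1 + I * (T / 2)‖ ≤ 3 / 2 := by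
      have := norm_add_le (1 : ℂ) (I * (T / 2))
      rw [norm_one] at this
      linarith
    have h3 : ‖1 + I * (T / 2)‖ ^ 2 ≤ (3 / 2) ^ 2 := pow_le_pow_left₀ (norm_nonneg _) h2 2
    have h4 := norm_nonneg (Complex.exp (I * X0 t))
    nlinarith
  · have h1 : ‖Complex.exp (-(I * X0 t))‖ * ‖1 + (T / 2) ^ 2‖ = ‖1 - I * (T / 2)‖ ^ 2 := by
      rw [← norm_mul, he2, norm_pow]
    have h2 : ‖1 - I * (T / 2)‖ ≤ 3 / 2 := by
      have := norm_sub_le (1 : ℂ) (I * (T / 2))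
      rw [norm_one] at this
      linarith
    have h3 : ‖1 - I * (T / 2)‖ ^ 2 ≤ (3 / 2) ^ 2 := pow_le_pow_left₀ (norm_nonneg _) h2 2
    have h4 := norm_nonneg (Complex.exp (-(I * X0 t)))
    nlinarith
  · have h1 : ‖cc (X0 t)‖ * ‖1 + (T / 2) ^ 2‖ = ‖2 / 5 - 8 / 5 * (T / 2) ^ 2‖ := by
      rw [← norm_mul, hcc]
    have h2 : ‖2 / 5 - 8 / 5 * (T / 2) ^ 2‖ ≤ 4 / 5 := by
      have h3 := norm_sub_le (2 / 5 : ℂ) (8 / 5 * (T / 2) ^ 2)
      have h4 : ‖(2 / 5 : ℂ)‖ = 2 / 5 := by norm_num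
      have h5 : ‖(8 / 5 : ℂ) * (T / 2) ^ 2‖ ≤ 8 / 5 * (1 / 4) := by
        rw [norm_mul]
        have h6 : ‖(8 / 5 : ℂ)‖ = 8 / 5 := by norm_num
        rw [h6]
        linarith
      linarith
    have h4 := norm_nonneg (cc (X0 t))
    nlinarith

private lemma B4_cc_neg (x : ℂ) : cc (-x) = cc x := by
  unfold cc
  rw [Complex.cos_neg]

theorem Wf_X0 (t : ℂ) (ht : t ∈ St (7 / 2)) : ‖Wf (X0 t) - 1‖ < 1 ∧ ‖Wf (-(X0 t)) - 1‖ < 1 := by
  obtain ⟨-, -, -, -, -, h1, h2, h3⟩ := B4_rel t ht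
  have h8 : ‖(8 : ℂ)‖ = 8 := by simp
  constructor
  · have h4 : Wf (X0 t) - 1 = Complex.exp (I * X0 t) * cc (X0 t) / 8 := by
      unfold Wf
      ring
    rw [h4, norm_div, norm_mul, h8]
    have h5 : ‖Complex.exp (I * X0 t)‖ * ‖cc (X0 t)‖ ≤ 3 * (16 / 15) :=
      mul_le_mul h1 h3 (norm_nonneg _) (by norm_num)
    linarith
  · have h4 : Wf (-(X0 t)) - 1 = Complex.exp (-(I * X0 t)) * cc (X0 t) / 8 := by
      unfold Wf
      rw [B4_cc_neg, mul_neg]
      ring
    rw [h4, norm_div, norm_mul, h8]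
    have h5 : ‖Complex.exp (-(I * X0 t))‖ * ‖cc (X0 t)‖ ≤ 3 * (16 / 15) :=
      mul_le_mul h2 h3 (norm_nonneg _) (by norm_num)
    linarith

private lemma B4_slit (t : ℂ) (ht : t ∈ St (7 / 2)) :
    Wf (X0 t) ∈ Complex.slitPlane ∧ Wf (-(X0 t)) ∈ Complex.slitPlane := by
  obtain ⟨h1, h2⟩ := Wf_X0 t ht
  constructor
  · have := Complex.mem_slitPlane_of_norm_lt_one h1
    simpa using this
  · have := Complex.mem_slitPlane_of_norm_lt_one h2
    simpa using this

/-- the exponential form of the identity -/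
private lemma B4_exp (t : ℂ) (ht : t ∈ St (7 / 2)) :
    Complex.exp (I * FS (X0 t)) = Complex.exp (I * (X0 (t + 1) + X0 (t - 1))) := by
  have hp : t + 1 ∈ St (7 / 2) := by
    have : |t.im| < 7 / 2 := ht
    simpa [St] using this
  have hm : t - 1 ∈ St (7 / 2) := by
    have : |t.im| < 7 / 2 := ht
    simpa [St] using this
  obtain ⟨r1, r2, r3, r4, r5, -, -, -⟩ := B4_rel t ht
  obtain ⟨p1, -, -, -, p5, -, -, -⟩ := B4_rel (t + 1) hp
  obtain ⟨m1, -, -, -, m5, -, -, -⟩ := B4_rel (t - 1) hm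
  obtain ⟨-, -, -, -, -, -, hsl, -⟩ := numbers
  obtain ⟨hw1, hw2⟩ := B4_slit t ht
  have hw1' := Complex.slitPlane_ne_zero hw1
  have hw2' := Complex.slitPlane_ne_zero hw2
  have ea : (lam : ℂ) * (t + 1) / 2 = lam * t / 2 + lam / 2 := by ring
  have eb : (lam : ℂ) * (t - 1) / 2 = lam * t / 2 - lam / 2 := by ring
  have hs1 : Complex.sinh ((lam : ℂ) / 2) = 1 / 5 := by
    have h1 := congrArg (fun x : ℝ => (x : ℂ)) hsl
    simp only [Complex.ofReal_sinh] at h1
    push_cast at h1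
    exact h1
  have hc1 : Complex.cosh ((lam : ℂ) / 2) ^ 2 = 26 / 25 := by
    have h1 := Complex.cosh_sq_sub_sinh_sq ((lam : ℂ) / 2)
    rw [hs1] at h1
    linear_combination h1
  rw [ea, Complex.cosh_add, Complex.sinh_add] at p1 p5
  rw [eb, Complex.cosh_sub, Complex.sinh_sub] at m1 m5
  rw [hs1] at p1 p5 m1 m5
  have hcs : Complex.cosh (lam * t / 2) ^ 2 - Complex.sinh (lam * t / 2) ^ 2 = 1 :=
    Complex.cosh_sq_sub_sinh_sq _
  set s := Complex.sinh (lam * t / 2) with hs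
  set c := Complex.cosh (lam * t / 2) with hc
  set C := Complex.cosh ((lam : ℂ) / 2) with hC
  -- `Wf`
  have hW1 : Wf (X0 t) * (5 * (2 * c - I * s) ^ 2) = 21 * c ^ 2 - 6 * s ^ 2 - 20 * I * s * c := by
    have h1 : Complex.exp (I * X0 t) * cc (X0 t) * (5 * (2 * c - I * s) ^ 2) = 8 := by
      apply mul_left_cancel₀ r4
      calc (2 * c + I * s) * (Complex.exp (I * X0 t) * cc (X0 t) * (5 * (2 * c - I * s) ^ 2))
          = 5 * (Complex.exp (I * X0 t) * (2 * c - I * s)) *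
            (cc (X0 t) * ((2 * c + I * s) * (2 * c - I * s))) := by ring
        _ = (2 * c + I * s) * 8 := by rw [r1, r3]; ring
    unfold Wf
    linear_combination (1 / 8) * h1 + (5 * s ^ 2) * Complex.I_sq - hcs
  have hW2 : Wf (-(X0 t)) * (5 * (2 * c + I * s) ^ 2) =
      21 * c ^ 2 - 6 * s ^ 2 + 20 * I * s * c := by
    have h1 : Complex.exp (-(I * X0 t)) * cc (X0 t) * (5 * (2 * c + I * s) ^ 2) = 8 := by
      apply mul_left_cancel₀ r5
      calc (2 * c - I * s) * (Complex.exp (-(I * X0 t)) * cc (X0 t) * (5 * (2 * c + I * s) ^ 2))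
          = 5 * (Complex.exp (-(I * X0 t)) * (2 * c + I * s)) *
            (cc (X0 t) * ((2 * c + I * s) * (2 * c - I * s))) := by ring
        _ = (2 * c - I * s) * 8 := by rw [r2, r3]; ring
    unfold Wf
    rw [B4_cc_neg, mul_neg]
    linear_combination (1 / 8) * h1 + (5 * s ^ 2) * Complex.I_sq - hcs
  -- the right side
  have hR : Complex.exp (I * (X0 (t + 1) + X0 (t - 1))) *
      (21 * c ^ 2 - 6 * s ^ 2 - 20 * I * s * c) = 21 * c ^ 2 - 6 * s ^ 2 + 20 * I * s * c := by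
    rw [mul_add, Complex.exp_add]
    have e1 : (2 * (c * C + s * (1 / 5)) - I * (s * C + c * (1 / 5))) *
        (2 * (c * C - s * (1 / 5)) - I * (s * C - c * (1 / 5))) =
        (21 * c ^ 2 - 6 * s ^ 2 - 20 * I * s * c) / 5 := by
      linear_combination (4 * c ^ 2 - 4 * I * s * c + I ^ 2 * s ^ 2) * hc1 +
        (26 / 25 * s ^ 2 - 1 / 25 * c ^ 2) * Complex.I_sq
    have e2 : (2 * (c * C + s * (1 / 5)) + I * (s * C + c * (1 / 5))) *
        (2 * (c * C - s * (1 / 5)) + I * (s * C - c * (1 / 5))) =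
        (21 * c ^ 2 - 6 * s ^ 2 + 20 * I * s * c) / 5 := by
      linear_combination (4 * c ^ 2 + 4 * I * s * c + I ^ 2 * s ^ 2) * hc1 +
        (26 / 25 * s ^ 2 - 1 / 25 * c ^ 2) * Complex.I_sq
    have e3 := congrArg₂ (fun a b => a * b) p1 m1
    linear_combination 5 * e3 + 5 * e2 - 5 * (Complex.exp (I * X0 (t + 1)) * Complex.exp (I * X0 (t - 1))) * e1
  have hN : 21 * c ^ 2 - 6 * s ^ 2 - 20 * I * s * c ≠ 0 := by
    rw [← hW1]
    exact mul_ne_zero hw1' (mul_ne_zero (by norm_num) (pow_ne_zero 2 r5))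
  -- the left side
  have hL : Complex.exp (I * FS (X0 t)) *
      (21 * c ^ 2 - 6 * s ^ 2 - 20 * I * s * c) = 21 * c ^ 2 - 6 * s ^ 2 + 20 * I * s * c := by
    have e1 : I * FS (X0 t) = I * X0 t + I * X0 t + (-Complex.log (Wf (X0 t)) +
        Complex.log (Wf (-(X0 t)))) := by
      unfold FS
      linear_combination (Complex.log (Wf (X0 t)) - Complex.log (Wf (-(X0 t)))) * Complex.I_sq
    have e2 : Complex.exp (I * FS (X0 t)) * Wf (X0 t) =
        Complex.exp (I * X0 t) * Complex.exp (I * X0 t) * Wf (-(X0 t)) := by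
      rw [e1, Complex.exp_add, Complex.exp_add, Complex.exp_add, Complex.exp_neg,
        Complex.exp_log hw1', Complex.exp_log hw2']
      field_simp
    rw [← hW1]
    calc Complex.exp (I * FS (X0 t)) * (Wf (X0 t) * (5 * (2 * c - I * s) ^ 2))
        = (Complex.exp (I * FS (X0 t)) * Wf (X0 t)) * (5 * (2 * c - I * s) ^ 2) := by ring
      _ = (Complex.exp (I * X0 t) * (2 * c - I * s)) * (Complex.exp (I * X0 t) * (2 * c - I * s)) *
          (5 * Wf (-(X0 t))) := by rw [e2]; ring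
      _ = Wf (-(X0 t)) * (5 * (2 * c + I * s) ^ 2) := by rw [r1]; ring
      _ = 21 * c ^ 2 - 6 * s ^ 2 + 20 * I * s * c := hW2
  exact mul_right_cancel₀ hN (hL.trans hR.symm)

private lemma B4_open (η : ℝ) : IsOpen (St η) := by
  unfold St
  exact isOpen_lt (Complex.continuous_im.abs) continuous_const

private lemma B4_convex (η : ℝ) : Convex ℝ (St η) := by
  have h1 : St η = Complex.imLm ⁻¹' (Set.Ioo (-η) η) := by
    ext x
    exact (abs_lt (a := x.im) (b := η))
  rw [h1]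
  exact (convex_Ioo (-η) η).linear_preimage Complex.imLm

theorem FS_X0 (t : ℂ) (ht : t ∈ St (7 / 2)) : FS (X0 t) = X0 (t + 1) + X0 (t - 1) := by
  have hdX : DifferentiableOn ℂ X0 (St (7 / 2)) := X0_ode.1
  have hat : ∀ s ∈ St (7 / 2), DifferentiableAt ℂ X0 s := fun s hs =>
    (hdX s hs).differentiableAt ((B4_open _).mem_nhds hs)
  have hshift : ∀ s ∈ St (7 / 2), s + 1 ∈ St (7 / 2) ∧ s - 1 ∈ St (7 / 2) := by
    intro s hs
    have : |s.im| < 7 / 2 := hs
    constructor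
    · simpa [St] using this
    · simpa [St] using this
  have hWd : ∀ x : ℂ, DifferentiableAt ℂ Wf x := by
    intro x
    unfold Wf cc
    fun_prop
  have hD : ∀ s ∈ St (7 / 2), DifferentiableAt ℂ
      (fun s => FS (X0 s) - (X0 (s + 1) + X0 (s - 1))) s := by
    intro s hs
    obtain ⟨hw1, hw2⟩ := B4_slit s hs
    have h0 := hat s hs
    have h1 : DifferentiableAt ℂ (fun s => X0 (s + 1)) s :=
      DifferentiableAt.comp (f := fun s : ℂ => s + 1) (g := X0) s (hat _ (hshift s hs).1)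
        (by fun_prop)
    have h2 : DifferentiableAt ℂ (fun s => X0 (s - 1)) s :=
      DifferentiableAt.comp (f := fun s : ℂ => s - 1) (g := X0) s (hat _ (hshift s hs).2)
        (by fun_prop)
    have h3 : DifferentiableAt ℂ (fun s => Complex.log (Wf (X0 s))) s :=
      ((hWd _).comp s h0).clog hw1
    have h4 : DifferentiableAt ℂ (fun s => Complex.log (Wf (-(X0 s)))) s :=
      ((hWd _).comp s h0.neg).clog hw2
    have h5 : DifferentiableAt ℂ (fun s => FS (X0 s)) s := by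
      unfold FS
      exact (h0.const_mul 2).add ((h3.sub h4).const_mul I)
    exact h5.sub (h1.add h2)
  have hderiv : (St (7 / 2)).EqOn (deriv (fun s => FS (X0 s) - (X0 (s + 1) + X0 (s - 1)))) 0 := by
    intro s hs
    have h1 := (hD s hs).hasDerivAt
    have h2 := (h1.const_mul I).cexp
    have h3 : (fun s => Complex.exp (I * (FS (X0 s) - (X0 (s + 1) + X0 (s - 1))))) =ᶠ[𝓝 s]
        fun _ => (1 : ℂ) := by
      filter_upwards [(B4_open _).mem_nhds hs] with u hu
      rw [mul_sub, Complex.exp_sub, B4_exp u hu, div_self (Complex.exp_ne_zero _)]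
    have h4 := h2.congr_of_eventuallyEq h3.symm
    have h5 := h4.unique (hasDerivAt_const s (1 : ℂ))
    have h6 := mul_eq_zero.1 h5
    rcases h6 with h6 | h6
    · exact absurd h6 (Complex.exp_ne_zero _)
    · rcases mul_eq_zero.1 h6 with h7 | h7
      · exact absurd h7 Complex.I_ne_zero
      · exact h7
  have h0 : (0 : ℂ) ∈ St (7 / 2) := by
    show |(0 : ℂ).im| < 7 / 2
    norm_num
  have hconst := (B4_open (7 / 2)).is_const_of_deriv_eq_zero (B4_convex _).isPreconnected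
    (fun s hs => (hD s hs).differentiableWithinAt) hderiv ht h0
  have hodd := X0_sym.odd
  have hX00 : X0 0 = 0 := by
    have h1 := hodd 0 h0
    rw [neg_zero] at h1
    have h2 : X0 0 + X0 0 = 0 := by
      nth_rewrite 1 [h1]
      ring
    have h3 : 2 * X0 0 = 0 := by rw [two_mul]; exact h2
    rcases mul_eq_zero.1 h3 with h4 | h4
    · norm_num at h4
    · exact h4
  have hX1 : X0 (0 - 1) = -X0 (0 + 1) := by
    have h1 := hodd (0 + 1) (hshift 0 h0).1
    rw [← h1]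
    congr 1
    ring
  have hFS0 : FS (X0 0) - (X0 (0 + 1) + X0 (0 - 1)) = 0 := by
    rw [hX1, hX00]
    unfold FS
    rw [neg_zero]
    ring
  rw [hFS0] at hconst
  exact sub_eq_zero.1 hconst

end LibEY38
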