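import Pool.Agent.LibEY38.Defs
import Pool.Agent.LibEY38.B0
import Pool.Agent.LibEY38.B4

open Complex Set Filter Topology MeasureTheory
open scoped ComplexConjugate

namespace LibEY38

/-
ROW B5 (MEDIUM). The Suris function on the strip |Im x| < 1/2 and on the real line.
Derivative: with al = 1 + (1/8)(1 - (3/5) cos x) (2 q^2 = 1/8) and p^2 = cosh^2(lam/2) = 26/25:
FS'(x) = 2 al / (al^2 - 4 q^2 p^2 sin^2 x) = 2 al/(al^2 - (13/50) sin^2 x)  (4 q^2 p^2 = (1/4)(26/25) = 13/50), x in St (1/2) (it follows from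
Wf x * Wf (-x) = al^2 - (13/50) sin^2 x =: Dn and FS' = 2 + I (Wf'(x)/Wf(x) + Wf'(-x)/Wf(-x)); polynomial identity in cos, sin. Checked
numerically.) Note Wf(x) Wf(-x) ≠ 0 on St (1/2).
FS aa = 2 aa: cc aa = 0 so Wf (±aa) = 1. deriv FS aa = 54/25.
-/
private theorem B5_open : IsOpen (St (1 / 2)) := by
  have h1 : St (1 / 2) = (fun z : ℂ => |z.im|) ⁻¹' Set.Iio (1 / 2) := rfl
  rw [h1]
  exact isOpen_Iio.preimage (continuous_abs.comp Complex.continuous_im)

private theorem B5_neg {x : ℂ} (hx : x ∈ St (1 / 2)) : -x ∈ St (1 / 2) := by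
  have h1 : |x.im| < 1 / 2 := hx
  show |(-x).im| < 1 / 2
  rw [Complex.neg_im, abs_neg]
  exact h1

private theorem B5_re {x : ℂ} (hx : x ∈ St (1 / 2)) : 1 / 2 ≤ (Wf x).re := by
  have h1 := (Complex.abs_re_le_norm (Wf x - 1)).trans (Wf_re x hx)
  rw [Complex.sub_re, Complex.one_re, abs_le] at h1
  linarith [h1.1]

private theorem B5_slit {x : ℂ} (hx : x ∈ St (1 / 2)) : Wf x ∈ Complex.slitPlane :=
  Or.inl (by linarith [B5_re hx])

private theorem B5_ne {x : ℂ} (hx : x ∈ St (1 / 2)) : Wf x ≠ 0 := Complex.slitPlane_ne_zero (B5_slit hx)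

private theorem B5_norm {x : ℂ} (hx : x ∈ St (1 / 2)) : 1 / 2 ≤ ‖Wf x‖ :=
  (B5_re hx).trans ((le_abs_self _).trans (Complex.abs_re_le_norm _))

private theorem B5_hasDeriv (x : ℂ) :
    HasDerivAt Wf ((I * Complex.exp (I * x) * cc x - Complex.exp (I * x) * Complex.sin x) / 8) x := by
  have h1 : HasDerivAt (fun z : ℂ => Complex.exp (I * z)) (Complex.exp (I * x) * (I * 1)) x :=
    ((hasDerivAt_id x).const_mul I).cexp
  have h2 : HasDerivAt cc (-Complex.sin x) x := (Complex.hasDerivAt_cos x).sub_const _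
  have h3 := ((h1.mul h2).div_const 8).const_add 1
  refine h3.congr_deriv ?_
  ring

private theorem B5_FS_hasDeriv {x : ℂ} (hx : x ∈ St (1 / 2)) :
    HasDerivAt FS (2 + I * ((I * Complex.exp (I * x) * cc x - Complex.exp (I * x) * Complex.sin x) / 8 / Wf x -
      -((I * Complex.exp (I * -x) * cc (-x) - Complex.exp (I * -x) * Complex.sin (-x)) / 8) / Wf (-x))) x := by
  have h1 := (B5_hasDeriv x).clog (B5_slit hx)
  have h2 : HasDerivAt (fun z : ℂ => Wf (-z))
      (-((I * Complex.exp (I * -x) * cc (-x) - Complex.exp (I * -x) * Complex.sin (-x)) / 8)) x := by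
    have h3 := (B5_hasDeriv (-x)).comp x (hasDerivAt_neg x)
    refine h3.congr_deriv ?_
    ring
  have h4 := h2.clog (B5_slit (B5_neg hx))
  have h5 := ((hasDerivAt_id x).const_mul 2).add ((h1.sub h4).const_mul I)
  refine h5.congr_deriv ?_
  ring

theorem FS_diff : DifferentiableOn ℂ FS (St (1 / 2)) := fun _ hx =>
  (B5_FS_hasDeriv hx).differentiableAt.differentiableWithinAt

private theorem B5_conj (x : ℂ) : Wf (conj x) = conj (Wf (-x)) := by
  unfold Wf cc
  rw [map_add, map_div₀, map_mul, map_sub, map_one, ← Complex.exp_conj, ← Complex.cos_conj, map_mul,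
    Complex.conj_I, map_neg, Complex.cos_neg]
  have h1 : (conj (3 / 5 : ℂ)) = 3 / 5 := by
    rw [map_div₀, map_ofNat, map_ofNat]
  rw [h1, map_ofNat, neg_mul_neg]

theorem FS_sym : Sym (1 / 2) FS := by
  refine ⟨fun x _ => ?_, fun x hx => ?_⟩
  · unfold FS
    rw [neg_neg]
    ring
  · have hlog : ∀ y ∈ St (1 / 2), Complex.log (conj (Wf y)) = conj (Complex.log (Wf y)) := by
      intro y hy
      exact Complex.log_conj _ (Complex.slitPlane_arg_ne_pi (B5_slit hy))
    have h1 : Wf (-conj x) = conj (Wf x) := by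
      have h2 := B5_conj (-x)
      rw [neg_neg, map_neg] at h2
      exact h2
    unfold FS
    rw [B5_conj, h1, hlog _ (B5_neg hx), hlog _ hx, map_add, map_mul, map_mul, map_sub, Complex.conj_I,
      map_ofNat]
    ring

theorem FS_per (x : ℂ) : FS (x + 2 * Real.pi) = FS x + 4 * Real.pi := by
  have h1 : ∀ y : ℂ, Wf (y + 2 * Real.pi) = Wf y := by
    intro y
    unfold Wf cc
    rw [Complex.cos_add_two_pi, show I * (y + 2 * (Real.pi : ℂ)) = I * y + 2 * Real.pi * I by ring,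
      Complex.exp_periodic]
  have h2 : Wf (-(x + 2 * Real.pi)) = Wf (-x) := by
    have h3 := h1 (-(x + 2 * Real.pi))
    rw [← h3]
    congr 1
    ring
  unfold FS
  rw [h1, h2]
  ring

private theorem B5_cs (x : ℂ) : Complex.cos x ^ 2 + Complex.sin x ^ 2 = 1 := by
  rw [add_comm]
  exact Complex.sin_sq_add_cos_sq x

private theorem B5_exp (x : ℂ) : Complex.exp (I * x) = Complex.cos x + Complex.sin x * I := by
  rw [mul_comm, Complex.exp_mul_I]

private theorem B5_prod (x : ℂ) : Wf x * Wf (-x) =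
    (1 + (1 - 3 / 5 * Complex.cos x) / 8) ^ 2 - 13 / 50 * Complex.sin x ^ 2 := by
  unfold Wf cc
  rw [B5_exp, B5_exp, Complex.cos_neg, Complex.sin_neg]
  have h1 := B5_cs x
  have h2 := Complex.I_sq
  linear_combination ((Complex.cos x - 3 / 5) ^ 2 / 64 + 13 / 50) * h1 -
    Complex.sin x ^ 2 * (Complex.cos x - 3 / 5) ^ 2 / 64 * h2

theorem FS_deriv (x : ℂ) (hx : x ∈ St (1 / 2)) :
    (1 + (1 - 3 / 5 * Complex.cos x) / 8) ^ 2 - 13 / 50 * Complex.sin x ^ 2 ≠ 0 ∧
    deriv FS x = 2 * (1 + (1 - 3 / 5 * Complex.cos x) / 8) /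
      ((1 + (1 - 3 / 5 * Complex.cos x) / 8) ^ 2 - 13 / 50 * Complex.sin x ^ 2) := by
  have hW := B5_ne hx
  have hW' := B5_ne (B5_neg hx)
  rw [← B5_prod]
  refine ⟨mul_ne_zero hW hW', ?_⟩
  rw [(B5_FS_hasDeriv hx).deriv, eq_div_iff (mul_ne_zero hW hW')]
  have h3 : (2 + I * ((I * Complex.exp (I * x) * cc x - Complex.exp (I * x) * Complex.sin x) / 8 / Wf x -
      -((I * Complex.exp (I * -x) * cc (-x) - Complex.exp (I * -x) * Complex.sin (-x)) / 8) / Wf (-x))) *
      (Wf x * Wf (-x)) =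
      2 * (Wf x * Wf (-x)) + I * ((I * Complex.exp (I * x) * cc x - Complex.exp (I * x) * Complex.sin x) / 8 *
        Wf (-x) + (I * Complex.exp (I * -x) * cc (-x) - Complex.exp (I * -x) * Complex.sin (-x)) / 8 * Wf x) := by
    field_simp
    ring
  rw [h3]
  unfold Wf cc
  rw [B5_exp, B5_exp, Complex.cos_neg, Complex.sin_neg]
  have h1 := B5_cs x
  have h2 := Complex.I_sq
  have e : Complex.sin x ^ 2 = 1 - Complex.cos x ^ 2 := by linear_combination h1
  have e3 : I ^ 3 = -I := by rw [pow_succ, h2]; ring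
  have e4 : I ^ 4 = 1 := by rw [show (4 : ℕ) = 2 * 2 from rfl, pow_mul, h2]; ring
  ring_nf
  simp only [h2, e3, e4]
  ring_nf
  have e' : Complex.sin x ^ 2 = 1 - Complex.cos x ^ 2 := e
  simp only [e']
  ring

theorem FS_aa : FS aa = 2 * aa ∧ deriv FS aa = 54 / 25 := by
  obtain ⟨_, _, _, _, _, _, _, hcos, hsin, _, _⟩ := numbers
  have hc : Complex.cos aa = 3 / 5 := by
    rw [← Complex.ofReal_cos, hcos]
    push_cast
    ring
  have hs : Complex.sin aa = 4 / 5 := by
    rw [← Complex.ofReal_sin, hsin]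
    push_cast
    ring
  have h1 : Wf aa = 1 := by
    unfold Wf cc
    rw [hc]
    ring
  have h2 : Wf (-(aa : ℂ)) = 1 := by
    unfold Wf cc
    rw [Complex.cos_neg, hc]
    ring
  constructor
  · unfold FS
    rw [h1, h2]
    ring
  · have h3 := (FS_deriv aa (by
      show |((aa : ℝ) : ℂ).im| < 1 / 2
      rw [Complex.ofReal_im, abs_zero]
      norm_num)).2
    rw [h3, hc, hs]
    norm_num

theorem FS_d2_bound : ∃ M : ℝ, 0 < M ∧ ∀ x ∈ St (2 / 5), ‖deriv (deriv FS) x‖ ≤ M := by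
  set M₁ : ℝ := 2 * (1 + (1 + 3 / 5 * Real.exp (1 / 2)) / 8) / (1 / 4) with hM₁
  have hM₁pos : 0 < M₁ := by positivity
  have hcos : ∀ x ∈ St (1 / 2), ‖Complex.cos x‖ ≤ Real.exp (1 / 2) := by
    intro x hx
    have hx' : |x.im| < 1 / 2 := hx
    rw [abs_lt] at hx'
    unfold Complex.cos
    rw [norm_div, Complex.norm_ofNat, div_le_iff₀ (by norm_num)]
    refine (norm_add_le _ _).trans ?_
    rw [Complex.norm_exp, Complex.norm_exp]
    have e1 : Real.exp (x * I).re ≤ Real.exp (1 / 2) := Real.exp_le_exp.2 (by simp; linarith)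
    have e2 : Real.exp (-x * I).re ≤ Real.exp (1 / 2) := Real.exp_le_exp.2 (by simp; linarith)
    linarith
  have hb : ∀ x ∈ St (1 / 2), ‖deriv FS x‖ ≤ M₁ := by
    intro x hx
    rw [(FS_deriv x hx).2, ← B5_prod, norm_div, norm_mul, norm_mul]
    have h1 : 1 / 4 ≤ ‖Wf x‖ * ‖Wf (-x)‖ := by
      have e1 := B5_norm hx
      have e2 := B5_norm (B5_neg hx)
      nlinarith
    have h2 : ‖(1 + (1 - 3 / 5 * Complex.cos x) / 8 : ℂ)‖ ≤ 1 + (1 + 3 / 5 * Real.exp (1 / 2)) / 8 := by
      refine (norm_add_le _ _).trans ?_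
      rw [norm_one, norm_div, Complex.norm_ofNat]
      have e1 : ‖(1 - 3 / 5 * Complex.cos x : ℂ)‖ ≤ 1 + 3 / 5 * Real.exp (1 / 2) := by
        refine (norm_sub_le _ _).trans ?_
        rw [norm_one, norm_mul]
        have e2 : ‖(3 / 5 : ℂ)‖ = 3 / 5 := by
          rw [norm_div, Complex.norm_ofNat, Complex.norm_ofNat]
        rw [e2]
        have e3 := hcos x hx
        linarith
      linarith [div_le_div_of_nonneg_right e1 (by norm_num : (0 : ℝ) ≤ 8)]
    rw [hM₁, Complex.norm_ofNat]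
    exact div_le_div₀ (by positivity) (by linarith) (by norm_num) h1
  refine ⟨M₁ / (1 / 20), by positivity, fun x hx => ?_⟩
  have hx' : |x.im| < 2 / 5 := hx
  have hsub : Metric.closedBall x (1 / 20) ⊆ St (1 / 2) := by
    intro z hz
    rw [Metric.mem_closedBall, dist_eq_norm] at hz
    have h1 := (Complex.abs_im_le_norm (z - x)).trans hz
    rw [Complex.sub_im] at h1
    show |z.im| < 1 / 2
    rw [abs_lt] at hx' ⊢
    rw [abs_le] at h1
    constructor <;> linarith [h1.1, h1.2]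
  have hd : DifferentiableOn ℂ (deriv FS) (St (1 / 2)) := FS_diff.deriv B5_open
  refine Complex.norm_deriv_le_of_forall_mem_sphere_norm_le (by norm_num) ?_ fun z hz => ?_
  · apply DifferentiableOn.diffContOnCl
    refine hd.mono (subset_trans ?_ hsub)
    exact Metric.closure_ball_subset_closedBall
  · exact hb z (hsub (Metric.sphere_subset_closedBall hz))

end LibEY38
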