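import Pool.Agent.LibEY38.Defs
import Pool.Agent.LibEY38.B0
import Pool.Agent.LibEY38.B2
import Pool.Agent.LibEY38.B3

open Complex Set Filter Topology MeasureTheory
open scoped ComplexConjugate

namespace LibEY38

private theorem N1_sin_exp (z : ℂ) : ‖Complex.sin z‖ ≤ Real.exp ‖z‖ := by
  have h1 : Complex.sin z = (Complex.exp (-z * I) - Complex.exp (z * I)) * I / 2 := rfl
  have h2 : ‖Complex.exp (-z * I)‖ ≤ Real.exp ‖z‖ := by
    refine (Complex.norm_exp_le_exp_norm _).trans (le_of_eq ?_)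
    rw [norm_mul, Complex.norm_I, mul_one, norm_neg]
  have h3 : ‖Complex.exp (z * I)‖ ≤ Real.exp ‖z‖ := by
    refine (Complex.norm_exp_le_exp_norm _).trans (le_of_eq ?_)
    rw [norm_mul, Complex.norm_I, mul_one]
  rw [h1, norm_div, norm_mul, Complex.norm_I, mul_one, Complex.norm_ofNat]
  have h4 := norm_sub_le (Complex.exp (-z * I)) (Complex.exp (z * I))
  linarith

private theorem N1_sin_lin (z : ℂ) (hz : ‖z‖ ≤ 1) : ‖Complex.sin z‖ ≤ 2 * ‖z‖ := by
  have h1 : Complex.sin z =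
      ((Complex.exp (-z * I) - 1) - (Complex.exp (z * I) - 1)) * I / 2 := by
    rw [sub_sub_sub_cancel_right]
    rfl
  have h2 : ‖Complex.exp (-z * I) - 1‖ ≤ 2 * ‖z‖ := by
    have h : ‖-z * I‖ = ‖z‖ := by rw [norm_mul, Complex.norm_I, mul_one, norm_neg]
    rw [← h]
    exact Complex.norm_exp_sub_one_le (by rw [h]; exact hz)
  have h3 : ‖Complex.exp (z * I) - 1‖ ≤ 2 * ‖z‖ := by
    have h : ‖z * I‖ = ‖z‖ := by rw [norm_mul, Complex.norm_I, mul_one]
    rw [← h]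
    exact Complex.norm_exp_sub_one_le (by rw [h]; exact hz)
  rw [h1, norm_div, norm_mul, Complex.norm_I, mul_one, Complex.norm_ofNat]
  have h4 := norm_sub_le (Complex.exp (-z * I) - 1) (Complex.exp (z * I) - 1)
  linarith

private theorem N1_exp54 : Real.exp (5 / 4) ≤ 4 := by
  have h1 : Real.exp (5 / 4) ^ 4 = Real.exp 1 ^ 5 := by
    rw [← Real.exp_nat_mul, ← Real.exp_nat_mul]
    norm_num
  have h2 := Real.exp_one_lt_d9
  have h3 : Real.exp 1 ^ 5 ≤ (2.7182818286 : ℝ) ^ 5 :=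
    pow_le_pow_left₀ (Real.exp_pos 1).le h2.le 5
  by_contra h
  push Not at h
  have h4 : (4 : ℝ) ^ 4 < Real.exp (5 / 4) ^ 4 := pow_lt_pow_left₀ h (by norm_num) (by norm_num)
  rw [h1] at h4
  norm_num at h3 h4
  linarith

private theorem N1_cos_sub (x y : ℂ) (hx : ‖x‖ ≤ 5 / 4) (hy : ‖y‖ ≤ 5 / 4) (hxy : ‖x - y‖ ≤ 2) :
    ‖Complex.cos x - Complex.cos y‖ ≤ 8 * ‖x - y‖ := by
  rw [Complex.cos_sub_cos, norm_mul, norm_mul, norm_neg, Complex.norm_ofNat]
  have h1 : ‖Complex.sin ((x + y) / 2)‖ ≤ 4 := by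
    refine (N1_sin_exp _).trans ((Real.exp_le_exp.2 ?_).trans N1_exp54)
    rw [norm_div, Complex.norm_ofNat]
    have := norm_add_le x y
    linarith
  have h2 : ‖Complex.sin ((x - y) / 2)‖ ≤ ‖x - y‖ := by
    refine (N1_sin_lin _ ?_).trans (le_of_eq ?_)
    · rw [norm_div, Complex.norm_ofNat]
      linarith
    · rw [norm_div, Complex.norm_ofNat]
      ring
  calc 2 * ‖Complex.sin ((x + y) / 2)‖ * ‖Complex.sin ((x - y) / 2)‖
      ≤ 2 * 4 * ‖x - y‖ := by gcongr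
    _ = 8 * ‖x - y‖ := by ring

private theorem N1_wt_le (t : ℂ) : wt t ≤ 1 := by
  unfold wt
  rw [Real.exp_le_one_iff]
  have := numbers.1
  have : 0 ≤ lam * |t.re| := mul_nonneg (by linarith) (abs_nonneg _)
  linarith

private theorem N1_wt_pos (t : ℂ) : 0 < wt t := Real.exp_pos _

private theorem N1_wt_ge (t : ℂ) (h : |t.re| ≤ 1 / 2) : 4 / 5 ≤ wt t := by
  unfold wt
  have h1 := numbers.1
  have h2 := numbers.2.1
  have h3 : lam * |t.re| ≤ (2 / 5) * (1 / 2) :=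
    mul_le_mul h2.le h (abs_nonneg _) (by norm_num)
  have h4 := Real.add_one_le_exp (-(lam * |t.re|))
  linarith

private theorem N1_convex (η : ℝ) : Convex ℝ (St η) := by
  have h : St η = {t : ℂ | t.im < η} ∩ {t : ℂ | -η < t.im} := by
    ext t
    simp only [St, Set.mem_ofPred_eq, Set.mem_inter_iff, abs_lt]
    tauto
  rw [h]
  exact (convex_halfSpace_im_lt η).inter (convex_halfSpace_im_gt (-η))

private theorem N1_open (η : ℝ) : IsOpen (St η) :=
  isOpen_lt (continuous_abs.comp Complex.continuous_im) continuous_const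

private theorem N1_exp32 : Real.exp (3 / 2) ≤ 9 / 2 := by
  have h1 : Real.exp (3 / 2) ^ 2 = Real.exp 1 ^ 3 := by
    rw [← Real.exp_nat_mul, ← Real.exp_nat_mul]
    norm_num
  have h2 := Real.exp_one_lt_d9
  have h3 : Real.exp 1 ^ 3 ≤ (2.7182818286 : ℝ) ^ 3 :=
    pow_le_pow_left₀ (Real.exp_pos 1).le h2.le 3
  by_contra h
  push Not at h
  have h4 : (9 / 2 : ℝ) ^ 2 < Real.exp (3 / 2) ^ 2 := pow_lt_pow_left₀ h (by norm_num) (by norm_num)
  rw [h1] at h4
  norm_num at h3 h4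
  linarith

private theorem N1_exp32' : Real.exp (-(3 / 2)) ≤ 1 / 3 := by
  rw [Real.exp_neg]
  have h1 := Real.quadratic_le_exp_of_nonneg (x := 3 / 2) (by norm_num)
  rw [inv_eq_one_div]
  apply one_div_le_one_div_of_le (by norm_num)
  linarith

private theorem N1_sinh : Real.sinh (3 / 2) ≤ 9 / 4 := by
  rw [Real.sinh_eq]
  have h1 := N1_exp32
  have h2 := Real.exp_pos (-(3 / 2))
  linarith

private theorem N1_cosh : Real.cosh (3 / 2) ≤ 5 / 2 := by
  rw [Real.cosh_eq]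
  have h1 := N1_exp32
  have h2 := N1_exp32'
  linarith

private theorem N1_sin_sub (z : ℂ) (hz : ‖z‖ ≤ 3 / 2) : ‖Complex.sin z - z‖ ≤ ‖z‖ / 2 := by
  have h1 := (hasSum_nat_add_iff' 1).2 (Complex.hasSum_sin z)
  have h2 := ((hasSum_nat_add_iff' 1).2 (Real.hasSum_sinh (3 / 2))).mul_left (‖z‖ / (3 / 2))
  have h3 := h1.norm_le_of_bounded h2 (fun n => by
    rw [norm_div, norm_mul, norm_pow, norm_neg, norm_one, one_pow, one_mul, norm_pow,
      Complex.norm_natCast, ← mul_div_assoc]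
    apply div_le_div_of_nonneg_right _ (Nat.cast_nonneg _)
    rw [show 2 * (n + 1) + 1 = (2 * (n + 1)) + 1 from rfl, pow_succ, pow_succ (3 / 2 : ℝ)]
    have h4 : ‖z‖ ^ (2 * (n + 1)) ≤ (3 / 2 : ℝ) ^ (2 * (n + 1)) :=
      pow_le_pow_left₀ (norm_nonneg z) hz _
    calc ‖z‖ ^ (2 * (n + 1)) * ‖z‖ ≤ (3 / 2 : ℝ) ^ (2 * (n + 1)) * ‖z‖ :=
          mul_le_mul_of_nonneg_right h4 (norm_nonneg z)
      _ = ‖z‖ / (3 / 2) * ((3 / 2) ^ (2 * (n + 1)) * (3 / 2)) := by ring)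
  simp only [Finset.sum_range_one, Nat.mul_zero, Nat.zero_add, pow_zero, pow_one, one_mul,
    Nat.factorial_one, Nat.cast_one, div_one, mul_zero, zero_add] at h3
  refine h3.trans ?_
  have h5 := N1_sinh
  have h6 := norm_nonneg z
  calc ‖z‖ / (3 / 2) * (Real.sinh (3 / 2) - 3 / 2) ≤ ‖z‖ / (3 / 2) * (9 / 4 - 3 / 2) := by
        apply mul_le_mul_of_nonneg_left _ (by positivity)
        linarith
    _ = ‖z‖ / 2 := by ring

private theorem N1_cos_le (z : ℂ) (hz : ‖z‖ ≤ 3 / 2) : ‖Complex.cos z‖ ≤ 5 / 2 := by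
  have h1 : Complex.cos z = (Complex.exp (z * I) + Complex.exp (-z * I)) / 2 := rfl
  have h2 : ‖Complex.exp (z * I)‖ = Real.exp (-z.im) := by
    rw [Complex.norm_exp]
    simp
  have h3 : ‖Complex.exp (-z * I)‖ = Real.exp (z.im) := by
    rw [Complex.norm_exp]
    simp
  have h4 : Real.cosh z.im ≤ Real.cosh (3 / 2) := by
    rw [Real.cosh_le_cosh, abs_of_nonneg (by norm_num : (0 : ℝ) ≤ 3 / 2)]
    exact (Complex.abs_im_le_norm z).trans hz
  rw [h1, norm_div, Complex.norm_ofNat]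
  have h5 := norm_add_le (Complex.exp (z * I)) (Complex.exp (-z * I))
  rw [h2, h3] at h5
  have h6 := N1_cosh
  rw [Real.cosh_eq] at h4
  linarith

/-
ROW N1 (MEDIUM). Facts about curves near X0 (only X0_bounds, X0_sep, X0_height are used).
|X' - X0'| <= ε wt etc. with ε <= 1/1000; |cos x - cos y| <= 2 |x - y| for |Im| small (|x|,|y| <= 5/4: |sin| <= sinh-type bound 1.7).
Separation: Z = X - X0 satisfies |Z t - Z τ| <= ε min(2, |t-τ|) (mean value inequality on the convex strip, |Z'| <= ε), so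
|X t - X τ| >= (1/10 - 2/1000) min 1 |t-τ|.
sin bound: for |s| <= 3, |sin(s/2)| >= 2|s/2| - sinh|s/2| >= |s|/4 (sin series), and |cos(s/2)| <= cosh(3/2) <= 5/2: so for
|s| <= 5/2 (s ≠ 0) |kc s| <= 6/|s|.
-/
theorem near_facts (X : ℂ → ℂ) (η ε : ℝ) (hη' : η ≤ 7 / 2) (hε : 0 ≤ ε) (hε' : ε ≤ 1 / 1000)
    (hX : Near η ε X) :
    (∀ t ∈ St η, 1 / 10 * wt t ≤ ‖deriv X t‖ ∧ ‖deriv X t‖ ≤ 3 * wt t ∧ ‖deriv (deriv X) t‖ ≤ 3 * wt t ∧
      ‖X t‖ ≤ 5 / 4 ∧ (0 ≤ t.re → ‖X t - aa‖ ≤ 7 * wt t) ∧ (t.re ≤ 0 → ‖X t + aa‖ ≤ 7 * wt t) ∧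
      ‖cc (X t)‖ ≤ 5 * wt t) ∧
    (∀ τ ∈ St η, Pole τ → 1 / 5 ≤ ‖cc (X τ)‖ ∧ (1 / 2 ≤ |τ.im| → 7 / 100 ≤ |(X τ).im|)) ∧
    (∀ t ∈ St η, ∀ τ ∈ St η, Pole τ → 1 / 20 * min 1 ‖t - τ‖ ≤ ‖X t - X τ‖) := by
  have hsub : St η ⊆ St (7 / 2) := fun t ht => lt_of_lt_of_le ht hη'
  have hew : ∀ t, ε * wt t ≤ ε := fun t => mul_le_of_le_one_right hε (N1_wt_le t)
  have hcc : ∀ t ∈ St η, ‖cc (X t) - cc (X0 t)‖ ≤ 8 / 1000 * wt t := by
    intro t ht
    obtain ⟨-, -, -, b4, -⟩ := X0_bounds t (hsub ht)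
    have h0 := hX.c0 t ht
    have h1 := hew t
    have hw := N1_wt_pos t
    have h2 : ‖X t‖ ≤ 5 / 4 := by
      have := norm_sub_norm_le (X t) (X0 t)
      linarith
    have h3 := N1_cos_sub (X t) (X0 t) h2 (by linarith) (by linarith)
    have h4 : cc (X t) - cc (X0 t) = Complex.cos (X t) - Complex.cos (X0 t) := by
      unfold cc
      ring
    rw [h4]
    have h5 : ε * wt t ≤ 1 / 1000 * wt t := mul_le_mul_of_nonneg_right hε' hw.le
    linarith
  refine ⟨fun t ht => ?_, fun τ hτ hp => ?_, fun t ht τ hτ hp => ?_⟩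
  · obtain ⟨b1, b2, b3, b4, b5, b6, b7, b8⟩ := X0_bounds t (hsub ht)
    have h0 := hX.c0 t ht
    have h1 := hX.c1 t ht
    have h2 := hX.c2 t ht
    have hw := N1_wt_pos t
    have hw1 := N1_wt_le t
    have h5 : ε * wt t ≤ 1 / 1000 * wt t := mul_le_mul_of_nonneg_right hε' hw.le
    have e1 := norm_sub_norm_le (deriv X0 t) (deriv X t)
    rw [norm_sub_rev] at e1
    have e2 := norm_sub_norm_le (deriv X t) (deriv X0 t)
    have e3 := norm_sub_norm_le (deriv (deriv X) t) (deriv (deriv X0) t)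
    have e4 := norm_sub_norm_le (X t) (X0 t)
    have e5 := norm_sub_norm_le (cc (X t)) (cc (X0 t))
    have e6 := hcc t ht
    refine ⟨by linarith, by linarith, by linarith, by linarith, fun h => ?_, fun h => ?_,
      by linarith⟩
    · have e7 : X t - aa = (X t - X0 t) + (X0 t - aa) := by ring
      rw [e7]
      have e8 := norm_add_le (X t - X0 t) (X0 t - aa)
      have e9 := b5 h
      linarith
    · have e7 : X t + aa = (X t - X0 t) + (X0 t + aa) := by ring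
      rw [e7]
      have e8 := norm_add_le (X t - X0 t) (X0 t + aa)
      have e9 := b6 h
      linarith
  · obtain ⟨b1, b2, b3, b4, b5, b6, b7, b8⟩ := X0_bounds τ (hsub hτ)
    have hw := N1_wt_ge τ hp.1
    have hw1 := N1_wt_le τ
    refine ⟨?_, fun h => ?_⟩
    · have e5 := norm_sub_norm_le (cc (X0 τ)) (cc (X τ))
      rw [norm_sub_rev] at e5
      have e6 := hcc τ hτ
      linarith
    · have e1 := X0_height τ hp h
      have e2 := hX.c0 τ hτ
      have e3 := hew τ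
      have e4 := Complex.abs_im_le_norm (X τ - X0 τ)
      rw [Complex.sub_im] at e4
      have e5 := abs_sub_abs_le_abs_sub (X0 τ).im (X τ).im
      rw [abs_sub_comm] at e5
      linarith
  · have hd : ∀ s ∈ St η, DifferentiableAt ℂ X s := fun s hs =>
      hX.diff.differentiableAt ((N1_open η).mem_nhds hs)
    have hd0 : ∀ s ∈ St η, DifferentiableAt ℂ X0 s := fun s hs =>
      X0_ode.1.differentiableAt ((N1_open _).mem_nhds (hsub hs))
    have h1 : ‖(X t - X0 t) - (X τ - X0 τ)‖ ≤ ε * ‖t - τ‖ :=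
      (N1_convex η).norm_image_sub_le_of_norm_deriv_le (f := fun s => X s - X0 s)
        (fun s hs => (hd s hs).sub (hd0 s hs))
        (fun s hs => by
          rw [deriv_fun_sub (hd s hs) (hd0 s hs)]
          exact (hX.c1 s hs).trans (hew s)) hτ ht
    have h2 : ‖(X t - X0 t) - (X τ - X0 τ)‖ ≤ 2 * ε := by
      have e1 := norm_sub_le (X t - X0 t) (X τ - X0 τ)
      have e2 := (hX.c0 t ht).trans (hew t)
      have e3 := (hX.c0 τ hτ).trans (hew τ)
      linarith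
    have h3 := X0_sep t τ (hsub ht) hp
    have h4 : ‖X0 t - X0 τ‖ - ‖X t - X τ‖ ≤ ‖(X t - X0 t) - (X τ - X0 τ)‖ := by
      have e1 := norm_sub_norm_le (X0 t - X0 τ) (X t - X τ)
      rw [norm_sub_rev (X0 t - X0 τ) (X t - X τ)] at e1
      have e2 : (X t - X0 t) - (X τ - X0 τ) = (X t - X τ) - (X0 t - X0 τ) := by ring
      rw [e2]
      exact e1
    have h5 : ‖(X t - X0 t) - (X τ - X0 τ)‖ ≤ 1 / 500 * min 1 ‖t - τ‖ := by
      rcases le_total 1 ‖t - τ‖ with h | h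
      · rw [min_eq_left h]
        linarith
      · rw [min_eq_right h]
        have h6 : ε * ‖t - τ‖ ≤ 1 / 1000 * ‖t - τ‖ :=
          mul_le_mul_of_nonneg_right hε' (norm_nonneg _)
        have h7 := norm_nonneg (t - τ)
        linarith
    have h8 : 0 ≤ min 1 ‖t - τ‖ := le_min zero_le_one (norm_nonneg _)
    linarith

theorem kc_bound (s : ℂ) (hs : ‖s‖ ≤ 3) (h0 : s ≠ 0) :
    Complex.sin (s / 2) ≠ 0 ∧ ‖s‖ / 4 ≤ ‖Complex.sin (s / 2)‖ ∧ ‖kc s‖ ≤ 6 / ‖s‖ := by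
  have hs2 : ‖s / 2‖ = ‖s‖ / 2 := by rw [norm_div, Complex.norm_ofNat]
  have hpos : 0 < ‖s‖ := norm_pos_iff.2 h0
  have h1 := N1_sin_sub (s / 2) (by rw [hs2]; linarith)
  have h2 := N1_cos_le (s / 2) (by rw [hs2]; linarith)
  have h3 : ‖s‖ / 4 ≤ ‖Complex.sin (s / 2)‖ := by
    have e1 := norm_sub_norm_le (s / 2) (Complex.sin (s / 2))
    rw [norm_sub_rev] at e1
    rw [hs2] at h1 e1
    linarith
  have h4 : Complex.sin (s / 2) ≠ 0 := by
    rw [← norm_pos_iff]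
    linarith
  refine ⟨h4, h3, ?_⟩
  unfold kc
  rw [norm_div, norm_mul, Complex.norm_ofNat, div_le_div_iff₀ (by positivity) hpos]
  nlinarith [norm_nonneg (Complex.cos (s / 2))]

end LibEY38
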