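import Pool.Agent.LibEY38.Defs
import Pool.Agent.LibEY38.N1
import Pool.Agent.LibEY38.A1
import Pool.Agent.LibEY38.A2

open Complex Set Filter Topology MeasureTheory
open scoped ComplexConjugate

namespace LibEY38

/-
ROW D1 (SHORT/MEDIUM). The Melnikov function of an error term.
f = deriv X * D is differentiable on St η, |f| <= 3 e wt^3 = 3 e exp(-(3 lam |Re|)): tsum_strip with k = 3 lam (note (t : ℂ) + (n:ℤ) cast). Periodicity,
bound C e with C = 6/(1 - exp(-3 lam)). deriv X is even (X odd) and real; the sum over n is symmetric under n -> -n (Equiv.neg), conj commutes with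
tsum.
-/

private lemma D1_lam_pos : 0 < lam := by
  unfold lam
  have h : 0 < Real.arsinh (1 / 5) := Real.arsinh_pos_iff.2 (by norm_num)
  linarith

private lemma D1_open (η : ℝ) : IsOpen (St η) :=
  isOpen_lt (Complex.continuous_im.abs) continuous_const

private lemma D1_neg {η : ℝ} {t : ℂ} (ht : t ∈ St η) : -t ∈ St η := by
  show |(-t).im| < η
  rw [Complex.neg_im, abs_neg]
  exact ht

private lemma D1_conj {η : ℝ} {t : ℂ} (ht : t ∈ St η) : conj t ∈ St η := by
  show |(conj t).im| < η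
  rw [Complex.conj_im, abs_neg]
  exact ht

private lemma D1_add {η : ℝ} {t : ℂ} (ht : t ∈ St η) (n : ℤ) : t + n ∈ St η := by
  show |(t + (n : ℂ)).im| < η
  rw [Complex.add_im, Complex.intCast_im, add_zero]
  exact ht

private lemma D1_deriv_even {η : ℝ} {X : ℂ → ℂ} (hX : Sym η X) {s : ℂ} (hs : s ∈ St η) :
    deriv X (-s) = deriv X s := by
  have h1 : (fun z : ℂ => X (-z)) =ᶠ[𝓝 s] (fun z => -X z) := by
    filter_upwards [(D1_open η).mem_nhds hs] with z hz
    exact hX.odd z hz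
  have h2 := h1.deriv_eq
  rw [deriv_comp_neg, deriv.fun_neg] at h2
  exact neg_injective h2

private lemma D1_deriv_real {η : ℝ} {X : ℂ → ℂ} (hX : Sym η X) {s : ℂ} (hs : s ∈ St η) :
    deriv X (conj s) = conj (deriv X s) := by
  have h1 : (conj ∘ X ∘ conj) =ᶠ[𝓝 (conj s)] X := by
    filter_upwards [(D1_open η).mem_nhds (D1_conj hs)] with z hz
    show conj (X (conj z)) = X z
    rw [hX.real z hz, Complex.conj_conj]
  have h2 := h1.deriv_eq
  have h3 : deriv (conj ∘ X ∘ conj) (conj s) = conj (deriv X (conj (conj s))) := by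
    rw [deriv_conj_conj]
    rfl
  rw [h3, Complex.conj_conj] at h2
  exact h2.symm

theorem mel_per : ∃ C : ℝ, 0 < C ∧ ∀ (X D : ℂ → ℂ) (η ε e : ℝ), η ≤ 7 / 2 → 0 ≤ ε → ε ≤ 1 / 1000 →
    Good η ε X → DifferentiableOn ℂ D (St η) → Sym η D → (∀ t ∈ St η, ‖D t‖ ≤ e * wt t ^ 2) →
    Per η (Mel X D) ∧ (∀ t ∈ St η, ‖Mel X D t‖ ≤ C * e) ∧
    (∀ t ∈ St η, Summable (fun n : ℤ => ‖deriv X (t + n) * D (t + n)‖)) := by
  have hlam := D1_lam_pos
  have hexp : Real.exp (-(3 * lam)) < 1 := by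
    rw [Real.exp_lt_one_iff]
    linarith
  have hpos : 0 < 1 - Real.exp (-(3 * lam)) := by linarith
  refine ⟨6 / (1 - Real.exp (-(3 * lam))), by positivity, ?_⟩
  intro X D η ε e hη hε hε' hX hD hDs hDb
  obtain ⟨hnear, _, _⟩ := near_facts X η ε hη hε hε' hX.near
  have hf : DifferentiableOn ℂ (fun t => deriv X t * D t) (St η) :=
    (hX.near.diff.deriv (D1_open η)).mul hD
  have hb : ∀ t ∈ St η, ‖(fun t => deriv X t * D t) t‖ ≤ (3 * e) * Real.exp (-((3 * lam) * |t.re|)) := by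
    intro t ht
    have h1 := (hnear t ht).2.1
    have h2 := hDb t ht
    have hwt : 0 < wt t := Real.exp_pos _
    have h3 : wt t ^ 3 = Real.exp (-((3 * lam) * |t.re|)) := by
      unfold wt
      rw [← Real.exp_nat_mul]
      congr 1
      push_cast
      ring
    show ‖deriv X t * D t‖ ≤ _
    rw [norm_mul, ← h3]
    calc ‖deriv X t‖ * ‖D t‖ ≤ (3 * wt t) * (e * wt t ^ 2) :=
          mul_le_mul h1 h2 (norm_nonneg _) (by positivity)
      _ = 3 * e * wt t ^ 3 := by ring
  obtain ⟨h1, h2, h3, h4⟩ := tsum_strip (fun t => deriv X t * D t) η (3 * e) (3 * lam)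
    (by linarith) hf hb
  have hval : ∀ t, Mel X D t = ∑' n : ℤ, deriv X (t + n) * D (t + n) := fun t => rfl
  refine ⟨⟨?_, ?_, ⟨?_, ?_⟩⟩, ?_, h1⟩
  · exact h2
  · intro t _
    exact h4 t
  · intro t ht
    rw [hval, hval, ← (Equiv.neg ℤ).tsum_eq, ← tsum_neg]
    refine tsum_congr (fun n => ?_)
    have hs := D1_add ht n
    have e1 : -t + (((Equiv.neg ℤ) n : ℤ) : ℂ) = -(t + n) := by
      rw [Equiv.neg_apply]
      push_cast
      ring
    rw [e1, D1_deriv_even hX.sym hs, hDs.odd _ hs]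
    ring
  · intro t ht
    rw [hval, hval, Complex.conj_tsum]
    refine tsum_congr (fun n => ?_)
    have hs := D1_add ht n
    have e1 : conj t + (n : ℂ) = conj (t + n) := by
      rw [map_add, map_intCast]
    rw [e1, D1_deriv_real hX.sym hs, hDs.real _ hs, map_mul]
  · intro t ht
    have h5 := h3 t ht
    have h6 : 2 * (3 * e) / (1 - Real.exp (-(3 * lam))) = 6 / (1 - Real.exp (-(3 * lam))) * e := by
      ring
    rw [h6] at h5
    exact h5

end LibEY38
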