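import Pool.Agent.LibEY38.Defs
import Pool.Agent.LibEY38.N1

open Complex Set Filter Topology MeasureTheory
open scoped ComplexConjugate

namespace LibEY38

private theorem D2_kc {s : ℂ} (h : Complex.sin (s / 2) ≠ 0) :
    HasDerivAt kc (-(1 / (4 * Complex.sin (s / 2) ^ 2))) s := by
  have h0 : HasDerivAt (fun s : ℂ => s / 2) (1 / 2) s := (hasDerivAt_id s).div_const 2
  have h1 : HasDerivAt (fun s : ℂ => Complex.cos (s / 2)) (-Complex.sin (s / 2) * (1 / 2)) s := h0.ccos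
  have h2 : HasDerivAt (fun s : ℂ => 2 * Complex.sin (s / 2)) (2 * (Complex.cos (s / 2) * (1 / 2))) s :=
    h0.csin.const_mul 2
  have h3 := h1.div h2 (mul_ne_zero two_ne_zero h)
  have h4 := Complex.sin_sq_add_cos_sq (s / 2)
  have h5 : -(1 / (4 * Complex.sin (s / 2) ^ 2)) =
      (-Complex.sin (s / 2) * (1 / 2) * (2 * Complex.sin (s / 2)) -
        Complex.cos (s / 2) * (2 * (Complex.cos (s / 2) * (1 / 2)))) / (2 * Complex.sin (s / 2)) ^ 2 := by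
    rw [eq_div_iff (pow_ne_zero 2 (mul_ne_zero two_ne_zero h))]
    have h6 : (4 * Complex.sin (s / 2) ^ 2) ≠ 0 := mul_ne_zero (by norm_num) (pow_ne_zero 2 h)
    have h7 : (2 * Complex.sin (s / 2)) ^ 2 = 4 * Complex.sin (s / 2) ^ 2 := by ring
    rw [h7, neg_mul, one_div, inv_mul_cancel₀ h6]
    linear_combination h4
  rw [h5]
  exact h3

private theorem D2_kcont {s : ℂ} (hs : ‖s‖ ≤ 3) (h0 : s ≠ 0) : ContinuousAt kc s :=
  (D2_kc (kc_bound s hs h0).1).continuousAt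

private theorem D2_comp {Y : ℝ → ℂ} {S : Set ℝ} (hY : ContinuousOn Y S) {x : ℂ}
    (hs : ∀ r ∈ S, Y r - x ≠ 0 ∧ ‖Y r - x‖ ≤ 3) : ContinuousOn (fun r => kc (Y r - x)) S := by
  intro r hr
  have h1 : ContinuousWithinAt (fun r => Y r - x) S r := (hY r hr).sub continuousWithinAt_const
  exact ContinuousAt.comp_continuousWithinAt (g := kc) (f := fun r => Y r - x)
    (D2_kcont (hs r hr).2 (hs r hr).1) h1

private theorem D2_comp2 {Y : ℝ → ℂ} {S : Set ℝ} (hY : ContinuousOn Y S) {x : ℂ}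
    (hs : ∀ r ∈ S, Y r - x ≠ 0 ∧ ‖Y r - x‖ ≤ 3) :
    ContinuousOn (fun r => (1 / (4 * Complex.sin ((Y r - x) / 2) ^ 2))) S := by
  have h1 : ContinuousOn (fun r => Complex.sin ((Y r - x) / 2)) S :=
    Complex.continuous_sin.comp_continuousOn ((hY.sub continuousOn_const).div_const 2)
  refine continuousOn_const.div (continuousOn_const.mul (h1.pow 2)) fun r hr => ?_
  exact mul_ne_zero (by norm_num) (pow_ne_zero 2 (kc_bound _ (hs r hr).2 (hs r hr).1).1)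

private theorem D2_int (φ Y : ℝ → ℂ) (U : Set ℂ) (hU : IsOpen U) (d A : ℝ) (hd : 0 < d) (hA : 0 ≤ A)
    (hφ : ContinuousOn φ (uIcc (-(1 / 2) : ℝ) (1 / 2))) (hY : ContinuousOn Y (uIcc (-(1 / 2) : ℝ) (1 / 2)))
    (hsep : ∀ x ∈ U, ∀ r ∈ uIcc (-(1 / 2) : ℝ) (1 / 2), d ≤ ‖Y r - x‖ ∧ ‖Y r - x‖ ≤ 3)
    (hb : ∀ r ∈ uIcc (-(1 / 2) : ℝ) (1 / 2), ‖φ r‖ ≤ A) :
    DifferentiableOn ℂ (fun x => ∫ r in (-(1 / 2) : ℝ)..(1 / 2), φ r * kc (Y r - x)) U ∧
    ∀ x ∈ U, ‖∫ r in (-(1 / 2) : ℝ)..(1 / 2), φ r * kc (Y r - x)‖ ≤ A * (6 / d) := by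
  have hne : ∀ x ∈ U, ∀ r ∈ uIcc (-(1 / 2) : ℝ) (1 / 2), Y r - x ≠ 0 ∧ ‖Y r - x‖ ≤ 3 := by
    intro x hx r hr
    refine ⟨fun h => ?_, (hsep x hx r hr).2⟩
    have := (hsep x hx r hr).1
    rw [h, norm_zero] at this
    linarith
  have hc1 : ∀ x ∈ U, ContinuousOn (fun r => φ r * kc (Y r - x)) (uIcc (-(1 / 2) : ℝ) (1 / 2)) :=
    fun x hx => hφ.mul (D2_comp hY (hne x hx))
  have hc2 : ∀ x ∈ U, ContinuousOn (fun r => φ r * (1 / (4 * Complex.sin ((Y r - x) / 2) ^ 2)))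
      (uIcc (-(1 / 2) : ℝ) (1 / 2)) := fun x hx => hφ.mul (D2_comp2 hY (hne x hx))
  constructor
  · intro x hx
    have hnhds : U ∈ 𝓝 x := hU.mem_nhds hx
    have hsin : ∀ y ∈ U, ∀ r ∈ uIcc (-(1 / 2) : ℝ) (1 / 2), d / 4 ≤ ‖Complex.sin ((Y r - y) / 2)‖ := by
      intro y hy r hr
      have h1 := (kc_bound _ (hne y hy r hr).2 (hne y hy r hr).1).2.1
      have h2 := (hsep y hy r hr).1
      linarith
    have key := intervalIntegral.hasDerivAt_integral_of_dominated_loc_of_deriv_le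
      (μ := volume) (a := -(1 / 2)) (b := 1 / 2) (x₀ := x) (s := U)
      (F := fun x r => φ r * kc (Y r - x))
      (F' := fun x r => φ r * (1 / (4 * Complex.sin ((Y r - x) / 2) ^ 2)))
      (bound := fun _ => A * (1 / (4 * (d / 4) ^ 2)))
      hnhds ?_ ?_ ?_ ?_ ?_ ?_
    · exact key.2.differentiableAt.differentiableWithinAt
    · filter_upwards [hnhds] with y hy
      exact ((hc1 y hy).mono uIoc_subset_uIcc).aestronglyMeasurable measurableSet_uIoc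
    · exact (hc1 x hx).intervalIntegrable
    · exact ((hc2 x hx).mono uIoc_subset_uIcc).aestronglyMeasurable measurableSet_uIoc
    · refine Filter.Eventually.of_forall fun r hr y hy => ?_
      have hr' := uIoc_subset_uIcc hr
      rw [norm_mul, norm_div, norm_one, norm_mul, norm_pow]
      have h1 := hsin y hy r hr'
      have h2 : ‖(4 : ℂ)‖ = 4 := by norm_num
      rw [h2]
      refine mul_le_mul (hb r hr') ?_ (by positivity) hA
      apply one_div_le_one_div_of_le (by positivity)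
      have h3 : (d / 4) ^ 2 ≤ ‖Complex.sin ((Y r - y) / 2)‖ ^ 2 := pow_le_pow_left₀ (by positivity) h1 2
      linarith
    · exact intervalIntegrable_const
    · refine Filter.Eventually.of_forall fun r hr y hy => ?_
      have hr' := uIoc_subset_uIcc hr
      have h1 := D2_kc (kc_bound _ (hne y hy r hr').2 (hne y hy r hr').1).1
      have h2 : HasDerivAt (fun z : ℂ => Y r - z) (-1) y := (hasDerivAt_id y).const_sub (Y r)
      have h3 := (h1.comp y h2).const_mul (φ r)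
      refine h3.congr_deriv ?_
      ring
  · intro x hx
    have h1 : ∀ r ∈ uIoc (-(1 / 2) : ℝ) (1 / 2), ‖φ r * kc (Y r - x)‖ ≤ A * (6 / d) := by
      intro r hr
      have hr' := uIoc_subset_uIcc hr
      rw [norm_mul]
      refine mul_le_mul (hb r hr') ?_ (norm_nonneg _) hA
      have h2 := (kc_bound _ (hne x hx r hr').2 (hne x hx r hr').1).2.2
      refine h2.trans ?_
      exact div_le_div_of_nonneg_left (by norm_num) hd (hsep x hx r hr').1
    have h2 := intervalIntegral.norm_integral_le_of_norm_le_const h1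
    refine h2.trans ?_
    have : |(1 / 2 : ℝ) - -(1 / 2)| = 1 := by norm_num
    rw [this, mul_one]

private theorem D2_open (η r : ℝ) (X : ℂ → ℂ) : IsOpen (Tube η r X) := by
  have : Tube η r X = ⋃ t ∈ St η, Metric.ball (X t) r := by
    ext x
    simp [Tube, dist_eq_norm]
  rw [this]
  exact isOpen_biUnion fun t _ => Metric.isOpen_ball

private theorem D2_trig {y : ℂ} (hy : ‖y‖ ≤ 2) :
    ‖Complex.cos y‖ ≤ 8 ∧ ‖Complex.sin y‖ ≤ 8 ∧ ‖cc y‖ ≤ 9 := by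
  have he : Real.exp 2 ≤ 8 := by
    have h1 : Real.exp 2 = Real.exp 1 * Real.exp 1 := by rw [← Real.exp_add]; norm_num
    have h2 := Real.exp_one_lt_d9
    have h3 := Real.exp_pos 1
    rw [h1]
    nlinarith
  have hn : ‖y * I‖ ≤ 2 := by rw [norm_mul, Complex.norm_I, mul_one]; exact hy
  have hn' : ‖-y * I‖ ≤ 2 := by rw [norm_mul, norm_neg, Complex.norm_I, mul_one]; exact hy
  have h1 : ‖Complex.exp (y * I)‖ ≤ 8 :=
    ((Complex.norm_exp_le_exp_norm _).trans (Real.exp_le_exp.2 hn)).trans he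
  have h2 : ‖Complex.exp (-y * I)‖ ≤ 8 :=
    ((Complex.norm_exp_le_exp_norm _).trans (Real.exp_le_exp.2 hn')).trans he
  have hcos : ‖Complex.cos y‖ ≤ 8 := by
    unfold Complex.cos
    rw [norm_div]
    have h3 := norm_add_le (Complex.exp (y * I)) (Complex.exp (-y * I))
    have h4 : ‖(2 : ℂ)‖ = 2 := by norm_num
    rw [h4, div_le_iff₀ (by norm_num)]
    linarith
  refine ⟨hcos, ?_, ?_⟩
  · unfold Complex.sin
    rw [norm_div, norm_mul, Complex.norm_I, mul_one]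
    have h3 := norm_sub_le (Complex.exp (-y * I)) (Complex.exp (y * I))
    have h4 : ‖(2 : ℂ)‖ = 2 := by norm_num
    rw [h4, div_le_iff₀ (by norm_num)]
    linarith
  · unfold cc
    have h3 := norm_sub_le (Complex.cos y) (3 / 5 : ℂ)
    have h4 : ‖(3 / 5 : ℂ)‖ = 3 / 5 := by
      rw [norm_div]; norm_num
    rw [h4] at h3
    linarith

/-
ROW D2 (MEDIUM). The correction near the curve.
ηa = η - ρ. For x in Tube (η-2ρ) (ρ/40) X: |x - X t| < ρ/40, |x - X τ| >= ρ/20 - ρ/40 = ρ/40 for τ on the arcs (near_facts: ‖t-τ‖ >= ρ), |x - X τ| <= 3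
so kc(X τ - x) is differentiable in x and bounded by 240/ρ (kc_bound). h x := arc ηa (m τ / cc(X τ)^2 * kc(X τ - x)) is differentiable there with
|h| <= C B/ρ, and dlt X m ηa x = cc x ^2 * h x. On the smaller tube (radius ρ/80) Cauchy estimates on balls of radius ρ/80:
|h'| <= C B/ρ^2, |h''| <= C B/ρ^3 (two steps ρ/160). Then (cc^2 h)' = -2 cc sin h + cc^2 h', etc.; |cc x|, |sin x|, |cos x| <= 3 for |x| <= 5/4 + 1/80,
ρ <= 1/12.
-/
theorem dlt_near : ∃ C : ℝ, 0 < C ∧ ∀ (X m : ℂ → ℂ) (η ρ ε B : ℝ), 0 < ρ → ρ ≤ 1 / 12 →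
    1 / 2 + 3 * ρ ≤ η → η ≤ 1 → 0 ≤ ε → ε ≤ 1 / 1000 → Near η ε X → DifferentiableOn ℂ m (St η) →
    (∀ t ∈ St η, ‖m t‖ ≤ B) →
    DifferentiableOn ℂ (dlt X m (η - ρ)) (Tube (η - 2 * ρ) (ρ / 80) X) ∧
    ∀ x ∈ Tube (η - 2 * ρ) (ρ / 80) X,
      ‖dlt X m (η - ρ) x‖ ≤ C * B / ρ * ‖cc x‖ ^ 2 ∧
      ‖deriv (dlt X m (η - ρ)) x‖ ≤ C * B / ρ ^ 2 * ‖cc x‖ ∧
      ‖deriv (deriv (dlt X m (η - ρ))) x‖ ≤ C * B / ρ ^ 3 := by
  refine ⟨6000 * 2300000, by norm_num, ?_⟩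
  intro X m η ρ ε B hρ hρ1 hη hη1 hε hε' hX hm hmB
  obtain ⟨nf1, nf2, nf3⟩ := near_facts X η ε (by linarith) hε hε' hX
  have h0St : (0 : ℂ) ∈ St η := by
    show |(0 : ℂ).im| < η
    rw [Complex.zero_im, abs_zero]
    linarith
  have hB : 0 ≤ B := (norm_nonneg _).trans (hmB 0 h0St)
  obtain ⟨U, hUd⟩ : ∃ U : Set ℂ, U = Tube (η - 2 * ρ) (ρ / 40) X := ⟨_, rfl⟩
  have hU : IsOpen U := by rw [hUd]; exact D2_open _ _ _
  -- the two segments
  have hseg : ∀ σ : ℝ, |σ| = η - ρ → ∀ r ∈ uIcc (-(1 / 2) : ℝ) (1 / 2),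
      ((r : ℂ) + (σ : ℂ) * I) ∈ St η ∧ Pole ((r : ℂ) + (σ : ℂ) * I) := by
    intro σ hσ r hr
    rw [uIcc_of_le (by norm_num)] at hr
    have him : ((r : ℂ) + (σ : ℂ) * I).im = σ := by simp
    have hre : ((r : ℂ) + (σ : ℂ) * I).re = r := by simp
    refine ⟨?_, ?_, ?_⟩
    · show |((r : ℂ) + (σ : ℂ) * I).im| < η
      rw [him, hσ]; linarith
    · rw [hre, abs_le]; exact ⟨by linarith [hr.1], hr.2⟩
    · rw [him, hσ]; linarith
  have hsep : ∀ σ : ℝ, |σ| = η - ρ → ∀ x ∈ U, ∀ r ∈ uIcc (-(1 / 2) : ℝ) (1 / 2),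
      ρ / 40 ≤ ‖X ((r : ℂ) + (σ : ℂ) * I) - x‖ ∧ ‖X ((r : ℂ) + (σ : ℂ) * I) - x‖ ≤ 3 := by
    intro σ hσ x hx r hr
    obtain ⟨hτ, hP⟩ := hseg σ hσ r hr
    rw [hUd] at hx
    obtain ⟨t, ht, hxt⟩ := hx
    have ht' : |t.im| < η - 2 * ρ := ht
    have htη : t ∈ St η := by show |t.im| < η; linarith
    have h1 := nf3 t htη _ hτ hP
    have h2 : ρ ≤ ‖t - ((r : ℂ) + (σ : ℂ) * I)‖ := by
      have h3 := Complex.abs_im_le_norm (t - ((r : ℂ) + (σ : ℂ) * I))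
      have h4 : (t - ((r : ℂ) + (σ : ℂ) * I)).im = t.im - σ := by simp
      rw [h4] at h3
      have h5 := abs_sub_abs_le_abs_sub σ t.im
      rw [abs_sub_comm] at h5
      rw [hσ] at h5
      linarith
    have h3 : ρ ≤ min 1 ‖t - ((r : ℂ) + (σ : ℂ) * I)‖ := le_min (by linarith) h2
    have h4 : ρ / 20 ≤ ‖X t - X ((r : ℂ) + (σ : ℂ) * I)‖ := by linarith
    have h5 : ‖X t - X ((r : ℂ) + (σ : ℂ) * I)‖ ≤ ‖X ((r : ℂ) + (σ : ℂ) * I) - x‖ + ‖x - X t‖ := by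
      have h6 : X t - X ((r : ℂ) + (σ : ℂ) * I) =
        -((X ((r : ℂ) + (σ : ℂ) * I) - x) + (x - X t)) := by ring
      rw [h6, norm_neg]
      exact norm_add_le _ _
    have h7 : ‖X ((r : ℂ) + (σ : ℂ) * I) - x‖ ≤ ‖X ((r : ℂ) + (σ : ℂ) * I)‖ + ‖X t‖ + ‖x - X t‖ := by
      have h6 : X ((r : ℂ) + (σ : ℂ) * I) - x =
        (X ((r : ℂ) + (σ : ℂ) * I) - X t) - (x - X t) := by ring
      rw [h6]
      exact (norm_sub_le _ _).trans (add_le_add (norm_sub_le _ _) le_rfl)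
    have h8 := (nf1 t htη).2.2.2.1
    have h9 := (nf1 _ hτ).2.2.2.1
    constructor
    · linarith
    · linarith
  have hXc : ContinuousOn X (St η) := hX.diff.continuousOn
  have hline : ∀ σ : ℝ, Continuous (fun r : ℝ => (r : ℂ) + (σ : ℂ) * I) := fun σ => by fun_prop
  have hYc : ∀ σ : ℝ, |σ| = η - ρ → ContinuousOn (fun r : ℝ => X ((r : ℂ) + (σ : ℂ) * I))
      (uIcc (-(1 / 2) : ℝ) (1 / 2)) := fun σ hσ =>
    hXc.comp (hline σ).continuousOn fun r hr => (hseg σ hσ r hr).1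
  have hmc : ∀ σ : ℝ, |σ| = η - ρ → ContinuousOn (fun r : ℝ => m ((r : ℂ) + (σ : ℂ) * I))
      (uIcc (-(1 / 2) : ℝ) (1 / 2)) := fun σ hσ =>
    hm.continuousOn.comp (hline σ).continuousOn fun r hr => (hseg σ hσ r hr).1
  have hcc0 : ∀ σ : ℝ, |σ| = η - ρ → ∀ r ∈ uIcc (-(1 / 2) : ℝ) (1 / 2),
      1 / 5 ≤ ‖cc (X ((r : ℂ) + (σ : ℂ) * I))‖ := fun σ hσ r hr =>
    (nf2 _ (hseg σ hσ r hr).1 (hseg σ hσ r hr).2).1
  have hφc : ∀ σ : ℝ, |σ| = η - ρ →
      ContinuousOn (fun r : ℝ => m ((r : ℂ) + (σ : ℂ) * I) / cc (X ((r : ℂ) + (σ : ℂ) * I)) ^ 2)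
      (uIcc (-(1 / 2) : ℝ) (1 / 2)) := by
    intro σ hσ
    have h1 : ContinuousOn (fun r : ℝ => cc (X ((r : ℂ) + (σ : ℂ) * I))) (uIcc (-(1 / 2) : ℝ) (1 / 2)) := by
      unfold cc
      exact (Complex.continuous_cos.comp_continuousOn (hYc σ hσ)).sub continuousOn_const
    refine (hmc σ hσ).div (h1.pow 2) fun r hr => pow_ne_zero 2 fun h => ?_
    have := hcc0 σ hσ r hr
    rw [h, norm_zero] at this
    linarith
  have hφb : ∀ σ : ℝ, |σ| = η - ρ → ∀ r ∈ uIcc (-(1 / 2) : ℝ) (1 / 2),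
      ‖m ((r : ℂ) + (σ : ℂ) * I) / cc (X ((r : ℂ) + (σ : ℂ) * I)) ^ 2‖ ≤ 25 * B := by
    intro σ hσ r hr
    have h1 := hcc0 σ hσ r hr
    have h2 := hmB _ (hseg σ hσ r hr).1
    rw [norm_div, norm_pow, div_le_iff₀ (by positivity)]
    have h3 : (1 / 5 : ℝ) ^ 2 ≤ ‖cc (X ((r : ℂ) + (σ : ℂ) * I))‖ ^ 2 := pow_le_pow_left₀ (by norm_num) h1 2
    nlinarith
  have hint : ∀ σ : ℝ, |σ| = η - ρ → _ := fun σ hσ =>
    D2_int (fun r : ℝ => m ((r : ℂ) + (σ : ℂ) * I) / cc (X ((r : ℂ) + (σ : ℂ) * I)) ^ 2)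
      (fun r : ℝ => X ((r : ℂ) + (σ : ℂ) * I)) U hU (ρ / 40) (25 * B) (by positivity) (by positivity)
      (hφc σ hσ) (hYc σ hσ) (hsep σ hσ) (hφb σ hσ)
  have ha1 : |η - ρ| = η - ρ := abs_of_pos (by linarith)
  have ha2 : |-(η - ρ)| = η - ρ := by rw [abs_neg, ha1]
  obtain ⟨i1, b1⟩ := hint (η - ρ) ha1
  obtain ⟨i2, b2⟩ := hint (-(η - ρ)) ha2
  obtain ⟨h, hh⟩ : ∃ h : ℂ → ℂ, h = fun x => (1 / (2 * (Real.pi : ℂ) * I)) *
      ((∫ r in (-(1 / 2) : ℝ)..(1 / 2), m ((r : ℂ) + ((-(η - ρ) : ℝ) : ℂ) * I) /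
          cc (X ((r : ℂ) + ((-(η - ρ) : ℝ) : ℂ) * I)) ^ 2 * kc (X ((r : ℂ) + ((-(η - ρ) : ℝ) : ℂ) * I) - x)) -
        ∫ r in (-(1 / 2) : ℝ)..(1 / 2), m ((r : ℂ) + ((η - ρ : ℝ) : ℂ) * I) /
          cc (X ((r : ℂ) + ((η - ρ : ℝ) : ℂ) * I)) ^ 2 * kc (X ((r : ℂ) + ((η - ρ : ℝ) : ℂ) * I) - x)) :=
    ⟨_, rfl⟩
  have hdiff : DifferentiableOn ℂ h U := by
    rw [hh]
    exact (i2.sub i1).const_mul _
  obtain ⟨M, hM⟩ : ∃ M : ℝ, M = 6000 * B / ρ := ⟨_, rfl⟩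
  have hM0 : 0 ≤ M := by rw [hM]; positivity
  have hhb : ∀ x ∈ U, ‖h x‖ ≤ M := by
    intro x hx
    rw [hh]
    simp only
    rw [norm_mul]
    have h1 := b1 x hx
    have h2 := b2 x hx
    have h3 := norm_sub_le
      (∫ r in (-(1 / 2) : ℝ)..(1 / 2), m ((r : ℂ) + ((-(η - ρ) : ℝ) : ℂ) * I) /
          cc (X ((r : ℂ) + ((-(η - ρ) : ℝ) : ℂ) * I)) ^ 2 * kc (X ((r : ℂ) + ((-(η - ρ) : ℝ) : ℂ) * I) - x))
      (∫ r in (-(1 / 2) : ℝ)..(1 / 2), m ((r : ℂ) + ((η - ρ : ℝ) : ℂ) * I) /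
          cc (X ((r : ℂ) + ((η - ρ : ℝ) : ℂ) * I)) ^ 2 * kc (X ((r : ℂ) + ((η - ρ : ℝ) : ℂ) * I) - x))
    have h4 : ‖(1 / (2 * (Real.pi : ℂ) * I))‖ ≤ 1 / 2 := by
      rw [norm_div, norm_one, norm_mul, norm_mul, Complex.norm_I, mul_one, Complex.norm_real]
      have h5 : ‖(2 : ℂ)‖ = 2 := by norm_num
      rw [h5, Real.norm_eq_abs, abs_of_pos Real.pi_pos]
      apply one_div_le_one_div_of_le (by norm_num)
      linarith [Real.pi_gt_three]
    have h5 : 25 * B * (6 / (ρ / 40)) = M := by rw [hM]; field_simp; ring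
    rw [h5] at h1 h2
    have h6 := h3.trans (add_le_add h2 h1)
    calc _ ≤ 1 / 2 * (M + M) := mul_le_mul h4 h6 (norm_nonneg _) (by norm_num)
      _ = M := by ring
  have hdlt : dlt X m (η - ρ) = fun x => cc x ^ 2 * h x := by
    funext x
    rw [hh]
    unfold dlt arc
    have e1 : ∀ τ : ℂ, m τ * Ker x (X τ) = cc x ^ 2 * (m τ / cc (X τ) ^ 2 * kc (X τ - x)) := by
      intro τ
      unfold Ker
      rw [div_pow]
      ring
    simp only [e1]
    rw [intervalIntegral.integral_const_mul, intervalIntegral.integral_const_mul, ← mul_sub]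
    have e2 : ∀ r : ℝ, (r : ℂ) - ((η - ρ : ℝ) : ℂ) * I = (r : ℂ) + ((-(η - ρ) : ℝ) : ℂ) * I := by
      intro r
      push_cast
      ring
    simp only [e2]
    ring
  have hcc : ∀ y : ℂ, HasDerivAt cc (-Complex.sin y) y := fun y =>
    (Complex.hasDerivAt_cos y).sub_const _
  have hU' : ∀ y ∈ U, HasDerivAt h (deriv h y) y := fun y hy =>
    (hdiff.differentiableAt (hU.mem_nhds hy)).hasDerivAt
  have hd1 : ∀ y ∈ U, HasDerivAt (fun x => cc x ^ 2 * h x)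
      (-(2 * (cc y * Complex.sin y * h y)) + cc y ^ 2 * deriv h y) y := by
    intro y hy
    have h1 := ((hcc y).pow 2).mul (hU' y hy)
    refine h1.congr_deriv ?_
    simp only [Pi.pow_apply]
    push_cast
    ring
  -- Cauchy estimates
  have hsub : Tube (η - 2 * ρ) (ρ / 80) X ⊆ U := by
    rintro x ⟨t, ht, hx⟩
    rw [hUd]
    exact ⟨t, ht, by linarith⟩
  have hball1 : ∀ x ∈ Tube (η - 2 * ρ) (3 * ρ / 160) X, Metric.closedBall x (ρ / 160) ⊆ U := by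
    rintro x ⟨t, ht, hx⟩ z hz
    rw [hUd]
    refine ⟨t, ht, ?_⟩
    rw [Metric.mem_closedBall, dist_eq_norm] at hz
    have h1 : z - X t = (z - x) + (x - X t) := by ring
    rw [h1]
    have h2 := norm_add_le (z - x) (x - X t)
    linarith
  have hball2 : ∀ x ∈ Tube (η - 2 * ρ) (ρ / 80) X,
      Metric.closedBall x (ρ / 160) ⊆ Tube (η - 2 * ρ) (3 * ρ / 160) X := by
    rintro x ⟨t, ht, hx⟩ z hz
    refine ⟨t, ht, ?_⟩
    rw [Metric.mem_closedBall, dist_eq_norm] at hz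
    have h1 : z - X t = (z - x) + (x - X t) := by ring
    rw [h1]
    have h2 := norm_add_le (z - x) (x - X t)
    linarith
  have hr : (0 : ℝ) < ρ / 160 := by positivity
  have hh1 : ∀ x ∈ Tube (η - 2 * ρ) (3 * ρ / 160) X, ‖deriv h x‖ ≤ M / (ρ / 160) := by
    intro x hx
    refine Complex.norm_deriv_le_of_forall_mem_sphere_norm_le hr (hdiff.diffContOnCl_ball (hball1 x hx)) ?_
    intro z hz
    exact hhb z (hball1 x hx (Metric.sphere_subset_closedBall hz))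
  have hdiff' : DifferentiableOn ℂ (deriv h) U := hdiff.deriv hU
  have hh2 : ∀ x ∈ Tube (η - 2 * ρ) (ρ / 80) X, ‖deriv (deriv h) x‖ ≤ M / (ρ / 160) / (ρ / 160) := by
    intro x hx
    have hsub2 : Tube (η - 2 * ρ) (3 * ρ / 160) X ⊆ U := fun y hy =>
      hball1 y hy (Metric.mem_closedBall_self hr.le)
    refine Complex.norm_deriv_le_of_forall_mem_sphere_norm_le hr
      (hdiff'.diffContOnCl_ball ((hball2 x hx).trans hsub2)) ?_
    intro z hz
    exact hh1 z (hball2 x hx (Metric.sphere_subset_closedBall hz))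
  constructor
  · rw [hdlt]
    intro x hx
    exact (hd1 x (hsub hx)).differentiableAt.differentiableWithinAt
  intro x hx
  have hxU := hsub hx
  have hx3 : x ∈ Tube (η - 2 * ρ) (3 * ρ / 160) X := hball2 x hx (Metric.mem_closedBall_self hr.le)
  have hxn : ‖x‖ ≤ 2 := by
    obtain ⟨t, ht, hxt⟩ := hx
    have ht' : |t.im| < η - 2 * ρ := ht
    have htη : t ∈ St η := by show |t.im| < η; linarith
    have h1 := (nf1 t htη).2.2.2.1
    have h2 : x = X t + (x - X t) := by ring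
    rw [h2]
    have h3 := norm_add_le (X t) (x - X t)
    linarith
  obtain ⟨tc, ts, tcc⟩ := D2_trig hxn
  have hv0 := hhb x hxU
  have hv1 := hh1 x hx3
  have hv2 := hh2 x hx
  have hd1x : deriv (fun x => cc x ^ 2 * h x) x =
      -(2 * (cc x * Complex.sin x * h x)) + cc x ^ 2 * deriv h x := (hd1 x hxU).deriv
  have hev : deriv (fun x => cc x ^ 2 * h x) =ᶠ[𝓝 x]
      fun y => -(2 * (cc y * Complex.sin y * h y)) + cc y ^ 2 * deriv h y := by
    filter_upwards [hU.mem_nhds hxU] with y hy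
    exact (hd1 y hy).deriv
  have hd2 : HasDerivAt (fun y => -(2 * (cc y * Complex.sin y * h y)) + cc y ^ 2 * deriv h y)
      (-(2 * ((-Complex.sin x * Complex.sin x + cc x * Complex.cos x) * h x +
        cc x * Complex.sin x * deriv h x)) +
        (-(2 * (cc x * Complex.sin x * deriv h x)) + cc x ^ 2 * deriv (deriv h) x)) x := by
    have g1 : HasDerivAt (fun y => cc y * Complex.sin y)
        (-Complex.sin x * Complex.sin x + cc x * Complex.cos x) x :=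
      (hcc x).mul (Complex.hasDerivAt_sin x)
    have g2 := ((g1.mul (hU' x hxU)).const_mul 2).neg
    have g3 : HasDerivAt (deriv h) (deriv (deriv h) x) x :=
      (hdiff'.differentiableAt (hU.mem_nhds hxU)).hasDerivAt
    have g4 := ((hcc x).pow 2).mul g3
    have g5 := g2.add g4
    refine g5.congr_deriv ?_
    simp only [Pi.pow_apply]
    push_cast
    ring
  have hd2x : deriv (deriv (fun x => cc x ^ 2 * h x)) x = _ := hev.deriv_eq.trans hd2.deriv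
  rw [hdlt]
  have e160 : M / (ρ / 160) = 160 * (M / ρ) := by field_simp
  have e160' : M / (ρ / 160) / (ρ / 160) = 25600 * (M / ρ / ρ) := by field_simp; ring
  rw [e160] at hv1
  rw [e160'] at hv2
  have hMρ : M ≤ M / ρ := by
    rw [le_div_iff₀ hρ]
    nlinarith
  have hMρ2 : M / ρ ≤ M / ρ / ρ := by
    rw [le_div_iff₀ hρ]
    have : 0 ≤ M / ρ := by positivity
    nlinarith
  have hMρ0 : 0 ≤ M / ρ := by positivity
  have hn0 := norm_nonneg (cc x)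
  have hns := norm_nonneg (Complex.sin x)
  have hnc := norm_nonneg (Complex.cos x)
  have hnh := norm_nonneg (h x)
  have hnh1 := norm_nonneg (deriv h x)
  have hnh2 := norm_nonneg (deriv (deriv h) x)
  refine ⟨?_, ?_, ?_⟩
  · show ‖cc x ^ 2 * h x‖ ≤ _
    rw [norm_mul, norm_pow]
    have e : 6000 * 2300000 * B / ρ * ‖cc x‖ ^ 2 = ‖cc x‖ ^ 2 * (2300000 * M) := by rw [hM]; ring
    rw [e]
    refine mul_le_mul_of_nonneg_left ?_ (by positivity)
    linarith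
  · rw [hd1x]
    have e : 6000 * 2300000 * B / ρ ^ 2 * ‖cc x‖ = ‖cc x‖ * (2300000 * (M / ρ)) := by
      rw [hM]; field_simp
    rw [e]
    have s1 := norm_add_le (-(2 * (cc x * Complex.sin x * h x))) (cc x ^ 2 * deriv h x)
    have s2 : ‖-(2 * (cc x * Complex.sin x * h x))‖ = 2 * (‖cc x‖ * ‖Complex.sin x‖ * ‖h x‖) := by
      rw [norm_neg, norm_mul, norm_mul, norm_mul]; norm_num
    have s3 : ‖cc x ^ 2 * deriv h x‖ = ‖cc x‖ ^ 2 * ‖deriv h x‖ := by rw [norm_mul, norm_pow]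
    rw [s2, s3] at s1
    have s4 : ‖Complex.sin x‖ * ‖h x‖ ≤ 8 * (M / ρ) := mul_le_mul ts (hv0.trans hMρ) hnh (by norm_num)
    have s5 : ‖cc x‖ * ‖deriv h x‖ ≤ 9 * (160 * (M / ρ)) := mul_le_mul tcc hv1 hnh1 (by norm_num)
    calc _ ≤ _ := s1
      _ = ‖cc x‖ * (2 * (‖Complex.sin x‖ * ‖h x‖) + ‖cc x‖ * ‖deriv h x‖) := by ring
      _ ≤ ‖cc x‖ * (2300000 * (M / ρ)) := mul_le_mul_of_nonneg_left (by linarith) hn0
  · rw [hd2x]
    have e : 6000 * 2300000 * B / ρ ^ 3 = 2300000 * (M / ρ / ρ) := by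
      rw [hM]; field_simp
    rw [e]
    have q0 : ‖h x‖ ≤ M / ρ / ρ := hv0.trans (hMρ.trans hMρ2)
    have q1 : ‖deriv h x‖ ≤ 160 * (M / ρ / ρ) := hv1.trans (by linarith)
    have hMM : 0 ≤ M / ρ / ρ := by positivity
    have t1 : ‖-Complex.sin x * Complex.sin x + cc x * Complex.cos x‖ ≤ 8 * 8 + 9 * 8 := by
      refine (norm_add_le _ _).trans ?_
      rw [norm_mul, norm_neg, norm_mul]
      exact add_le_add (mul_le_mul ts ts hns (by norm_num)) (mul_le_mul tcc tc hnc (by norm_num))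
    have t2 : ‖(-Complex.sin x * Complex.sin x + cc x * Complex.cos x) * h x‖ ≤
        (8 * 8 + 9 * 8) * (M / ρ / ρ) := by
      rw [norm_mul]
      exact mul_le_mul t1 q0 hnh (by norm_num)
    have t3 : ‖cc x * Complex.sin x * deriv h x‖ ≤ (9 * 8) * (160 * (M / ρ / ρ)) := by
      rw [norm_mul, norm_mul]
      exact mul_le_mul (mul_le_mul tcc ts hns (by norm_num)) q1 hnh1 (by norm_num)
    have t4 : ‖cc x ^ 2 * deriv (deriv h) x‖ ≤ 9 ^ 2 * (25600 * (M / ρ / ρ)) := by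
      rw [norm_mul, norm_pow]
      exact mul_le_mul (pow_le_pow_left₀ hn0 tcc 2) hv2 hnh2 (by norm_num)
    have t5 : ‖-(2 * ((-Complex.sin x * Complex.sin x + cc x * Complex.cos x) * h x +
        cc x * Complex.sin x * deriv h x))‖ ≤
        2 * ((8 * 8 + 9 * 8) * (M / ρ / ρ) + (9 * 8) * (160 * (M / ρ / ρ))) := by
      rw [norm_neg, norm_mul]
      have h5 : ‖(2 : ℂ)‖ = 2 := by norm_num
      rw [h5]
      exact mul_le_mul_of_nonneg_left ((norm_add_le _ _).trans (add_le_add t2 t3)) (by norm_num)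
    have t6 : ‖-(2 * (cc x * Complex.sin x * deriv h x))‖ ≤ 2 * ((9 * 8) * (160 * (M / ρ / ρ))) := by
      rw [norm_neg, norm_mul]
      have h5 : ‖(2 : ℂ)‖ = 2 := by norm_num
      rw [h5]
      exact mul_le_mul_of_nonneg_left t3 (by norm_num)
    have t7 := norm_add_le (-(2 * (cc x * Complex.sin x * deriv h x))) (cc x ^ 2 * deriv (deriv h) x)
    have t8 := norm_add_le (-(2 * ((-Complex.sin x * Complex.sin x + cc x * Complex.cos x) * h x +
        cc x * Complex.sin x * deriv h x)))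
        (-(2 * (cc x * Complex.sin x * deriv h x)) + cc x ^ 2 * deriv (deriv h) x)
    linarith

end LibEY38
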