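import Pool.Agent.LibEY38.Defs
import Pool.Agent.LibEY38.B0
import Pool.Agent.LibEY38.N1

open Complex Set Filter Topology MeasureTheory
open scoped ComplexConjugate

namespace LibEY38

private theorem D3_norm_sin (z : ℂ) : ‖Complex.sin z‖ ^ 2 = Real.sin z.re ^ 2 + Real.sinh z.im ^ 2 := by
  rw [Complex.sin_eq, ← Complex.ofReal_sin, ← Complex.ofReal_cos, ← Complex.ofReal_cosh,
    ← Complex.ofReal_sinh, ← Complex.ofReal_mul, ← Complex.ofReal_mul, ← Complex.normSq_eq_norm_sq,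
    Complex.normSq_add_mul_I]
  have h1 := Real.cosh_sq z.im
  have h2 := Real.sin_sq_add_cos_sq z.re
  nlinarith

private theorem D3_norm_cos (z : ℂ) : ‖Complex.cos z‖ ^ 2 = Real.cos z.re ^ 2 + Real.sinh z.im ^ 2 := by
  rw [Complex.cos_eq, ← Complex.ofReal_sin, ← Complex.ofReal_cos, ← Complex.ofReal_cosh,
    ← Complex.ofReal_sinh, ← Complex.ofReal_mul, ← Complex.ofReal_mul, ← Complex.normSq_eq_norm_sq]
  have h0 : ((Real.cos z.re * Real.cosh z.im : ℝ) : ℂ) - ((Real.sin z.re * Real.sinh z.im : ℝ) : ℂ) * I =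
      ((Real.cos z.re * Real.cosh z.im : ℝ) : ℂ) + ((-(Real.sin z.re * Real.sinh z.im) : ℝ) : ℂ) * I := by
    push_cast
    ring
  rw [h0, Complex.normSq_add_mul_I]
  have h1 := Real.cosh_sq z.im
  have h2 := Real.sin_sq_add_cos_sq z.re
  nlinarith

private theorem D3_sin_ge (z : ℂ) : |z.im| ≤ ‖Complex.sin z‖ := by
  have h1 := D3_norm_sin z
  have h2 : z.im ^ 2 ≤ Real.sinh z.im ^ 2 := by
    have h3 : |z.im| ≤ |Real.sinh z.im| := by
      rw [Real.abs_sinh]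
      exact Real.self_le_sinh_iff.2 (abs_nonneg _)
    exact sq_le_sq.2 h3
  have h4 : |z.im| ^ 2 ≤ ‖Complex.sin z‖ ^ 2 := by
    rw [sq_abs, h1]
    have := sq_nonneg (Real.sin z.re)
    linarith
  exact le_of_sq_le_sq h4 (norm_nonneg _)

private theorem D3_cos_le (z : ℂ) (hz : |z.im| ≤ 1) : ‖Complex.cos z‖ ≤ 3 := by
  have h1 := D3_norm_cos z
  have h2 : Real.cosh z.im ≤ 3 := by
    have h3 : Real.cosh z.im ≤ Real.cosh 1 := by
      rw [Real.cosh_le_cosh, abs_one]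
      exact hz
    have h4 : Real.cosh 1 ≤ Real.exp 1 := by
      rw [Real.cosh_eq]
      have h5 : Real.exp (-1) ≤ Real.exp 1 := Real.exp_le_exp.2 (by norm_num)
      linarith
    have h6 := Real.exp_one_lt_d9
    linarith
  have h7 := Real.cosh_sq z.im
  have h8 := Real.sin_sq_add_cos_sq z.re
  have h9 : ‖Complex.cos z‖ ^ 2 ≤ 3 ^ 2 := by
    have h10 : Real.cosh z.im ^ 2 ≤ 3 ^ 2 :=
      pow_le_pow_left₀ (Real.cosh_pos _).le h2 2
    have h11 := sq_nonneg (Real.sin z.re)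
    linarith
  exact le_of_sq_le_sq h9 (by norm_num)

private theorem D3_kc {s : ℂ} (h1 : 3 / 100 ≤ |s.im|) :
    Complex.sin (s / 2) ≠ 0 ∧ 3 / 200 ≤ ‖Complex.sin (s / 2)‖ ∧ (|s.im| ≤ 2 → ‖kc s‖ ≤ 100) := by
  have him : (s / 2).im = s.im / 2 := by simp
  have h2 : 3 / 200 ≤ ‖Complex.sin (s / 2)‖ := by
    refine le_trans ?_ (D3_sin_ge (s / 2))
    rw [him, abs_div, abs_two]
    linarith
  refine ⟨?_, h2, fun h3 => ?_⟩
  · intro h
    rw [h, norm_zero] at h2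
    norm_num at h2
  · unfold kc
    rw [norm_div, norm_mul, Complex.norm_ofNat]
    have h4 : ‖Complex.cos (s / 2)‖ ≤ 3 := D3_cos_le _ (by
      rw [him, abs_div, abs_two]
      linarith)
    rw [div_le_iff₀ (by linarith)]
    linarith

private theorem D3_hasDeriv {s : ℂ} (h : Complex.sin (s / 2) ≠ 0) :
    HasDerivAt kc (-(1 / (4 * Complex.sin (s / 2) ^ 2))) s := by
  have hd : HasDerivAt (fun s : ℂ => s / 2) (1 / 2) s := by
    simpa using (hasDerivAt_id s).div_const 2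
  have h1 : HasDerivAt (fun s : ℂ => Complex.cos (s / 2)) (-Complex.sin (s / 2) * (1 / 2)) s :=
    hd.ccos
  have h2 : HasDerivAt (fun s : ℂ => 2 * Complex.sin (s / 2)) (2 * (Complex.cos (s / 2) * (1 / 2))) s :=
    hd.csin.const_mul 2
  have h3 := h1.div h2 (mul_ne_zero two_ne_zero h)
  have h4 : (-Complex.sin (s / 2) * (1 / 2) * (2 * Complex.sin (s / 2)) -
      Complex.cos (s / 2) * (2 * (Complex.cos (s / 2) * (1 / 2)))) / (2 * Complex.sin (s / 2)) ^ 2 =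
      -(1 / (4 * Complex.sin (s / 2) ^ 2)) := by
    have h5 := Complex.sin_sq_add_cos_sq (s / 2)
    field_simp
    linear_combination (-4) * h5
  rw [h4] at h3
  exact h3

private theorem D3_open (η : ℝ) : IsOpen (St η) :=
  isOpen_lt (continuous_abs.comp Complex.continuous_im) continuous_const

private theorem D3_imsub {x y : ℂ} (hx : x ∈ St (1 / 25)) (hy : 7 / 100 ≤ |y.im|) :
    3 / 100 ≤ |(y - x).im| := by
  have h1 : |x.im| < 1 / 25 := hx
  rw [Complex.sub_im]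
  have h2 := abs_sub_abs_le_abs_sub y.im x.im
  linarith

private theorem D3_diff (p Y : ℝ → ℂ) (hp : ContinuousOn p (Icc (-(1 / 2)) (1 / 2)))
    (hY : ContinuousOn Y (Icc (-(1 / 2)) (1 / 2)))
    (hY' : ∀ r ∈ Icc (-(1 / 2) : ℝ) (1 / 2), 7 / 100 ≤ |(Y r).im|) :
    DifferentiableOn ℂ (fun x => ∫ r in (-(1 / 2) : ℝ)..(1 / 2), p r * kc (Y r - x))
      (St (1 / 25)) := by
  have hu : uIcc (-(1 / 2) : ℝ) (1 / 2) = Icc (-(1 / 2)) (1 / 2) := uIcc_of_le (by norm_num)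
  have hsub : Set.uIoc (-(1 / 2) : ℝ) (1 / 2) ⊆ Icc (-(1 / 2)) (1 / 2) := by
    rw [← hu]
    exact uIoc_subset_uIcc
  intro x₀ hx₀
  have hcs : ∀ x ∈ St (1 / 25), ContinuousOn (fun r : ℝ => Complex.sin ((Y r - x) / 2))
      (Icc (-(1 / 2)) (1 / 2)) := fun x _ =>
    Complex.continuous_sin.comp_continuousOn ((hY.sub continuousOn_const).div_const 2)
  have hne : ∀ x ∈ St (1 / 25), ∀ r ∈ Icc (-(1 / 2) : ℝ) (1 / 2),
      Complex.sin ((Y r - x) / 2) ≠ 0 := fun x hx r hr => (D3_kc (D3_imsub hx (hY' r hr))).1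
  have hcF : ∀ x ∈ St (1 / 25), ContinuousOn (fun r : ℝ => p r * kc (Y r - x))
      (Icc (-(1 / 2)) (1 / 2)) := by
    intro x hx
    refine hp.mul ?_
    unfold kc
    refine ContinuousOn.div ?_ (continuousOn_const.mul (hcs x hx)) ?_
    · exact Complex.continuous_cos.comp_continuousOn ((hY.sub continuousOn_const).div_const 2)
    · intro r hr
      exact mul_ne_zero two_ne_zero (hne x hx r hr)
  have hcF' : ContinuousOn (fun r : ℝ => p r * (1 / (4 * Complex.sin ((Y r - x₀) / 2) ^ 2)))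
      (Icc (-(1 / 2)) (1 / 2)) := by
    refine hp.mul (ContinuousOn.div continuousOn_const
      (continuousOn_const.mul ((hcs x₀ hx₀).pow 2)) ?_)
    intro r hr
    exact mul_ne_zero (by norm_num : (4 : ℂ) ≠ 0) (pow_ne_zero 2 (hne x₀ hx₀ r hr))
  have hmem : St (1 / 25) ∈ 𝓝 x₀ := (D3_open _).mem_nhds hx₀
  have hmeas : ∀ f : ℝ → ℂ, ContinuousOn f (Icc (-(1 / 2)) (1 / 2)) →
      AEStronglyMeasurable f (volume.restrict (Set.uIoc (-(1 / 2) : ℝ) (1 / 2))) := fun f hf =>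
    (hf.mono hsub).aestronglyMeasurable measurableSet_uIoc
  have key := intervalIntegral.hasDerivAt_integral_of_dominated_loc_of_deriv_le
    (F := fun x r => p r * kc (Y r - x))
    (F' := fun x r => p r * (1 / (4 * Complex.sin ((Y r - x) / 2) ^ 2)))
    (x₀ := x₀) (s := St (1 / 25)) (a := (-(1 / 2) : ℝ)) (b := 1 / 2) (μ := volume)
    (bound := fun r => ‖p r‖ * 1112) hmem ?_ ?_ ?_ ?_ ?_ ?_
  · exact key.2.differentiableAt.differentiableWithinAt
  · filter_upwards [hmem] with x hx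
    exact hmeas _ (hcF x hx)
  · refine ContinuousOn.intervalIntegrable ?_
    rw [hu]
    exact hcF x₀ hx₀
  · exact hmeas _ hcF'
  · refine Eventually.of_forall fun r hr x hx => ?_
    have hr' := hsub hr
    have h1 := (D3_kc (D3_imsub hx (hY' r hr'))).2.1
    rw [norm_mul]
    refine mul_le_mul_of_nonneg_left ?_ (norm_nonneg _)
    rw [norm_div, norm_one, norm_mul, norm_pow, Complex.norm_ofNat]
    have h2 : (3 / 200 : ℝ) ^ 2 ≤ ‖Complex.sin ((Y r - x) / 2)‖ ^ 2 :=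
      pow_le_pow_left₀ (by norm_num) h1 2
    rw [div_le_iff₀ (by positivity)]
    nlinarith
  · refine ContinuousOn.intervalIntegrable ?_
    rw [hu]
    exact hp.norm.mul continuousOn_const
  · refine Eventually.of_forall fun r hr x hx => ?_
    have hr' := hsub hr
    have h1 := D3_hasDeriv (hne x hx r hr')
    have h2 : HasDerivAt (fun x : ℂ => Y r - x) (-1) x := by
      simpa using (hasDerivAt_id x).const_sub (Y r)
    have h3 := ((h1.comp x h2).const_mul (p r))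
    have h4 : p r * (-(1 / (4 * Complex.sin ((Y r - x) / 2) ^ 2)) * -1) =
        p r * (1 / (4 * Complex.sin ((Y r - x) / 2) ^ 2)) := by ring
    rw [h4] at h3
    exact h3

private theorem D3_pi : (1 : ℝ) ≤ Real.pi := by
  have := Real.pi_gt_three
  linarith

private theorem D3_arc_le (η K : ℝ) (hK : 0 ≤ K) (f : ℂ → ℂ)
    (h1 : ∀ r ∈ Icc (-(1 / 2) : ℝ) (1 / 2), ‖f ((r : ℂ) - (η : ℂ) * I)‖ ≤ K)
    (h2 : ∀ r ∈ Icc (-(1 / 2) : ℝ) (1 / 2), ‖f ((r : ℂ) + (η : ℂ) * I)‖ ≤ K) :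
    ‖arc η f‖ ≤ K := by
  have hsub : Set.uIoc (-(1 / 2) : ℝ) (1 / 2) ⊆ Icc (-(1 / 2)) (1 / 2) := by
    rw [← uIcc_of_le (by norm_num : (-(1 / 2) : ℝ) ≤ 1 / 2)]
    exact uIoc_subset_uIcc
  have e1 := intervalIntegral.norm_integral_le_of_norm_le_const
    (f := fun r : ℝ => f ((r : ℂ) - (η : ℂ) * I)) (a := -(1 / 2)) (b := 1 / 2) (C := K)
    fun r hr => h1 r (hsub hr)
  have e2 := intervalIntegral.norm_integral_le_of_norm_le_const
    (f := fun r : ℝ => f ((r : ℂ) + (η : ℂ) * I)) (a := -(1 / 2)) (b := 1 / 2) (C := K)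
    fun r hr => h2 r (hsub hr)
  have e3 : |(1 / 2 : ℝ) - -(1 / 2)| = 1 := by norm_num
  rw [e3, mul_one] at e1 e2
  unfold arc
  rw [norm_mul, norm_div, norm_one, norm_mul, norm_mul, Complex.norm_I, mul_one,
    Complex.norm_ofNat, Complex.norm_real, Real.norm_eq_abs, abs_of_pos Real.pi_pos]
  have e4 := norm_sub_le (∫ r in (-(1 / 2) : ℝ)..(1 / 2), f ((r : ℂ) - (η : ℂ) * I))
    (∫ r in (-(1 / 2) : ℝ)..(1 / 2), f ((r : ℂ) + (η : ℂ) * I))
  have hpi := D3_pi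
  rw [div_mul_eq_mul_div, one_mul, div_le_iff₀ (by positivity)]
  nlinarith

private theorem D3_arc_congr_mul (η : ℝ) (c : ℂ) (f g : ℂ → ℂ) (h : ∀ τ, f τ = c * g τ) :
    arc η f = c * arc η g := by
  unfold arc
  simp only [h, intervalIntegral.integral_const_mul]
  ring

private theorem D3_kc_neg (s : ℂ) : kc (-s) = -kc s := by
  unfold kc
  rw [neg_div, Complex.cos_neg, Complex.sin_neg, mul_neg, div_neg]

private theorem D3_kc_conj (s : ℂ) : kc (conj s) = conj (kc s) := by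
  unfold kc
  have h : conj s / 2 = conj (s / 2) := by
    rw [map_div₀, Complex.conj_ofNat]
  rw [h, Complex.cos_conj, Complex.sin_conj, map_div₀, map_mul, Complex.conj_ofNat]

private theorem D3_kc_per (s : ℂ) : kc (s - 2 * Real.pi) = kc s := by
  unfold kc
  have h : (s - 2 * Real.pi) / 2 = s / 2 - Real.pi := by ring
  rw [h, Complex.cos_sub_pi, Complex.sin_sub_pi, mul_neg, neg_div_neg_eq]

private theorem D3_cc_neg (x : ℂ) : cc (-x) = cc x := by
  unfold cc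
  rw [Complex.cos_neg]

private theorem D3_cc_conj (x : ℂ) : cc (conj x) = conj (cc x) := by
  unfold cc
  rw [Complex.cos_conj, map_sub, map_div₀, Complex.conj_ofNat, Complex.conj_ofNat]

private theorem D3_cc_per (x : ℂ) : cc (x + 2 * Real.pi) = cc x := by
  unfold cc
  rw [Complex.cos_add_two_pi]

private theorem D3_cc_aa : cc aa = 0 := by
  obtain ⟨-, -, -, -, -, -, -, h, -⟩ := numbers
  unfold cc
  rw [← Complex.ofReal_cos, h]
  push_cast
  ring

private theorem D3_cc_diff : Differentiable ℂ cc := by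
  unfold cc
  exact Complex.differentiable_cos.sub_const _

private theorem D3_cc_le {x : ℂ} (hx : x ∈ St (1 / 25)) : ‖cc x‖ ≤ 4 := by
  have h1 : |x.im| < 1 / 25 := hx
  have h2 := D3_cos_le x (by linarith)
  have h3 := norm_sub_le (Complex.cos x) (3 / 5 : ℂ)
  have h4 : ‖(3 / 5 : ℂ)‖ = 3 / 5 := by
    rw [norm_div, Complex.norm_ofNat, Complex.norm_ofNat]
  unfold cc
  rw [h4] at h3
  linarith

/-
ROW D3 (MEDIUM). The correction near the real axis: GlobalCorr.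
On the arcs 7/100 <= |Im X τ| (ηa = η-ρ >= 1/2), for |Im x| < 1/25: |sin((Xτ-x)/2)| >= sinh(|Im(Xτ-x)|/2) >= (3/100)/2, |cos(..)| <= cosh(3/2), |1/cc(Xτ)^2| <=
25, |cc x| <= 3: differentiable under the integral, bound C B. Periodic: kc(s - 2π) = kc s (sin, cos change sign), cc periodic. Odd for EVERY x: X odd on the
arcs, m odd, kc odd, cc even, the substitution r ↦ -r exchanges the two segments. Real for every x: conj. Zero at aa: cc aa = 0; derivative: dlt = cc^2 h near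
aa with h differentiable.
-/
theorem dlt_global : ∃ C : ℝ, 0 < C ∧ ∀ (X m : ℂ → ℂ) (η ρ ε B : ℝ), 0 < ρ → ρ ≤ 1 / 12 →
    1 / 2 + 3 * ρ ≤ η → η ≤ 1 → 0 ≤ ε → ε ≤ 1 / 1000 → Good η ε X → Per η m →
    (∀ t ∈ St η, ‖m t‖ ≤ B) → GlobalCorr (C * B) (dlt X m (η - ρ)) := by
  refine ⟨40000, by norm_num, ?_⟩
  intro X m η ρ ε B hρ hρ' hη hη' hε hε' hX hm hB
  obtain ⟨ηa, hηa⟩ : ∃ ηa, ηa = η - ρ := ⟨_, rfl⟩
  rw [← hηa]
  have ha1 : 1 / 2 ≤ ηa := by linarith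
  have ha2 : ηa < η := by linarith
  have ha3 : ηa ≤ 1 := by linarith
  obtain ⟨hf1, hf2, -⟩ := near_facts X η ε (by linarith) hε hε' hX.near
  have hB0 : 0 ≤ B := (norm_nonneg _).trans (hB 0 (by
    change |(0 : ℂ).im| < η
    simp
    linarith))
  -- points of the two segments
  have hseg : ∀ σ : ℝ, |σ| = ηa → ∀ r ∈ Icc (-(1 / 2) : ℝ) (1 / 2),
      ((r : ℂ) + (σ : ℂ) * I) ∈ St η ∧ Pole ((r : ℂ) + (σ : ℂ) * I) ∧
        1 / 2 ≤ |((r : ℂ) + (σ : ℂ) * I).im| := by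
    intro σ hσ r hr
    have hre : ((r : ℂ) + (σ : ℂ) * I).re = r := by simp
    have him : ((r : ℂ) + (σ : ℂ) * I).im = σ := by simp
    refine ⟨?_, ⟨?_, ?_⟩, ?_⟩
    · change |((r : ℂ) + (σ : ℂ) * I).im| < η
      rw [him, hσ]
      exact ha2
    · rw [hre]
      exact abs_le.2 hr
    · rw [him, hσ]
      exact ha3
    · rw [him, hσ]
      exact ha1
  have hminus : ∀ r : ℝ, (r : ℂ) - (ηa : ℂ) * I = (r : ℂ) + ((-ηa : ℝ) : ℂ) * I := by
    intro r
    push_cast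
    ring
  have habs1 : |(-ηa : ℝ)| = ηa := by
    rw [abs_neg, abs_of_nonneg (by linarith)]
  have habs2 : |ηa| = ηa := abs_of_nonneg (by linarith)
  -- the factor
  obtain ⟨h, hh⟩ : ∃ h : ℂ → ℂ, h = fun x => arc ηa (fun τ => m τ / cc (X τ) ^ 2 * kc (X τ - x)) :=
    ⟨_, rfl⟩
  have hfac : ∀ x, dlt X m ηa x = cc x ^ 2 * h x := by
    intro x
    rw [hh]
    unfold dlt
    refine D3_arc_congr_mul _ _ _ _ fun τ => ?_
    unfold Ker
    rw [div_pow]
    ring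
  have hcont : ∀ σ : ℝ, |σ| = ηa →
      ContinuousOn (fun r : ℝ => m ((r : ℂ) + (σ : ℂ) * I) / cc (X ((r : ℂ) + (σ : ℂ) * I)) ^ 2)
        (Icc (-(1 / 2)) (1 / 2)) ∧
      ContinuousOn (fun r : ℝ => X ((r : ℂ) + (σ : ℂ) * I)) (Icc (-(1 / 2)) (1 / 2)) ∧
      ∀ r ∈ Icc (-(1 / 2) : ℝ) (1 / 2), 7 / 100 ≤ |(X ((r : ℂ) + (σ : ℂ) * I)).im| := by
    intro σ hσ
    have hγ : ContinuousOn (fun r : ℝ => (r : ℂ) + (σ : ℂ) * I) (Icc (-(1 / 2)) (1 / 2)) :=
      (Complex.continuous_ofReal.add continuous_const).continuousOn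
    have hmaps : MapsTo (fun r : ℝ => (r : ℂ) + (σ : ℂ) * I) (Icc (-(1 / 2)) (1 / 2)) (St η) :=
      fun r hr => (hseg σ hσ r hr).1
    have hXc := hX.near.diff.continuousOn.comp hγ hmaps
    have hmc := hm.diff.continuousOn.comp hγ hmaps
    refine ⟨?_, hXc, fun r hr => ?_⟩
    · refine ContinuousOn.div hmc ((D3_cc_diff.continuous.comp_continuousOn hXc).pow 2) ?_
      intro r hr
      obtain ⟨h1, h2, h3⟩ := hseg σ hσ r hr
      have h4 := (hf2 _ h1 h2).1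
      refine pow_ne_zero 2 fun h5 => ?_
      have h6 : cc (X ((r : ℂ) + (σ : ℂ) * I)) = 0 := h5
      rw [h6, norm_zero] at h4
      norm_num at h4
    · obtain ⟨h1, h2, h3⟩ := hseg σ hσ r hr
      exact (hf2 _ h1 h2).2 h3
  have hdiff : DifferentiableOn ℂ h (St (1 / 25)) := by
    rw [hh]
    unfold arc
    obtain ⟨a1, a2, a3⟩ := hcont (-ηa) habs1
    obtain ⟨b1, b2, b3⟩ := hcont ηa habs2
    have c1 := D3_diff _ _ a1 a2 a3
    have c2 := D3_diff _ _ b1 b2 b3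
    simp only [hminus]
    exact (c1.sub c2).const_mul _
  have hbd : ∀ σ : ℝ, |σ| = ηa → ∀ r ∈ Icc (-(1 / 2) : ℝ) (1 / 2), ∀ x ∈ St (1 / 25),
      ‖m ((r : ℂ) + (σ : ℂ) * I) / cc (X ((r : ℂ) + (σ : ℂ) * I)) ^ 2 *
        kc (X ((r : ℂ) + (σ : ℂ) * I) - x)‖ ≤ 2500 * B := by
    intro σ hσ r hr x hx
    obtain ⟨h1, h2, h3⟩ := hseg σ hσ r hr
    obtain ⟨h4, h5⟩ := hf2 _ h1 h2
    have h6 := hB _ h1
    have h7 := h5 h3
    have hx' : |x.im| < 1 / 25 := hx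
    have h8 : ‖X ((r : ℂ) + (σ : ℂ) * I)‖ ≤ 5 / 4 := (hf1 _ h1).2.2.2.1
    have h9 : |(X ((r : ℂ) + (σ : ℂ) * I) - x).im| ≤ 2 := by
      rw [Complex.sub_im]
      have h10 := abs_sub (X ((r : ℂ) + (σ : ℂ) * I)).im x.im
      have h11 := Complex.abs_im_le_norm (X ((r : ℂ) + (σ : ℂ) * I))
      linarith
    have h12 := (D3_kc (D3_imsub hx h7)).2.2 h9
    rw [norm_mul, norm_div, norm_pow]
    have h13 : (1 / 5 : ℝ) ^ 2 ≤ ‖cc (X ((r : ℂ) + (σ : ℂ) * I))‖ ^ 2 :=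
      pow_le_pow_left₀ (by norm_num) h4 2
    have h14 : ‖m ((r : ℂ) + (σ : ℂ) * I)‖ / ‖cc (X ((r : ℂ) + (σ : ℂ) * I))‖ ^ 2 ≤ 25 * B := by
      rw [div_le_iff₀ (by positivity)]
      nlinarith
    calc _ ≤ (25 * B) * 100 := mul_le_mul h14 h12 (norm_nonneg _) (by positivity)
      _ = 2500 * B := by ring
  have hhb : ∀ x ∈ St (1 / 25), ‖h x‖ ≤ 2500 * B := by
    intro x hx
    rw [hh]
    refine D3_arc_le _ _ (by positivity) _ (fun r hr => ?_) (fun r hr => ?_)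
    · rw [hminus]
      exact hbd _ habs1 r hr x hx
    · exact hbd _ habs2 r hr x hx
  have hfun : dlt X m ηa = fun x => cc x ^ 2 * h x := funext hfac
  refine ⟨?_, ?_, ?_, ?_, ?_, ?_, ?_⟩
  · rw [hfun]
    exact (D3_cc_diff.differentiableOn.pow 2).mul hdiff
  · intro x hx
    rw [hfac, norm_mul, norm_pow]
    have h1 := D3_cc_le hx
    have h2 := hhb x hx
    have h3 : ‖cc x‖ ^ 2 ≤ 4 ^ 2 := pow_le_pow_left₀ (norm_nonneg _) h1 2
    calc ‖cc x‖ ^ 2 * ‖h x‖ ≤ 4 ^ 2 * (2500 * B) :=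
          mul_le_mul h3 h2 (norm_nonneg _) (by norm_num)
      _ = 40000 * B := by ring
  · intro x
    unfold dlt
    congr 1
    funext τ
    unfold Ker
    have h1 : X τ - (x + 2 * Real.pi) = (X τ - x) - 2 * Real.pi := by ring
    rw [h1, D3_kc_per, D3_cc_per]
  · intro x
    have hodd : ∀ σ : ℝ, |σ| = ηa → ∀ r ∈ Icc (-(1 / 2) : ℝ) (1 / 2),
        m ((r : ℂ) + (σ : ℂ) * I) * Ker (-x) (X ((r : ℂ) + (σ : ℂ) * I)) =
          m (((-r : ℝ) : ℂ) + ((-σ : ℝ) : ℂ) * I) *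
            Ker x (X (((-r : ℝ) : ℂ) + ((-σ : ℝ) : ℂ) * I)) := by
      intro σ hσ r hr
      obtain ⟨h1, -, -⟩ := hseg σ hσ r hr
      have h2 : ((-r : ℝ) : ℂ) + ((-σ : ℝ) : ℂ) * I = -((r : ℂ) + (σ : ℂ) * I) := by
        push_cast
        ring
      rw [h2, hX.sym.odd _ h1, hm.sym.odd _ h1]
      unfold Ker
      have h3 : -X ((r : ℂ) + (σ : ℂ) * I) - x = -(X ((r : ℂ) + (σ : ℂ) * I) - -x) := by ring
      rw [h3, D3_kc_neg, D3_cc_neg, D3_cc_neg]
      ring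
    have hint : ∀ σ : ℝ, |σ| = ηa →
        (∫ r in (-(1 / 2) : ℝ)..(1 / 2), m ((r : ℂ) + (σ : ℂ) * I) *
          Ker (-x) (X ((r : ℂ) + (σ : ℂ) * I))) =
        ∫ r in (-(1 / 2) : ℝ)..(1 / 2), m ((r : ℂ) + ((-σ : ℝ) : ℂ) * I) *
          Ker x (X ((r : ℂ) + ((-σ : ℝ) : ℂ) * I)) := by
      intro σ hσ
      have e1 := intervalIntegral.integral_comp_neg (a := (-(1 / 2) : ℝ)) (b := 1 / 2)
        (fun r : ℝ => m ((r : ℂ) + ((-σ : ℝ) : ℂ) * I) * Ker x (X ((r : ℂ) + ((-σ : ℝ) : ℂ) * I)))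
      rw [neg_neg] at e1
      rw [← e1]
      refine intervalIntegral.integral_congr fun r hr => ?_
      rw [uIcc_of_le (by norm_num : (-(1 / 2) : ℝ) ≤ 1 / 2)] at hr
      exact hodd σ hσ r hr
    unfold dlt arc
    simp only [hminus]
    rw [hint (-ηa) habs1, hint ηa habs2, neg_neg]
    ring
  · intro x
    have hreal : ∀ σ : ℝ, |σ| = ηa → ∀ r ∈ Icc (-(1 / 2) : ℝ) (1 / 2),
        m ((r : ℂ) + ((-σ : ℝ) : ℂ) * I) * Ker (conj x) (X ((r : ℂ) + ((-σ : ℝ) : ℂ) * I)) =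
          conj (m ((r : ℂ) + (σ : ℂ) * I) * Ker x (X ((r : ℂ) + (σ : ℂ) * I))) := by
      intro σ hσ r hr
      obtain ⟨h1, -, -⟩ := hseg σ hσ r hr
      have h2 : (r : ℂ) + ((-σ : ℝ) : ℂ) * I = conj ((r : ℂ) + (σ : ℂ) * I) := by
        simp
      rw [h2, hX.sym.real _ h1, hm.sym.real _ h1, map_mul]
      unfold Ker
      rw [← map_sub, D3_kc_conj, D3_cc_conj, D3_cc_conj, map_mul, map_pow, map_div₀]
    have hint : ∀ σ : ℝ, |σ| = ηa →
        (∫ r in (-(1 / 2) : ℝ)..(1 / 2), m ((r : ℂ) + ((-σ : ℝ) : ℂ) * I) *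
          Ker (conj x) (X ((r : ℂ) + ((-σ : ℝ) : ℂ) * I))) =
        conj (∫ r in (-(1 / 2) : ℝ)..(1 / 2), m ((r : ℂ) + (σ : ℂ) * I) *
          Ker x (X ((r : ℂ) + (σ : ℂ) * I))) := by
      intro σ hσ
      rw [← intervalIntegral.intervalIntegral_conj]
      refine intervalIntegral.integral_congr fun r hr => ?_
      rw [uIcc_of_le (by norm_num : (-(1 / 2) : ℝ) ≤ 1 / 2)] at hr
      exact hreal σ hσ r hr
    have i1 := hint (-ηa) habs1
    have i2 := hint ηa habs2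
    rw [neg_neg] at i1
    unfold dlt arc
    simp only [hminus]
    rw [i1, i2, map_mul, map_sub, map_div₀, map_mul, map_mul, map_one, Complex.conj_ofNat,
      Complex.conj_ofReal, Complex.conj_I]
    ring
  · rw [hfac, D3_cc_aa]
    ring
  · rw [hfun]
    have hmem : (aa : ℂ) ∈ St (1 / 25) := by
      change |(aa : ℂ).im| < 1 / 25
      rw [Complex.ofReal_im, abs_zero]
      norm_num
    have h1 : DifferentiableAt ℂ h aa := hdiff.differentiableAt ((D3_open _).mem_nhds hmem)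
    have h2 : HasDerivAt (fun x => cc x ^ 2 * h x)
        (((2 : ℕ) : ℂ) * cc aa ^ (2 - 1) * deriv cc aa * h aa + cc aa ^ 2 * deriv h aa) aa :=
      ((D3_cc_diff aa).hasDerivAt.pow 2).mul h1.hasDerivAt
    rw [h2.deriv, D3_cc_aa]
    simp

end LibEY38
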