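import Pool.Agent.LibEY38.Defs
import Pool.Agent.LibEY38.A2
import Pool.Agent.LibEY38.N1

open Complex Set Filter Topology MeasureTheory
open scoped ComplexConjugate

namespace LibEY38

private theorem D4_open (η : ℝ) : IsOpen (St η) :=
  isOpen_lt (continuous_abs.comp Complex.continuous_im) continuous_const

private theorem D4_mem {η : ℝ} {t x : ℂ} (ht : t ∈ St η) (hx : x.im = 0) : t + x ∈ St η := by
  show |(t + x).im| < η
  rw [Complex.add_im, hx, add_zero]
  exact ht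

private theorem D4_mem' {η : ℝ} {t x : ℂ} (ht : t ∈ St η) (hx : x.im = 0) : t - x ∈ St η := by
  show |(t - x).im| < η
  rw [Complex.sub_im, hx, sub_zero]
  exact ht

private theorem D4_neg {η : ℝ} {t : ℂ} (ht : t ∈ St η) : -t ∈ St η := by
  show |(-t).im| < η
  rw [Complex.neg_im, abs_neg]
  exact ht

private theorem D4_conj {η : ℝ} {t : ℂ} (ht : t ∈ St η) : conj t ∈ St η := by
  show |(conj t).im| < η
  rw [Complex.conj_im, abs_neg]
  exact ht

private theorem D4_lam : 0 < lam := by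
  unfold lam
  have := Real.arsinh_pos_iff.2 (show (0 : ℝ) < 1 / 5 by norm_num)
  linarith

private theorem D4_deriv_neg {η : ℝ} {X : ℂ → ℂ} (hodd : ∀ t ∈ St η, X (-t) = -X t) {t : ℂ}
    (ht : t ∈ St η) : deriv X (-t) = deriv X t := by
  have h1 : X =ᶠ[𝓝 t] fun s => -X (-s) := by
    filter_upwards [(D4_open η).mem_nhds ht] with s hs
    rw [hodd s hs, neg_neg]
  rw [h1.deriv_eq]
  have h2 : deriv (fun s => -X (-s)) t = -deriv (fun s => X (-s)) t := deriv.fun_neg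
  rw [h2, deriv_comp_neg, neg_neg]

private theorem D4_deriv_conj {η : ℝ} {X : ℂ → ℂ} (hd : DifferentiableOn ℂ X (St η))
    (hre : ∀ t ∈ St η, X (conj t) = conj (X t)) {t : ℂ}
    (ht : t ∈ St η) : deriv X (conj t) = conj (deriv X t) := by
  have h0 : HasDerivAt X (deriv X t) t := (hd.differentiableAt ((D4_open η).mem_nhds ht)).hasDerivAt
  have h1 := h0.conj_conj
  have h2 : X =ᶠ[𝓝 (conj t)] (conj ∘ X ∘ conj) := by
    filter_upwards [(D4_open η).mem_nhds (D4_conj ht)] with s hs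
    simp only [Function.comp_apply]
    rw [hre s hs, Complex.conj_conj]
  exact (h1.congr_of_eventuallyEq h2).deriv

private theorem D4_sub {f : ℂ → ℂ} {t : ℂ} (hs : Summable (fun n : ℕ => ‖f (t - n)‖)) :
    (∑' n : ℕ, f (t - n)) - ∑' n : ℕ, f (t - 1 - n) = f t := by
  have h1 : Summable (fun n : ℕ => f (t - n)) := hs.of_norm
  rw [h1.tsum_eq_zero_add]
  have h2 : (∑' n : ℕ, f (t - ((n + 1 : ℕ) : ℂ))) = ∑' n : ℕ, f (t - 1 - n) := by
    refine tsum_congr fun n => ?_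
    congr 1
    push_cast
    ring
  rw [h2, Nat.cast_zero, sub_zero]
  ring

private theorem D4_add {f : ℂ → ℂ} {t : ℂ} (hs : Summable (fun n : ℕ => ‖f (t + n)‖)) :
    (∑' n : ℕ, f (t + n)) - ∑' n : ℕ, f (t + 1 + n) = f t := by
  have h1 : Summable (fun n : ℕ => f (t + n)) := hs.of_norm
  rw [h1.tsum_eq_zero_add]
  have h2 : (∑' n : ℕ, f (t + ((n + 1 : ℕ) : ℂ))) = ∑' n : ℕ, f (t + 1 + n) := by
    refine tsum_congr fun n => ?_
    congr 1
    push_cast
    ring
  rw [h2, Nat.cast_zero, add_zero]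
  ring

private theorem D4_wt_pos (t : ℂ) : 0 < wt t := Real.exp_pos _

private theorem D4_wt_succ (t : ℂ) : Real.exp (-lam) * wt t ≤ wt (t + 1) := by
  unfold wt
  rw [← Real.exp_add]
  apply Real.exp_le_exp.2
  have h1 : |(t + 1).re| ≤ |t.re| + 1 := by
    rw [Complex.add_re, Complex.one_re]
    refine (abs_add_le _ _).trans ?_
    rw [abs_one]
  have := mul_le_mul_of_nonneg_left h1 D4_lam.le
  linarith

/-- the half sum with total sum zero -/
private theorem D4_q {η R : ℝ} {r : ℂ → ℂ} (hr : DifferentiableOn ℂ r (St η)) (hsym : Sym η r)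
    (hb : ∀ t ∈ St η, ‖r t‖ ≤ R * wt t ^ 3) (h0 : ∀ t ∈ St η, ∑' n : ℤ, r (t + n) = 0) (hR : 0 ≤ R) :
    ∃ q : ℂ → ℂ, DifferentiableOn ℂ q (St η) ∧ (∀ t ∈ St η, q t - q (t - 1) = r t) ∧
      (∀ t ∈ St η, ‖q t‖ ≤ R / (1 - Real.exp (-(3 * lam))) * wt t ^ 3) ∧
      (∀ t ∈ St η, q (-t) = q (t - 1)) ∧ ∀ t ∈ St η, q (conj t) = conj (q t) := by
  have hl := D4_lam
  have hwt3 : ∀ t : ℂ, wt t ^ 3 = Real.exp (-(3 * lam * |t.re|)) := by
    intro t
    unfold wt
    rw [← Real.exp_nat_mul]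
    congr 1
    push_cast
    ring
  have hb' : ∀ t ∈ St η, ‖r t‖ ≤ R * Real.exp (-(3 * lam * |t.re|)) := by
    intro t ht
    rw [← hwt3]
    exact hb t ht
  obtain ⟨a1, a2, a3, a4, a5, a6, a7⟩ := tsum_half r η R (3 * lam) (by linarith) hr hb'
  have hm1 : ∀ {t : ℂ}, t ∈ St η → t + 1 ∈ St η := fun ht => D4_mem ht Complex.one_im
  have hm2 : ∀ {t : ℂ}, t ∈ St η → t - 1 ∈ St η := fun ht => D4_mem' ht Complex.one_im
  have hq2 : ∀ t ∈ St η, (∑' n : ℕ, r (t - n)) = -∑' n : ℕ, r (t + 1 + n) := by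
    intro t ht
    have h1 := a7 t ht
    rw [h0 t ht] at h1
    have h2 : (∑' n : ℕ, r (t + (n + 1))) = ∑' n : ℕ, r (t + 1 + n) := by
      refine tsum_congr fun n => ?_
      congr 1
      ring
    rw [h2] at h1
    exact eq_neg_of_add_eq_zero_left h1.symm
  refine ⟨fun t => ∑' n : ℕ, r (t - n), a3, fun t ht => D4_sub (a1 t ht).2, ?_, ?_, ?_⟩
  · intro t ht
    rw [hwt3]
    rcases le_total t.re 0 with h | h
    · exact a5 t ht h
    · show ‖∑' n : ℕ, r (t - n)‖ ≤ _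
      rw [hq2 t ht, norm_neg]
      have h1 : 0 ≤ (t + 1).re := by
        rw [Complex.add_re, Complex.one_re]
        linarith
      refine (a4 (t + 1) (hm1 ht) h1).trans ?_
      have h2 : Real.exp (-(3 * lam)) < 1 := by
        rw [Real.exp_lt_one_iff]
        linarith
      apply mul_le_mul_of_nonneg_left _ (div_nonneg hR (by linarith))
      apply Real.exp_le_exp.2
      have h3 : |t.re| ≤ |(t + 1).re| := by
        rw [abs_of_nonneg h, abs_of_nonneg h1, Complex.add_re, Complex.one_re]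
        linarith
      have := mul_le_mul_of_nonneg_left h3 (show 0 ≤ 3 * lam by linarith)
      linarith
  · intro t ht
    show (∑' n : ℕ, r (-t - n)) = ∑' n : ℕ, r (t - 1 - n)
    rw [hq2 (t - 1) (hm2 ht), ← tsum_neg]
    refine tsum_congr fun n => ?_
    have h1 : (t - 1 + 1 + (n : ℂ)) = t + n := by ring
    have h2 : -t - (n : ℂ) = -(t + n) := by ring
    rw [h1, h2, hsym.odd _ (D4_mem ht (Complex.natCast_im n))]
  · intro t ht
    show (∑' n : ℕ, r (conj t - n)) = conj (∑' n : ℕ, r (t - n))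
    rw [Complex.conj_tsum]
    refine tsum_congr fun n => ?_
    rw [← hsym.real _ (D4_mem' ht (Complex.natCast_im n)), map_sub, Complex.conj_natCast]

/-- the symmetric half sum -/
private theorem D4_h {η M : ℝ} {g : ℂ → ℂ} (hg : DifferentiableOn ℂ g (St η))
    (hb : ∀ t ∈ St η, ‖g t‖ ≤ M * wt t) (hneg : ∀ t ∈ St η, g (-t) = g (t - 1))
    (hconj : ∀ t ∈ St η, g (conj t) = conj (g t)) :
    ∃ h : ℂ → ℂ, DifferentiableOn ℂ h (St η) ∧ (∀ t ∈ St η, h (t + 1) - h t = g t) ∧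
      (∀ t ∈ St η, ‖h t‖ ≤ 2 * M / (1 - Real.exp (-lam))) ∧ Sym η h := by
  have hl := D4_lam
  obtain ⟨a1, a2, a3, a4, a5, a6, a7⟩ := tsum_half g η M lam hl hg hb
  have hm1 : ∀ {t : ℂ}, t ∈ St η → t + 1 ∈ St η := fun ht => D4_mem ht Complex.one_im
  have hm2 : ∀ {t : ℂ}, t ∈ St η → t - 1 ∈ St η := fun ht => D4_mem' ht Complex.one_im
  refine ⟨fun t => 1 / 2 * ((∑' n : ℕ, g (t - 1 - n)) - ∑' n : ℕ, g (t + n)), ?_, ?_, ?_, ?_⟩
  · have h1 : DifferentiableOn ℂ (fun t : ℂ => ∑' n : ℕ, g (t - 1 - n)) (St η) := by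
      have h2 : DifferentiableOn ℂ (fun t : ℂ => t - 1) (St η) :=
        (differentiable_id.sub_const 1).differentiableOn
      exact a3.comp h2 fun t ht => hm2 ht
    exact (h1.sub a2).const_mul _
  · intro t ht
    have h1 := D4_sub (a1 t ht).2
    have h2 := D4_add (a1 t ht).1
    have h3 : t + 1 - 1 = t := by ring
    simp only [h3]
    linear_combination 1 / 2 * h1 + 1 / 2 * h2
  · intro t ht
    rw [norm_mul]
    have h1 := (a6 (t - 1) (hm2 ht)).2
    have h2 := (a6 t ht).1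
    have h3 := norm_sub_le (∑' n : ℕ, g (t - 1 - n)) (∑' n : ℕ, g (t + n))
    have h4 : ‖(1 / 2 : ℂ)‖ = 1 / 2 := by norm_num
    rw [h4]
    linarith
  · constructor
    · intro t ht
      show 1 / 2 * ((∑' n : ℕ, g (-t - 1 - n)) - ∑' n : ℕ, g (-t + n)) =
        -(1 / 2 * ((∑' n : ℕ, g (t - 1 - n)) - ∑' n : ℕ, g (t + n)))
      have h1 : (∑' n : ℕ, g (-t - 1 - n)) = ∑' n : ℕ, g (t + n) := by
        refine tsum_congr fun n => ?_
        have e1 : -t - 1 - (n : ℂ) = -(t + 1 + n) := by ring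
        have e2 : t + (n : ℂ) = t + 1 + n - 1 := by ring
        rw [e1, e2, hneg _ (D4_mem (hm1 ht) (Complex.natCast_im n))]
      have h2 : (∑' n : ℕ, g (-t + n)) = ∑' n : ℕ, g (t - 1 - n) := by
        refine tsum_congr fun n => ?_
        have e1 : -t + (n : ℂ) = -(t - n) := by ring
        have e2 : t - 1 - (n : ℂ) = t - n - 1 := by ring
        rw [e1, e2, hneg _ (D4_mem' ht (Complex.natCast_im n))]
      rw [h1, h2]
      ring
    · intro t ht
      show 1 / 2 * ((∑' n : ℕ, g (conj t - 1 - n)) - ∑' n : ℕ, g (conj t + n)) =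
        conj (1 / 2 * ((∑' n : ℕ, g (t - 1 - n)) - ∑' n : ℕ, g (t + n)))
      have h1 : (∑' n : ℕ, g (conj t - 1 - n)) = conj (∑' n : ℕ, g (t - 1 - n)) := by
        rw [Complex.conj_tsum]
        refine tsum_congr fun n => ?_
        rw [← hconj _ (D4_mem' (hm2 ht) (Complex.natCast_im n)), map_sub, map_sub, Complex.conj_natCast,
          map_one]
      have h2 : (∑' n : ℕ, g (conj t + n)) = conj (∑' n : ℕ, g (t + n)) := by
        rw [Complex.conj_tsum]
        refine tsum_congr fun n => ?_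
        rw [← hconj _ (D4_mem ht (Complex.natCast_im n)), map_add, Complex.conj_natCast]
      have h3 : conj (1 / 2 : ℂ) = 1 / 2 := by
        rw [map_div₀, map_one, Complex.conj_ofNat]
      rw [map_mul, h3, map_sub, h1, h2]

/-
ROW D4 (MEDIUM). The homological equation.
w = deriv X (even, real, 1/10 wt <= |w| <= 3 wt). q t := ∑_{n>=0} r(t - n) = -∑_{n>=1} r(t+n) (total sum 0; tsum_half), q(t) - q(t-1) = r(t),
|q t| <= C R wt^3 (use the first form for Re t <= 0, the second for Re t >= 0). p = w(t) w(t+1), g = q/p, |g| <= C R wt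
(wt(t+1) >= e^{-lam} wt t). h t := 1/2 (∑_{n>=1} g(t-n) - ∑_{n>=0} g(t+n)), h(t+1) - h(t) = g(t), |h| <= C R, analytic (tsum_half for g).
w(t) (w(t+1)(h(t+1)-h t) - w(t-1)(h t - h(t-1))) = q t - q(t-1) = r t. Parity: q(-t) = q(t-1), p(-t) = p(t-1), g(-t) = g(t-1), h(-t) = -h t.
-/
theorem homological : ∃ C : ℝ, 0 < C ∧ ∀ (X r : ℂ → ℂ) (η ε R : ℝ), η ≤ 7 / 2 → 0 ≤ ε → ε ≤ 1 / 1000 →
    Good η ε X → DifferentiableOn ℂ r (St η) → Sym η r → (∀ t ∈ St η, ‖r t‖ ≤ R * wt t ^ 3) →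
    (∀ t ∈ St η, ∑' n : ℤ, r (t + n) = 0) →
    ∃ h : ℂ → ℂ, DifferentiableOn ℂ h (St η) ∧ Sym η h ∧ (∀ t ∈ St η, ‖h t‖ ≤ C * R) ∧
      ∀ t ∈ St η, deriv X t * (deriv X (t + 1) * (h (t + 1) - h t) - deriv X (t - 1) * (h t - h (t - 1)))
        = r t := by
  have hl := D4_lam
  have hE1 : Real.exp (-lam) < 1 := by rw [Real.exp_lt_one_iff]; linarith
  have hE3 : Real.exp (-(3 * lam)) < 1 := by rw [Real.exp_lt_one_iff]; linarith
  obtain ⟨D, hD⟩ : ∃ D : ℝ, D = 1 / (1 - Real.exp (-(3 * lam))) := ⟨_, rfl⟩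
  have hD0 : 0 < D := by rw [hD]; exact one_div_pos.2 (by linarith)
  obtain ⟨E, hE⟩ : ∃ E : ℝ, E = Real.exp lam := ⟨_, rfl⟩
  have hE0 : 0 < E := by rw [hE]; exact Real.exp_pos _
  refine ⟨2 * (100 * E * D) / (1 - Real.exp (-lam)), div_pos (by positivity) (by linarith), ?_⟩
  intro X r η ε R hη hε hε' hX hr hsym hb h0
  obtain ⟨nf1, -, -⟩ := near_facts X η ε hη hε hε' hX.near
  rcases (St η).eq_empty_or_nonempty with hem | ⟨t0, ht0⟩
  · refine ⟨fun _ => 0, differentiableOn_const _, ⟨?_, ?_⟩, ?_, ?_⟩ <;>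
    · intro t ht
      rw [hem] at ht
      exact absurd ht (Set.notMem_empty t)
  have hR : 0 ≤ R := by
    have h1 := (norm_nonneg _).trans (hb t0 ht0)
    have h2 : 0 < wt t0 ^ 3 := pow_pos (D4_wt_pos t0) 3
    exact nonneg_of_mul_nonneg_left h1 h2
  have hm1 : ∀ {t : ℂ}, t ∈ St η → t + 1 ∈ St η := fun ht => D4_mem ht Complex.one_im
  have hm2 : ∀ {t : ℂ}, t ∈ St η → t - 1 ∈ St η := fun ht => D4_mem' ht Complex.one_im
  obtain ⟨q, q1, q2, q3, q4, q5⟩ := D4_q hr hsym hb h0 hR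
  have hw : DifferentiableOn ℂ (deriv X) (St η) := hX.near.diff.deriv (D4_open η)
  have hw0 : ∀ t ∈ St η, deriv X t ≠ 0 := by
    intro t ht h
    have h1 := (nf1 t ht).1
    rw [h, norm_zero] at h1
    linarith [D4_wt_pos t]
  have hwn : ∀ t ∈ St η, deriv X (-t) = deriv X t := fun t ht => D4_deriv_neg hX.sym.odd ht
  have hwc : ∀ t ∈ St η, deriv X (conj t) = conj (deriv X t) := fun t ht =>
    D4_deriv_conj hX.near.diff hX.sym.real ht
  have hw1 : DifferentiableOn ℂ (fun t => deriv X (t + 1)) (St η) := by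
    have h2 : DifferentiableOn ℂ (fun t : ℂ => t + 1) (St η) :=
      (differentiable_id.add_const 1).differentiableOn
    exact hw.comp h2 fun t ht => hm1 ht
  obtain ⟨g, hg⟩ : ∃ g : ℂ → ℂ, g = fun t => q t / (deriv X t * deriv X (t + 1)) := ⟨_, rfl⟩
  have hgd : DifferentiableOn ℂ g (St η) := by
    rw [hg]
    exact q1.div (hw.mul hw1) fun t ht => mul_ne_zero (hw0 t ht) (hw0 _ (hm1 ht))
  have hgb : ∀ t ∈ St η, ‖g t‖ ≤ (100 * E * D * R) * wt t := by
    intro t ht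
    rw [hg]
    simp only
    rw [norm_div, norm_mul]
    have hpos : 0 < ‖deriv X t‖ * ‖deriv X (t + 1)‖ :=
      mul_pos (norm_pos_iff.2 (hw0 t ht)) (norm_pos_iff.2 (hw0 _ (hm1 ht)))
    rw [div_le_iff₀ hpos]
    have h1 := (nf1 t ht).1
    have h2 := (nf1 _ (hm1 ht)).1
    have h3 := D4_wt_succ t
    have h4 := D4_wt_pos t
    have h5 : (1 / 10 * wt t) * (1 / 10 * (Real.exp (-lam) * wt t)) ≤ ‖deriv X t‖ * ‖deriv X (t + 1)‖ :=
      mul_le_mul h1 (le_trans (by linarith) h2) (by positivity) (norm_nonneg _)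
    have h6 : E * Real.exp (-lam) = 1 := by
      rw [hE, ← Real.exp_add, add_neg_cancel, Real.exp_zero]
    have h7 := q3 t ht
    have h8 : R / (1 - Real.exp (-(3 * lam))) = R * D := by rw [hD]; ring
    rw [h8] at h7
    refine h7.trans ?_
    have h9 := mul_le_mul_of_nonneg_left h5 (show 0 ≤ 100 * E * D * R * wt t by positivity)
    refine le_trans (le_of_eq ?_) h9
    have : 100 * E * D * R * wt t * (1 / 10 * wt t * (1 / 10 * (Real.exp (-lam) * wt t))) =
        (E * Real.exp (-lam)) * (R * D * wt t ^ 3) := by ring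
    rw [this, h6, one_mul]
  have hgn : ∀ t ∈ St η, g (-t) = g (t - 1) := by
    intro t ht
    rw [hg]
    simp only
    have e1 : -t + 1 = -(t - 1) := by ring
    have e2 : t - 1 + 1 = t := by ring
    rw [q4 t ht, hwn t ht, e1, hwn _ (hm2 ht), e2, mul_comm (deriv X t)]
  have hgc : ∀ t ∈ St η, g (conj t) = conj (g t) := by
    intro t ht
    rw [hg]
    simp only
    have e1 : conj t + 1 = conj (t + 1) := by rw [map_add, map_one]
    rw [q5 t ht, hwc t ht, e1, hwc _ (hm1 ht), map_div₀, map_mul]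
  obtain ⟨h, hh1, hh2, hh3, hh4⟩ := D4_h hgd hgb hgn hgc
  refine ⟨h, hh1, hh4, ?_, ?_⟩
  · intro t ht
    refine (hh3 t ht).trans (le_of_eq ?_)
    ring
  · intro t ht
    have e1 := hh2 t ht
    have e2 := hh2 (t - 1) (hm2 ht)
    have e3 : t - 1 + 1 = t := by ring
    rw [e3] at e2
    rw [e1, e2, hg]
    simp only
    rw [e3, ← q2 t ht]
    have n1 := hw0 t ht
    have n2 := hw0 _ (hm1 ht)
    have n3 := hw0 _ (hm2 ht)
    field_simp

end LibEY38
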