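import Pool.Agent.LibEY38.Defs

open Complex Set Filter Topology MeasureTheory
open scoped ComplexConjugate

namespace LibEY38

/-
ROW D5 (SHORT/MEDIUM, only Mathlib). The Newton identity and the Taylor estimate.
identity: deriv (Err X F) t = X'(t+1) + X'(t-1) - F'(X t) X'(t) (chain rule, F differentiable at X t, X at t, t±1); expand and use
hh : X'(t+1)(h(t+1)-h t) - X'(t-1)(h t - h(t-1)) = δ(X t) - Err X F t. With Y s = X s + X'(s) h(s):
Err Y (F + δ) t = Err' h - (F(X+ξ) - F X - F'(X) ξ) - (δ(X+ξ) - δ X), ξ = X'(t) h t. Pure algebra (linear_combination).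
taylor: on the convex ball, |G(z+ξ) - G z - G'(z) ξ| <= M |ξ|^2: mean value for G' (|G'(s) - G'(z)| <= M|s-z|) and then for G - G'(z)·id
(Convex.norm_image_sub_le_of_norm_deriv_le).
-/
theorem newton_identity (X F δ h : ℂ → ℂ) (t : ℂ) (h1 : DifferentiableAt ℂ X t)
    (h2 : DifferentiableAt ℂ X (t + 1)) (h3 : DifferentiableAt ℂ X (t - 1)) (h4 : DifferentiableAt ℂ F (X t))
    (hh : deriv X (t + 1) * (h (t + 1) - h t) - deriv X (t - 1) * (h t - h (t - 1)) =
      δ (X t) - Err X F t) :
    Err (fun s => X s + deriv X s * h s) (fun x => F x + δ x) t =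
      deriv (Err X F) t * h t
      - (F (X t + deriv X t * h t) - F (X t) - deriv F (X t) * (deriv X t * h t))
      - (δ (X t + deriv X t * h t) - δ (X t)) := by
  have e1 : HasDerivAt (fun s => X (s + 1)) (deriv X (t + 1)) t := by
    have h5 := h2.hasDerivAt.comp_add_const t 1
    exact h5
  have e2 : HasDerivAt (fun s => X (s - 1)) (deriv X (t - 1)) t := by
    have h5 := h3.hasDerivAt.comp_sub_const t 1
    exact h5
  have e3 : HasDerivAt (fun s => F (X s)) (deriv F (X t) * deriv X t) t :=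
    h4.hasDerivAt.comp t h1.hasDerivAt
  have e4 : deriv (Err X F) t = deriv X (t + 1) + deriv X (t - 1) - deriv F (X t) * deriv X t :=
    ((e1.add e2).sub e3).deriv
  rw [e4]
  unfold Err at hh ⊢
  linear_combination hh

theorem taylor2 (G : ℂ → ℂ) (z ξ : ℂ) (r M : ℝ) (hM : 0 ≤ M) (hξ : ‖ξ‖ < r)
    (hd : DifferentiableOn ℂ G (Metric.ball z r)) (hM2 : ∀ s ∈ Metric.ball z r, ‖deriv (deriv G) s‖ ≤ M) :
    ‖G (z + ξ) - G z - deriv G z * ξ‖ ≤ M * ‖ξ‖ ^ 2 := by
  have hsub : Metric.closedBall z ‖ξ‖ ⊆ Metric.ball z r := Metric.closedBall_subset_ball hξ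
  have hz : z ∈ Metric.closedBall z ‖ξ‖ := Metric.mem_closedBall_self (norm_nonneg _)
  have hr : z ∈ Metric.ball z r := hsub hz
  have hd' : DifferentiableOn ℂ (deriv G) (Metric.ball z r) := hd.deriv Metric.isOpen_ball
  have hG : ∀ s ∈ Metric.ball z r, DifferentiableAt ℂ G s := fun s hs =>
    hd.differentiableAt (Metric.isOpen_ball.mem_nhds hs)
  have hG' : ∀ s ∈ Metric.ball z r, DifferentiableAt ℂ (deriv G) s := fun s hs =>
    hd'.differentiableAt (Metric.isOpen_ball.mem_nhds hs)
  have h1 : ∀ s ∈ Metric.closedBall z ‖ξ‖, ‖deriv G s - deriv G z‖ ≤ M * ‖ξ‖ := by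
    intro s hs
    have h2 := (convex_ball z r).norm_image_sub_le_of_norm_deriv_le hG' hM2 hr (hsub hs)
    refine h2.trans (mul_le_mul_of_nonneg_left ?_ hM)
    rwa [mem_closedBall_iff_norm] at hs
  have h2 : ∀ s ∈ Metric.closedBall z ‖ξ‖,
      HasDerivAt (fun s => G s - deriv G z * s) (deriv G s - deriv G z) s := by
    intro s hs
    have h3 := (hG s (hsub hs)).hasDerivAt.sub ((hasDerivAt_id s).const_mul (deriv G z))
    rw [mul_one] at h3
    exact h3
  have h3 := (convex_closedBall z ‖ξ‖).norm_image_sub_le_of_norm_deriv_le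
    (f := fun s => G s - deriv G z * s) (C := M * ‖ξ‖) (x := z) (y := z + ξ)
    (fun s hs => (h2 s hs).differentiableAt)
    (fun s hs => by rw [(h2 s hs).deriv]; exact h1 s hs) hz
    (by rw [mem_closedBall_iff_norm, add_sub_cancel_left])
  have h4 : G (z + ξ) - G z - deriv G z * ξ =
      (fun s => G s - deriv G z * s) (z + ξ) - (fun s => G s - deriv G z * s) z := by
    simp only
    ring
  rw [h4]
  refine h3.trans (le_of_eq ?_)
  rw [add_sub_cancel_left]
  ring

end LibEY38
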