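import Pool.Agent.LibEY38.Defs
import Pool.Agent.LibEY38.N1

open Complex Set Filter Topology MeasureTheory
open scoped ComplexConjugate

namespace LibEY38

/-
ROW J1 (MEDIUM/STRONG). Analyticity of J.
Fix τ. On St η minus {τ}: X s - X τ ≠ 0 (near_facts), |X s - X τ| <= 5/2, so sin((X τ - X s)/2) ≠ 0 (kc_bound), cc (X τ) ≠ 0, and
s ↦ gX X s τ is differentiable (deriv X is differentiable on the open strip). Φ z = if z = τ then 1 else gX X z τ (τ - z) is continuous at
τ: gX X z τ (τ-z) = deriv X z (τ - z) cos((Xτ-Xz)/2)/(2 sin((Xτ - Xz)/2)) (cc(X z)/cc(X τ))^2 → X'(τ)/X'(τ) = 1 because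
(X τ - X z)/(τ - z) → X'(τ) ≠ 0 and sin(u)/u → 1. So Φ is differentiable on St η
(Complex.differentiableOn_compl_singleton_and_continuousAt_iff) and dslope Φ τ too (Complex.differentiableOn_dslope). Second part: unfold,
dslope_of_ne, slope.
-/

private theorem J1_open (η : ℝ) : IsOpen (St η) := by
  have : St η = (fun t : ℂ => |t.im|) ⁻¹' Set.Iio η := rfl
  rw [this]
  exact isOpen_Iio.preimage (continuous_abs.comp Complex.continuous_im)

/-- the differences are nonzero and small -/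
private theorem J1_sub (X : ℂ → ℂ) (η ε : ℝ) (hη' : η ≤ 7 / 2) (hε : 0 ≤ ε) (hε' : ε ≤ 1 / 1000)
    (hX : Near η ε X) (s τ : ℂ) (hs : s ∈ St η) (hτ : τ ∈ St η) (hp : Pole τ) (hne : s ≠ τ) :
    X τ - X s ≠ 0 ∧ Complex.sin ((X τ - X s) / 2) ≠ 0 := by
  obtain ⟨h1, -, h3⟩ := near_facts X η ε hη' hε hε' hX
  have hpos : 0 < ‖s - τ‖ := norm_pos_iff.mpr (sub_ne_zero.mpr hne)
  have h4 := h3 s hs τ hτ hp
  have h5 : 0 < ‖X s - X τ‖ := by
    have : 0 < min 1 ‖s - τ‖ := lt_min one_pos hpos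
    nlinarith
  have h6 : X τ - X s ≠ 0 := by
    intro h0
    rw [norm_sub_rev, h0, norm_zero] at h5
    exact lt_irrefl _ h5
  refine ⟨h6, (kc_bound _ ?_ h6).1⟩
  have h7 := (h1 s hs).2.2.2.1
  have h8 := (h1 τ hτ).2.2.2.1
  calc ‖X τ - X s‖ ≤ ‖X τ‖ + ‖X s‖ := norm_sub_le _ _
    _ ≤ 5 / 4 + 5 / 4 := add_le_add h8 h7
    _ ≤ 3 := by norm_num

private theorem J1_cc (X : ℂ → ℂ) (η ε : ℝ) (hη' : η ≤ 7 / 2) (hε : 0 ≤ ε) (hε' : ε ≤ 1 / 1000)
    (hX : Near η ε X) (τ : ℂ) (hτ : τ ∈ St η) (hp : Pole τ) : cc (X τ) ≠ 0 := by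
  obtain ⟨-, h2, -⟩ := near_facts X η ε hη' hε hε' hX
  have h := (h2 τ hτ hp).1
  intro h0
  rw [h0, norm_zero] at h
  norm_num at h

private theorem J1_gdiff (X : ℂ → ℂ) (η ε : ℝ) (hη' : η ≤ 7 / 2) (hε : 0 ≤ ε) (hε' : ε ≤ 1 / 1000)
    (hX : Near η ε X) (τ : ℂ) (hτ : τ ∈ St η) (hp : Pole τ) :
    DifferentiableOn ℂ (fun s => gX X s τ) (St η \ {τ}) := by
  have hopen := J1_open η
  intro s hs
  have hsη : s ∈ St η := hs.1
  have hne : s ≠ τ := hs.2
  obtain ⟨hsub, hsin⟩ := J1_sub X η ε hη' hε hε' hX s τ hsη hτ hp hne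
  have hXs : DifferentiableAt ℂ X s := hX.diff.differentiableAt (hopen.mem_nhds hsη)
  have hX's : DifferentiableAt ℂ (deriv X) s :=
    (hX.diff.deriv hopen).differentiableAt (hopen.mem_nhds hsη)
  apply DifferentiableAt.differentiableWithinAt
  unfold gX Ker kc cc
  have hcc := J1_cc X η ε hη' hε hε' hX τ hτ hp
  unfold cc at hcc
  have hu : DifferentiableAt ℂ (fun s => (X τ - X s) / 2) s :=
    ((differentiableAt_const _).sub hXs).div_const 2
  refine hX's.mul (((hu.ccos).div ((hu.csin).const_mul 2) (mul_ne_zero two_ne_zero hsin)).mul ?_)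
  exact ((hXs.ccos.sub_const _).div_const _).pow 2

private theorem J1_lim (X : ℂ → ℂ) (η ε : ℝ) (hη' : η ≤ 7 / 2) (hε : 0 ≤ ε) (hε' : ε ≤ 1 / 1000)
    (hX : Near η ε X) (τ : ℂ) (hτ : τ ∈ St η) (hp : Pole τ) :
    Tendsto (fun z => gX X z τ * (τ - z)) (𝓝[≠] τ) (𝓝 1) := by
  have hopen := J1_open η
  have hmem : St η ∈ 𝓝 τ := hopen.mem_nhds hτ
  have hXτ : DifferentiableAt ℂ X τ := hX.diff.differentiableAt hmem
  have hX'τ : DifferentiableAt ℂ (deriv X) τ := (hX.diff.deriv hopen).differentiableAt hmem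
  have hcc := J1_cc X η ε hη' hε hε' hX τ hτ hp
  obtain ⟨h1, -, -⟩ := near_facts X η ε hη' hε hε' hX
  have hd0 : deriv X τ ≠ 0 := by
    have h := (h1 τ hτ).1
    intro h0
    rw [h0, norm_zero] at h
    have : 0 < wt τ := Real.exp_pos _
    linarith
  -- the slope of X
  have hsl : Tendsto (slope X τ) (𝓝[≠] τ) (𝓝 (deriv X τ)) :=
    hasDerivAt_iff_tendsto_slope.mp hXτ.hasDerivAt
  have hslinv : Tendsto (fun z => (slope X τ z)⁻¹) (𝓝[≠] τ) (𝓝 (deriv X τ)⁻¹) := hsl.inv₀ hd0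
  -- the slope of sin
  have hsin : Tendsto (slope Complex.sin 0) (𝓝[≠] 0) (𝓝 1) := by
    have := hasDerivAt_iff_tendsto_slope.mp (Complex.hasDerivAt_sin 0)
    rwa [Complex.cos_zero] at this
  have hXc : Tendsto X (𝓝[≠] τ) (𝓝 (X τ)) := hXτ.continuousAt.tendsto.mono_left nhdsWithin_le_nhds
  have hX'c : Tendsto (deriv X) (𝓝[≠] τ) (𝓝 (deriv X τ)) :=
    hX'τ.continuousAt.tendsto.mono_left nhdsWithin_le_nhds
  have hw0 : Tendsto (fun z => (X τ - X z) / 2) (𝓝[≠] τ) (𝓝 0) := by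
    have := ((tendsto_const_nhds (x := X τ)).sub hXc).div_const 2
    simpa using this
  have hev : ∀ᶠ z in 𝓝[≠] τ, z ∈ St η ∧ z ≠ τ := by
    filter_upwards [nhdsWithin_le_nhds hmem, self_mem_nhdsWithin] with z hz1 hz2
    exact ⟨hz1, hz2⟩
  have hw : Tendsto (fun z => (X τ - X z) / 2) (𝓝[≠] τ) (𝓝[≠] 0) := by
    apply tendsto_nhdsWithin_iff.mpr
    refine ⟨hw0, ?_⟩
    filter_upwards [hev] with z hz
    have := (J1_sub X η ε hη' hε hε' hX z τ hz.1 hτ hp hz.2).1
    exact div_ne_zero this two_ne_zero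
  have hsinc : Tendsto (fun z => (slope Complex.sin 0 ((X τ - X z) / 2))⁻¹) (𝓝[≠] τ) (𝓝 1) := by
    have := (hsin.comp hw).inv₀ one_ne_zero
    simpa using this
  have hcos : Tendsto (fun z => Complex.cos ((X τ - X z) / 2)) (𝓝[≠] τ) (𝓝 1) := by
    have := (Complex.continuous_cos.tendsto 0).comp hw0
    rw [Complex.cos_zero] at this
    exact this
  have hccl : Tendsto (fun z => (cc (X z) / cc (X τ)) ^ 2) (𝓝[≠] τ) (𝓝 1) := by
    have hccX : Tendsto (fun z => cc (X z)) (𝓝[≠] τ) (𝓝 (cc (X τ))) := by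
      unfold cc
      exact ((Complex.continuous_cos.tendsto (X τ)).comp hXc).sub_const _
    have := (hccX.div_const (cc (X τ))).pow 2
    rw [div_self hcc, one_pow] at this
    exact this
  have hprod := (((hX'c.mul hcos).mul hsinc).mul hslinv).mul hccl
  have hval : deriv X τ * 1 * 1 * (deriv X τ)⁻¹ * 1 = 1 := by
    rw [mul_one, mul_one, mul_one, mul_inv_cancel₀ hd0]
  rw [hval] at hprod
  refine hprod.congr' ?_
  filter_upwards [hev] with z hz
  obtain ⟨hsub, hsin0⟩ := J1_sub X η ε hη' hε hε' hX z τ hz.1 hτ hp hz.2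
  have hzτ : z - τ ≠ 0 := sub_ne_zero.mpr hz.2
  have hXz : X z - X τ ≠ 0 := by
    intro h0
    apply hsub
    rw [← neg_sub, h0, neg_zero]
  unfold gX Ker kc
  rw [slope_def_field, slope_def_field, Complex.sin_zero, sub_zero, sub_zero]
  generalize hS : Complex.sin ((X τ - X z) / 2) = S at hsin0 ⊢
  generalize Complex.cos ((X τ - X z) / 2) = C0
  generalize cc (X z) / cc (X τ) = Q
  have e1 : (S / ((X τ - X z) / 2))⁻¹ * ((X z - X τ) / (z - τ))⁻¹ = (τ - z) / (2 * S) := by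
    field_simp
    ring
  calc deriv X z * C0 * (S / ((X τ - X z) / 2))⁻¹ * ((X z - X τ) / (z - τ))⁻¹ * Q ^ 2
      = deriv X z * C0 * ((S / ((X τ - X z) / 2))⁻¹ * ((X z - X τ) / (z - τ))⁻¹) * Q ^ 2 := by ring
    _ = deriv X z * (C0 / (2 * S) * Q ^ 2) * (τ - z) := by
        rw [e1]; ring

theorem J_ana (X : ℂ → ℂ) (η ε : ℝ) (hη' : η ≤ 7 / 2) (hε : 0 ≤ ε) (hε' : ε ≤ 1 / 1000)
    (hX : Near η ε X) (τ : ℂ) (hτ : τ ∈ St η) (hp : Pole τ) :
    DifferentiableOn ℂ (fun s => JX X s τ) (St η) ∧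
    DifferentiableOn ℂ (fun s => gX X s τ) (St η \ {τ}) ∧
    (∀ s, s ≠ τ → JX X s τ = gX X s τ - 1 / (τ - s)) := by
  have hopen := J1_open η
  have hmem : St η ∈ 𝓝 τ := hopen.mem_nhds hτ
  have hg := J1_gdiff X η ε hη' hε hε' hX τ hτ hp
  refine ⟨?_, hg, ?_⟩
  · have hΦ : DifferentiableOn ℂ (fun z => if z = τ then 1 else gX X z τ * (τ - z)) (St η) := by
      apply (Complex.differentiableOn_compl_singleton_and_continuousAt_iff hmem).mp
      constructor
      · have h1 : DifferentiableOn ℂ (fun z => gX X z τ * (τ - z)) (St η \ {τ}) :=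
          hg.mul ((differentiableOn_const _).sub differentiableOn_id)
        refine h1.congr ?_
        intro z hz
        have : z ≠ τ := hz.2
        simp only [this, if_false]
      · rw [continuousAt_iff_punctured_nhds]
        simp only [if_true]
        refine (J1_lim X η ε hη' hε hε' hX τ hτ hp).congr' ?_
        filter_upwards [self_mem_nhdsWithin] with z hz
        have : z ≠ τ := hz
        simp only [this, if_false]
    have h2 := (Complex.differentiableOn_dslope hmem).mpr hΦ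
    exact h2.neg
  · intro s hs
    have hs1 : s - τ ≠ 0 := sub_ne_zero.mpr hs
    have hs2 : τ - s ≠ 0 := sub_ne_zero.mpr hs.symm
    unfold JX
    rw [dslope_of_ne _ hs, slope_def_field]
    simp only [hs, if_false, if_true]
    have : s - τ = -(τ - s) := by ring
    rw [this]
    field_simp

/-- continuity in the pole variable off the diagonal (used for integrals over the arcs) -/
theorem g_cont (X : ℂ → ℂ) (η ε : ℝ) (hη' : η ≤ 7 / 2) (hε : 0 ≤ ε) (hε' : ε ≤ 1 / 1000)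
    (hX : Near η ε X) (s : ℂ) (hs : s ∈ St η) :
    ContinuousOn (fun τ => gX X s τ) ({τ | τ ∈ St η ∧ Pole τ} \ {s}) := by
  have hopen := J1_open η
  intro τ hτ
  obtain ⟨⟨hτη, hp⟩, hne⟩ := hτ
  have hne' : s ≠ τ := fun h => hne h.symm
  obtain ⟨hsub, hsin⟩ := J1_sub X η ε hη' hε hε' hX s τ hs hτη hp hne'
  have hcc := J1_cc X η ε hη' hε hε' hX τ hτη hp
  have hXτ : ContinuousAt X τ := (hX.diff.differentiableAt (hopen.mem_nhds hτη)).continuousAt
  apply ContinuousAt.continuousWithinAt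
  have hu : ContinuousAt (fun τ => (X τ - X s) / 2) τ := (hXτ.sub continuousAt_const).div_const 2
  have hc : ContinuousAt (fun τ => Complex.cos ((X τ - X s) / 2)) τ :=
    ContinuousAt.comp (g := Complex.cos) Complex.continuous_cos.continuousAt hu
  have hsn : ContinuousAt (fun τ => 2 * Complex.sin ((X τ - X s) / 2)) τ :=
    continuousAt_const.mul
      (ContinuousAt.comp (g := Complex.sin) Complex.continuous_sin.continuousAt hu)
  have hccτ : ContinuousAt (fun τ => cc (X τ)) τ := by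
    unfold cc
    exact (ContinuousAt.comp (g := Complex.cos) Complex.continuous_cos.continuousAt hXτ).sub
      continuousAt_const
  unfold gX Ker kc
  exact continuousAt_const.mul ((hc.div hsn (mul_ne_zero two_ne_zero hsin)).mul
    ((continuousAt_const.div hccτ hcc).pow 2))

end LibEY38
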