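import Pool.Agent.LibEY38.Defs
import Pool.Agent.LibEY38.N1
import Pool.Agent.LibEY38.J1

open Complex Set Filter Topology MeasureTheory
open scoped ComplexConjugate

namespace LibEY38

private theorem J2_open (η : ℝ) : IsOpen (St η) := by
  have h : Continuous fun t : ℂ => |t.im| := by fun_prop
  exact isOpen_lt h continuous_const

private theorem J2_conv (η : ℝ) : Convex ℝ (St η) := by
  have h : St η = Complex.imCLM.toLinearMap ⁻¹' Metric.ball (0 : ℝ) η := by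
    ext t
    simp [St]
  rw [h]
  exact (convex_ball (0 : ℝ) η).linear_preimage _

private theorem J2_wt (t : ℂ) : 0 < wt t ∧ wt t ≤ 1 := by
  unfold wt
  refine ⟨Real.exp_pos _, Real.exp_le_one_iff.2 ?_⟩
  have h : 0 ≤ lam := by
    unfold lam
    have := Real.arsinh_nonneg_iff.2 (by norm_num : (0 : ℝ) ≤ 1 / 5)
    linarith
  have := abs_nonneg t.re
  nlinarith

/-- quadratic Taylor bounds -/
private theorem J2_exp (u : ℂ) (hu : ‖u‖ ≤ 1) : ‖Complex.cos u - 1‖ ≤ ‖u‖ ^ 2 ∧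
    ‖Complex.sin u - u‖ ≤ ‖u‖ ^ 2 := by
  have h1 := Complex.norm_exp_sub_one_sub_id_le (x := u * I) (by simpa using hu)
  have h2 := Complex.norm_exp_sub_one_sub_id_le (x := -u * I) (by simpa using hu)
  have e1 : ‖u * I‖ = ‖u‖ := by simp
  have e2 : ‖-u * I‖ = ‖u‖ := by simp
  rw [e1] at h1
  rw [e2] at h2
  constructor
  · have e : Complex.cos u - 1 = ((exp (u * I) - 1 - u * I) + (exp (-u * I) - 1 - -u * I)) / 2 := by
      rw [Complex.cos]
      ring
    rw [e, norm_div]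
    have := norm_add_le (exp (u * I) - 1 - u * I) (exp (-u * I) - 1 - -u * I)
    have h3 : ‖(2 : ℂ)‖ = 2 := by simp
    rw [h3, div_le_iff₀ (by norm_num)]
    linarith
  · have e : Complex.sin u - u = ((exp (-u * I) - 1 - -u * I) - (exp (u * I) - 1 - u * I)) * I / 2 := by
      rw [Complex.sin]
      have hI : I * I = -1 := Complex.I_mul_I
      linear_combination (-u) * hI
    rw [e, norm_div, norm_mul, Complex.norm_I, mul_one]
    have := norm_sub_le (exp (-u * I) - 1 - -u * I) (exp (u * I) - 1 - u * I)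
    have h3 : ‖(2 : ℂ)‖ = 2 := by simp
    rw [h3, div_le_iff₀ (by norm_num)]
    linarith

private theorem J2_sin (z : ℂ) (hz : ‖z‖ ≤ 5 / 4) : ‖Complex.sin z‖ ≤ 4 := by
  have h1 := Complex.norm_exp_le_exp_norm (z * I)
  have h2 := Complex.norm_exp_le_exp_norm (-z * I)
  have e1 : ‖z * I‖ = ‖z‖ := by simp
  have e2 : ‖-z * I‖ = ‖z‖ := by simp
  rw [e1] at h1
  rw [e2] at h2
  have h3 : Real.exp ‖z‖ ≤ 4 := by
    have h4 : Real.exp ‖z‖ ≤ Real.exp (5 / 4) := Real.exp_le_exp.2 hz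
    have h5 : Real.exp (5 / 4) ≤ 4 := by
      have h6 := Real.exp_one_lt_d9
      have h7 : Real.exp (5 / 4) = Real.exp 1 * Real.exp (1 / 4) := by
        rw [← Real.exp_add]
        norm_num
      have h8 : Real.exp (1 / 4) ^ 4 = Real.exp 1 := by
        rw [← Real.exp_nat_mul]
        norm_num
      have h9 : Real.exp (1 / 4) ≤ 13 / 10 := by
        by_contra hcon
        rw [not_le] at hcon
        have : (13 / 10 : ℝ) ^ 4 < Real.exp (1 / 4) ^ 4 :=
          pow_lt_pow_left₀ hcon (by norm_num) (by norm_num)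
        rw [h8] at this
        norm_num at this
        linarith
      have h10 := Real.exp_pos (1 / 4)
      rw [h7]
      nlinarith
    linarith
  rw [Complex.sin, norm_div, norm_mul, Complex.norm_I, mul_one]
  have := norm_sub_le (exp (-z * I)) (exp (z * I))
  have h11 : ‖(2 : ℂ)‖ = 2 := by simp
  rw [h11, div_le_iff₀ (by norm_num)]
  linarith

private theorem J2_cos (x y : ℂ) (hx : ‖x‖ ≤ 5 / 4) (hy : ‖y‖ ≤ 5 / 4) (hxy : ‖x - y‖ ≤ 2) :
    ‖Complex.cos x - Complex.cos y‖ ≤ 8 * ‖x - y‖ := by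
  rw [Complex.cos_sub_cos]
  have h1 : ‖Complex.sin ((x + y) / 2)‖ ≤ 4 := by
    apply J2_sin
    rw [norm_div]
    have := norm_add_le x y
    have h : ‖(2 : ℂ)‖ = 2 := by simp
    rw [h, div_le_iff₀ (by norm_num)]
    linarith
  have h2 : ‖(x - y) / 2‖ = ‖x - y‖ / 2 := by
    rw [norm_div]
    simp
  have h3 : ‖Complex.sin ((x - y) / 2)‖ ≤ ‖x - y‖ := by
    have h4 := (J2_exp ((x - y) / 2) (by rw [h2]; linarith)).2
    have h5 : ‖Complex.sin ((x - y) / 2)‖ ≤ ‖Complex.sin ((x - y) / 2) - (x - y) / 2‖ +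
        ‖(x - y) / 2‖ := by
      have := norm_add_le (Complex.sin ((x - y) / 2) - (x - y) / 2) ((x - y) / 2)
      rwa [sub_add_cancel] at this
    rw [h2] at h4 h5
    have h6 := norm_nonneg (x - y)
    nlinarith
  rw [norm_mul, norm_mul, norm_neg]
  have h : ‖(2 : ℂ)‖ = 2 := by simp
  rw [h]
  have h6 := norm_nonneg (x - y)
  have h7 := norm_nonneg (Complex.sin ((x - y) / 2))
  have h8 := norm_nonneg (Complex.sin ((x + y) / 2))
  nlinarith [mul_le_mul h1 h3 h7 (by norm_num : (0 : ℝ) ≤ 4)]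

/-- mean value bounds -/
private theorem J2_mean {X : ℂ → ℂ} {η : ℝ} (hd : DifferentiableOn ℂ X (St η))
    (h1 : ∀ t ∈ St η, ‖deriv X t‖ ≤ 3) (h2 : ∀ t ∈ St η, ‖deriv (deriv X) t‖ ≤ 3)
    {s τ : ℂ} (hs : s ∈ St η) (hτ : τ ∈ St η) :
    ‖X τ - X s‖ ≤ 3 * ‖τ - s‖ ∧ ‖X τ - X s - deriv X s * (τ - s)‖ ≤ 3 * ‖τ - s‖ ^ 2 := by
  have ho := J2_open η
  have hda : ∀ t ∈ St η, DifferentiableAt ℂ X t := fun t ht => hd.differentiableAt (ho.mem_nhds ht)
  have hd' : DifferentiableOn ℂ (deriv X) (St η) := hd.deriv ho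
  have hda' : ∀ t ∈ St η, DifferentiableAt ℂ (deriv X) t :=
    fun t ht => hd'.differentiableAt (ho.mem_nhds ht)
  refine ⟨(J2_conv η).norm_image_sub_le_of_norm_deriv_le hda h1 hs hτ, ?_⟩
  have hl : ∀ z ∈ St η, ‖deriv X z - deriv X s‖ ≤ 3 * ‖z - s‖ := fun z hz =>
    (J2_conv η).norm_image_sub_le_of_norm_deriv_le hda' h2 hs hz
  have hF : ∀ z ∈ St η ∩ Metric.closedBall s ‖τ - s‖,
      HasDerivAt (fun z => X z - deriv X s * z) (deriv X z - deriv X s) z := by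
    intro z hz
    have h3 : HasDerivAt (fun z => deriv X s * z) (deriv X s) z := by
      simpa using (hasDerivAt_id z).const_mul (deriv X s)
    exact (hda z hz.1).hasDerivAt.sub h3
  have h4 := ((J2_conv η).inter (convex_closedBall s ‖τ - s‖)).norm_image_sub_le_of_norm_deriv_le
    (f := fun z => X z - deriv X s * z) (C := 3 * ‖τ - s‖) (x := s) (y := τ)
    (fun z hz => (hF z hz).differentiableAt) (fun z hz => by
      rw [(hF z hz).deriv]
      refine (hl z hz.1).trans ?_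
      have : ‖z - s‖ ≤ ‖τ - s‖ := by
        have := hz.2
        rwa [Metric.mem_closedBall, dist_eq_norm] at this
      linarith) ⟨hs, Metric.mem_closedBall_self (norm_nonneg _)⟩
    ⟨hτ, by rw [Metric.mem_closedBall, dist_eq_norm]⟩
  have e : X τ - X s - deriv X s * (τ - s) = (X τ - deriv X s * τ) - (X s - deriv X s * s) := by
    ring
  rw [e]
  refine h4.trans (le_of_eq ?_)
  ring

/-- algebra of the three factors -/
private theorem J2_alg (P Q R : ℂ) (x a b c : ℝ) (hx : 0 ≤ x) (hx1 : x ≤ 1) (ha : 0 ≤ a)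
    (hb : 0 ≤ b) (hc : 0 ≤ c)
    (hP : ‖P - 1‖ ≤ a * x) (hQ : ‖Q - 1‖ ≤ b * x) (hR : ‖R - 1‖ ≤ c * x) :
    ‖P * Q * R ^ 2 - 1‖ ≤ (a * (1 + b) * (1 + c) ^ 2 + b * (1 + c) ^ 2 + c * (2 + c)) * x := by
  have hQ1 : ‖Q‖ ≤ 1 + b := by
    have h := norm_add_le (Q - 1) 1
    rw [sub_add_cancel, norm_one] at h
    nlinarith
  have hR1 : ‖R‖ ≤ 1 + c := by
    have h := norm_add_le (R - 1) 1
    rw [sub_add_cancel, norm_one] at h
    nlinarith
  have hRR : ‖R + 1‖ ≤ 2 + c := by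
    have h := norm_add_le R 1
    rw [norm_one] at h
    linarith
  have e : P * Q * R ^ 2 - 1 = (P - 1) * Q * R ^ 2 + ((Q - 1) * R ^ 2 + (R - 1) * (R + 1)) := by
    ring
  rw [e]
  refine (norm_add_le _ _).trans ?_
  have h1 : ‖(P - 1) * Q * R ^ 2‖ ≤ (a * x) * (1 + b) * (1 + c) ^ 2 := by
    rw [norm_mul, norm_mul, norm_pow]
    gcongr
  have h2 : ‖(Q - 1) * R ^ 2 + (R - 1) * (R + 1)‖ ≤ (b * x) * (1 + c) ^ 2 + (c * x) * (2 + c) := by
    refine (norm_add_le _ _).trans ?_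
    rw [norm_mul, norm_mul, norm_pow]
    gcongr
  refine (add_le_add h1 h2).trans (le_of_eq ?_)
  ring

/-
ROW J2 (MEDIUM). Bounds of g and J, uniform in the curve.
(far) |gX| <= |X'| |kc| |cc(X s)|^2/|cc(Xτ)|^2 <= 3wt * 6/(1/80) * 25 wt^2 * 25, wt^3 = exp(-(3 lam |Re s|)).
(near, 0 < |s-τ| <= 1/4) g (τ-s) - 1 = (X'(s)/M - 1) Ψ + (Ψ - 1), M = (Xτ - Xs)/(τ-s), |M - X'(s)| <= |τ-s| sup|X''| <= 3|τ-s|,
|M| >= 1/20 (near_facts: |Xτ - Xs| >= (1/20)|τ-s|), Ψ = (u cos u/ sin u) (cc(Xs)/cc(Xτ))^2 with u = (Xτ - Xs)/2, |u| <= 3|τ-s|,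
|u cot u - 1| <= C|u| (|u| <= 3/4), |cc(Xs) - cc(Xτ)| <= 2*|Xs-Xτ|, |cc(Xτ)| >= 1/5. So |g(τ-s)-1| <= C|τ-s|.
Any constant C is fine.
-/
theorem J_bound : ∃ C : ℝ, 0 < C ∧ ∀ (X : ℂ → ℂ) (η ε : ℝ), η ≤ 7 / 2 → 0 ≤ ε → ε ≤ 1 / 1000 →
    Near η ε X → ∀ τ ∈ St η, Pole τ → ∀ s ∈ St η,
      (1 / 4 ≤ ‖s - τ‖ → ‖gX X s τ‖ ≤ C * wt s ^ 3) ∧
      (s ≠ τ → ‖s - τ‖ ≤ 1 / 4 → ‖gX X s τ - 1 / (τ - s)‖ ≤ C) := by
  refine ⟨10 ^ 7, by norm_num, ?_⟩
  intro X η ε hη hε hε' hX τ hτ hp s hs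
  obtain ⟨hA, hB, hC⟩ := near_facts X η ε hη hε hε' hX
  obtain ⟨-, hs1, hs2, hsX, -, -, hsc⟩ := hA s hs
  obtain ⟨-, -, -, hτX, -, -, -⟩ := hA τ hτ
  obtain ⟨hτc, -⟩ := hB τ hτ hp
  have hsep := hC s hs τ hτ hp
  obtain ⟨hw0, hw1⟩ := J2_wt s
  have hcτ0 : cc (X τ) ≠ 0 := by
    rw [← norm_pos_iff]
    linarith
  have hW3 : ‖X τ - X s‖ ≤ 3 := by
    have := norm_sub_le (X τ) (X s)
    linarith
  have hWsymm : ‖X τ - X s‖ = ‖X s - X τ‖ := norm_sub_rev _ _
  have hg : gX X s τ = deriv X s * kc (X τ - X s) * (cc (X s) / cc (X τ)) ^ 2 := by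
    unfold gX Ker
    ring
  constructor
  · intro hfar
    have h1 : 1 / 80 ≤ ‖X τ - X s‖ := by
      rw [hWsymm]
      refine le_trans ?_ hsep
      have : 1 / 4 ≤ min 1 ‖s - τ‖ := le_min (by norm_num) hfar
      linarith
    have hW0 : X τ - X s ≠ 0 := by
      rw [← norm_pos_iff]
      linarith
    obtain ⟨-, -, hk⟩ := kc_bound (X τ - X s) hW3 hW0
    have hk' : ‖kc (X τ - X s)‖ ≤ 480 := by
      refine hk.trans ?_
      rw [div_le_iff₀ (by linarith)]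
      linarith
    have hR : ‖cc (X s) / cc (X τ)‖ ≤ 25 * wt s := by
      rw [norm_div, div_le_iff₀ (by linarith)]
      nlinarith
    rw [hg, norm_mul, norm_mul, norm_pow]
    calc ‖deriv X s‖ * ‖kc (X τ - X s)‖ * ‖cc (X s) / cc (X τ)‖ ^ 2 ≤
        (3 * wt s) * 480 * (25 * wt s) ^ 2 := by gcongr
      _ = 900000 * wt s ^ 3 := by ring
      _ ≤ 10 ^ 7 * wt s ^ 3 := by
        have : 0 < wt s ^ 3 := by positivity
        nlinarith
  · intro hne hnear
    obtain ⟨d, hd⟩ : ∃ d : ℂ, d = τ - s := ⟨_, rfl⟩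
    have hd0 : d ≠ 0 := by
      rw [hd, sub_ne_zero]
      exact hne.symm
    have hdn : ‖d‖ = ‖s - τ‖ := by
      rw [hd]
      exact norm_sub_rev _ _
    have hdpos : 0 < ‖d‖ := norm_pos_iff.2 hd0
    rw [← hdn] at hnear
    have hm := J2_mean (s := s) (τ := τ) hX.diff (fun t ht => (hA t ht).2.1.trans (by
        have := (J2_wt t).2
        linarith)) (fun t ht => (hA t ht).2.2.1.trans (by
        have := (J2_wt t).2
        linarith)) hs hτ
    rw [← hd] at hm ⊢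
    obtain ⟨W, hW⟩ : ∃ W : ℂ, W = X τ - X s := ⟨_, rfl⟩
    rw [← hW] at hm hW3 hWsymm hg
    have hWlow : ‖d‖ / 20 ≤ ‖W‖ := by
      rw [hWsymm]
      refine le_trans ?_ hsep
      rw [← hdn, min_eq_right (by linarith)]
      linarith
    have hWpos : 0 < ‖W‖ := by
      have : 0 < ‖d‖ / 20 := by positivity
      linarith
    have hW0 : W ≠ 0 := norm_pos_iff.1 hWpos
    obtain ⟨hsin0, hsinlow, -⟩ := kc_bound W hW3 hW0
    have hW2 : ‖W‖ ≤ 3 / 4 := by linarith [hm.1]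
    -- first factor
    have hP : ‖deriv X s * d / W - 1‖ ≤ 60 * ‖d‖ := by
      have e : deriv X s * d / W - 1 = -((W - deriv X s * d) / W) := by
        field_simp
        ring
      rw [e, norm_neg, norm_div, div_le_iff₀ hWpos]
      have h1 := hm.2
      have h2 : 3 * ‖d‖ ^ 2 ≤ 60 * ‖d‖ * ‖W‖ := by nlinarith
      linarith
    -- second factor
    have hQ : ‖W / 2 * Complex.cos (W / 2) / Complex.sin (W / 2) - 1‖ ≤ 6 * ‖d‖ := by
      have hu : ‖W / 2‖ = ‖W‖ / 2 := by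
        rw [norm_div]
        simp
      obtain ⟨hc1, hc2⟩ := J2_exp (W / 2) (by rw [hu]; linarith)
      rw [hu] at hc1 hc2
      have e : W / 2 * Complex.cos (W / 2) / Complex.sin (W / 2) - 1 =
          (W / 2 * (Complex.cos (W / 2) - 1) - (Complex.sin (W / 2) - W / 2)) /
            Complex.sin (W / 2) := by
        field_simp
        ring
      have hsp : 0 < ‖Complex.sin (W / 2)‖ := norm_pos_iff.2 hsin0
      rw [e, norm_div, div_le_iff₀ hsp]
      have h1 : ‖W / 2 * (Complex.cos (W / 2) - 1) - (Complex.sin (W / 2) - W / 2)‖ ≤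
          ‖W‖ / 2 * (‖W‖ / 2) ^ 2 + (‖W‖ / 2) ^ 2 := by
        refine (norm_sub_le _ _).trans ?_
        rw [norm_mul, hu]
        gcongr
      have h2 := hm.1
      have h3 : ‖W‖ / 2 * (‖W‖ / 2) ^ 2 + (‖W‖ / 2) ^ 2 ≤ ‖W‖ ^ 2 / 2 := by
        have : 0 ≤ ‖W‖ ^ 2 := by positivity
        nlinarith
      have h4 : ‖W‖ ^ 2 / 2 ≤ 6 * ‖d‖ * (‖W‖ / 4) := by
        nlinarith
      have h5 : 6 * ‖d‖ * (‖W‖ / 4) ≤ 6 * ‖d‖ * ‖Complex.sin (W / 2)‖ := by
        apply mul_le_mul_of_nonneg_left hsinlow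
        positivity
      linarith
    -- third factor
    have hR : ‖cc (X s) / cc (X τ) - 1‖ ≤ 120 * ‖d‖ := by
      have e : cc (X s) / cc (X τ) - 1 = (Complex.cos (X s) - Complex.cos (X τ)) / cc (X τ) := by
        field_simp
        unfold cc
        ring
      have h1 := J2_cos (X s) (X τ) hsX hτX (by rw [← hWsymm]; linarith)
      rw [← hWsymm] at h1
      rw [e, norm_div, div_le_iff₀ (by linarith)]
      have h2 := hm.1
      nlinarith
    have hgd : gX X s τ - 1 / d = (deriv X s * d / W *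
        (W / 2 * Complex.cos (W / 2) / Complex.sin (W / 2)) * (cc (X s) / cc (X τ)) ^ 2 - 1) / d := by
      rw [hg]
      unfold kc
      field_simp
    rw [hgd, norm_div, div_le_iff₀ hdpos]
    refine (J2_alg _ _ _ ‖d‖ 60 6 120 hdpos.le (by linarith) (by norm_num) (by norm_num)
      (by norm_num) hP hQ hR).trans ?_
    apply mul_le_mul_of_nonneg_right _ hdpos.le
    norm_num

end LibEY38
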