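import Pool.Agent.LibEY38.Defs
import Pool.Agent.LibEY38.A2
import Pool.Agent.LibEY38.J1
import Pool.Agent.LibEY38.J2

open Complex Set Filter Topology MeasureTheory
open scoped ComplexConjugate

namespace LibEY38

private theorem K1_open (η : ℝ) : IsOpen (St η) := by
  have h : Continuous fun t : ℂ => |t.im| := by fun_prop
  exact isOpen_lt h continuous_const

private theorem K1_lam : 1 / 3 ≤ lam := by
  unfold lam
  have h1 : Real.log (6 / 5) ≤ Real.arsinh (1 / 5) := by
    rw [Real.arsinh]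
    apply Real.log_le_log (by norm_num)
    have : 1 ≤ √(1 + (1 / 5) ^ 2) := by
      rw [Real.one_le_sqrt]
      norm_num
    linarith
  have h2 := Real.one_sub_inv_le_log_of_pos (by norm_num : (0 : ℝ) < 6 / 5)
  norm_num at h2
  linarith

private theorem K1_wt (s : ℂ) : wt s ^ 3 ≤ Real.exp (-|s.re|) := by
  unfold wt
  rw [← Real.exp_nat_mul]
  apply Real.exp_le_exp.2
  have h1 := K1_lam
  have h2 := abs_nonneg s.re
  push_cast
  nlinarith

private theorem K1_wt1 (s : ℂ) : wt s ^ 3 ≤ 1 :=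
  (K1_wt s).trans (Real.exp_le_one_iff.2 (by linarith [abs_nonneg s.re]))

private theorem K1_exp {y : ℝ} (hy : 0 < y) : Real.exp (-y) ≤ 2 / y ^ 2 := by
  rw [Real.exp_neg, inv_eq_one_div, div_le_div_iff₀ (Real.exp_pos y) (by positivity)]
  have h1 := Real.quadratic_le_exp_of_nonneg hy.le
  nlinarith

private theorem K1_sum : Summable fun n : ℤ => Real.exp (-|(n : ℝ)|) := by
  apply Summable.of_nat_of_neg
  · simpa using Real.summable_exp_neg_nat
  · simpa using Real.summable_exp_neg_nat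

private theorem K1_cot (x : ℂ) : Complex.cot (x - Real.pi) = Complex.cot x := by
  rw [Complex.cot, Complex.cos_sub_pi, Complex.sin_sub_pi, neg_div_neg_eq]
  rfl

private theorem K1_Jbdd {g J : ℂ → ℂ} {η C : ℝ} {τ : ℂ} (hC : 0 < C) (hτ : τ ∈ St η)
    (hb : ∀ s ∈ St η, (1 / 4 ≤ ‖s - τ‖ → ‖g s‖ ≤ C * wt s ^ 3) ∧
      (s ≠ τ → ‖s - τ‖ ≤ 1 / 4 → ‖g s - 1 / (τ - s)‖ ≤ C))
    (hJ : DifferentiableOn ℂ J (St η)) (hJg : ∀ s, s ≠ τ → J s = g s - 1 / (τ - s)) :
    ∀ s ∈ St η, ‖J s‖ ≤ C + 4 := by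
  have h1 : ∀ s ∈ St η, s ≠ τ → ‖J s‖ ≤ C + 4 := by
    intro s hs hne
    rcases le_total ‖s - τ‖ (1 / 4) with h | h
    · rw [hJg s hne]
      linarith [(hb s hs).2 hne h]
    · rw [hJg s hne]
      refine (norm_sub_le _ _).trans ?_
      have h2 := (hb s hs).1 h
      have h3 := K1_wt1 s
      have h4 : ‖1 / (τ - s)‖ ≤ 4 := by
        rw [norm_div, norm_one, norm_sub_rev, div_le_iff₀ (by linarith)]
        linarith
      have h5 : C * wt s ^ 3 ≤ C * 1 := mul_le_mul_of_nonneg_left h3 hC.le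
      linarith
  intro s hs
  by_cases hne : s = τ
  · rw [hne]
    have hc : ContinuousAt J τ := (hJ.differentiableAt ((K1_open η).mem_nhds hτ)).continuousAt
    have h2 : Tendsto (fun s => ‖J s‖) (𝓝[≠] τ) (𝓝 ‖J τ‖) :=
      hc.norm.tendsto.mono_left nhdsWithin_le_nhds
    refine le_of_tendsto h2 ?_
    have h3 : ∀ᶠ s in 𝓝[≠] τ, s ∈ St η :=
      nhdsWithin_le_nhds ((K1_open η).mem_nhds hτ)
    filter_upwards [h3, self_mem_nhdsWithin] with s hs hs'
    exact h1 s hs hs'
  · exact h1 s hs hne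

private theorem K1_term {g J : ℂ → ℂ} {η C R : ℝ} {τ : ℂ} (hC : 0 < C) (hη : η ≤ 7 / 2)
    (hτ : τ ∈ St η) (hp : Pole τ) (hR : 1 ≤ R)
    (hb : ∀ s ∈ St η, (1 / 4 ≤ ‖s - τ‖ → ‖g s‖ ≤ C * wt s ^ 3) ∧
      (s ≠ τ → ‖s - τ‖ ≤ 1 / 4 → ‖g s - 1 / (τ - s)‖ ≤ C))
    (hJb : ∀ s ∈ St η, ‖J s‖ ≤ C + 4) (hJg : ∀ s, s ≠ τ → J s = g s - 1 / (τ - s))
    (t : ℂ) (ht : t ∈ St η) (htR : |t.re| < R) (n : ℕ) :
    ‖J (t + (n + 1)) + J (t - (n + 1))‖ ≤
      (16 * C + 8 * (R + 8) + 8 * (C + 4) * (R + 2) ^ 2) * (1 / ((n : ℝ) + 1) ^ 2) := by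
  obtain ⟨m, hm⟩ : ∃ m : ℝ, m = (n : ℝ) + 1 := ⟨_, rfl⟩
  have hmC : ((n : ℂ) + 1) = (m : ℂ) := by
    rw [hm]
    push_cast
    rfl
  rw [hmC, ← hm]
  have hm1 : 1 ≤ m := by
    rw [hm]
    have : (0 : ℝ) ≤ n := Nat.cast_nonneg n
    linarith
  have hm0 : 0 < m := by linarith
  have hst1 : t + (m : ℂ) ∈ St η := by
    have : (t + (m : ℂ)).im = t.im := by simp
    change |(t + (m : ℂ)).im| < η
    rw [this]
    exact ht
  have hst2 : t - (m : ℂ) ∈ St η := by
    have : (t - (m : ℂ)).im = t.im := by simp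
    change |(t - (m : ℂ)).im| < η
    rw [this]
    exact ht
  have hre1 : (t + (m : ℂ)).re = t.re + m := by simp
  have hre2 : (t - (m : ℂ)).re = t.re - m := by simp
  have htre := abs_lt.1 htR
  rcases lt_or_ge m (2 * (R + 2)) with hlt | hge
  · have h1 : ‖J (t + (m : ℂ)) + J (t - (m : ℂ))‖ ≤ 2 * (C + 4) := by
      refine (norm_add_le _ _).trans ?_
      linarith [hJb _ hst1, hJb _ hst2]
    refine h1.trans ?_
    rw [mul_one_div, le_div_iff₀ (by positivity)]
    have h2 : m ^ 2 ≤ (2 * (R + 2)) ^ 2 := by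
      apply pow_le_pow_left₀ hm0.le hlt.le
    have h3 : 2 * (C + 4) * m ^ 2 ≤ 2 * (C + 4) * (2 * (R + 2)) ^ 2 :=
      mul_le_mul_of_nonneg_left h2 (by positivity)
    have h4 : 2 * (C + 4) * (2 * (R + 2)) ^ 2 = 8 * (C + 4) * (R + 2) ^ 2 := by ring
    linarith
  · have hτre := abs_le.1 hp.1
    -- real parts
    have ha : m / 2 ≤ |(t + (m : ℂ)).re| := by
      rw [hre1, le_abs]
      left
      linarith [htre.1]
    have hb' : m / 2 ≤ |(t - (m : ℂ)).re| := by
      rw [hre2, le_abs]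
      right
      linarith [htre.2]
    have hd1 : m / 2 ≤ ‖t + (m : ℂ) - τ‖ := by
      refine le_trans ?_ (Complex.abs_re_le_norm _)
      have : (t + (m : ℂ) - τ).re = t.re + m - τ.re := by simp
      rw [this, le_abs]
      left
      linarith [htre.1, hτre.2]
    have hd2 : m / 2 ≤ ‖t - (m : ℂ) - τ‖ := by
      refine le_trans ?_ (Complex.abs_re_le_norm _)
      have : (t - (m : ℂ) - τ).re = t.re - m - τ.re := by simp
      rw [this, le_abs]
      right
      linarith [htre.2, hτre.1]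
    have hne1 : t + (m : ℂ) ≠ τ := by
      intro h
      rw [h, sub_self, norm_zero] at hd1
      linarith
    have hne2 : t - (m : ℂ) ≠ τ := by
      intro h
      rw [h, sub_self, norm_zero] at hd2
      linarith
    have hg : ∀ s ∈ St η, m / 2 ≤ |s.re| → m / 2 ≤ ‖s - τ‖ → ‖g s‖ ≤ 8 * C / m ^ 2 := by
      intro s hs h1 h2
      have h3 := (hb s hs).1 (by linarith)
      have h4 : wt s ^ 3 ≤ 2 / (m / 2) ^ 2 := by
        refine (K1_wt s).trans (le_trans ?_ (K1_exp (by positivity)))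
        exact Real.exp_le_exp.2 (by linarith)
      refine h3.trans ((mul_le_mul_of_nonneg_left h4 hC.le).trans (le_of_eq ?_))
      field_simp
      ring
    have hg1 := hg _ hst1 ha hd1
    have hg2 := hg _ hst2 hb' hd2
    obtain ⟨x, hx⟩ : ∃ x : ℂ, x = τ - t := ⟨_, rfl⟩
    have hx1 : τ - (t + (m : ℂ)) = x - m := by
      rw [hx]
      ring
    have hx2 : τ - (t - (m : ℂ)) = x + m := by
      rw [hx]
      ring
    have hxm1 : m / 2 ≤ ‖x - m‖ := by
      rw [← hx1, norm_sub_rev]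
      exact hd1
    have hxm2 : m / 2 ≤ ‖x + m‖ := by
      rw [← hx2, norm_sub_rev]
      exact hd2
    have hx0 : ‖x‖ ≤ R + 8 := by
      refine (Complex.norm_le_abs_re_add_abs_im x).trans ?_
      have h1 : |x.re| ≤ R + 1 / 2 := by
        rw [hx, Complex.sub_re, abs_le]
        constructor <;> linarith [htre.1, htre.2, hτre.1, hτre.2]
      have h2 : |x.im| ≤ 7 := by
        have h3 : |t.im| < η := ht
        have h4 : |τ.im| < η := hτ
        have h5 := abs_lt.1 h3
        have h6 := abs_lt.1 h4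
        rw [hx, Complex.sub_im, abs_le]
        constructor <;> linarith [h5.1, h5.2, h6.1, h6.2]
      linarith
    rw [hJg _ hne1, hJg _ hne2, hx1, hx2]
    have hxa : x - (m : ℂ) ≠ 0 := by
      rw [← norm_pos_iff]
      linarith
    have hxb : x + (m : ℂ) ≠ 0 := by
      rw [← norm_pos_iff]
      linarith
    have e : g (t + (m : ℂ)) - 1 / (x - m) + (g (t - (m : ℂ)) - 1 / (x + m)) =
        g (t + (m : ℂ)) + g (t - (m : ℂ)) - 2 * x / ((x - m) * (x + m)) := by
      field_simp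
      ring
    rw [e]
    refine (norm_sub_le _ _).trans ?_
    have h1 := norm_add_le (g (t + (m : ℂ))) (g (t - (m : ℂ)))
    have h2 : ‖2 * x / ((x - m) * (x + m))‖ ≤ 8 * (R + 8) / m ^ 2 := by
      rw [norm_div, norm_mul, norm_mul, div_le_div_iff₀ (by
        have : 0 < m / 2 := by positivity
        exact mul_pos (this.trans_le hxm1) (this.trans_le hxm2)) (by positivity)]
      have h3 : (m / 2) * (m / 2) ≤ ‖x - m‖ * ‖x + m‖ :=
        mul_le_mul hxm1 hxm2 (by positivity) (norm_nonneg _)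
      have h4 : ‖(2 : ℂ)‖ = 2 := by simp
      rw [h4]
      have h5 : 2 * ‖x‖ * m ^ 2 ≤ 2 * (R + 8) * m ^ 2 := by gcongr
      have h6 : 8 * (R + 8) * ((m / 2) * (m / 2)) ≤ 8 * (R + 8) * (‖x - m‖ * ‖x + m‖) :=
        mul_le_mul_of_nonneg_left h3 (by positivity)
      nlinarith
    have h7 : 8 * C / m ^ 2 + 8 * C / m ^ 2 + 8 * (R + 8) / m ^ 2 =
        (16 * C + 8 * (R + 8)) * (1 / m ^ 2) := by
      field_simp
      ring
    have h8 : (16 * C + 8 * (R + 8)) * (1 / m ^ 2) ≤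
        (16 * C + 8 * (R + 8) + 8 * (C + 4) * (R + 2) ^ 2) * (1 / m ^ 2) := by
      apply mul_le_mul_of_nonneg_right _ (by positivity)
      have : 0 ≤ 8 * (C + 4) * (R + 2) ^ 2 := by positivity
      linarith
    linarith

private theorem K1_form {g J : ℂ → ℂ} {τ t : ℂ} (hJg : ∀ s, s ≠ τ → J s = g s - 1 / (τ - s))
    (hgs : Summable fun n : ℤ => g (t + n)) (hne : ∀ n : ℤ, t + n ≠ τ) :
    J t + ∑' n : ℕ, (J (t + (n + 1)) + J (t - (n + 1))) =
      (∑' n : ℤ, g (t + n)) - Real.pi * Complex.cot (Real.pi * (τ - t)) := by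
  have hxZ : τ - t ∈ Complex.integerComplement := by
    rw [Complex.mem_integerComplement_iff]
    rintro ⟨n, hn⟩
    exact hne n (by rw [hn]; ring)
  have hcot := cot_series_rep' hxZ
  have hcs : Summable fun n : ℕ => (1 / (τ - t - ((n : ℂ) + 1)) + 1 / (τ - t + (n + 1))) :=
    summable_cotTerm hxZ
  have hg1 : Summable fun n : ℕ => g (t + (n + 1)) := by
    have h1 : Function.Injective fun n : ℕ => ((n : ℤ) + 1) := fun a b hab => by
      simpa using hab
    have h2 := hgs.comp_injective h1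
    refine h2.congr fun n => ?_
    simp
  have hg2 : Summable fun n : ℕ => g (t - (n + 1)) := by
    have h1 : Function.Injective fun n : ℕ => (-((n : ℤ) + 1)) := fun a b hab => by
      simpa using hab
    have h2 := hgs.comp_injective h1
    refine h2.congr fun n => ?_
    simp [sub_eq_add_neg]
  have hJ1 : ∀ n : ℕ, J (t + (n + 1)) + J (t - (n + 1)) =
      (g (t + (n + 1)) + g (t - (n + 1))) -
        (1 / (τ - t - (n + 1)) + 1 / (τ - t + (n + 1))) := by
    intro n
    have h1 : t + ((n : ℂ) + 1) ≠ τ := by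
      have := hne ((n : ℤ) + 1)
      simpa using this
    have h2 : t - ((n : ℂ) + 1) ≠ τ := by
      have := hne (-((n : ℤ) + 1))
      simpa [sub_eq_add_neg] using this
    rw [hJg _ h1, hJg _ h2]
    have e1 : τ - (t + ((n : ℂ) + 1)) = τ - t - (n + 1) := by ring
    have e2 : τ - (t - ((n : ℂ) + 1)) = τ - t + (n + 1) := by ring
    rw [e1, e2]
    ring
  have hJ0 : J t = g t - 1 / (τ - t) := by
    apply hJg
    have := hne 0
    simpa using this
  have hsplit : ∑' n : ℤ, g (t + n) = g t + ∑' n : ℕ, (g (t + (n + 1)) + g (t - (n + 1))) := by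
    have hg0 : Summable fun n : ℕ => g (t + ((n : ℤ) : ℂ)) :=
      hgs.comp_injective Nat.cast_injective
    have hgm : Summable fun n : ℕ => g (t + ((-((n : ℤ) + 1) : ℤ) : ℂ)) := by
      refine hg2.congr fun n => ?_
      simp [sub_eq_add_neg]
    have h1 : ∑' n : ℤ, g (t + n) = ∑' n : ℕ, g (t + ((n : ℤ) : ℂ)) +
        ∑' n : ℕ, g (t + ((-((n : ℤ) + 1) : ℤ) : ℂ)) :=
      tsum_of_nat_of_neg_add_one (f := fun n : ℤ => g (t + n)) hg0 hgm
    have h2 : ∑' n : ℕ, g (t + ((n : ℤ) : ℂ)) = g (t + ((0 : ℕ) : ℤ)) +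
        ∑' n : ℕ, g (t + (((n + 1 : ℕ) : ℤ) : ℂ)) := hg0.tsum_eq_zero_add
    have h3 : ∀ n : ℕ, g (t + (((n + 1 : ℕ) : ℤ) : ℂ)) = g (t + (n + 1)) := fun n => by
      congr 1
      push_cast
      ring
    have h4 : ∀ n : ℕ, g (t + ((-((n : ℤ) + 1) : ℤ) : ℂ)) = g (t - (n + 1)) := fun n => by
      congr 1
      push_cast
      ring
    have h5 : g (t + ((0 : ℕ) : ℤ)) = g t := by
      congr 1
      push_cast
      ring
    rw [h1, h2, tsum_congr h3, tsum_congr h4, h5, hg1.tsum_add hg2, add_assoc]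
  rw [tsum_congr hJ1, (hg1.add hg2).tsum_sub hcs, hsplit, hJ0, ← hcot]
  ring

private theorem K1_usum (A : ℝ) : Summable fun n : ℕ => A * (1 / ((n : ℝ) + 1) ^ 2) := by
  apply Summable.mul_left
  have h := (summable_nat_add_iff 1).2 (Real.summable_one_div_nat_pow.2 (by norm_num : 1 < 2))
  simpa using h

private theorem K1_series {J : ℂ → ℂ} {η : ℝ} (hJ : DifferentiableOn ℂ J (St η)) (A : ℝ → ℝ)
    (hA : ∀ R, 1 ≤ R → ∀ t ∈ St η, |t.re| < R → ∀ n : ℕ,
      ‖J (t + (n + 1)) + J (t - (n + 1))‖ ≤ A R * (1 / ((n : ℝ) + 1) ^ 2)) :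
    DifferentiableOn ℂ (fun t => ∑' n : ℕ, (J (t + (n + 1)) + J (t - (n + 1)))) (St η) := by
  have hF : ∀ n : ℕ, DifferentiableOn ℂ (fun t => J (t + (n + 1)) + J (t - (n + 1))) (St η) := by
    intro n
    apply DifferentiableOn.add
    · refine hJ.comp (by fun_prop) fun t ht => ?_
      have : (t + ((n : ℂ) + 1)).im = t.im := by simp
      change |(t + ((n : ℂ) + 1)).im| < η
      rw [this]
      exact ht
    · refine hJ.comp (by fun_prop) fun t ht => ?_
      have : (t - ((n : ℂ) + 1)).im = t.im := by simp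
      change |(t - ((n : ℂ) + 1)).im| < η
      rw [this]
      exact ht
  intro t ht
  have hopen : IsOpen (St η ∩ {z : ℂ | |z.re| < |t.re| + 1}) := by
    apply (K1_open η).inter
    have h : Continuous fun t : ℂ => |t.re| := by fun_prop
    exact isOpen_lt h continuous_const
  have h1 : DifferentiableOn ℂ (fun t => ∑' n : ℕ, (J (t + (n + 1)) + J (t - (n + 1))))
      (St η ∩ {z : ℂ | |z.re| < |t.re| + 1}) :=
    differentiableOn_tsum_of_summable_norm (K1_usum (A (|t.re| + 1)))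
      (fun n => (hF n).mono Set.inter_subset_left) hopen
      (fun n z hz => hA _ (by linarith [abs_nonneg t.re]) z hz.1 hz.2 n)
  have h2 : t ∈ St η ∩ {z : ℂ | |z.re| < |t.re| + 1} := ⟨ht, by simp⟩
  exact (h1.differentiableAt (hopen.mem_nhds h2)).differentiableWithinAt

/-
ROW K1 (STRONG). The regular part of the periodised kernel.
KX X t τ = J(t) + ∑_{n>=1} (J(t+n) + J(t-n)), J(s) = g(s) - 1/(τ-s) for s ≠ τ. For |Re t| < R and n > R + 2 the terms are
g(t+n) + g(t-n) - 2(τ-t)/((τ-t)^2 - n^2) = O(exp(-3 lam n)) + O(1/n^2), uniformly on compact sets: differentiableOn_tsum_of_summable_norm.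
(b) if t + n ≠ τ for all integers n: split the sums, cot_series_rep (Mathlib: π cot(π x) = 1/x + ∑_{n : ℕ+} (1/(x-n) + 1/(x+n)),
x = τ - t ∈ ℂ_ℤ = integerComplement) and int sum = nat sums (HasSum.of_nat_of_neg_add_one / tsum_int...). Summability of g(t+n) from
J_bound (far).
(c) periodicity from (b) off the discrete set t + n = τ, then by continuity of KX in t.
-/
theorem K_ana (X : ℂ → ℂ) (η ε : ℝ) (hη' : η ≤ 7 / 2) (hε : 0 ≤ ε) (hε' : ε ≤ 1 / 1000)
    (hX : Near η ε X) (τ : ℂ) (hτ : τ ∈ St η) (hp : Pole τ) :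
    DifferentiableOn ℂ (fun t => KX X t τ) (St η) ∧
    (∀ t ∈ St η, Summable (fun n : ℤ => ‖gX X (t + n) τ‖)) ∧
    (∀ t ∈ St η, (∀ n : ℤ, t + n ≠ τ) →
      KX X t τ = (∑' n : ℤ, gX X (t + n) τ) - Real.pi * Complex.cot (Real.pi * (τ - t))) ∧
    (∀ t ∈ St η, KX X (t + 1) τ = KX X t τ) := by
  obtain ⟨C, hC, hCb⟩ := J_bound
  obtain ⟨hJ, hgd, hJg⟩ := J_ana X η ε hη' hε hε' hX τ hτ hp
  have hb := hCb X η ε hη' hε hε' hX τ hτ hp
  have hJb := K1_Jbdd (g := fun s => gX X s τ) (J := fun s => JX X s τ) hC hτ hb hJ hJg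
  have hterm := fun (R : ℝ) (hR : 1 ≤ R) (t : ℂ) (ht : t ∈ St η) (htR : |t.re| < R) (n : ℕ) =>
    K1_term (g := fun s => gX X s τ) (J := fun s => JX X s τ) hC hη' hτ hp hR hb hJb hJg t ht htR n
  have hdiff : DifferentiableOn ℂ (fun t => KX X t τ) (St η) := by
    unfold KX
    exact hJ.add (K1_series (J := fun s => JX X s τ) hJ
      (fun R => 16 * C + 8 * (R + 8) + 8 * (C + 4) * (R + 2) ^ 2) hterm)
  have hst : ∀ t ∈ St η, ∀ n : ℤ, t + (n : ℂ) ∈ St η := by
    intro t ht n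
    have : (t + (n : ℂ)).im = t.im := by simp
    change |(t + (n : ℂ)).im| < η
    rw [this]
    exact ht
  have hsum : ∀ t ∈ St η, Summable (fun n : ℤ => ‖gX X (t + n) τ‖) := by
    intro t ht
    refine Summable.of_norm_bounded_eventually (g := fun n : ℤ =>
      C * Real.exp |t.re| * Real.exp (-|(n : ℝ)|)) (K1_sum.mul_left _) ?_
    rw [Filter.eventually_cofinite]
    obtain ⟨N, hN⟩ := exists_nat_gt (|t.re| + 1)
    refine (Set.finite_Icc (-(N : ℤ)) N).subset fun n hn => ?_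
    by_contra hcon
    apply hn
    have hn' : (N : ℝ) < |(n : ℝ)| := by
      rw [Set.mem_Icc, ← abs_le, not_le] at hcon
      exact_mod_cast hcon
    have hτre := abs_le.1 hp.1
    have hfar : 1 / 4 ≤ ‖t + (n : ℂ) - τ‖ := by
      refine le_trans ?_ (Complex.abs_re_le_norm _)
      have h1 : (t + (n : ℂ) - τ).re = n - (τ.re - t.re) := by
        simp
        ring
      rw [h1]
      have h2 := abs_sub_abs_le_abs_sub (n : ℝ) (τ.re - t.re)
      have h3 := abs_sub τ.re t.re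
      linarith [hp.1]
    have h4 := (hb _ (hst t ht n)).1 hfar
    rw [norm_norm]
    refine h4.trans ?_
    rw [mul_assoc]
    refine mul_le_mul_of_nonneg_left ?_ hC.le
    refine (K1_wt _).trans ?_
    rw [← Real.exp_add]
    apply Real.exp_le_exp.2
    have h5 : (t + (n : ℂ)).re = t.re + n := by simp
    rw [h5]
    have h6 := abs_sub (t.re + n) t.re
    rw [add_sub_cancel_left] at h6
    linarith
  have hform : ∀ t ∈ St η, (∀ n : ℤ, t + n ≠ τ) →
      KX X t τ = (∑' n : ℤ, gX X (t + n) τ) - Real.pi * Complex.cot (Real.pi * (τ - t)) :=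
    fun t ht hne => K1_form (g := fun s => gX X s τ) (J := fun s => JX X s τ) hJg
      (hsum t ht).of_norm hne
  refine ⟨hdiff, hsum, hform, ?_⟩
  -- periodicity
  have hper0 : ∀ t ∈ St η, (∀ n : ℤ, t + n ≠ τ) → KX X (t + 1) τ = KX X t τ := by
    intro t ht hne
    have ht1 : t + 1 ∈ St η := by simpa using hst t ht 1
    have hne1 : ∀ n : ℤ, t + 1 + n ≠ τ := by
      intro n
      have := hne (n + 1)
      intro h
      apply this
      rw [← h]
      push_cast
      ring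
    rw [hform t ht hne, hform (t + 1) ht1 hne1]
    have h1 : ∑' n : ℤ, gX X (t + 1 + n) τ = ∑' n : ℤ, gX X (t + n) τ := by
      rw [← (Equiv.addRight (1 : ℤ)).tsum_eq (fun n : ℤ => gX X (t + n) τ)]
      refine tsum_congr fun n => ?_
      congr 1
      simp only [Equiv.coe_addRight]
      push_cast
      ring
    have h2 : Complex.cot (Real.pi * (τ - (t + 1))) = Complex.cot (Real.pi * (τ - t)) := by
      rw [← K1_cot (Real.pi * (τ - t))]
      congr 1
      ring
    rw [h1, h2]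
  intro t ht
  by_cases hne : ∀ n : ℤ, t + n ≠ τ
  · exact hper0 t ht hne
  · push Not at hne
    obtain ⟨n₀, hn₀⟩ := hne
    have hc1 : ContinuousAt (fun z => KX X z τ) t :=
      (hdiff.differentiableAt ((K1_open η).mem_nhds ht)).continuousAt
    have ht1 : t + 1 ∈ St η := by simpa using hst t ht 1
    have hc2 : ContinuousAt (fun z => KX X (z + 1) τ) t := by
      have h1 : ContinuousAt (fun z => KX X z τ) (t + 1) :=
        (hdiff.differentiableAt ((K1_open η).mem_nhds ht1)).continuousAt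
      exact ContinuousAt.comp (g := fun z => KX X z τ) (f := fun z : ℂ => z + 1) h1 (by fun_prop)
    have hev : ∀ᶠ z in 𝓝[≠] t, KX X (z + 1) τ = KX X z τ := by
      have h1 : ∀ᶠ z in 𝓝[≠] t, z ∈ St η := nhdsWithin_le_nhds ((K1_open η).mem_nhds ht)
      have h2 : ∀ᶠ z in 𝓝[≠] t, ‖z - t‖ < 1 := by
        apply nhdsWithin_le_nhds
        have := Metric.ball_mem_nhds t one_pos
        filter_upwards [this] with z hz
        rwa [Metric.mem_ball, dist_eq_norm] at hz
      filter_upwards [h1, h2, self_mem_nhdsWithin] with z hz1 hz2 hz3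
      apply hper0 z hz1
      intro n hn
      have h3 : z - t = ((n₀ - n : ℤ) : ℂ) := by
        push_cast
        have : z + n = t + n₀ := by rw [hn, hn₀]
        linear_combination this
      rw [h3, Complex.norm_intCast] at hz2
      have h4 : n₀ - n = 0 := by
        have : |(n₀ - n : ℤ)| < 1 := by exact_mod_cast hz2
        exact Int.abs_lt_one_iff.1 this
      rw [h4, Int.cast_zero, sub_eq_zero] at h3
      exact hz3 h3
    have h5 : Tendsto (fun z => KX X (z + 1) τ) (𝓝[≠] t) (𝓝 (KX X (t + 1) τ)) :=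
      hc2.tendsto.mono_left nhdsWithin_le_nhds
    have h6 : Tendsto (fun z => KX X z τ) (𝓝[≠] t) (𝓝 (KX X t τ)) :=
      hc1.tendsto.mono_left nhdsWithin_le_nhds
    exact tendsto_nhds_unique h5 (h6.congr' (hev.mono fun z hz => hz.symm))

end LibEY38
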