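import Pool.Agent.LibEY38.Defs
import Pool.Agent.LibEY38.N1
import Pool.Agent.LibEY38.J1
import Pool.Agent.LibEY38.J2

open Complex Set Filter Topology MeasureTheory
open scoped ComplexConjugate

namespace LibEY38

private theorem J3_open (η : ℝ) : IsOpen (St η) :=
  isOpen_lt (continuous_abs.comp Complex.continuous_im) continuous_const

private theorem J3_sub {η : ℝ} (h : η ≤ 7 / 2) : St η ⊆ St (7 / 2) :=
  fun _ ht => lt_of_lt_of_le ht h

private theorem J3_wtpos (t : ℂ) : 0 < wt t := Real.exp_pos _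

private theorem J3_X0 {η : ℝ} (hη : η ≤ 7 / 2) {δ : ℝ} (hδ : 0 ≤ δ) : Near η δ X0 := by
  have h : ∀ t, 0 ≤ δ * wt t := fun t => mul_nonneg hδ (J3_wtpos t).le
  refine ⟨X0_ode.1.mono (J3_sub hη), ?_, ?_, ?_⟩ <;> intro t _ <;> rw [sub_self, norm_zero] <;>
    exact h t

private theorem J3_near (X : ℂ → ℂ) (η ε : ℝ) (hη : η ≤ 7 / 2) (hX : Near η ε X)
    (θ : ℂ) (δ : ℝ) (hδ : ‖θ‖ * ε ≤ δ) :
    Near η δ (fun t => X0 t + θ * (X t - X0 t)) ∧
    (∀ t ∈ St η, deriv (fun t => X0 t + θ * (X t - X0 t)) t =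
      deriv X0 t + θ * (deriv X t - deriv X0 t)) := by
  have hX0 : DifferentiableOn ℂ X0 (St η) := X0_ode.1.mono (J3_sub hη)
  have hd0 : ∀ t ∈ St η, DifferentiableAt ℂ X0 t :=
    fun t ht => (hX0 t ht).differentiableAt ((J3_open η).mem_nhds ht)
  have hd : ∀ t ∈ St η, DifferentiableAt ℂ X t :=
    fun t ht => (hX.diff t ht).differentiableAt ((J3_open η).mem_nhds ht)
  have hdd0 : ∀ t ∈ St η, DifferentiableAt ℂ (deriv X0) t :=
    fun t ht => ((hX0.deriv (J3_open η)) t ht).differentiableAt ((J3_open η).mem_nhds ht)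
  have hdd : ∀ t ∈ St η, DifferentiableAt ℂ (deriv X) t :=
    fun t ht => ((hX.diff.deriv (J3_open η)) t ht).differentiableAt ((J3_open η).mem_nhds ht)
  have e1 : ∀ t ∈ St η, deriv (fun t => X0 t + θ * (X t - X0 t)) t =
      deriv X0 t + θ * (deriv X t - deriv X0 t) := by
    intro t ht
    exact ((hd0 t ht).hasDerivAt.add
      (((hd t ht).hasDerivAt.sub (hd0 t ht).hasDerivAt).const_mul θ)).deriv
  have e2 : ∀ t ∈ St η, deriv (deriv (fun t => X0 t + θ * (X t - X0 t))) t =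
      deriv (deriv X0) t + θ * (deriv (deriv X) t - deriv (deriv X0) t) := by
    intro t ht
    have he : deriv (fun t => X0 t + θ * (X t - X0 t)) =ᶠ[𝓝 t]
        fun t => deriv X0 t + θ * (deriv X t - deriv X0 t) := by
      filter_upwards [(J3_open η).mem_nhds ht] with u hu using e1 u hu
    rw [he.deriv_eq]
    exact ((hdd0 t ht).hasDerivAt.add
      (((hdd t ht).hasDerivAt.sub (hdd0 t ht).hasDerivAt).const_mul θ)).deriv
  have key : ∀ (a b : ℂ) (w : ℝ), 0 ≤ w → ‖a‖ ≤ ε * w → ‖b + θ * a - b‖ ≤ δ * w := by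
    intro a b w hw ha
    rw [add_sub_cancel_left, norm_mul]
    calc ‖θ‖ * ‖a‖ ≤ ‖θ‖ * (ε * w) := mul_le_mul_of_nonneg_left ha (norm_nonneg _)
      _ = (‖θ‖ * ε) * w := by ring
      _ ≤ δ * w := mul_le_mul_of_nonneg_right hδ hw
  refine ⟨⟨?_, ?_, ?_, ?_⟩, e1⟩
  · exact hX0.add ((hX.diff.sub hX0).const_mul θ)
  · intro t ht
    exact key _ _ _ (J3_wtpos t).le (hX.c0 t ht)
  · intro t ht
    rw [e1 t ht]
    exact key _ _ _ (J3_wtpos t).le (hX.c1 t ht)
  · intro t ht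
    rw [e2 t ht]
    exact key _ _ _ (J3_wtpos t).le (hX.c2 t ht)

private theorem J3_core (X : ℂ → ℂ) (η ε B : ℝ) (hη : η ≤ 7 / 2) (hε : 0 < ε)
    (hε' : ε ≤ 1 / 2000) (hX : Near η ε X)
    (τ : ℂ) (hτ : τ ∈ St η) (hp : Pole τ) (s : ℂ) (hs : s ∈ St η) (hne : s ≠ τ)
    (hB : ∀ Y, Near η (1 / 1000) Y → ‖gX Y s τ - gX X0 s τ‖ ≤ B) :
    ‖gX X s τ - gX X0 s τ‖ ≤ 1000 * B * ε := by
  have hR : 0 < 1 / (1000 * ε) := by positivity
  obtain ⟨f, hf⟩ : ∃ f : ℂ → ℂ, f = fun θ => (deriv X0 s + θ * (deriv X s - deriv X0 s)) *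
      (kc ((X0 τ + θ * (X τ - X0 τ)) - (X0 s + θ * (X s - X0 s))) *
        (cc (X0 s + θ * (X s - X0 s)) / cc (X0 τ + θ * (X τ - X0 τ))) ^ 2) := ⟨_, rfl⟩
  have hfg : ∀ θ, f θ = gX (fun t => X0 t + θ * (X t - X0 t)) s τ := by
    intro θ
    simp only [hf, gX, Ker]
    rw [(J3_near X η ε hη hX θ (‖θ‖ * ε) le_rfl).2 s hs]
  have f0 : f 0 = gX X0 s τ := by simp [hf, gX, Ker]
  have f1 : f 1 = gX X s τ := by simp [hf, gX, Ker]
  have hth : ∀ θ ∈ Metric.ball (0 : ℂ) (1 / (1000 * ε)),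
      Near η (1 / 1000) (fun t => X0 t + θ * (X t - X0 t)) := by
    intro θ hθ
    rw [mem_ball_zero_iff] at hθ
    refine (J3_near X η ε hη hX θ (1 / 1000) ?_).1
    have := mul_le_mul_of_nonneg_right hθ.le hε.le
    calc ‖θ‖ * ε ≤ 1 / (1000 * ε) * ε := this
      _ = 1 / 1000 := by field_simp
  have hcc : Differentiable ℂ cc := by
    unfold cc
    fun_prop
  have hdiff : DifferentiableOn ℂ f (Metric.ball 0 (1 / (1000 * ε))) := by
    intro θ hθ
    have hN := hth θ hθ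
    obtain ⟨h1, h2, h3⟩ := near_facts _ η (1 / 1000) hη (by norm_num) le_rfl hN
    have hc : cc (X0 τ + θ * (X τ - X0 τ)) ≠ 0 := by
      have h5 : 1 / 5 ≤ ‖cc (X0 τ + θ * (X τ - X0 τ))‖ := (h2 τ hτ hp).1
      intro h0
      rw [h0, norm_zero] at h5
      norm_num at h5
    have hsep : 1 / 20 * min 1 ‖s - τ‖ ≤
        ‖(X0 s + θ * (X s - X0 s)) - (X0 τ + θ * (X τ - X0 τ))‖ := h3 s hs τ hτ hp
    have hpos : 0 < min 1 ‖s - τ‖ := lt_min one_pos (norm_pos_iff.2 (sub_ne_zero.2 hne))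
    have hX1 : ‖X0 s + θ * (X s - X0 s)‖ ≤ 5 / 4 := (h1 s hs).2.2.2.1
    have hX2 : ‖X0 τ + θ * (X τ - X0 τ)‖ ≤ 5 / 4 := (h1 τ hτ).2.2.2.1
    have hsin : Complex.sin (((X0 τ + θ * (X τ - X0 τ)) - (X0 s + θ * (X s - X0 s))) / 2) ≠ 0 := by
      refine (kc_bound _ ?_ ?_).1
      · refine (norm_sub_le _ _).trans ?_
        linarith
      · intro h0
        have h0' : (X0 s + θ * (X s - X0 s)) - (X0 τ + θ * (X τ - X0 τ)) = 0 := by
          rw [← neg_sub, h0, neg_zero]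
        rw [h0', norm_zero] at hsep
        linarith
    have hk : DifferentiableAt ℂ kc ((X0 τ + θ * (X τ - X0 τ)) - (X0 s + θ * (X s - X0 s))) := by
      have ha : DifferentiableAt ℂ (fun u : ℂ => Complex.cos (u / 2))
        ((X0 τ + θ * (X τ - X0 τ)) - (X0 s + θ * (X s - X0 s))) := by fun_prop
      have hb : DifferentiableAt ℂ (fun u : ℂ => 2 * Complex.sin (u / 2))
        ((X0 τ + θ * (X τ - X0 τ)) - (X0 s + θ * (X s - X0 s))) := by fun_prop
      exact ha.div hb (mul_ne_zero two_ne_zero hsin)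
    have hA1 : DifferentiableAt ℂ (fun θ : ℂ => deriv X0 s + θ * (deriv X s - deriv X0 s)) θ := by
      fun_prop
    have hA2 : DifferentiableAt ℂ
        (fun θ : ℂ => (X0 τ + θ * (X τ - X0 τ)) - (X0 s + θ * (X s - X0 s))) θ := by
      fun_prop
    have hA3 : DifferentiableAt ℂ (fun θ : ℂ => X0 τ + θ * (X τ - X0 τ)) θ := by
      fun_prop
    have hA4 : DifferentiableAt ℂ (fun θ : ℂ => X0 s + θ * (X s - X0 s)) θ := by
      fun_prop
    have hK : DifferentiableAt ℂ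
        (fun θ : ℂ => kc ((X0 τ + θ * (X τ - X0 τ)) - (X0 s + θ * (X s - X0 s)))) θ :=
      DifferentiableAt.comp (g := kc) θ hk hA2
    have hC1 : DifferentiableAt ℂ (fun θ : ℂ => cc (X0 s + θ * (X s - X0 s))) θ :=
      DifferentiableAt.comp (g := cc) θ (hcc _) hA4
    have hC2 : DifferentiableAt ℂ (fun θ : ℂ => cc (X0 τ + θ * (X τ - X0 τ))) θ :=
      DifferentiableAt.comp (g := cc) θ (hcc _) hA3
    have hall : DifferentiableAt ℂ f θ := by
      rw [hf]
      exact hA1.mul (hK.mul ((hC1.div hC2 hc).pow 2))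
    exact hall.differentiableWithinAt
  have hmaps : MapsTo f (Metric.ball 0 (1 / (1000 * ε))) (Metric.closedBall (f 0) B) := by
    intro θ hθ
    rw [mem_closedBall_iff_norm, hfg θ, f0]
    exact hB _ (hth θ hθ)
  have h1mem : (1 : ℂ) ∈ Metric.ball (0 : ℂ) (1 / (1000 * ε)) := by
    rw [mem_ball_zero_iff, norm_one, lt_div_iff₀ (by positivity)]
    linarith
  have hS := Complex.dist_le_div_mul_dist_of_mapsTo_ball hdiff hmaps h1mem
  rw [f0, f1, dist_eq_norm, dist_zero_right, norm_one, mul_one] at hS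
  refine hS.trans (le_of_eq ?_)
  field_simp

private theorem J3_pos : ∃ C : ℝ, 0 < C ∧ ∀ (X : ℂ → ℂ) (η ε : ℝ), η ≤ 7 / 2 → 0 < ε →
    ε ≤ 1 / 2000 → Near η ε X → ∀ τ ∈ St η, Pole τ → ∀ s ∈ St η, s ≠ τ →
    ‖JX X s τ - JX X0 s τ‖ ≤ C * ε * wt s ^ 3 := by
  obtain ⟨C0, hC0, hJ⟩ := J_bound
  have hlam : 0 < lam := by
    have := numbers.1
    linarith
  refine ⟨2000 * C0 * Real.exp (3 * lam), by positivity, ?_⟩
  intro X η ε hη hε hε' hX τ hτ hp s hs hne
  have hw : 0 < wt s := J3_wtpos s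
  have hNX : Near η (1 / 1000) X := by
    have h : ∀ t, ε * wt t ≤ 1 / 1000 * wt t := fun t =>
      mul_le_mul_of_nonneg_right (by linarith) (J3_wtpos t).le
    exact ⟨hX.diff, fun t ht => (hX.c0 t ht).trans (h t), fun t ht => (hX.c1 t ht).trans (h t),
      fun t ht => (hX.c2 t ht).trans (h t)⟩
  have hN0 : Near η (1 / 1000) X0 := J3_X0 hη (by norm_num)
  have hE1 : 1 ≤ Real.exp (3 * lam) := Real.one_le_exp (by positivity)
  have hBd : ∀ Y, Near η (1 / 1000) Y →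
      ‖gX Y s τ - gX X0 s τ‖ ≤ 2 * C0 * Real.exp (3 * lam) * wt s ^ 3 := by
    intro Y hY
    rcases le_or_gt (1 / 4) ‖s - τ‖ with hfar | hnear
    · have h1 := (hJ Y η (1 / 1000) hη (by norm_num) le_rfl hY τ hτ hp s hs).1 hfar
      have h2 := (hJ X0 η (1 / 1000) hη (by norm_num) le_rfl hN0 τ hτ hp s hs).1 hfar
      have h3 : C0 * wt s ^ 3 * 1 ≤ C0 * wt s ^ 3 * Real.exp (3 * lam) :=
        mul_le_mul_of_nonneg_left hE1 (by positivity)
      calc ‖gX Y s τ - gX X0 s τ‖ ≤ ‖gX Y s τ‖ + ‖gX X0 s τ‖ := norm_sub_le _ _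
        _ ≤ C0 * wt s ^ 3 * Real.exp (3 * lam) + C0 * wt s ^ 3 * Real.exp (3 * lam) := by linarith
        _ = _ := by ring
    · have h1 := (hJ Y η (1 / 1000) hη (by norm_num) le_rfl hY τ hτ hp s hs).2 hne hnear.le
      have h2 := (hJ X0 η (1 / 1000) hη (by norm_num) le_rfl hN0 τ hτ hp s hs).2 hne hnear.le
      have hre : |s.re| ≤ 1 := by
        have h4 : |(s - τ).re| ≤ ‖s - τ‖ := Complex.abs_re_le_norm _
        have h5 := hp.1
        rw [Complex.sub_re] at h4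
        have h6 : |s.re| ≤ |s.re - τ.re| + |τ.re| := by
          have := abs_add_le (s.re - τ.re) τ.re
          rwa [sub_add_cancel] at this
        linarith
      have hone : 1 ≤ Real.exp (3 * lam) * wt s ^ 3 := by
        unfold wt
        rw [← Real.exp_nat_mul, ← Real.exp_add]
        refine Real.one_le_exp ?_
        have : lam * |s.re| ≤ lam * 1 := mul_le_mul_of_nonneg_left hre hlam.le
        push_cast
        linarith
      have h3 : C0 * 1 ≤ C0 * (Real.exp (3 * lam) * wt s ^ 3) :=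
        mul_le_mul_of_nonneg_left hone hC0.le
      have h7 : gX Y s τ - gX X0 s τ =
          (gX Y s τ - 1 / (τ - s)) - (gX X0 s τ - 1 / (τ - s)) := by ring
      calc ‖gX Y s τ - gX X0 s τ‖ ≤ ‖gX Y s τ - 1 / (τ - s)‖ + ‖gX X0 s τ - 1 / (τ - s)‖ := by
            rw [h7]
            exact norm_sub_le _ _
        _ ≤ C0 * (Real.exp (3 * lam) * wt s ^ 3) + C0 * (Real.exp (3 * lam) * wt s ^ 3) := by
            linarith
        _ = _ := by ring
  have hcore := J3_core X η ε _ hη hε hε' hX τ hτ hp s hs hne hBd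
  have hJX := (J_ana X η (1 / 1000) hη (by norm_num) le_rfl hNX τ hτ hp).2.2 s hne
  have hJ0 := (J_ana X0 η (1 / 1000) hη (by norm_num) le_rfl hN0 τ hτ hp).2.2 s hne
  have h8 : JX X s τ - JX X0 s τ = gX X s τ - gX X0 s τ := by
    rw [hJX, hJ0]
    ring
  rw [h8]
  refine hcore.trans (le_of_eq ?_)
  ring

/-
ROW J3 (MEDIUM). Lipschitz dependence on the curve, by the Schwarz lemma in a complex parameter.
For s ≠ τ: X_θ = X0 + θ (X - X0) is Near η (|θ| ε) for |θ| < R := 1/(1000 ε) (ε > 0; R >= 2); f(θ) = gX X_θ s τ is analytic in θ on the ball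
(deriv X_θ s = deriv X0 s + θ (deriv X s - deriv X0 s); denominators ≠ 0 by near_facts/kc_bound) and stays within 2C (C wt^3 in the far
case; near case: within 2C <= 8 C wt^3, as |Re s| <= 3/4) of f(0): Complex.dist_le_div_mul_dist_of_mapsTo_ball gives
|f 1 - f 0| <= const/R = const ε. s = τ: both JX are continuous in s (J_ana), take the limit. Use JX X s τ - JX X0 s τ = gX - gX.
X0 itself is Near η 0.
-/
theorem J_lip : ∃ C : ℝ, 0 < C ∧ ∀ (X : ℂ → ℂ) (η ε : ℝ), η ≤ 7 / 2 → 0 ≤ ε → ε ≤ 1 / 2000 →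
    Near η ε X → ∀ τ ∈ St η, Pole τ → ∀ s ∈ St η, ‖JX X s τ - JX X0 s τ‖ ≤ C * ε * wt s ^ 3 := by
  obtain ⟨C, hC, hmain⟩ := J3_pos
  refine ⟨C, hC, ?_⟩
  intro X η ε hη hε hε' hX τ hτ hp s hs
  have hw : 0 < wt s := J3_wtpos s
  -- every larger closeness parameter, off the diagonal
  have hoff : ∀ δ, 0 < δ → ε ≤ δ → δ ≤ 1 / 2000 → ∀ u ∈ St η, u ≠ τ →
      ‖JX X u τ - JX X0 u τ‖ ≤ C * δ * wt u ^ 3 := by
    intro δ hδ hεδ hδ' u hu hne
    have hXδ : Near η δ X := by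
      have h : ∀ t, ε * wt t ≤ δ * wt t := fun t =>
        mul_le_mul_of_nonneg_right hεδ (J3_wtpos t).le
      exact ⟨hX.diff, fun t ht => (hX.c0 t ht).trans (h t), fun t ht => (hX.c1 t ht).trans (h t),
        fun t ht => (hX.c2 t ht).trans (h t)⟩
    exact hmain X η δ hη hδ hδ' hXδ τ hτ hp u hu hne
  -- off the diagonal, ε itself
  have hoff2 : ∀ u ∈ St η, u ≠ τ → ‖JX X u τ - JX X0 u τ‖ ≤ C * ε * wt u ^ 3 := by
    intro u hu hne
    rcases hε.lt_or_eq with hpos | h0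
    · exact hoff ε hpos le_rfl hε' u hu hne
    · rw [← h0]
      have hlim : Tendsto (fun δ : ℝ => C * δ * wt u ^ 3) (𝓝[>] 0) (𝓝 (C * 0 * wt u ^ 3)) := by
        have : Continuous (fun δ : ℝ => C * δ * wt u ^ 3) := by fun_prop
        exact (this.tendsto 0).mono_left nhdsWithin_le_nhds
      refine ge_of_tendsto hlim ?_
      have hIoo : Ioc (0 : ℝ) (1 / 2000) ∈ 𝓝[>] (0 : ℝ) := Ioc_mem_nhdsGT (by norm_num)
      filter_upwards [hIoo] with δ hδ
      exact hoff δ hδ.1 (by rw [← h0]; exact hδ.1.le) hδ.2 u hu hne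
  by_cases hne : s = τ
  · rw [hne]
    have hNX : Near η (1 / 1000) X := by
      have h : ∀ t, ε * wt t ≤ 1 / 1000 * wt t := fun t =>
        mul_le_mul_of_nonneg_right (by linarith) (J3_wtpos t).le
      exact ⟨hX.diff, fun t ht => (hX.c0 t ht).trans (h t), fun t ht => (hX.c1 t ht).trans (h t),
        fun t ht => (hX.c2 t ht).trans (h t)⟩
    have hN0 : Near η (1 / 1000) X0 := J3_X0 hη (by norm_num)
    have hc1 := (J_ana X η (1 / 1000) hη (by norm_num) le_rfl hNX τ hτ hp).1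
    have hc2 := (J_ana X0 η (1 / 1000) hη (by norm_num) le_rfl hN0 τ hτ hp).1
    have hat1 : ContinuousAt (fun s => JX X s τ) τ :=
      ((hc1 τ hτ).differentiableAt ((J3_open η).mem_nhds hτ)).continuousAt
    have hat2 : ContinuousAt (fun s => JX X0 s τ) τ :=
      ((hc2 τ hτ).differentiableAt ((J3_open η).mem_nhds hτ)).continuousAt
    have hwc : Continuous wt := by
      unfold wt
      exact Real.continuous_exp.comp
        ((continuous_const.mul (continuous_abs.comp Complex.continuous_re)).neg)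
    have hL : Tendsto (fun s => ‖JX X s τ - JX X0 s τ‖) (𝓝[≠] τ) (𝓝 ‖JX X τ τ - JX X0 τ τ‖) :=
      ((hat1.sub hat2).norm.tendsto).mono_left nhdsWithin_le_nhds
    have hR : Tendsto (fun s => C * ε * wt s ^ 3) (𝓝[≠] τ) (𝓝 (C * ε * wt τ ^ 3)) :=
      ((continuous_const.mul (hwc.pow 3)).tendsto τ).mono_left nhdsWithin_le_nhds
    refine le_of_tendsto_of_tendsto hL hR ?_
    filter_upwards [mem_nhdsWithin_of_mem_nhds ((J3_open η).mem_nhds hτ),
      self_mem_nhdsWithin] with u hu hne'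
    exact hoff2 u hu hne'
  · exact hoff2 s hs hne

end LibEY38
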