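import Pool.Agent.LibEY38.Defs
import Pool.Agent.LibEY38.B0
import Pool.Agent.LibEY38.A4
import Pool.Agent.LibEY38.B2
import Pool.Agent.LibEY38.K1
import Pool.Agent.LibEY38.J3
import Pool.Agent.LibEY38.N1

open Complex Set Filter Topology MeasureTheory
open scoped ComplexConjugate

namespace LibEY38

/-
ROW K2 (MEDIUM/STRONG). Size of the regular part.
(i) K_lip: sum J_lip over translates: ∑ exp(-(3 lam|Re t + n|)) <= 2/(1-exp(-3 lam)) (both KX are J + ∑(J+J); subtract; summability from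
K_ana or directly).
(ii) K0_small: fourier_tail for G = KX X0 · τ on St (7/2), H = 17/5, h = 1 (Near (7/2) 0 X0 is trivial): on |Im t| = 17/5,
|KX X0 t τ| <= ∑|gX X0 (t+n) τ| + π|cot(π(τ-t))| (use K_ana (b); |Im(t-τ)| >= 12/5 so |π cot| <= 4) and
|gX X0 s τ| <= 2wt * kc * 16 wt^2/(1/4)^2 where |X0 s - X0 τ| >= 1/10, |kc| <= 60, so the sum is <= 2*60*16*16*3 + 4 < 10^5;
8 * 10^5 * exp(-2π * 12/5) < 1/4 (exp(-15.07) = 2.84e-7; 8e5 * 2.84e-7 = .23. If you need room use the sharper |kc s| <= 4/|s| for |s| <= 12/5 or sharper sums; true sup of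
the N-sum is 4.5).
-/
private theorem K2_sumZ (k : ℝ) (hk : 0 < k) (x : ℝ) : Summable (fun n : ℤ => Real.exp (-(k * |x + n|))) ∧
    ∑' n : ℤ, Real.exp (-(k * |x + n|)) ≤ 2 / (1 - Real.exp (-k)) := by
  obtain ⟨q, hq⟩ : ∃ q : ℝ, q = Real.exp (-k) := ⟨_, rfl⟩
  have hq0 : 0 ≤ q := by
    rw [hq]
    exact (Real.exp_pos _).le
  have hq1 : q < 1 := by
    have h := Real.exp_lt_exp.2 (show -k < 0 by linarith)
    rw [Real.exp_zero] at h
    rw [hq]
    exact h
  have hgeo : Summable fun n : ℕ => q ^ n := summable_geometric_of_lt_one hq0 hq1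
  have hpow : ∀ n : ℕ, q ^ n = Real.exp (-(k * n)) := by
    intro n
    rw [hq, ← Real.exp_nat_mul]
    congr 1
    ring
  obtain ⟨F, hF⟩ : ∃ F : ℤ → ℝ, F = fun j : ℤ => Real.exp (-(k * |Int.fract x + (j : ℝ)|)) := ⟨_, rfl⟩
  have hr0 := Int.fract_nonneg x
  have hr1 := (Int.fract_lt_one x).le
  have hF0 : ∀ j, 0 ≤ F j := by
    intro j
    rw [hF]
    exact (Real.exp_pos _).le
  have h1 : ∀ n : ℕ, F n ≤ q ^ n := by
    intro n
    rw [hF, hpow]
    apply Real.exp_le_exp.2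
    have hn : (0 : ℝ) ≤ n := Nat.cast_nonneg n
    rw [Int.cast_natCast, abs_of_nonneg (by linarith)]
    nlinarith
  have h2 : ∀ n : ℕ, F (-(n + 1 : ℕ)) ≤ q ^ n := by
    intro n
    rw [hF, hpow]
    apply Real.exp_le_exp.2
    have hn : (0 : ℝ) ≤ n := Nat.cast_nonneg n
    have h3 : |Int.fract x + ((-((n + 1 : ℕ) : ℤ) : ℤ) : ℝ)| = n + 1 - Int.fract x := by
      push_cast
      rw [abs_of_nonpos (by linarith)]
      ring
    rw [h3]
    nlinarith
  have hs1 : Summable fun n : ℕ => F n := Summable.of_nonneg_of_le (fun n => hF0 _) h1 hgeo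
  have hs2 : Summable fun n : ℕ => F (-(n + 1 : ℕ)) := Summable.of_nonneg_of_le (fun n => hF0 _) h2 hgeo
  have hs2' : Summable fun n : ℕ => F (-((n : ℤ) + 1)) := by
    refine hs2.congr fun n => ?_
    push_cast
    rfl
  have hsum : Summable F := Summable.of_nat_of_neg_add_one hs1 hs2'
  have hts : ∑' j : ℤ, F j ≤ 2 / (1 - q) := by
    rw [tsum_of_nat_of_neg_add_one hs1 hs2']
    have e1 : ∑' n : ℕ, F n ≤ (1 - q)⁻¹ := by
      rw [← tsum_geometric_of_lt_one hq0 hq1]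
      exact hs1.tsum_le_tsum h1 hgeo
    have e2 : ∑' n : ℕ, F (-((n : ℤ) + 1)) ≤ (1 - q)⁻¹ := by
      rw [← tsum_geometric_of_lt_one hq0 hq1]
      refine hs2'.tsum_le_tsum (fun n => ?_) hgeo
      have h3 := h2 n
      push_cast at h3
      exact h3
    calc _ ≤ (1 - q)⁻¹ + (1 - q)⁻¹ := add_le_add e1 e2
      _ = 2 / (1 - q) := by ring
  have hshift : (fun n : ℤ => Real.exp (-(k * |x + n|))) = fun n => F ((Equiv.addRight ⌊x⌋) n) := by
    funext n
    rw [hF]
    change Real.exp (-(k * |x + n|)) = Real.exp (-(k * |Int.fract x + ((n + ⌊x⌋ : ℤ) : ℝ)|))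
    push_cast
    rw [show x + (n : ℝ) = Int.fract x + ((n : ℝ) + (⌊x⌋ : ℝ)) by
      have h3 := Int.fract_add_floor x
      linarith]
  rw [hshift]
  refine ⟨(Equiv.addRight ⌊x⌋).summable_iff.2 hsum, ?_⟩
  rw [(Equiv.addRight ⌊x⌋).tsum_eq F, ← hq]
  exact hts

private theorem K2_half (k : ℝ) (hk : 0 < k) (x : ℝ) :
    (Summable (fun n : ℕ => Real.exp (-(k * |x + (n + 1)|))) ∧
      ∑' n : ℕ, Real.exp (-(k * |x + (n + 1)|)) ≤ 2 / (1 - Real.exp (-k))) ∧
    (Summable (fun n : ℕ => Real.exp (-(k * |x - (n + 1)|))) ∧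
      ∑' n : ℕ, Real.exp (-(k * |x - (n + 1)|)) ≤ 2 / (1 - Real.exp (-k))) := by
  obtain ⟨h1, h2⟩ := K2_sumZ k hk x
  constructor
  · have hinj : Function.Injective (fun n : ℕ => ((n : ℤ) + 1)) := fun a b h => by
      have : (a : ℤ) + 1 = b + 1 := h
      omega
    have he : (fun n : ℕ => Real.exp (-(k * |x + (n + 1)|))) =
        (fun n : ℤ => Real.exp (-(k * |x + n|))) ∘ (fun n : ℕ => ((n : ℤ) + 1)) := by
      funext n
      simp only [Function.comp]
      push_cast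
      rfl
    rw [he]
    refine ⟨h1.comp_injective hinj, ?_⟩
    refine le_trans ?_ h2
    exact tsum_comp_le_tsum_of_inj h1 (fun n => (Real.exp_pos _).le) hinj
  · have hinj : Function.Injective (fun n : ℕ => (-((n : ℤ) + 1))) := fun a b h => by
      have : -((a : ℤ) + 1) = -(b + 1) := h
      omega
    have he : (fun n : ℕ => Real.exp (-(k * |x - (n + 1)|))) =
        (fun n : ℤ => Real.exp (-(k * |x + n|))) ∘ (fun n : ℕ => (-((n : ℤ) + 1))) := by
      funext n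
      simp only [Function.comp]
      push_cast
      rw [sub_eq_add_neg]
    rw [he]
    refine ⟨h1.comp_injective hinj, ?_⟩
    refine le_trans ?_ h2
    exact tsum_comp_le_tsum_of_inj h1 (fun n => (Real.exp_pos _).le) hinj

private theorem K2_wt3 (t : ℂ) : wt t ^ 3 = Real.exp (-(3 * lam * |t.re|)) := by
  unfold wt
  rw [← Real.exp_nat_mul]
  congr 1
  push_cast
  ring

private theorem K2_St {η : ℝ} {t : ℂ} (ht : t ∈ St η) (x : ℝ) : t + x ∈ St η := by
  change |(t + x).im| < η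
  rw [Complex.add_im, Complex.ofReal_im, add_zero]
  exact ht

/-- two series whose difference is dominated -/
private theorem K2_tsum {a b : ℕ → ℂ} {e : ℕ → ℝ} (he : Summable e) (h : ∀ n, ‖a n - b n‖ ≤ e n) :
    ‖(∑' n, a n) - ∑' n, b n‖ ≤ ∑' n, e n := by
  have hd : Summable fun n => a n - b n := Summable.of_norm_bounded he h
  by_cases hb : Summable b
  · have ha : Summable a := by
      have h1 := hd.add hb
      refine h1.congr fun n => ?_
      ring
    rw [← ha.tsum_sub hb]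
    exact tsum_of_norm_bounded he.hasSum h
  · have ha : ¬ Summable a := by
      intro ha
      apply hb
      refine (ha.sub hd).congr fun n => ?_
      ring
    rw [tsum_eq_zero_of_not_summable ha, tsum_eq_zero_of_not_summable hb, sub_zero, norm_zero]
    exact tsum_nonneg fun n => (norm_nonneg _).trans (h n)

theorem K_lip : ∃ C : ℝ, 0 < C ∧ ∀ (X : ℂ → ℂ) (η ε : ℝ), η ≤ 7 / 2 → 0 ≤ ε → ε ≤ 1 / 2000 →
    Near η ε X → ∀ τ ∈ St η, Pole τ → ∀ t ∈ St η, ‖KX X t τ - KX X0 t τ‖ ≤ C * ε := by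
  obtain ⟨C, hC, hJ⟩ := J_lip
  have hlam : 0 < lam := by
    have h1 := numbers.1
    linarith
  have hk : 0 < 3 * lam := by linarith
  obtain ⟨Q, hQ⟩ : ∃ Q : ℝ, Q = 2 / (1 - Real.exp (-(3 * lam))) := ⟨_, rfl⟩
  have hQ0 : 0 ≤ Q := by
    rw [hQ]
    have h1 : Real.exp (-(3 * lam)) < 1 := by
      have h := Real.exp_lt_exp.2 (show -(3 * lam) < 0 by linarith)
      rwa [Real.exp_zero] at h
    apply div_nonneg (by norm_num)
    linarith
  refine ⟨C * (1 + 2 * Q), by positivity, ?_⟩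
  intro X η ε hη hε hε' hX τ hτ hp t ht
  have hst : ∀ x : ℝ, ‖JX X (t + x) τ - JX X0 (t + x) τ‖ ≤ C * ε * Real.exp (-(3 * lam * |t.re + x|)) := by
    intro x
    have h1 := hJ X η ε hη hε hε' hX τ hτ hp (t + x) (K2_St ht x)
    rw [K2_wt3, Complex.add_re, Complex.ofReal_re] at h1
    exact h1
  obtain ⟨⟨s1, b1⟩, s2, b2⟩ := K2_half (3 * lam) hk t.re
  rw [← hQ] at b1 b2
  have hse : Summable fun n : ℕ => C * ε * Real.exp (-(3 * lam * |t.re + (n + 1)|)) +
      C * ε * Real.exp (-(3 * lam * |t.re - (n + 1)|)) := (s1.mul_left _).add (s2.mul_left _)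
  have hterm : ∀ n : ℕ, ‖(JX X (t + (n + 1)) τ + JX X (t - (n + 1)) τ) -
      (JX X0 (t + (n + 1)) τ + JX X0 (t - (n + 1)) τ)‖ ≤
      C * ε * Real.exp (-(3 * lam * |t.re + (n + 1)|)) + C * ε * Real.exp (-(3 * lam * |t.re - (n + 1)|)) := by
    intro n
    have h1 := hst (n + 1)
    have h2 := hst (-(n + 1))
    have e1 : t + (((n : ℝ) + 1 : ℝ) : ℂ) = t + (n + 1) := by push_cast; ring
    have e2 : t + ((-((n : ℝ) + 1) : ℝ) : ℂ) = t - (n + 1) := by push_cast; ring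
    rw [e1] at h1
    rw [e2, ← sub_eq_add_neg] at h2
    calc _ = ‖(JX X (t + (n + 1)) τ - JX X0 (t + (n + 1)) τ) + (JX X (t - (n + 1)) τ - JX X0 (t - (n + 1)) τ)‖ := by
          congr 1
          ring
      _ ≤ _ := (norm_add_le _ _).trans (add_le_add h1 h2)
  have hts := K2_tsum hse hterm
  rw [(s1.mul_left _).tsum_add (s2.mul_left _), tsum_mul_left, tsum_mul_left] at hts
  have h0 : ‖JX X t τ - JX X0 t τ‖ ≤ C * ε := by
    have h1 := hst 0
    rw [Complex.ofReal_zero, add_zero] at h1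
    refine h1.trans ?_
    have h2 : Real.exp (-(3 * lam * |t.re + 0|)) ≤ 1 := by
      apply Real.exp_le_one_iff.2
      have := mul_nonneg hk.le (abs_nonneg (t.re + 0))
      linarith
    calc C * ε * Real.exp (-(3 * lam * |t.re + 0|)) ≤ C * ε * 1 := by gcongr
      _ = C * ε := mul_one _
  unfold KX
  calc _ = ‖(JX X t τ - JX X0 t τ) + ((∑' n : ℕ, (JX X (t + (n + 1)) τ + JX X (t - (n + 1)) τ)) -
        ∑' n : ℕ, (JX X0 (t + (n + 1)) τ + JX X0 (t - (n + 1)) τ))‖ := by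
        congr 1
        ring
    _ ≤ C * ε + (C * ε * Q + C * ε * Q) := by
        refine (norm_add_le _ _).trans (add_le_add h0 (hts.trans ?_))
        gcongr
    _ = C * (1 + 2 * Q) * ε := by ring

private theorem K2_near : Near (7 / 2) 0 X0 where
  diff := X0_ode.1
  c0 := fun t _ => by simp
  c1 := fun t _ => by simp
  c2 := fun t _ => by simp

private theorem K2_exp (z : ℂ) : ‖Complex.exp (z * I)‖ = Real.exp (-z.im) ∧ ‖Complex.exp (-z * I)‖ = Real.exp z.im := by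
  constructor
  · rw [Complex.norm_exp]
    congr 1
    simp
  · rw [Complex.norm_exp]
    congr 1
    simp

private theorem K2_cosh (z : ℂ) : ‖Complex.cos z‖ ≤ Real.cosh z.im ∧ |Real.sinh z.im| ≤ ‖Complex.sin z‖ := by
  obtain ⟨h1, h2⟩ := K2_exp z
  constructor
  · rw [Complex.cos, norm_div, Complex.norm_ofNat, Real.cosh_eq]
    have h3 := norm_add_le (Complex.exp (z * I)) (Complex.exp (-z * I))
    rw [h1, h2] at h3
    linarith
  · rw [Complex.sin, norm_div, Complex.norm_ofNat, norm_mul, Complex.norm_I, mul_one, Real.sinh_eq]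
    have h3 := abs_norm_sub_norm_le (Complex.exp (-z * I)) (Complex.exp (z * I))
    rw [h1, h2] at h3
    rw [abs_div, abs_of_pos (by norm_num : (0 : ℝ) < 2)]
    linarith

private theorem K2_cot (z : ℂ) (h : 2 ≤ |z.im|) : ‖Real.pi * Complex.cot (Real.pi * z)‖ ≤ 4 := by
  have hpi := Real.pi_gt_three
  have hpi2 := Real.pi_lt_d2
  obtain ⟨h1, h2⟩ := K2_cosh (Real.pi * z)
  have him : ((Real.pi : ℂ) * z).im = Real.pi * z.im := by simp
  rw [him] at h1 h2
  obtain ⟨y, hy⟩ : ∃ y : ℝ, y = |Real.pi * z.im| := ⟨_, rfl⟩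
  have hy1 : 6 ≤ y := by
    rw [hy, abs_mul, abs_of_pos Real.pi_pos]
    nlinarith [abs_nonneg z.im]
  have hc : Real.cosh (Real.pi * z.im) = Real.cosh y := by
    rw [hy, Real.cosh_abs]
  have hs : |Real.sinh (Real.pi * z.im)| = Real.sinh y := by
    rw [hy, Real.abs_sinh]
  rw [hc] at h1
  rw [hs] at h2
  have he : 3 ≤ Real.exp y := by
    have := Real.add_one_le_exp y
    linarith
  have hmul : Real.exp y * Real.exp (-y) = 1 := by
    rw [← Real.exp_add, add_neg_cancel, Real.exp_zero]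
  have hpos := Real.exp_pos (-y)
  have hsp : 0 < Real.sinh y := by
    rw [Real.sinh_eq]
    nlinarith
  have hcs : Real.cosh y ≤ 5 / 4 * Real.sinh y := by
    rw [Real.cosh_eq, Real.sinh_eq]
    nlinarith
  have hsin : 0 < ‖Complex.sin (Real.pi * z)‖ := lt_of_lt_of_le hsp h2
  rw [norm_mul, Complex.cot, norm_div, Complex.norm_real, Real.norm_eq_abs, abs_of_pos Real.pi_pos]
  have hq : ‖Complex.cos (Real.pi * z)‖ / ‖Complex.sin (Real.pi * z)‖ ≤ 5 / 4 := by
    rw [div_le_iff₀ hsin]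
    calc ‖Complex.cos (Real.pi * z)‖ ≤ Real.cosh y := h1
      _ ≤ 5 / 4 * Real.sinh y := hcs
      _ ≤ 5 / 4 * ‖Complex.sin (Real.pi * z)‖ := by gcongr
  calc Real.pi * (‖Complex.cos (Real.pi * z)‖ / ‖Complex.sin (Real.pi * z)‖) ≤ 3.15 * (5 / 4) := by
        gcongr
    _ ≤ 4 := by norm_num

/-- the far bound of the kernel of the reference link -/
private theorem K2_g (τ : ℂ) (hp : Pole τ) (s : ℂ) (hs : |s.im| = 17 / 5) :
    ‖gX X0 s τ‖ ≤ 33334 * wt s ^ 3 := by
  have hsS : s ∈ St (7 / 2) := by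
    change |s.im| < 7 / 2
    rw [hs]
    norm_num
  have hτS : τ ∈ St (7 / 2) := by
    change |τ.im| < 7 / 2
    have := hp.2
    linarith
  obtain ⟨-, b1, -, b2, -, -, -, b3⟩ := X0_bounds s hsS
  obtain ⟨-, -, -, c2, -, -, c3, -⟩ := X0_bounds τ hτS
  have hlam := numbers.2.1
  have hlam0 : 0 < lam := by
    have h1 := numbers.1
    linarith
  have hwτ : 4 / 5 ≤ wt τ := by
    unfold wt
    have h1 : lam * |τ.re| ≤ 1 / 5 := by
      have := hp.1
      nlinarith [abs_nonneg τ.re]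
    have h2 := Real.add_one_le_exp (-(lam * |τ.re|))
    linarith
  have hccτ : 6 / 25 ≤ ‖cc (X0 τ)‖ := by
    refine le_trans ?_ c3
    linarith
  have hsep := X0_sep s τ hsS hp
  have hdist : 1 ≤ ‖s - τ‖ := by
    have h1 : |(s - τ).im| ≤ ‖s - τ‖ := Complex.abs_im_le_norm _
    rw [Complex.sub_im] at h1
    have h2 : |s.im| - |τ.im| ≤ |s.im - τ.im| := abs_sub_abs_le_abs_sub _ _
    have := hp.2
    linarith
  rw [min_eq_left hdist, mul_one] at hsep
  have hne : X0 τ - X0 s ≠ 0 := by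
    intro h
    rw [← norm_neg, neg_sub, h, norm_zero] at hsep
    norm_num at hsep
  have hn3 : ‖X0 τ - X0 s‖ ≤ 3 := by
    have := norm_sub_le (X0 τ) (X0 s)
    linarith
  obtain ⟨-, -, hkc⟩ := kc_bound (X0 τ - X0 s) hn3 hne
  have hsep' : 1 / 10 ≤ ‖X0 τ - X0 s‖ := by
    rw [← norm_neg, neg_sub]
    exact hsep
  have hkc60 : ‖kc (X0 τ - X0 s)‖ ≤ 60 := by
    refine hkc.trans ?_
    rw [div_le_iff₀ (by linarith)]
    linarith
  have hw : 0 < wt s := Real.exp_pos _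
  have hratio : (‖cc (X0 s)‖ / ‖cc (X0 τ)‖) ^ 2 ≤ (4 * wt s / (6 / 25)) ^ 2 := by
    gcongr
  unfold gX Ker
  rw [norm_mul, norm_mul, norm_pow, norm_div]
  calc ‖deriv X0 s‖ * (‖kc (X0 τ - X0 s)‖ * (‖cc (X0 s)‖ / ‖cc (X0 τ)‖) ^ 2)
      ≤ (2 * wt s) * (60 * (4 * wt s / (6 / 25)) ^ 2) := by gcongr
    _ = 2 * 60 * (100 / 6) ^ 2 * wt s ^ 3 := by ring
    _ ≤ 33334 * wt s ^ 3 := by
      gcongr
      norm_num

private theorem K2_line (τ : ℂ) (hp : Pole τ) (t : ℂ) (ht : |t.im| = 17 / 5) : ‖KX X0 t τ‖ ≤ 100000 := by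
  have hτS : τ ∈ St (7 / 2) := by
    change |τ.im| < 7 / 2
    have := hp.2
    linarith
  have htS : t ∈ St (7 / 2) := by
    change |t.im| < 7 / 2
    rw [ht]
    norm_num
  obtain ⟨-, hsum, hform, -⟩ := K_ana X0 (7 / 2) 0 le_rfl le_rfl (by norm_num) K2_near τ hτS hp
  have hne : ∀ n : ℤ, t + n ≠ τ := by
    intro n h
    have h1 := congrArg Complex.im h
    rw [Complex.add_im, Complex.intCast_im, add_zero] at h1
    rw [h1] at ht
    have := hp.2
    linarith
  rw [hform t htS hne]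
  have hlam := numbers.1
  have hk : 0 < 3 * lam := by linarith
  obtain ⟨s1, s2⟩ := K2_sumZ (3 * lam) hk t.re
  have hb : ∀ n : ℤ, ‖gX X0 (t + n) τ‖ ≤ 33334 * Real.exp (-(3 * lam * |t.re + n|)) := by
    intro n
    have h1 := K2_g τ hp (t + n) (by
      rw [Complex.add_im, Complex.intCast_im, add_zero]
      exact ht)
    rw [K2_wt3, Complex.add_re, Complex.intCast_re] at h1
    exact h1
  have h2 : ‖∑' n : ℤ, gX X0 (t + n) τ‖ ≤ 33334 * (2 / (1 - Real.exp (-(3 * lam)))) := by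
    refine (tsum_of_norm_bounded (s1.mul_left 33334).hasSum hb).trans ?_
    rw [tsum_mul_left]
    gcongr
  have hexp : Real.exp (-(3 * lam)) ≤ 8 / 25 := by
    have h3 : (25 : ℝ) / 8 ≤ Real.exp (3 * lam) := by
      have h4 : Real.exp (117 / 100) ≤ Real.exp (3 * lam) := Real.exp_le_exp.2 (by linarith)
      have h5 : (25 : ℝ) / 8 ≤ Real.exp (117 / 100) := by
        have h6 := Real.quadratic_le_exp_of_nonneg (x := 117 / 400) (by norm_num)
        have h7 : Real.exp (117 / 100) = Real.exp (117 / 400) ^ 4 := by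
          rw [← Real.exp_nat_mul]
          congr 1
          norm_num
        rw [h7]
        calc (25 : ℝ) / 8 ≤ (1 + 117 / 400 + (117 / 400) ^ 2 / 2) ^ 4 := by norm_num
          _ ≤ Real.exp (117 / 400) ^ 4 := by gcongr
      linarith
    rw [Real.exp_neg]
    rw [inv_le_comm₀ (Real.exp_pos _) (by norm_num)]
    calc (8 / 25 : ℝ)⁻¹ = 25 / 8 := by norm_num
      _ ≤ _ := h3
  have h3 : 2 / (1 - Real.exp (-(3 * lam))) ≤ 50 / 17 := by
    rw [div_le_div_iff₀ (by linarith) (by norm_num)]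
    linarith
  have h4 := K2_cot (τ - t) (by
    rw [Complex.sub_im]
    have h5 : |t.im| - |τ.im| ≤ |τ.im - t.im| := by
      rw [abs_sub_comm]
      exact abs_sub_abs_le_abs_sub _ _
    have := hp.2
    linarith)
  calc _ ≤ ‖∑' n : ℤ, gX X0 (t + n) τ‖ + ‖Real.pi * Complex.cot (Real.pi * (τ - t))‖ := norm_sub_le _ _
    _ ≤ 33334 * (50 / 17) + 4 := by
      refine add_le_add (h2.trans ?_) h4
      gcongr
    _ ≤ 100000 := by norm_num

theorem K0_small (τ : ℂ) (hp : Pole τ) (t : ℂ) (ht : t ∈ St 1) :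
    ‖KX X0 t τ - KX X0 0 τ‖ ≤ 1 / 4 := by
  have hτS : τ ∈ St (7 / 2) := by
    change |τ.im| < 7 / 2
    have := hp.2
    linarith
  obtain ⟨hd, -, -, hper⟩ := K_ana X0 (7 / 2) 0 le_rfl le_rfl (by norm_num) K2_near τ hτS hp
  have h1 := fourier_tail (fun t => KX X0 t τ) 1 (17 / 5) (7 / 2) 100000 (by norm_num) (by norm_num) (by norm_num)
    hd hper (fun t ht => K2_line τ hp t ht) t (le_of_lt ht)
  refine h1.trans ?_
  have hpi := Real.pi_gt_d2
  have h2 : Real.exp (-(2 * Real.pi * (17 / 5 - 1))) ≤ Real.exp (-15) := by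
    apply Real.exp_le_exp.2
    linarith
  have h3 : Real.exp (-15) ≤ 1 / 3200000 := by
    rw [Real.exp_neg, inv_eq_one_div]
    apply one_div_le_one_div_of_le (by norm_num)
    have h4 : Real.exp 15 = Real.exp 1 ^ 15 := by
      rw [← Real.exp_nat_mul]
      norm_num
    rw [h4]
    have h5 := Real.exp_one_gt_d9
    calc (3200000 : ℝ) ≤ 2.7182818283 ^ 15 := by norm_num
      _ ≤ Real.exp 1 ^ 15 := by gcongr
  calc 8 * 100000 * Real.exp (-(2 * Real.pi * (17 / 5 - 1))) ≤ 8 * 100000 * (1 / 3200000) := by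
        gcongr
        exact h2.trans h3
    _ = 1 / 4 := by norm_num

private theorem K2_arc (η B : ℝ) (f : ℂ → ℂ) (hB : ∀ t : ℂ, |t.im| = |η| → ‖f t‖ ≤ B) : ‖arc η f‖ ≤ B := by
  have hB0 : 0 ≤ B := (norm_nonneg _).trans (hB (η * I) (by simp))
  have h1 : ∀ e : ℝ, |e| = |η| → ‖∫ r in (-(1 / 2) : ℝ)..(1 / 2), f ((r : ℂ) - (e : ℂ) * I)‖ ≤ B := by
    intro e he
    have h2 := intervalIntegral.norm_integral_le_of_norm_le_const (a := (-(1 / 2) : ℝ)) (b := 1 / 2) (C := B)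
      (f := fun r : ℝ => f ((r : ℂ) - (e : ℂ) * I)) (fun r _ => hB _ (by simpa using he))
    refine h2.trans ?_
    norm_num
  have h2 := h1 η rfl
  have h3 := h1 (-η) (abs_neg η)
  have h4 : ∀ r : ℝ, (r : ℂ) - ((-η : ℝ) : ℂ) * I = (r : ℂ) + (η : ℂ) * I := by
    intro r
    push_cast
    ring
  simp only [h4] at h3
  unfold arc
  rw [norm_mul]
  have h5 : ‖(1 / (2 * (Real.pi : ℂ) * I))‖ ≤ 1 / 2 := by
    rw [norm_div, norm_mul, norm_mul, Complex.norm_I, norm_one, Complex.norm_real, Real.norm_eq_abs,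
      abs_of_pos Real.pi_pos, Complex.norm_ofNat, mul_one]
    have hpi := Real.pi_gt_three
    apply one_div_le_one_div_of_le (by norm_num)
    linarith
  calc _ ≤ 1 / 2 * (B + B) := by
        gcongr
        exact (norm_sub_le _ _).trans (add_le_add h2 h3)
    _ = B := by ring

theorem K0_bdd : ∃ C : ℝ, ∀ τ, Pole τ → ∀ t ∈ St 1, ‖KX X0 t τ‖ ≤ C := by
  refine ⟨400000 + 1 / 4, ?_⟩
  intro τ hp t ht
  have hτS : τ ∈ St (7 / 2) := by
    change |τ.im| < 7 / 2
    have := hp.2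
    linarith
  obtain ⟨hd, -, -, hper⟩ := K_ana X0 (7 / 2) 0 le_rfl le_rfl (by norm_num) K2_near τ hτS hp
  have h1 := percauchy (fun t => KX X0 t τ) (17 / 5) (7 / 2) (by norm_num) (by norm_num) hd hper 0 (by
    change |(0 : ℂ).im| < 17 / 5
    norm_num)
  have h2 : ‖KX X0 0 τ‖ ≤ 400000 := by
    rw [← h1]
    refine K2_arc (17 / 5) 400000 _ ?_
    intro z hz
    rw [abs_of_pos (by norm_num : (0 : ℝ) < 17 / 5)] at hz
    rw [norm_mul]
    have h3 := K2_line τ hp z hz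
    have h4 := K2_cot (z - 0) (by
      rw [sub_zero, hz]
      norm_num)
    calc ‖KX X0 z τ‖ * ‖(Real.pi : ℂ) * Complex.cot (Real.pi * (z - 0))‖ ≤ 100000 * 4 := by gcongr
      _ = 400000 := by norm_num
  have h3 := K0_small τ hp t ht
  calc ‖KX X0 t τ‖ = ‖KX X0 0 τ + (KX X0 t τ - KX X0 0 τ)‖ := by
        congr 1
        ring
    _ ≤ 400000 + 1 / 4 := (norm_add_le _ _).trans (add_le_add h2 h3)

end LibEY38
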