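import Pool.Agent.LibEY38.Defs
import Pool.Agent.LibEY38.J1
import Pool.Agent.LibEY38.K1
import Pool.Agent.LibEY38.K2

open Complex Set Filter Topology MeasureTheory
open scoped ComplexConjugate

namespace LibEY38

private theorem K4_open (η : ℝ) : IsOpen (St η) := by
  have h : Continuous fun t : ℂ => |t.im| := by fun_prop
  exact isOpen_lt h continuous_const

/-- points on the line `Im = σ` -/
private def K4_p (σ r : ℝ) : ℂ := (r : ℂ) + (σ : ℂ) * I

private theorem K4_p_im (σ r : ℝ) : (K4_p σ r).im = σ := by simp [K4_p]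

private theorem K4_p_re (σ r : ℝ) : (K4_p σ r).re = r := by simp [K4_p]

private theorem K4_p_cont (σ : ℝ) : Continuous fun r : ℝ => K4_p σ r := by
  unfold K4_p
  fun_prop

private theorem K4_p_mem {σ η : ℝ} (hσ : |σ| < η) (r : ℝ) : K4_p σ r ∈ St η := by
  show |(K4_p σ r).im| < η
  rw [K4_p_im]
  exact hσ

private theorem K4_p_pole {σ r : ℝ} (hσ : |σ| ≤ 1) (hr : |r| ≤ 1 / 2) : Pole (K4_p σ r) := by
  refine ⟨?_, ?_⟩
  · rw [K4_p_re]
    exact hr
  · rw [K4_p_im]
    exact hσ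

private theorem K4_p_neg (σ r : ℝ) : K4_p (-σ) (-r) = -K4_p σ r := by
  unfold K4_p
  push_cast
  ring

private theorem K4_p_conj (σ r : ℝ) : conj (K4_p σ r) = K4_p (-σ) r := by
  unfold K4_p
  rw [map_add, map_mul, Complex.conj_ofReal, Complex.conj_ofReal, Complex.conj_I]
  push_cast
  ring

private theorem K4_arc (η : ℝ) (f : ℂ → ℂ) : arc η f = (1 / (2 * (Real.pi : ℂ) * I)) *
    ((∫ r in (-(1 / 2) : ℝ)..(1 / 2), f (K4_p (-η) r)) -
      ∫ r in (-(1 / 2) : ℝ)..(1 / 2), f (K4_p η r)) := by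
  have h : ∀ r : ℝ, (r : ℂ) - (η : ℂ) * I = K4_p (-η) r := by
    intro r
    unfold K4_p
    push_cast
    ring
  unfold arc
  simp_rw [h]
  rfl

private theorem K4_ae (σ : ℝ) (t : ℂ) : ∀ᵐ r : ℝ, ∀ n : ℤ, t + n ≠ K4_p σ r := by
  have h : (Set.range (fun n : ℤ => (t + n).re)).Countable := Set.countable_range _
  filter_upwards [h.ae_notMem volume] with r hr n hn
  apply hr
  refine ⟨n, ?_⟩
  show (t + n).re = r
  rw [hn, K4_p_re]

private theorem K4_abs {r : ℝ} (hr : r ∈ Set.Ioc (-(1 / 2) : ℝ) (1 / 2)) : |r| ≤ 1 / 2 :=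
  abs_le.2 ⟨hr.1.le, hr.2⟩

private theorem K4_uIoc : Set.uIoc (-(1 / 2) : ℝ) (1 / 2) = Set.Ioc (-(1 / 2) : ℝ) (1 / 2) :=
  Set.uIoc_of_le (by norm_num)

private theorem K4_add {η : ℝ} {t : ℂ} (ht : t ∈ St η) (n : ℤ) : t + n ∈ St η := by
  show |(t + n).im| < η
  have h : (t + n).im = t.im := by simp
  rw [h]
  exact ht

private theorem K4_meas {X : ℂ → ℂ} {η ε : ℝ} (hη' : η ≤ 7 / 2) (hε : 0 ≤ ε) (hε' : ε ≤ 1 / 1000)
    (hX : Near η ε X) {σ : ℝ} (hσ : |σ| < η) (hσ1 : |σ| ≤ 1) {t : ℂ} (ht : t ∈ St η) :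
    AEStronglyMeasurable (fun r : ℝ => KX X t (K4_p σ r))
      (volume.restrict (Set.Ioc (-(1 / 2) : ℝ) (1 / 2))) := by
  have hg : ∀ n : ℤ, AEStronglyMeasurable (fun r : ℝ => gX X (t + n) (K4_p σ r))
      (volume.restrict (Set.Ioc (-(1 / 2) : ℝ) (1 / 2))) := by
    intro n
    have hc := g_cont X η ε hη' hε hε' hX (t + n) (K4_add ht n)
    have h1 : ContinuousOn (fun r : ℝ => gX X (t + n) (K4_p σ r))
        (Set.Ioc (-(1 / 2) : ℝ) (1 / 2) \ {(t + n).re}) := by
      refine hc.comp (K4_p_cont σ).continuousOn ?_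
      intro r hr
      refine ⟨⟨K4_p_mem hσ r, K4_p_pole hσ1 (K4_abs hr.1)⟩, ?_⟩
      intro he
      rw [Set.mem_singleton_iff] at he
      apply hr.2
      rw [Set.mem_singleton_iff, ← he, K4_p_re]
    have h2 := h1.aestronglyMeasurable (μ := volume)
      (measurableSet_Ioc.diff (measurableSet_singleton _))
    have h3 : (Set.Ioc (-(1 / 2) : ℝ) (1 / 2) \ {(t + n).re} : Set ℝ) =ᵐ[volume]
        (Set.Ioc (-(1 / 2) : ℝ) (1 / 2) : Set ℝ) := diff_null_ae_eq_self (by simp)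
    rwa [Measure.restrict_congr_set h3] at h2
  have hS : AEStronglyMeasurable (fun r : ℝ => ∑' n : ℤ, gX X (t + n) (K4_p σ r))
      (volume.restrict (Set.Ioc (-(1 / 2) : ℝ) (1 / 2))) := by
    refine aestronglyMeasurable_of_tendsto_ae (atTop : Filter (Finset ℤ))
      (f := fun s r => ∑ n ∈ s, gX X (t + n) (K4_p σ r))
      (fun s => Finset.aestronglyMeasurable_fun_sum s (fun n _ => hg n)) ?_
    filter_upwards [ae_restrict_mem measurableSet_Ioc] with r hr
    exact ((K_ana X η ε hη' hε hε' hX (K4_p σ r) (K4_p_mem hσ r)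
      (K4_p_pole hσ1 (K4_abs hr))).2.1 t ht).of_norm.hasSum
  have hcot : AEStronglyMeasurable
      (fun r : ℝ => (Real.pi : ℂ) * Complex.cot (Real.pi * (K4_p σ r - t)))
      (volume.restrict (Set.Ioc (-(1 / 2) : ℝ) (1 / 2))) := by
    have h0 : Measurable fun r : ℝ => (Real.pi : ℂ) * (K4_p σ r - t) := by
      have : Continuous fun r : ℝ => (Real.pi : ℂ) * (K4_p σ r - t) := by
        have := K4_p_cont σ
        fun_prop
      exact this.measurable
    have h1 : Measurable fun r : ℝ => Complex.cot (Real.pi * (K4_p σ r - t)) := by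
      unfold Complex.cot
      exact (Complex.measurable_cos.comp h0).div (Complex.measurable_sin.comp h0)
    exact (h1.const_mul _).aestronglyMeasurable
  refine (hS.sub hcot).congr ?_
  filter_upwards [ae_restrict_mem measurableSet_Ioc, ae_restrict_of_ae (K4_ae σ t)] with r hr hn
  exact ((K_ana X η ε hη' hε hε' hX (K4_p σ r) (K4_p_mem hσ r)
      (K4_p_pole hσ1 (K4_abs hr))).2.2.1 t ht hn).symm

private theorem K4_diff {U : Set ℂ} (hU : IsOpen U) {F : ℂ → ℝ → ℂ} {μ : Measure ℝ}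
    [IsFiniteMeasure μ] {M : ℝ} (hm : ∀ t ∈ U, AEStronglyMeasurable (F t) μ)
    (hd : ∀ᵐ r ∂μ, DifferentiableOn ℂ (fun t => F t r) U)
    (hb : ∀ᵐ r ∂μ, ∀ t ∈ U, ‖F t r‖ ≤ M) :
    DifferentiableOn ℂ (fun t => ∫ r, F t r ∂μ) U := by
  intro t0 ht0
  obtain ⟨δ, hδ, hball⟩ := Metric.isOpen_iff.1 hU t0 ht0
  have hδ3 : 0 < δ / 3 := by positivity
  have hsub : ∀ t ∈ Metric.ball t0 (δ / 3), Metric.closedBall t (δ / 3) ⊆ U := by
    intro t ht z hz
    apply hball
    rw [Metric.mem_ball] at ht ⊢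
    rw [Metric.mem_closedBall] at hz
    have := dist_triangle z t t0
    linarith
  have hsubU : Metric.ball t0 (δ / 3) ⊆ U := fun t ht =>
    hsub t ht (Metric.mem_closedBall_self hδ3.le)
  have hda : ∀ r, DifferentiableOn ℂ (fun t => F t r) U → ∀ t ∈ Metric.ball t0 (δ / 3),
      HasDerivAt (fun t => F t r) (deriv (fun t => F t r) t) t := by
    intro r hr t ht
    exact (hr.differentiableAt (hU.mem_nhds (hsubU ht))).hasDerivAt
  have key := hasDerivAt_integral_of_dominated_loc_of_deriv_le (μ := μ) (F := F) (x₀ := t0)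
    (s := Metric.ball t0 (δ / 3)) (bound := fun _ => M / (δ / 3))
    (F' := fun t r => deriv (fun t => F t r) t) (Metric.ball_mem_nhds _ hδ3) ?_ ?_ ?_ ?_
    (integrable_const _) ?_
  · exact key.2.differentiableAt.differentiableWithinAt
  · filter_upwards [hU.mem_nhds ht0] with t ht
    exact hm t ht
  · refine Integrable.of_bound (hm t0 ht0) M ?_
    filter_upwards [hb] with r hr
    exact hr t0 ht0
  · set h : ℕ → ℝ := fun n => δ / 3 * (1 / ((n : ℝ) + 1)) with hh
    have hpos : ∀ n, 0 < h n := by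
      intro n
      rw [hh]
      positivity
    have hle : ∀ n, h n ≤ δ / 3 := by
      intro n
      have h1 : 1 / ((n : ℝ) + 1) ≤ 1 := by
        rw [div_le_one (by positivity)]
        have := Nat.cast_nonneg (α := ℝ) n
        linarith
      have := mul_le_mul_of_nonneg_left h1 hδ3.le
      rw [mul_one] at this
      exact this
    have hlim0 : Tendsto h atTop (𝓝 0) := by
      have := (tendsto_one_div_add_atTop_nhds_zero_nat (𝕜 := ℝ)).const_mul (δ / 3)
      rw [mul_zero] at this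
      exact this
    have hlim : Tendsto (fun n => (h n : ℂ)) atTop (𝓝[≠] 0) := by
      refine tendsto_nhdsWithin_iff.2 ⟨?_, ?_⟩
      · have := (Complex.continuous_ofReal.tendsto 0).comp hlim0
        rw [Complex.ofReal_zero] at this
        exact this
      · refine Filter.Eventually.of_forall fun n => ?_
        show (h n : ℂ) ≠ 0
        exact_mod_cast (hpos n).ne'
    refine aestronglyMeasurable_of_tendsto_ae (atTop : Filter ℕ)
      (f := fun n r => ((h n : ℂ))⁻¹ • (F (t0 + (h n : ℂ)) r - F t0 r)) ?_ ?_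
    · intro n
      have hmem : t0 + (h n : ℂ) ∈ U := by
        apply hball
        rw [Metric.mem_ball, dist_eq_norm, add_sub_cancel_left, Complex.norm_real,
          Real.norm_of_nonneg (hpos n).le]
        have := hle n
        linarith
      exact ((hm _ hmem).sub (hm _ ht0)).const_smul ((h n : ℂ)⁻¹)
    · filter_upwards [hd] with r hr
      have h1 := hda r hr t0 (Metric.mem_ball_self hδ3)
      exact (hasDerivAt_iff_tendsto_slope_zero.1 h1).comp hlim
  · filter_upwards [hd, hb] with r hr hbr t ht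
    exact Complex.norm_deriv_le_of_forall_mem_sphere_norm_le hδ3
      (hr.diffContOnCl_ball (hsub t ht))
      (fun z hz => hbr z (hsub t ht (Metric.sphere_subset_closedBall hz)))
  · filter_upwards [hd] with r hr t ht
    exact hda r hr t ht

private theorem K4_g_neg {X : ℂ → ℂ} {η : ℝ} (hS : Sym η X) {s τ : ℂ} (hs : s ∈ St η)
    (hτ : τ ∈ St η) : gX X (-s) (-τ) = -gX X s τ := by
  have h1 : deriv X (-s) = deriv X s := by
    have h : (fun z => X (-z)) =ᶠ[𝓝 s] fun z => -X z := by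
      filter_upwards [(K4_open η).mem_nhds hs] with z hz
      exact hS.odd z hz
    have h2 := h.deriv_eq
    rw [deriv_comp_neg, deriv.fun_neg] at h2
    exact neg_injective h2
  have h3 : kc (-X τ - -X s) = -kc (X τ - X s) := by
    have e : (-X τ - -X s) / 2 = -((X τ - X s) / 2) := by ring
    unfold kc
    rw [e, Complex.cos_neg, Complex.sin_neg]
    ring
  have h4 : ∀ x, cc (-x) = cc x := by
    intro x
    unfold cc
    rw [Complex.cos_neg]
  unfold gX Ker
  rw [h1, hS.odd s hs, hS.odd τ hτ, h3, h4, h4]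
  ring

private theorem K4_g_conj {X : ℂ → ℂ} {η : ℝ} (hS : Sym η X) {s τ : ℂ} (hs : s ∈ St η)
    (hτ : τ ∈ St η) : gX X (conj s) (conj τ) = conj (gX X s τ) := by
  have hcs : conj s ∈ St η := by
    show |(conj s).im| < η
    rw [Complex.conj_im, abs_neg]
    exact hs
  have h1 : deriv X (conj s) = conj (deriv X s) := by
    have h : X =ᶠ[𝓝 (conj s)] (conj ∘ X ∘ conj) := by
      filter_upwards [(K4_open η).mem_nhds hcs] with z hz
      show X z = conj (X (conj z))
      rw [hS.real z hz, Complex.conj_conj]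
    have h2 := h.deriv_eq
    rw [h2, deriv_conj_conj]
    show conj (deriv X (conj (conj s))) = conj (deriv X s)
    rw [Complex.conj_conj]
  have h4 : ∀ x, cc (conj x) = conj (cc x) := by
    intro x
    unfold cc
    rw [Complex.cos_conj, map_sub, map_div₀, map_ofNat, map_ofNat]
  have h3 : kc (conj (X τ) - conj (X s)) = conj (kc (X τ - X s)) := by
    have e : (conj (X τ) - conj (X s)) / 2 = conj ((X τ - X s) / 2) := by
      rw [map_div₀, map_sub, map_ofNat]
    unfold kc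
    rw [e, Complex.cos_conj, Complex.sin_conj, map_div₀, map_mul, map_ofNat]
  unfold gX Ker
  rw [h1, hS.real s hs, hS.real τ hτ, h3, h4, h4, map_mul, map_mul, map_pow, map_div₀]

private theorem K4_neg_mem {η : ℝ} {t : ℂ} (ht : t ∈ St η) : -t ∈ St η := by
  show |(-t).im| < η
  rw [Complex.neg_im, abs_neg]
  exact ht

private theorem K4_conj_mem {η : ℝ} {t : ℂ} (ht : t ∈ St η) : conj t ∈ St η := by
  show |(conj t).im| < η
  rw [Complex.conj_im, abs_neg]
  exact ht

private theorem K4_K_neg {X : ℂ → ℂ} {η ε : ℝ} (hη' : η ≤ 7 / 2) (hε : 0 ≤ ε)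
    (hε' : ε ≤ 1 / 1000) (hX : Good η ε X) {t τ : ℂ} (ht : t ∈ St η) (hτ : τ ∈ St η)
    (hp : Pole τ) (hn : ∀ n : ℤ, t + n ≠ τ) : KX X (-t) (-τ) = -KX X t τ := by
  have hp' : Pole (-τ) := by
    refine ⟨?_, ?_⟩
    · rw [Complex.neg_re, abs_neg]
      exact hp.1
    · rw [Complex.neg_im, abs_neg]
      exact hp.2
  have h1 := (K_ana X η ε hη' hε hε' hX.near τ hτ hp).2.2.1 t ht hn
  have hn' : ∀ n : ℤ, -t + n ≠ -τ := by
    intro n hcon
    apply hn (-n)
    push_cast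
    linear_combination (-1 : ℂ) * hcon
  have h2 := (K_ana X η ε hη' hε hε' hX.near (-τ) (K4_neg_mem hτ) hp').2.2.1 (-t)
    (K4_neg_mem ht) hn'
  have h3 : (∑' n : ℤ, gX X (-t + n) (-τ)) = -∑' n : ℤ, gX X (t + n) τ := by
    rw [← (Equiv.neg ℤ).tsum_eq (fun n : ℤ => gX X (-t + n) (-τ)), ← tsum_neg]
    refine tsum_congr fun n => ?_
    rw [← K4_g_neg hX.sym (K4_add ht n) hτ]
    congr 1
    rw [Equiv.neg_apply]
    push_cast
    ring
  have h4 : Complex.cot (Real.pi * (-τ - -t)) = -Complex.cot (Real.pi * (τ - t)) := by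
    have e : (Real.pi : ℂ) * (-τ - -t) = -(Real.pi * (τ - t)) := by ring
    rw [e]
    unfold Complex.cot
    rw [Complex.cos_neg, Complex.sin_neg]
    ring
  rw [h1, h2, h3, h4]
  ring

private theorem K4_K_conj {X : ℂ → ℂ} {η ε : ℝ} (hη' : η ≤ 7 / 2) (hε : 0 ≤ ε)
    (hε' : ε ≤ 1 / 1000) (hX : Good η ε X) {t τ : ℂ} (ht : t ∈ St η) (hτ : τ ∈ St η)
    (hp : Pole τ) (hn : ∀ n : ℤ, t + n ≠ τ) : KX X (conj t) (conj τ) = conj (KX X t τ) := by
  have hp' : Pole (conj τ) := by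
    refine ⟨?_, ?_⟩
    · rw [Complex.conj_re]
      exact hp.1
    · rw [Complex.conj_im, abs_neg]
      exact hp.2
  have h1 := (K_ana X η ε hη' hε hε' hX.near τ hτ hp).2.2.1 t ht hn
  have hn' : ∀ n : ℤ, conj t + n ≠ conj τ := by
    intro n hcon
    apply hn n
    have h := congrArg (fun z => conj z) hcon
    simp only [map_add, Complex.conj_conj, map_intCast] at h
    exact h
  have h2 := (K_ana X η ε hη' hε hε' hX.near (conj τ) (K4_conj_mem hτ) hp').2.2.1 (conj t)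
    (K4_conj_mem ht) hn'
  have h3 : (∑' n : ℤ, gX X (conj t + n) (conj τ)) = conj (∑' n : ℤ, gX X (t + n) τ) := by
    rw [Complex.conj_tsum]
    refine tsum_congr fun n => ?_
    rw [← K4_g_conj hX.sym (K4_add ht n) hτ, map_add, map_intCast]
  have h4 : Complex.cot (Real.pi * (conj τ - conj t)) = conj (Complex.cot (Real.pi * (τ - t))) := by
    have e : (Real.pi : ℂ) * (conj τ - conj t) = conj (Real.pi * (τ - t)) := by
      rw [map_mul, map_sub, Complex.conj_ofReal]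
    rw [e]
    unfold Complex.cot
    rw [Complex.cos_conj, Complex.sin_conj, map_div₀]
  rw [h1, h2, h3, h4, map_sub, map_mul, Complex.conj_ofReal]

private theorem K4_sym {X m : ℂ → ℂ} {η ηa ε : ℝ} (h0 : 0 < ηa) (ha : ηa < η) (hη : η ≤ 1)
    (hε : 0 ≤ ε) (hε' : ε ≤ 1 / 1000) (hX : Good η ε X) (hm : Per η m) :
    Sym η (fun t => arc ηa (fun τ => m τ * KX X t τ)) := by
  have hη' : η ≤ 7 / 2 := by linarith
  have hs1 : |(-ηa)| < η := by
    rw [abs_neg, abs_of_pos h0]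
    exact ha
  have hs2 : |ηa| < η := by
    rw [abs_of_pos h0]
    exact ha
  constructor
  · intro t ht
    show arc ηa (fun τ => m τ * KX X (-t) τ) = -arc ηa (fun τ => m τ * KX X t τ)
    rw [K4_arc, K4_arc]
    have h1 : ∀ σ : ℝ, |σ| < η → (∫ r in (-(1 / 2) : ℝ)..(1 / 2), m (K4_p σ r) *
        KX X (-t) (K4_p σ r)) = ∫ r in (-(1 / 2) : ℝ)..(1 / 2), m (K4_p (-σ) r) *
        KX X t (K4_p (-σ) r) := by
      intro σ hσ
      have h2 := intervalIntegral.integral_comp_neg (a := -(1 / 2)) (b := 1 / 2)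
        (fun r => m (K4_p (-σ) r) * KX X t (K4_p (-σ) r))
      rw [neg_neg] at h2
      rw [← h2]
      apply intervalIntegral.integral_congr_ae
      filter_upwards [K4_ae σ (-t)] with r hr hr'
      rw [K4_uIoc] at hr'
      have hp : Pole (K4_p σ r) := K4_p_pole (by linarith) (K4_abs hr')
      have hk := K4_K_neg hη' hε hε' hX (K4_neg_mem ht) (K4_p_mem hσ r) hp hr
      rw [neg_neg] at hk
      rw [K4_p_neg, hm.sym.odd _ (K4_p_mem hσ r), hk]
      ring
    show _ * ((∫ r in (-(1 / 2) : ℝ)..(1 / 2), m (K4_p (-ηa) r) * KX X (-t) (K4_p (-ηa) r)) -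
      ∫ r in (-(1 / 2) : ℝ)..(1 / 2), m (K4_p ηa r) * KX X (-t) (K4_p ηa r)) = _
    rw [h1 _ hs1, h1 _ hs2, neg_neg]
    ring
  · intro t ht
    show arc ηa (fun τ => m τ * KX X (conj t) τ) = conj (arc ηa (fun τ => m τ * KX X t τ))
    have hc : conj (1 / (2 * (Real.pi : ℂ) * I)) = -(1 / (2 * (Real.pi : ℂ) * I)) := by
      rw [map_div₀, map_mul, map_mul, Complex.conj_I, Complex.conj_ofReal, map_one]
      have h2 : conj (2 : ℂ) = 2 := map_ofNat _ 2
      rw [h2, mul_neg, div_neg]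
    have h1 : ∀ σ : ℝ, |σ| < η → (∫ r in (-(1 / 2) : ℝ)..(1 / 2), conj (m (K4_p σ r) *
        KX X t (K4_p σ r))) = ∫ r in (-(1 / 2) : ℝ)..(1 / 2), m (K4_p (-σ) r) *
        KX X (conj t) (K4_p (-σ) r) := by
      intro σ hσ
      apply intervalIntegral.integral_congr_ae
      filter_upwards [K4_ae σ t] with r hr hr'
      rw [K4_uIoc] at hr'
      have hp : Pole (K4_p σ r) := K4_p_pole (by linarith) (K4_abs hr')
      have hk := K4_K_conj hη' hε hε' hX ht (K4_p_mem hσ r) hp hr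
      have hmr := hm.sym.real _ (K4_p_mem hσ r)
      rw [map_mul, ← hk, ← hmr, K4_p_conj]
    rw [K4_arc, K4_arc, map_mul, map_sub, ← intervalIntegral.intervalIntegral_conj,
      ← intervalIntegral.intervalIntegral_conj, hc]
    show _ = _ * ((∫ r in (-(1 / 2) : ℝ)..(1 / 2), conj (m (K4_p (-ηa) r) *
      KX X t (K4_p (-ηa) r))) - ∫ r in (-(1 / 2) : ℝ)..(1 / 2), conj (m (K4_p ηa r) *
      KX X t (K4_p ηa r)))
    rw [h1 _ hs1, h1 _ hs2, neg_neg]
    ring

/-
ROW K4 (MEDIUM/STRONG). The operator m ↦ arc of m(τ) KX(t, τ) is analytic, periodic, odd, real and at most half.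
Let ε₁ be small: C ε₁ <= 1/4 with C from K_lip. n t := arc ηa (fun τ => m τ * KX X t τ), 0 < ηa < η <= 1.
analytic in t on St η: for τ on the arcs KX X · τ is differentiable and bounded by C' (K0_bdd + K_lip), so its t-derivative is bounded on
smaller balls (Cauchy); hasDerivAt_integral_of_dominated_loc_of_deriv_le; measurability in τ: for fixed t, off the finitely many τ with
t + n = τ, KX X t τ = ∑ gX X (t+n) τ - π cot(π(τ - t)) is continuous in τ (g_cont, uniform summability J_bound); the derivative in t is a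
limit of difference quotients, or use circle averages.
periodic: KX X (t+1) τ = KX X t τ. real: KX X (conj t) (conj τ) = conj (KX X t τ) for t + n ≠ τ (from the formula in K_ana: gX, cot, deriv commute
with conj), and conj exchanges the two segments, conj(1/(2πi)) = -1/(2πi). odd: KX X (-t) (-τ) = -KX X t τ and r ↦ -r exchanges the
segments (all a.e. in r).
bound: n is odd so n 0 = 0, n t = arc (m τ (KX X t τ - KX X 0 τ)), |KX X t τ - KX X 0 τ| <= 1/4 + 2 C ε <= 1 <= π/2, |arc ηa f| <= (1/2π)(sup + sup).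
So ‖n t‖ <= B/2.
-/
theorem K_op : ∃ ε₁ : ℝ, 0 < ε₁ ∧ ε₁ ≤ 1 / 2000 ∧ ∀ (X m : ℂ → ℂ) (η ηa ε B : ℝ),
    0 < ηa → ηa < η → η ≤ 1 → 0 ≤ ε → ε ≤ ε₁ → Good η ε X → Per η m → (∀ t ∈ St η, ‖m t‖ ≤ B) →
    Per η (fun t => arc ηa (fun τ => m τ * KX X t τ)) ∧
    ∀ t ∈ St η, ‖arc ηa (fun τ => m τ * KX X t τ)‖ ≤ B / 2 := by
  obtain ⟨C, hC, hlip⟩ := K_lip
  obtain ⟨C0, hC0⟩ := K0_bdd
  refine ⟨min (1 / 2000) (1 / (4 * C)), lt_min (by norm_num) (by positivity), min_le_left _ _, ?_⟩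
  intro X m η ηa ε B h0 ha hη hε hεl hX hm hB
  have hε2 : ε ≤ 1 / 2000 := hεl.trans (min_le_left _ _)
  have hε1 : ε ≤ 1 / 1000 := by linarith
  have hCε : C * ε ≤ 1 / 4 := by
    have h1 : ε ≤ 1 / (4 * C) := hεl.trans (min_le_right _ _)
    rw [le_div_iff₀ (by positivity)] at h1
    linarith
  have hη' : η ≤ 7 / 2 := by linarith
  have hηp : 0 < η := h0.trans ha
  have hsub1 : ∀ t ∈ St η, t ∈ St 1 := by
    intro t ht
    have h1 : |t.im| < η := ht
    show |t.im| < 1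
    linarith
  have hz : (0 : ℂ) ∈ St η := by
    show |(0 : ℂ).im| < η
    simpa using hηp
  have hB0 : 0 ≤ B := (norm_nonneg _).trans (hB 0 hz)
  have hS := K4_sym h0 ha hη hε hε1 hX hm
  -- bounds on the arcs
  have hKb : ∀ τ ∈ St η, Pole τ → ∀ t ∈ St η, ‖KX X t τ‖ ≤ C0 + 1 / 4 := by
    intro τ hτ hp t ht
    have h1 := hlip X η ε hη' hε hε2 hX.near τ hτ hp t ht
    have h2 := hC0 τ hp t (hsub1 t ht)
    have h3 := norm_add_le (KX X t τ - KX X0 t τ) (KX X0 t τ)
    rw [sub_add_cancel] at h3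
    linarith
  have hKd : ∀ τ ∈ St η, Pole τ → ∀ t ∈ St η, ‖KX X t τ - KX X 0 τ‖ ≤ 1 := by
    intro τ hτ hp t ht
    have h1 := hlip X η ε hη' hε hε2 hX.near τ hτ hp t ht
    have h2 := hlip X η ε hη' hε hε2 hX.near τ hτ hp 0 hz
    have h3 := K0_small τ hp t (hsub1 t ht)
    have e : KX X t τ - KX X 0 τ = (KX X t τ - KX X0 t τ) + (KX X0 t τ - KX X0 0 τ) -
        (KX X 0 τ - KX X0 0 τ) := by ring
    have h4 := norm_sub_le ((KX X t τ - KX X0 t τ) + (KX X0 t τ - KX X0 0 τ))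
      (KX X 0 τ - KX X0 0 τ)
    have h5 := norm_add_le (KX X t τ - KX X0 t τ) (KX X0 t τ - KX X0 0 τ)
    rw [e]
    linarith
  have hs1 : |(-ηa)| < η := by
    rw [abs_neg, abs_of_pos h0]
    exact ha
  have hs2 : |ηa| < η := by
    rw [abs_of_pos h0]
    exact ha
  have hmc : ∀ σ : ℝ, |σ| < η → Continuous fun r : ℝ => m (K4_p σ r) := fun σ hσ =>
    hm.diff.continuousOn.comp_continuous (K4_p_cont σ) (fun r => K4_p_mem hσ r)
  have hFm : ∀ σ : ℝ, |σ| < η → ∀ t ∈ St η,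
      AEStronglyMeasurable (fun r : ℝ => m (K4_p σ r) * KX X t (K4_p σ r))
        (volume.restrict (Set.Ioc (-(1 / 2) : ℝ) (1 / 2))) := by
    intro σ hσ t ht
    exact (hmc σ hσ).aestronglyMeasurable.mul (K4_meas hη' hε hε1 hX.near hσ (by linarith) ht)
  have hFb : ∀ σ : ℝ, |σ| < η → ∀ᵐ r ∂(volume.restrict (Set.Ioc (-(1 / 2) : ℝ) (1 / 2))),
      ∀ t ∈ St η, ‖m (K4_p σ r) * KX X t (K4_p σ r)‖ ≤ B * (C0 + 1 / 4) := by
    intro σ hσ
    filter_upwards [ae_restrict_mem measurableSet_Ioc] with r hr t ht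
    rw [norm_mul]
    exact mul_le_mul (hB _ (K4_p_mem hσ r))
      (hKb _ (K4_p_mem hσ r) (K4_p_pole (by linarith) (K4_abs hr)) t ht) (norm_nonneg _) hB0
  have hFd : ∀ σ : ℝ, |σ| < η → ∀ᵐ r ∂(volume.restrict (Set.Ioc (-(1 / 2) : ℝ) (1 / 2))),
      DifferentiableOn ℂ (fun t => m (K4_p σ r) * KX X t (K4_p σ r)) (St η) := by
    intro σ hσ
    filter_upwards [ae_restrict_mem measurableSet_Ioc] with r hr
    exact (K_ana X η ε hη' hε hε1 hX.near _ (K4_p_mem hσ r)
      (K4_p_pole (by linarith) (K4_abs hr))).1.const_mul _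
  have hle : (-(1 / 2) : ℝ) ≤ 1 / 2 := by norm_num
  have hFi : ∀ σ : ℝ, |σ| < η → ∀ t ∈ St η,
      IntervalIntegrable (fun r : ℝ => m (K4_p σ r) * KX X t (K4_p σ r)) volume
        (-(1 / 2)) (1 / 2) := by
    intro σ hσ t ht
    rw [intervalIntegrable_iff_integrableOn_Ioc_of_le hle]
    refine Integrable.of_bound (hFm σ hσ t ht) (B * (C0 + 1 / 4)) ?_
    filter_upwards [hFb σ hσ] with r hr
    exact hr t ht
  have hdiffσ : ∀ σ : ℝ, |σ| < η → DifferentiableOn ℂ
      (fun t => ∫ r in (-(1 / 2) : ℝ)..(1 / 2), m (K4_p σ r) * KX X t (K4_p σ r)) (St η) := by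
    intro σ hσ
    have h1 := K4_diff (K4_open η) (hFm σ hσ) (hFd σ hσ) (hFb σ hσ)
    refine h1.congr fun t ht => ?_
    rw [intervalIntegral.integral_of_le hle]
  refine ⟨⟨?_, ?_, hS⟩, ?_⟩
  · have h1 := ((hdiffσ _ hs1).sub (hdiffσ _ hs2)).const_mul (1 / (2 * (Real.pi : ℂ) * I))
    refine h1.congr fun t ht => ?_
    rw [K4_arc]
    rfl
  · intro t ht
    show arc ηa (fun τ => m τ * KX X (t + 1) τ) = arc ηa (fun τ => m τ * KX X t τ)
    have h1 : ∀ σ : ℝ, |σ| < η → (∫ r in (-(1 / 2) : ℝ)..(1 / 2), m (K4_p σ r) *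
        KX X (t + 1) (K4_p σ r)) = ∫ r in (-(1 / 2) : ℝ)..(1 / 2), m (K4_p σ r) *
        KX X t (K4_p σ r) := by
      intro σ hσ
      apply intervalIntegral.integral_congr_ae
      refine Filter.Eventually.of_forall fun r hr => ?_
      rw [K4_uIoc] at hr
      show m (K4_p σ r) * KX X (t + 1) (K4_p σ r) = m (K4_p σ r) * KX X t (K4_p σ r)
      rw [(K_ana X η ε hη' hε hε1 hX.near _ (K4_p_mem hσ r)
        (K4_p_pole (by linarith) (K4_abs hr))).2.2.2 t ht]
    rw [K4_arc, K4_arc]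
    show _ * ((∫ r in (-(1 / 2) : ℝ)..(1 / 2), m (K4_p (-ηa) r) * KX X (t + 1) (K4_p (-ηa) r)) -
      ∫ r in (-(1 / 2) : ℝ)..(1 / 2), m (K4_p ηa r) * KX X (t + 1) (K4_p ηa r)) = _
    rw [h1 _ hs1, h1 _ hs2]
  · intro t ht
    have hn0 : arc ηa (fun τ => m τ * KX X 0 τ) = 0 := by
      have h1 := hS.odd 0 hz
      simp only [neg_zero] at h1
      have h2 : (2 : ℂ) * arc ηa (fun τ => m τ * KX X 0 τ) = 0 := by
        linear_combination h1
      rcases mul_eq_zero.1 h2 with h3 | h3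
      · exact absurd h3 two_ne_zero
      · exact h3
    have hI : ∀ σ : ℝ, |σ| < η → ‖(∫ r in (-(1 / 2) : ℝ)..(1 / 2), m (K4_p σ r) *
        KX X t (K4_p σ r)) - ∫ r in (-(1 / 2) : ℝ)..(1 / 2), m (K4_p σ r) *
        KX X 0 (K4_p σ r)‖ ≤ B := by
      intro σ hσ
      rw [← intervalIntegral.integral_sub (hFi σ hσ t ht) (hFi σ hσ 0 hz)]
      have h1 := intervalIntegral.norm_integral_le_of_norm_le_const (a := -(1 / 2)) (b := 1 / 2)
        (C := B) (f := fun r : ℝ => m (K4_p σ r) * KX X t (K4_p σ r) -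
          m (K4_p σ r) * KX X 0 (K4_p σ r)) ?_
      · have e : |(1 / 2 : ℝ) - -(1 / 2)| = 1 := by norm_num
        rw [e, mul_one] at h1
        exact h1
      · intro r hr
        rw [K4_uIoc] at hr
        rw [← mul_sub, norm_mul]
        have h2 := hKd _ (K4_p_mem hσ r) (K4_p_pole (by linarith) (K4_abs hr)) t ht
        have h3 := mul_le_mul (hB _ (K4_p_mem hσ r)) h2 (norm_nonneg _) hB0
        rw [mul_one] at h3
        exact h3
    have e : arc ηa (fun τ => m τ * KX X t τ) =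
        arc ηa (fun τ => m τ * KX X t τ) - arc ηa (fun τ => m τ * KX X 0 τ) := by
      rw [hn0, sub_zero]
    rw [e, K4_arc, K4_arc, ← mul_sub]
    have e2 : ∀ a b c d : ℂ, (a - b) - (c - d) = (a - c) - (b - d) := by
      intro a b c d
      ring
    rw [e2, norm_mul]
    have h3 : ‖1 / (2 * (Real.pi : ℂ) * I)‖ ≤ 1 / 4 := by
      rw [norm_div, norm_mul, norm_mul, Complex.norm_I, Complex.norm_real, norm_one,
        Real.norm_of_nonneg Real.pi_pos.le]
      have h2 : ‖(2 : ℂ)‖ = 2 := by simp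
      rw [h2, mul_one, div_le_div_iff₀ (by positivity) (by norm_num)]
      have := Real.pi_gt_three
      linarith
    have h4 := norm_sub_le
      ((∫ r in (-(1 / 2) : ℝ)..(1 / 2), m (K4_p (-ηa) r) * KX X t (K4_p (-ηa) r)) -
        ∫ r in (-(1 / 2) : ℝ)..(1 / 2), m (K4_p (-ηa) r) * KX X 0 (K4_p (-ηa) r))
      ((∫ r in (-(1 / 2) : ℝ)..(1 / 2), m (K4_p ηa r) * KX X t (K4_p ηa r)) -
        ∫ r in (-(1 / 2) : ℝ)..(1 / 2), m (K4_p ηa r) * KX X 0 (K4_p ηa r))
    have h5 := hI _ hs1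
    have h6 := hI _ hs2
    have h7 := mul_le_mul h3 (h4.trans (add_le_add h5 h6)) (norm_nonneg _) (by norm_num)
    refine h7.trans ?_
    linarith

end LibEY38
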