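import Pool.Agent.LibEY38.Defs
import Pool.Agent.LibEY38.A2
import Pool.Agent.LibEY38.A3
import Pool.Agent.LibEY38.J1
import Pool.Agent.LibEY38.J2
import Pool.Agent.LibEY38.K1
import Pool.Agent.LibEY38.K2

open Complex Set Filter Topology MeasureTheory
open scoped ComplexConjugate

namespace LibEY38

private theorem K5_lam_pos : 0 < lam := by
  unfold lam
  have : 0 < Real.arsinh (1 / 5) := Real.arsinh_pos_iff.2 (by norm_num)
  linarith

private theorem K5_sum (x c : ℝ) (hc : 0 < c) :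
    Summable (fun n : ℤ => Real.exp (-(c * |x + n|))) := by
  have h0 : Summable (fun n : ℤ => Real.exp (-(c * |(n : ℝ)|))) := by
    have h1 : Summable (fun n : ℕ => Real.exp (n * (-c))) :=
      Real.summable_exp_nat_mul_iff.2 (by linarith)
    refine Summable.of_nat_of_neg ?_ ?_
    · refine h1.congr fun n => ?_
      congr 1
      rw [Int.cast_natCast, Nat.abs_cast]
      ring
    · refine h1.congr fun n => ?_
      congr 1
      rw [Int.cast_neg, Int.cast_natCast, abs_neg, Nat.abs_cast]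
      ring
  refine Summable.of_nonneg_of_le (fun n => (Real.exp_pos _).le) (fun n => ?_)
    (h0.mul_left (Real.exp (c * |x|)))
  rw [← Real.exp_add]
  apply Real.exp_le_exp.2
  have h2 : |(n : ℝ)| ≤ |x + n| + |x| := by
    have h3 : (n : ℝ) = (x + n) + (-x) := by ring
    calc |(n : ℝ)| = |(x + n) + (-x)| := by rw [← h3]
      _ ≤ |x + n| + |-x| := abs_add_le _ _
      _ = |x + n| + |x| := by rw [abs_neg]
  nlinarith

private theorem K5_wt3 (s : ℂ) : wt s ^ 3 = Real.exp (-(3 * lam * |s.re|)) := by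
  unfold wt
  rw [← Real.exp_nat_mul]
  congr 1
  push_cast
  ring

private theorem K5_bound (X : ℂ → ℂ) (η ηa ε C : ℝ) (h2 : η ≤ 1) (hε : 0 ≤ ε)
    (hε' : ε ≤ 1 / 2000) (hX : Near η ε X) (hC : 0 < C)
    (hJ : ∀ (X : ℂ → ℂ) (η ε : ℝ), η ≤ 7 / 2 → 0 ≤ ε → ε ≤ 1 / 1000 →
      Near η ε X → ∀ τ ∈ St η, Pole τ → ∀ s ∈ St η,
      (1 / 4 ≤ ‖s - τ‖ → ‖gX X s τ‖ ≤ C * wt s ^ 3) ∧
      (s ≠ τ → ‖s - τ‖ ≤ 1 / 4 → ‖gX X s τ - 1 / (τ - s)‖ ≤ C))
    (s τ : ℂ) (hs : s ∈ St η) (hs' : |s.im| < ηa) (hτ : τ ∈ St η) (hp : Pole τ)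
    (hi : |τ.im| = ηa) :
    ‖gX X s τ‖ ≤ (C + (C + 1 / (ηa - |s.im|)) * Real.exp (9 / 4 * lam)) * wt s ^ 3 := by
  obtain ⟨h3, h4⟩ := hJ X η ε (by linarith) hε (by linarith) hX τ hτ hp s hs
  have hd : 0 < ηa - |s.im| := by linarith
  have hd' : 0 < 1 / (ηa - |s.im|) := by positivity
  have hw : 0 < wt s ^ 3 := by
    rw [K5_wt3]
    exact Real.exp_pos _
  have he : 0 < Real.exp (9 / 4 * lam) := Real.exp_pos _
  by_cases h5 : 1 / 4 ≤ ‖s - τ‖
  · refine (h3 h5).trans ?_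
    have : 0 ≤ (C + 1 / (ηa - |s.im|)) * Real.exp (9 / 4 * lam) := by positivity
    nlinarith
  · have h6 : ‖s - τ‖ ≤ 1 / 4 := by linarith
    have hne : s ≠ τ := by
      intro h
      rw [h] at hs'
      linarith
    have h7 := h4 hne h6
    have h8 : ηa - |s.im| ≤ ‖τ - s‖ := by
      have h9 : |(τ - s).im| ≤ ‖τ - s‖ := Complex.abs_im_le_norm _
      rw [Complex.sub_im] at h9
      have h10 : |τ.im| - |s.im| ≤ |τ.im - s.im| := abs_sub_abs_le_abs_sub _ _
      linarith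
    have h11 : ‖(1 : ℂ) / (τ - s)‖ ≤ 1 / (ηa - |s.im|) := by
      rw [norm_div, norm_one]
      exact one_div_le_one_div_of_le hd h8
    have h12 : ‖gX X s τ‖ ≤ C + 1 / (ηa - |s.im|) := by
      have h13 : gX X s τ = (gX X s τ - 1 / (τ - s)) + 1 / (τ - s) := by ring
      rw [h13]
      exact (norm_add_le _ _).trans (add_le_add h7 h11)
    have h14 : 1 ≤ Real.exp (9 / 4 * lam) * wt s ^ 3 := by
      rw [K5_wt3, ← Real.exp_add]
      apply Real.one_le_exp
      have h15 : |(s - τ).re| ≤ ‖s - τ‖ := Complex.abs_re_le_norm _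
      rw [Complex.sub_re] at h15
      have h16 : |s.re| - |τ.re| ≤ |s.re - τ.re| := abs_sub_abs_le_abs_sub _ _
      have h17 := hp.1
      have h18 : |s.re| ≤ 3 / 4 := by linarith
      have := K5_lam_pos
      nlinarith
    have h19 : 0 < C + 1 / (ηa - |s.im|) := by positivity
    calc ‖gX X s τ‖ ≤ (C + 1 / (ηa - |s.im|)) * 1 := by linarith
      _ ≤ (C + 1 / (ηa - |s.im|)) * (Real.exp (9 / 4 * lam) * wt s ^ 3) :=
        mul_le_mul_of_nonneg_left h14 h19.le
      _ ≤ _ := by nlinarith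

private theorem K5_seg (X m : ℂ → ℂ) (η ηa ε : ℝ) (h1 : ηa < η) (h2 : η ≤ 1)
    (hε : 0 ≤ ε) (hε' : ε ≤ 1 / 2000) (hX : Near η ε X) (hm : DifferentiableOn ℂ m (St η))
    (B : ℝ) (hB : ∀ t ∈ St η, ‖m t‖ ≤ B) (t : ℂ) (ht : t ∈ St ηa)
    (p : ℝ → ℂ) (hpc : Continuous p)
    (hpp : ∀ r ∈ Icc (-(1 / 2) : ℝ) (1 / 2), p r ∈ St η ∧ Pole (p r) ∧ |(p r).im| = ηa) :
    HasSum (fun n : ℤ => ∫ r in (-(1 / 2) : ℝ)..(1 / 2), m (p r) * gX X (t + n) (p r))
      ((∫ r in (-(1 / 2) : ℝ)..(1 / 2), m (p r) * KX X t (p r)) +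
        ∫ r in (-(1 / 2) : ℝ)..(1 / 2),
          m (p r) * (Real.pi * Complex.cot (Real.pi * (p r - t)))) := by
  obtain ⟨C, hC, hJ⟩ := J_bound
  have htη : t ∈ St η := lt_trans ht h1
  have him : ∀ n : ℤ, (t + n).im = t.im := fun n => by simp
  have hre : ∀ n : ℤ, (t + n).re = t.re + n := fun n => by simp
  have hs : ∀ n : ℤ, t + n ∈ St η := fun n => by
    change |(t + n).im| < η
    rw [him]
    exact htη
  have hs' : ∀ n : ℤ, |(t + n).im| < ηa := fun n => by
    rw [him]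
    exact ht
  have hne : ∀ n : ℤ, ∀ r ∈ Icc (-(1 / 2) : ℝ) (1 / 2), t + n ≠ p r := by
    intro n r hr h
    have h3 := hs' n
    rw [h, (hpp r hr).2.2] at h3
    exact lt_irrefl _ h3
  have hBn : 0 ≤ B := (norm_nonneg _).trans (hB t htη)
  set D : ℝ := C + (C + 1 / (ηa - |t.im|)) * Real.exp (9 / 4 * lam) with hD
  set u : ℤ → ℝ := fun n => B * (D * wt (t + n) ^ 3) with hu
  have hus : Summable u := by
    have h3 := K5_sum t.re (3 * lam) (by have := K5_lam_pos; linarith)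
    have h4 := (h3.mul_left D).mul_left B
    refine h4.congr fun n => ?_
    rw [hu]
    simp only []
    rw [K5_wt3, hre]
  have hub : ∀ n : ℤ, ∀ r ∈ Icc (-(1 / 2) : ℝ) (1 / 2),
      ‖m (p r) * gX X (t + n) (p r)‖ ≤ u n := by
    intro n r hr
    obtain ⟨h3, h4, h5⟩ := hpp r hr
    rw [norm_mul]
    have h6 := K5_bound X η ηa ε C h2 hε hε' hX hC hJ (t + n) (p r) (hs n) (hs' n) h3 h4 h5
    rw [him] at h6
    exact mul_le_mul (hB _ h3) h6 (norm_nonneg _) hBn
  have hmc : ContinuousOn (fun r => m (p r)) (Icc (-(1 / 2) : ℝ) (1 / 2)) :=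
    hm.continuousOn.comp hpc.continuousOn fun r hr => (hpp r hr).1
  have hfc : ∀ n : ℤ, ContinuousOn (fun r => m (p r) * gX X (t + n) (p r))
      (Icc (-(1 / 2) : ℝ) (1 / 2)) := by
    intro n
    refine hmc.mul ?_
    have h3 := g_cont X η ε (by linarith) hε (by linarith) hX (t + n) (hs n)
    refine h3.comp hpc.continuousOn fun r hr => ?_
    exact ⟨⟨(hpp r hr).1, (hpp r hr).2.1⟩, fun h => hne n r hr h.symm⟩
  have hsc : ContinuousOn (fun r => ∑' n : ℤ, m (p r) * gX X (t + n) (p r))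
      (Icc (-(1 / 2) : ℝ) (1 / 2)) := continuousOn_tsum hfc hus hub
  have hcc : ContinuousOn (fun r => m (p r) * (Real.pi * Complex.cot (Real.pi * (p r - t))))
      (Icc (-(1 / 2) : ℝ) (1 / 2)) := by
    refine hmc.mul (continuousOn_const.mul ?_)
    have h3 : (fun r => Complex.cot (Real.pi * (p r - t))) = fun r =>
        Complex.cos (Real.pi * (p r - t)) / Complex.sin (Real.pi * (p r - t)) := by
      funext r
      rw [Complex.cot_eq_cos_div_sin]
    rw [h3]
    have h4 : Continuous (fun r => (Real.pi : ℂ) * (p r - t)) :=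
      continuous_const.mul (hpc.sub continuous_const)
    refine (Complex.continuous_cos.comp h4).continuousOn.div
      (Complex.continuous_sin.comp h4).continuousOn ?_
    intro r hr h5
    rw [Complex.sin_eq_zero_iff] at h5
    obtain ⟨k, hk⟩ := h5
    have hpi : (Real.pi : ℂ) ≠ 0 := by exact_mod_cast Real.pi_ne_zero
    have h6 : p r - t = k := by
      apply mul_left_cancel₀ hpi
      rw [hk, mul_comm]
    exact hne k r hr (by rw [← h6]; ring)
  have huI : Set.uIcc (-(1 / 2) : ℝ) (1 / 2) = Icc (-(1 / 2) : ℝ) (1 / 2) :=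
    Set.uIcc_of_le (by norm_num)
  have hΙ : Set.uIoc (-(1 / 2) : ℝ) (1 / 2) ⊆ Icc (-(1 / 2) : ℝ) (1 / 2) := by
    rw [Set.uIoc_of_le (by norm_num)]
    exact Ioc_subset_Icc_self
  have hi1 : IntervalIntegrable (fun r => ∑' n : ℤ, m (p r) * gX X (t + n) (p r)) volume
      (-(1 / 2) : ℝ) (1 / 2) := by
    apply ContinuousOn.intervalIntegrable
    rw [huI]
    exact hsc
  have hi2 : IntervalIntegrable
      (fun r => m (p r) * (Real.pi * Complex.cot (Real.pi * (p r - t)))) volume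
      (-(1 / 2) : ℝ) (1 / 2) := by
    apply ContinuousOn.intervalIntegrable
    rw [huI]
    exact hcc
  have hK : ∀ r ∈ Icc (-(1 / 2) : ℝ) (1 / 2), m (p r) * KX X t (p r) =
      (∑' n : ℤ, m (p r) * gX X (t + n) (p r)) -
        m (p r) * (Real.pi * Complex.cot (Real.pi * (p r - t))) := by
    intro r hr
    obtain ⟨h3, h4, h5⟩ := hpp r hr
    obtain ⟨_, _, h6, _⟩ := K_ana X η ε (by linarith) hε (by linarith) hX (p r) h3 h4
    rw [h6 t htη (fun n => hne n r hr), tsum_mul_left]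
    ring
  have hint : (∫ r in (-(1 / 2) : ℝ)..(1 / 2), m (p r) * KX X t (p r)) =
      (∫ r in (-(1 / 2) : ℝ)..(1 / 2), ∑' n : ℤ, m (p r) * gX X (t + n) (p r)) -
        ∫ r in (-(1 / 2) : ℝ)..(1 / 2),
          m (p r) * (Real.pi * Complex.cot (Real.pi * (p r - t))) := by
    rw [← intervalIntegral.integral_sub hi1 hi2]
    apply intervalIntegral.integral_congr
    intro r hr
    rw [huI] at hr
    exact hK r hr
  rw [hint, sub_add_cancel]
  refine intervalIntegral.hasSum_integral_of_dominated_convergence (fun n _ => u n) ?_ ?_ ?_ ?_ ?_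
  · intro n
    exact ((hfc n).mono hΙ).aestronglyMeasurable measurableSet_uIoc
  · intro n
    exact Filter.Eventually.of_forall fun r hr => hub n r (hΙ hr)
  · exact Filter.Eventually.of_forall fun r _ => hus
  · exact intervalIntegrable_const
  · refine Filter.Eventually.of_forall fun r hr => ?_
    have h3 : Summable (fun n : ℤ => m (p r) * gX X (t + n) (p r)) :=
      Summable.of_norm_bounded hus (fun n => hub n r (hΙ hr))
    exact h3.hasSum

/-
ROW K5 (MEDIUM). Melnikov sum of the correction: Mel(dlt) = m + n on St ηa.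
For t in St ηa and τ on the arcs (|Im τ| = ηa) t + n ≠ τ. deriv X (t+n) * dlt X m ηa (X (t+n)) = arc ηa (m τ gX X (t+n) τ) (constants inside the interval
integrals). Exchange ∑ over n and the integrals: |gX X (t+n) τ| <= C wt^3(t+n) for ‖t+n-τ‖ >= 1/4 and <= C + 1/(ηa - |Im t|) otherwise:
intervalIntegral.hasSum_integral_of_dominated_convergence / integral_tsum. Then K_ana (b): ∑ gX = KX + π cot(π(τ-t)) and percauchy for m (m is
analytic on St η, η > ηa). arc is additive (interval integrability of m τ KX X t τ : here t is off the arcs so KX X t · is continuous on them).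
-/
theorem Mel_dlt (X m : ℂ → ℂ) (η ηa ε : ℝ) (h0 : 0 < ηa) (h1 : ηa < η) (h2 : η ≤ 1) (hε : 0 ≤ ε)
    (hε' : ε ≤ 1 / 2000) (hX : Near η ε X) (hm : DifferentiableOn ℂ m (St η))
    (hp : ∀ t ∈ St η, m (t + 1) = m t) (B : ℝ) (hB : ∀ t ∈ St η, ‖m t‖ ≤ B) (t : ℂ) (ht : t ∈ St ηa) :
    Mel X (fun s => dlt X m ηa (X s)) t = m t + arc ηa (fun τ => m τ * KX X t τ) := by
  have hpi : (Real.pi : ℂ) ≠ 0 := by exact_mod_cast Real.pi_ne_zero
  have hlow := K5_seg X m η ηa ε h1 h2 hε hε' hX hm B hB t ht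
    (fun r : ℝ => (r : ℂ) - (ηa : ℂ) * I) (by fun_prop) (by
      intro r hr
      have hre : ((r : ℂ) - (ηa : ℂ) * I).re = r := by simp
      have him : ((r : ℂ) - (ηa : ℂ) * I).im = -ηa := by simp
      have habs : |((r : ℂ) - (ηa : ℂ) * I).im| = ηa := by
        rw [him, abs_neg, abs_of_pos h0]
      refine ⟨?_, ⟨?_, ?_⟩, habs⟩
      · change |((r : ℂ) - (ηa : ℂ) * I).im| < η
        rw [habs]
        exact h1
      · rw [hre]
        exact abs_le.2 hr
      · rw [habs]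
        linarith)
  have hup := K5_seg X m η ηa ε h1 h2 hε hε' hX hm B hB t ht
    (fun r : ℝ => (r : ℂ) + (ηa : ℂ) * I) (by fun_prop) (by
      intro r hr
      have hre : ((r : ℂ) + (ηa : ℂ) * I).re = r := by simp
      have him : ((r : ℂ) + (ηa : ℂ) * I).im = ηa := by simp
      have habs : |((r : ℂ) + (ηa : ℂ) * I).im| = ηa := by
        rw [him, abs_of_pos h0]
      refine ⟨?_, ⟨?_, ?_⟩, habs⟩
      · change |((r : ℂ) + (ηa : ℂ) * I).im| < η
        rw [habs]
        exact h1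
      · rw [hre]
        exact abs_le.2 hr
      · rw [habs]
        linarith)
  have hsum := (hlow.sub hup).mul_left (1 / (2 * (Real.pi : ℂ) * I))
  have hper := percauchy m ηa η h0 h1 hm hp t ht
  have hval : (1 / (2 * (Real.pi : ℂ) * I)) *
      (((∫ r in (-(1 / 2) : ℝ)..(1 / 2), m ((r : ℂ) - (ηa : ℂ) * I) *
          KX X t ((r : ℂ) - (ηa : ℂ) * I)) +
        ∫ r in (-(1 / 2) : ℝ)..(1 / 2), m ((r : ℂ) - (ηa : ℂ) * I) *
          (Real.pi * Complex.cot (Real.pi * ((r : ℂ) - (ηa : ℂ) * I - t)))) -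
       ((∫ r in (-(1 / 2) : ℝ)..(1 / 2), m ((r : ℂ) + (ηa : ℂ) * I) *
          KX X t ((r : ℂ) + (ηa : ℂ) * I)) +
        ∫ r in (-(1 / 2) : ℝ)..(1 / 2), m ((r : ℂ) + (ηa : ℂ) * I) *
          (Real.pi * Complex.cot (Real.pi * ((r : ℂ) + (ηa : ℂ) * I - t))))) =
      m t + arc ηa (fun τ => m τ * KX X t τ) := by
    rw [← hper]
    unfold arc
    ring
  have hterm : ∀ n : ℤ, deriv X (t + n) * dlt X m ηa (X (t + n)) =
      (1 / (2 * (Real.pi : ℂ) * I)) *
        ((∫ r in (-(1 / 2) : ℝ)..(1 / 2), m ((r : ℂ) - (ηa : ℂ) * I) *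
            gX X (t + n) ((r : ℂ) - (ηa : ℂ) * I)) -
          ∫ r in (-(1 / 2) : ℝ)..(1 / 2), m ((r : ℂ) + (ηa : ℂ) * I) *
            gX X (t + n) ((r : ℂ) + (ηa : ℂ) * I)) := by
    intro n
    have hg : ∀ τ : ℂ, m τ * gX X (t + n) τ =
        deriv X (t + n) * (m τ * Ker (X (t + n)) (X τ)) := by
      intro τ
      unfold gX
      ring
    simp only [hg]
    rw [intervalIntegral.integral_const_mul, intervalIntegral.integral_const_mul]
    unfold dlt arc
    ring
  unfold Mel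
  rw [← hval, ← hsum.tsum_eq]
  apply tsum_congr
  intro n
  exact hterm n

end LibEY38
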