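import Pool.Agent.LibEY38.Defs
import Pool.Agent.LibEY38.A2
import Pool.Agent.LibEY38.J1
import Pool.Agent.LibEY38.J2
import Pool.Agent.LibEY38.K4
import Pool.Agent.LibEY38.K5

open Complex Set Filter Topology MeasureTheory
open scoped ComplexConjugate

namespace LibEY38

private theorem K6_lam : 0 < lam := by
  unfold lam
  have h : 0 < Real.arsinh (1 / 5) := Real.arsinh_pos_iff.2 (by norm_num)
  linarith

private theorem K6_sum (k x : ℝ) (hk : 0 < k) :
    Summable (fun n : ℤ => Real.exp (-(k * |x + n|))) := by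
  have hg : Summable (fun n : ℕ => Real.exp (-k) ^ n) :=
    summable_geometric_of_lt_one (Real.exp_pos _).le (by
      rw [Real.exp_lt_one_iff]
      linarith)
  have h1 : Summable (fun n : ℤ => Real.exp (-(k * |(n : ℝ)|))) := by
    refine Summable.of_nat_of_neg ?_ ?_
    · refine hg.congr fun n => ?_
      rw [← Real.exp_nat_mul, Int.cast_natCast, abs_of_nonneg (Nat.cast_nonneg n)]
      congr 1
      ring
    · refine hg.congr fun n => ?_
      rw [← Real.exp_nat_mul, Int.cast_neg, Int.cast_natCast, abs_neg,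
        abs_of_nonneg (Nat.cast_nonneg n)]
      congr 1
      ring
  refine Summable.of_nonneg_of_le (fun n => (Real.exp_pos _).le) (fun n => ?_)
    (h1.mul_left (Real.exp (k * |x|)))
  rw [← Real.exp_add, Real.exp_le_exp]
  have h2 : |(n : ℝ)| ≤ |x + n| + |x| := by
    have h3 : (n : ℝ) = (x + n) - x := by ring
    calc |(n : ℝ)| = |(x + n) - x| := by rw [← h3]
      _ ≤ |x + n| + |x| := abs_sub _ _
  nlinarith

private theorem K6_open (η : ℝ) : IsOpen (St η) :=
  isOpen_lt (Complex.continuous_im.abs) continuous_const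

/-- the two segments -/
private def K6_A (ηa : ℝ) : Set ℂ := {τ | |τ.re| ≤ 1 / 2 ∧ |τ.im| = ηa}

private theorem K6_lo {ηa r : ℝ} (h0 : 0 < ηa) (hr : r ∈ Set.uIcc (-(1 / 2) : ℝ) (1 / 2)) :
    (r : ℂ) - (ηa : ℂ) * I ∈ K6_A ηa := by
  rw [Set.uIcc_of_le (by norm_num)] at hr
  refine ⟨?_, ?_⟩
  · simp only [Complex.sub_re, Complex.ofReal_re, Complex.mul_re, Complex.I_re, Complex.I_im,
      Complex.ofReal_im, mul_zero, zero_mul, sub_zero, sub_self]
    exact abs_le.2 hr
  · simp only [Complex.sub_im, Complex.ofReal_im, Complex.mul_im, Complex.I_re, Complex.I_im,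
      Complex.ofReal_re, mul_zero, mul_one, add_zero, zero_sub, abs_neg]
    exact abs_of_pos h0

private theorem K6_up {ηa r : ℝ} (h0 : 0 < ηa) (hr : r ∈ Set.uIcc (-(1 / 2) : ℝ) (1 / 2)) :
    (r : ℂ) + (ηa : ℂ) * I ∈ K6_A ηa := by
  rw [Set.uIcc_of_le (by norm_num)] at hr
  refine ⟨?_, ?_⟩
  · simp only [Complex.add_re, Complex.ofReal_re, Complex.mul_re, Complex.I_re, Complex.I_im,
      Complex.ofReal_im, mul_zero, zero_mul, add_zero, sub_self]
    exact abs_le.2 hr
  · simp only [Complex.add_im, Complex.ofReal_im, Complex.mul_im, Complex.I_re, Complex.I_im,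
      Complex.ofReal_re, mul_zero, mul_one, add_zero, zero_add]
    exact abs_of_pos h0

private theorem K6_add {ηa : ℝ} (h0 : 0 < ηa) {f g h : ℂ → ℂ} (hf : ContinuousOn f (K6_A ηa))
    (hg : ContinuousOn g (K6_A ηa)) (hh : ∀ τ ∈ K6_A ηa, h τ = f τ + g τ) :
    arc ηa h = arc ηa f + arc ηa g := by
  have hlo : ContinuousOn (fun r : ℝ => (r : ℂ) - (ηa : ℂ) * I) (Set.uIcc (-(1 / 2) : ℝ) (1 / 2)) :=
    (Complex.continuous_ofReal.sub continuous_const).continuousOn
  have hup : ContinuousOn (fun r : ℝ => (r : ℂ) + (ηa : ℂ) * I) (Set.uIcc (-(1 / 2) : ℝ) (1 / 2)) :=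
    (Complex.continuous_ofReal.add continuous_const).continuousOn
  have hflo := (hf.comp hlo (fun r hr => K6_lo h0 hr)).intervalIntegrable (μ := volume)
  have hglo := (hg.comp hlo (fun r hr => K6_lo h0 hr)).intervalIntegrable (μ := volume)
  have hfup := (hf.comp hup (fun r hr => K6_up h0 hr)).intervalIntegrable (μ := volume)
  have hgup := (hg.comp hup (fun r hr => K6_up h0 hr)).intervalIntegrable (μ := volume)
  have e1 : (∫ r in (-(1 / 2) : ℝ)..(1 / 2), h ((r : ℂ) - (ηa : ℂ) * I)) =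
      (∫ r in (-(1 / 2) : ℝ)..(1 / 2), f ((r : ℂ) - (ηa : ℂ) * I)) +
        ∫ r in (-(1 / 2) : ℝ)..(1 / 2), g ((r : ℂ) - (ηa : ℂ) * I) := by
    refine Eq.trans ?_ (intervalIntegral.integral_add hflo hglo)
    exact intervalIntegral.integral_congr fun r hr => hh _ (K6_lo h0 hr)
  have e2 : (∫ r in (-(1 / 2) : ℝ)..(1 / 2), h ((r : ℂ) + (ηa : ℂ) * I)) =
      (∫ r in (-(1 / 2) : ℝ)..(1 / 2), f ((r : ℂ) + (ηa : ℂ) * I)) +
        ∫ r in (-(1 / 2) : ℝ)..(1 / 2), g ((r : ℂ) + (ηa : ℂ) * I) := by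
    refine Eq.trans ?_ (intervalIntegral.integral_add hfup hgup)
    exact intervalIntegral.integral_congr fun r hr => hh _ (K6_up h0 hr)
  unfold arc
  rw [e1, e2]
  ring

private theorem K6_KX {X : ℂ → ℂ} {η ηa ε : ℝ} (h1 : ηa < η) (h2 : η ≤ 1)
    (hε : 0 ≤ ε) (hε' : ε ≤ 1 / 2000) (hX : Near η ε X) {t : ℂ} (ht : t ∈ St ηa) :
    ContinuousOn (fun τ => KX X t τ) (K6_A ηa) := by
  obtain ⟨C, hC, hJ⟩ := J_bound
  have ht1 : |t.im| < ηa := ht
  have hδ : 0 < ηa - |t.im| := by linarith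
  have htη : t ∈ St η := lt_trans ht1 h1
  have him : ∀ n : ℤ, (t + n).im = t.im := fun n => by simp
  have hre : ∀ n : ℤ, (t + n).re = t.re + n := fun n => by simp
  have htn : ∀ n : ℤ, t + n ∈ St η := fun n => by
    show |(t + n).im| < η
    rw [him]
    exact htη
  have hne : ∀ τ ∈ K6_A ηa, ∀ n : ℤ, t + n ≠ τ := by
    intro τ hτ n h
    have h3 : τ.im = t.im := by rw [← h, him]
    have h4 : |τ.im| = ηa := hτ.2
    rw [h3] at h4
    linarith
  have hA1 : ∀ τ ∈ K6_A ηa, τ ∈ St η ∧ Pole τ := by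
    intro τ hτ
    have h4 : |τ.im| = ηa := hτ.2
    refine ⟨?_, hτ.1, by linarith⟩
    show |τ.im| < η
    linarith
  have heq : ∀ τ ∈ K6_A ηa, KX X t τ =
      (∑' n : ℤ, gX X (t + n) τ) - Real.pi * Complex.cot (Real.pi * (τ - t)) := by
    intro τ hτ
    exact (K_ana X η ε (by linarith) hε (by linarith) hX τ (hA1 τ hτ).1 (hA1 τ hτ).2).2.2.1 t htη
      (hne τ hτ)
  refine ContinuousOn.congr ?_ heq
  refine ContinuousOn.sub ?_ ?_
  · have hlam := K6_lam
    have hw : ∀ n : ℤ, wt (t + n) ^ 3 = Real.exp (-((3 * lam) * |t.re + n|)) := by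
      intro n
      unfold wt
      rw [hre, ← Real.exp_nat_mul]
      congr 1
      push_cast
      ring
    obtain ⟨D, hD⟩ : ∃ D : ℝ, D = C + (C + 1 / (ηa - |t.im|)) * Real.exp (3 * lam * (3 / 4)) :=
      ⟨_, rfl⟩
    have hD1 : C ≤ D := by
      rw [hD]
      have : 0 ≤ (C + 1 / (ηa - |t.im|)) * Real.exp (3 * lam * (3 / 4)) := by positivity
      linarith
    have hsum : Summable (fun n : ℤ => D * wt (t + n) ^ 3) := by
      refine Summable.mul_left D ?_
      refine (K6_sum (3 * lam) t.re (by positivity)).congr fun n => ?_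
      exact (hw n).symm
    refine continuousOn_tsum (u := fun n : ℤ => D * wt (t + n) ^ 3) (fun n => ?_) hsum
      (fun n τ hτ => ?_)
    · refine (g_cont X η ε (by linarith) hε (by linarith) hX (t + n) (htn n)).mono ?_
      intro τ hτ
      exact ⟨hA1 τ hτ, fun h => hne τ hτ n h.symm⟩
    · have hwp : 0 < wt (t + n) ^ 3 := by
        rw [hw]
        exact Real.exp_pos _
      have hJn := hJ X η ε (by linarith) hε (by linarith) hX τ (hA1 τ hτ).1 (hA1 τ hτ).2 (t + n)
        (htn n)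
      rcases le_or_gt (1 / 4) ‖t + n - τ‖ with h3 | h3
      · refine (hJn.1 h3).trans ?_
        exact mul_le_mul_of_nonneg_right hD1 hwp.le
      · have h4 := hJn.2 (hne τ hτ n) h3.le
        have h5 : ηa - |t.im| ≤ ‖τ - (t + n)‖ := by
          refine le_trans ?_ (Complex.abs_im_le_norm _)
          rw [Complex.sub_im, him]
          have h6 : |τ.im| = ηa := hτ.2
          have h7 := abs_sub_abs_le_abs_sub τ.im t.im
          linarith
        have h6 : ‖(1 : ℂ) / (τ - (t + n))‖ ≤ 1 / (ηa - |t.im|) := by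
          rw [norm_div, norm_one]
          exact one_div_le_one_div_of_le hδ h5
        have h7 : ‖gX X (t + n) τ‖ ≤ C + 1 / (ηa - |t.im|) := by
          have h8 := norm_add_le (gX X (t + n) τ - 1 / (τ - (t + n))) (1 / (τ - (t + n)))
          rw [sub_add_cancel] at h8
          linarith
        have h8 : |t.re + n| ≤ 3 / 4 := by
          have h9 : |(t + n - τ).re| ≤ ‖t + n - τ‖ := Complex.abs_re_le_norm _
          rw [Complex.sub_re, hre] at h9
          have h10 : |τ.re| ≤ 1 / 2 := hτ.1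
          have h11 : |t.re + n| ≤ |t.re + n - τ.re| + |τ.re| := by
            have h12 := abs_add_le (t.re + n - τ.re) τ.re
            rwa [sub_add_cancel] at h12
          linarith
        have h9 : 1 ≤ Real.exp (3 * lam * (3 / 4)) * wt (t + n) ^ 3 := by
          rw [hw, ← Real.exp_add]
          refine Real.one_le_exp ?_
          nlinarith
        have hCδ : 0 ≤ C + 1 / (ηa - |t.im|) := by positivity
        calc ‖gX X (t + n) τ‖ ≤ (C + 1 / (ηa - |t.im|)) * 1 := by rw [mul_one]; exact h7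
          _ ≤ (C + 1 / (ηa - |t.im|)) * (Real.exp (3 * lam * (3 / 4)) * wt (t + n) ^ 3) :=
              mul_le_mul_of_nonneg_left h9 hCδ
          _ = ((C + 1 / (ηa - |t.im|)) * Real.exp (3 * lam * (3 / 4))) * wt (t + n) ^ 3 := by ring
          _ ≤ D * wt (t + n) ^ 3 := by
              refine mul_le_mul_of_nonneg_right ?_ hwp.le
              rw [hD]
              linarith
  · refine continuousOn_const.mul ?_
    have hc : ContinuousOn (fun τ : ℂ => (Real.pi : ℂ) * (τ - t)) (K6_A ηa) :=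
      (continuous_const.mul (continuous_id.sub continuous_const)).continuousOn
    have hcot : (fun τ : ℂ => Complex.cot (Real.pi * (τ - t))) =
        fun τ => Complex.cos (Real.pi * (τ - t)) / Complex.sin (Real.pi * (τ - t)) := by
      funext τ
      exact Complex.cot_eq_cos_div_sin _
    rw [hcot]
    refine ContinuousOn.div (Complex.continuous_cos.comp_continuousOn hc)
      (Complex.continuous_sin.comp_continuousOn hc) ?_
    intro τ hτ h3
    obtain ⟨k, hk⟩ := Complex.sin_eq_zero_iff.1 h3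
    have hpi : (Real.pi : ℂ) ≠ 0 := by exact_mod_cast Real.pi_ne_zero
    have h4 : τ - t = k := by
      have h5 : (Real.pi : ℂ) * (τ - t) = Real.pi * k := by rw [hk]; ring
      exact mul_left_cancel₀ hpi h5
    exact hne τ hτ k (by rw [← h4]; ring)

private theorem K6_neg {η : ℝ} {m : ℂ → ℂ} (h : Per η m) : Per η (fun t => -m t) where
  diff := h.diff.neg
  per t ht := by rw [h.per t ht]
  sym := ⟨fun t ht => by rw [h.sym.odd t ht], fun t ht => by rw [h.sym.real t ht, map_neg]⟩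

private theorem K6_tsum {η B : ℝ} {f : ℕ → ℂ → ℂ} (hf : ∀ k, Per η (f k))
    (hb : ∀ k, ∀ t ∈ St η, ‖f k t‖ ≤ B * (1 / 2) ^ k) :
    Per η (fun t => ∑' k, f k t) ∧ (∀ t ∈ St η, ‖∑' k, f k t‖ ≤ 2 * B) ∧
      ∀ t ∈ St η, Summable (fun k => f k t) := by
  have hu : HasSum (fun k : ℕ => B * (1 / 2 : ℝ) ^ k) (B * 2) := hasSum_geometric_two.mul_left B
  have hs : ∀ t ∈ St η, Summable (fun k => f k t) := fun t ht =>
    Summable.of_norm_bounded hu.summable (fun k => hb k t ht)
  refine ⟨⟨?_, fun t ht => ?_, ⟨fun t ht => ?_, fun t ht => ?_⟩⟩, fun t ht => ?_, hs⟩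
  · exact Complex.differentiableOn_tsum_of_summable_norm hu.summable (fun k => (hf k).diff)
      (K6_open η) (fun k t ht => hb k t ht)
  · exact tsum_congr fun k => (hf k).per t ht
  · show (∑' k, f k (-t)) = -∑' k, f k t
    rw [← tsum_neg]
    exact tsum_congr fun k => (hf k).sym.odd t ht
  · show (∑' k, f k (conj t)) = conj (∑' k, f k t)
    rw [Complex.conj_tsum]
    exact tsum_congr fun k => (hf k).sym.real t ht
  · have h := tsum_of_norm_bounded hu (fun k => hb k t ht)
    linarith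

/-
ROW K6 (MEDIUM). Inversion of the Melnikov operator (Neumann series).
m_0 = M, m_{k+1} = -(arc of m_k KX): Per η, |m_k| <= B 2^{-k} on St η (K_op). m = ∑ m_k (uniform convergence: Per η: differentiableOn_tsum_of_summable_norm,
|m| <= 2B). Mel(dlt m_k) = m_k - m_{k+1} on St ηa (Mel_dlt), telescoping sum M. Exchange ∑_k with dlt and Mel: dlt X m ηa x = ∑_k dlt X m_k ηa x for
x = X(t+n) (off the arcs: kernel bounded on the arcs for fixed x) and the double sum over n, k is absolutely summable: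
|X'(t+n) dlt X m_k ηa (X(t+n))| <= C_t B 2^{-k} wt(t+n)^3. (Alternative: apply Mel_dlt directly to m: Mel(dlt m) = m + n(m) and
n(m) = ∑ n(m_k) = -∑ m_{k+1} = M - m by linearity and uniform convergence inside ONE integral. This is shorter.)
-/
theorem inversion : ∃ ε₁ : ℝ, 0 < ε₁ ∧ ε₁ ≤ 1 / 2000 ∧ ∀ (X M : ℂ → ℂ) (η ηa ε B : ℝ),
    0 < ηa → ηa < η → η ≤ 1 → 0 ≤ ε → ε ≤ ε₁ → Good η ε X → Per η M → (∀ t ∈ St η, ‖M t‖ ≤ B) →
    ∃ m : ℂ → ℂ, Per η m ∧ (∀ t ∈ St η, ‖m t‖ ≤ 2 * B) ∧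
      ∀ t ∈ St ηa, Mel X (fun s => dlt X m ηa (X s)) t = M t := by
  obtain ⟨ε₁, he0, he1, hop⟩ := K_op
  refine ⟨ε₁, he0, he1, ?_⟩
  intro X M η ηa ε B h0 h1 h2 hε hε' hG hM hB
  have hη : 0 < η := h0.trans h1
  have h0S : (0 : ℂ) ∈ St η := by
    show |(0 : ℂ).im| < η
    rw [Complex.zero_im, abs_zero]
    exact hη
  have hB0 : 0 ≤ B := (norm_nonneg _).trans (hB 0 h0S)
  obtain ⟨f, hf0, hfs⟩ : ∃ f : ℕ → ℂ → ℂ, f 0 = M ∧
      ∀ k, f (k + 1) = fun t => -(arc ηa fun τ => f k τ * KX X t τ) :=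
    ⟨fun k => Nat.rec M (fun _ m => fun t => -(arc ηa fun τ => m τ * KX X t τ)) k, rfl,
      fun k => rfl⟩
  have hfk : ∀ k, Per η (f k) ∧ ∀ t ∈ St η, ‖f k t‖ ≤ B * (1 / 2) ^ k := by
    intro k
    induction k with
    | zero =>
      rw [hf0]
      exact ⟨hM, fun t ht => by rw [pow_zero, mul_one]; exact hB t ht⟩
    | succ k ih =>
      have h3 := hop X (f k) η ηa ε (B * (1 / 2) ^ k) h0 h1 h2 hε hε' hG ih.1 ih.2
      rw [hfs]
      refine ⟨K6_neg h3.1, fun t ht => ?_⟩
      rw [norm_neg]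
      refine (h3.2 t ht).trans (le_of_eq ?_)
      rw [pow_succ]
      ring
  have hT : ∀ K : ℕ, Per η (fun t => ∑' k, f (k + K) t) ∧
      (∀ t ∈ St η, ‖∑' k, f (k + K) t‖ ≤ 2 * (B * (1 / 2) ^ K)) ∧
      ∀ t ∈ St η, Summable (fun k => f (k + K) t) := by
    intro K
    refine K6_tsum (fun k => (hfk (k + K)).1) (fun k t ht => ?_)
    refine ((hfk (k + K)).2 t ht).trans (le_of_eq ?_)
    rw [pow_add]
    ring
  have hT0 := hT 0
  refine ⟨fun t => ∑' k, f (k + 0) t, hT0.1, fun t ht => ?_, fun t ht => ?_⟩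
  · have h3 := hT0.2.1 t ht
    rwa [pow_zero, mul_one] at h3
  · have htη : t ∈ St η := lt_trans ht h1
    have hAS : ∀ τ ∈ K6_A ηa, τ ∈ St η := by
      intro τ hτ
      have h4 : |τ.im| = ηa := hτ.2
      show |τ.im| < η
      linarith
    have hKX := K6_KX h1 h2 hε (hε'.trans he1) hG.near ht
    have hcont : ∀ m : ℂ → ℂ, Per η m → ContinuousOn (fun τ => m τ * KX X t τ) (K6_A ηa) :=
      fun m hm => (hm.diff.continuousOn.mono hAS).mul hKX
    have hstep : ∀ K, arc ηa (fun τ => (∑' k, f (k + K) τ) * KX X t τ) =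
        -f (K + 1) t + arc ηa (fun τ => (∑' k, f (k + (K + 1)) τ) * KX X t τ) := by
      intro K
      have h3 : -f (K + 1) t = arc ηa (fun τ => f K τ * KX X t τ) := by
        rw [hfs]
        exact neg_neg _
      rw [h3]
      refine K6_add h0 (hcont _ (hfk K).1) (hcont _ (hT (K + 1)).1) fun τ hτ => ?_
      have h4 := ((hT K).2.2 τ (hAS τ hτ)).tsum_eq_zero_add
      rw [h4, zero_add, add_mul]
      congr 2
      refine tsum_congr fun k => ?_
      congr 1
      omega
    have hind : ∀ K, arc ηa (fun τ => (∑' k, f (k + 0) τ) * KX X t τ) =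
        arc ηa (fun τ => (∑' k, f (k + K) τ) * KX X t τ) - ∑ k ∈ Finset.range K, f (k + 1) t := by
      intro K
      induction K with
      | zero => rw [Finset.range_zero, Finset.sum_empty, sub_zero]
      | succ K ih =>
        rw [ih, hstep K, Finset.sum_range_succ]
        ring
    have hlim1 : Tendsto (fun K => arc ηa (fun τ => (∑' k, f (k + K) τ) * KX X t τ)) atTop
        (𝓝 0) := by
      have hb : ∀ K, ‖arc ηa (fun τ => (∑' k, f (k + K) τ) * KX X t τ)‖ ≤ B * (1 / 2) ^ K := by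
        intro K
        have h3 := (hop X (fun τ => ∑' k, f (k + K) τ) η ηa ε (2 * (B * (1 / 2) ^ K)) h0 h1 h2 hε
          hε' hG (hT K).1 (hT K).2.1).2 t htη
        refine h3.trans (le_of_eq ?_)
        ring
      refine squeeze_zero_norm hb ?_
      have h4 := (tendsto_pow_atTop_nhds_zero_of_lt_one (r := (1 / 2 : ℝ)) (by norm_num)
        (by norm_num)).const_mul B
      rwa [mul_zero] at h4
    have hlim2 : Tendsto (fun K => ∑ k ∈ Finset.range K, f (k + 1) t) atTop
        (𝓝 (∑' k, f (k + 1) t)) := ((hT 1).2.2 t htη).hasSum.tendsto_sum_nat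
    have hlim3 := hlim1.sub hlim2
    have hlim4 : Tendsto (fun _ : ℕ => arc ηa (fun τ => (∑' k, f (k + 0) τ) * KX X t τ)) atTop
        (𝓝 (0 - ∑' k, f (k + 1) t)) := by
      refine hlim3.congr fun K => ?_
      exact (hind K).symm
    have harc := tendsto_nhds_unique tendsto_const_nhds hlim4
    have hmel := Mel_dlt X (fun t => ∑' k, f (k + 0) t) η ηa ε h0 h1 h2 hε (hε'.trans he1) hG.near
      hT0.1.diff hT0.1.per _ hT0.2.1 t ht
    rw [hmel, harc]
    have h5 := ((hT 0).2.2 t htη).tsum_eq_zero_add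
    rw [h5]
    have h6 : (∑' b, f (b + 1 + 0) t) = ∑' k, f (k + 1) t := rfl
    have h7 : f (0 + 0) t = M t := by rw [← hf0]
    rw [h6, h7]
    ring

end LibEY38
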