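import Pool.Agent.LibEY38.Defs
import Pool.Agent.LibEY38.A1
import Pool.Agent.LibEY38.B0
import Pool.Agent.LibEY38.N1
import Pool.Agent.LibEY38.K6
import Pool.Agent.LibEY38.D1
import Pool.Agent.LibEY38.D2
import Pool.Agent.LibEY38.D3
import Pool.Agent.LibEY38.D4
import Pool.Agent.LibEY38.D5

open Complex Set Filter Topology MeasureTheory
open scoped ComplexConjugate

namespace LibEY38

private theorem D6_St_open (η : ℝ) : IsOpen (St η) := by
  unfold St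
  exact isOpen_lt (by fun_prop) continuous_const

private theorem D6_St_mono {a b : ℝ} (h : a ≤ b) : St a ⊆ St b := fun _ ht => lt_of_lt_of_le ht h

private theorem D6_St_add {η : ℝ} {t : ℂ} (ht : t ∈ St η) : t + 1 ∈ St η := by
  simpa [St] using ht

private theorem D6_St_sub {η : ℝ} {t : ℂ} (ht : t ∈ St η) : t - 1 ∈ St η := by
  simpa [St] using ht

private theorem D6_St_neg {η : ℝ} {t : ℂ} (ht : t ∈ St η) : -t ∈ St η := by
  simpa [St] using ht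

private theorem D6_St_conj {η : ℝ} {t : ℂ} (ht : t ∈ St η) : conj t ∈ St η := by
  simpa [St] using ht

private theorem D6_St_int {η : ℝ} {t : ℂ} (ht : t ∈ St η) (n : ℤ) : t + n ∈ St η := by
  simpa [St] using ht

private theorem D6_Tube_open (η r : ℝ) (X : ℂ → ℂ) : IsOpen (Tube η r X) := by
  have : Tube η r X = ⋃ t ∈ St η, Metric.ball (X t) r := by
    ext x
    simp [Tube, dist_eq_norm]
  rw [this]
  exact isOpen_biUnion fun t _ => Metric.isOpen_ball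

private theorem D6_Tube_mono {η η' r r' : ℝ} (h : η ≤ η') (h' : r ≤ r') (X : ℂ → ℂ) :
    Tube η r X ⊆ Tube η' r' X := by
  rintro x ⟨t, ht, hx⟩
  exact ⟨t, D6_St_mono h ht, lt_of_lt_of_le hx h'⟩

private theorem D6_mem_Tube {η r : ℝ} (hr : 0 < r) (X : ℂ → ℂ) {t : ℂ} (ht : t ∈ St η) :
    X t ∈ Tube η r X := ⟨t, ht, by simpa using hr⟩

private theorem D6_wt_pos (t : ℂ) : 0 < wt t := Real.exp_pos _

private theorem D6_wt_le (t : ℂ) : wt t ≤ 1 := by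
  unfold wt
  rw [Real.exp_le_one_iff]
  have h := numbers.1
  have : 0 ≤ lam * |t.re| := mul_nonneg (by linarith) (abs_nonneg _)
  linarith

private theorem D6_wt_sq (t : ℂ) : wt t ^ 2 = Real.exp (-(2 * lam * |t.re|)) := by
  unfold wt
  rw [← Real.exp_nat_mul]
  congr 1
  push_cast
  ring

private theorem D6_Good_mono {a b ε : ℝ} (h : a ≤ b) {X : ℂ → ℂ} (hX : Good b ε X) :
    Good a ε X :=
  ⟨⟨hX.near.diff.mono (D6_St_mono h), fun t ht => hX.near.c0 t (D6_St_mono h ht),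
    fun t ht => hX.near.c1 t (D6_St_mono h ht), fun t ht => hX.near.c2 t (D6_St_mono h ht)⟩,
    ⟨fun t ht => hX.sym.odd t (D6_St_mono h ht), fun t ht => hX.sym.real t (D6_St_mono h ht)⟩⟩

private theorem D6_deriv_even {η : ℝ} {X : ℂ → ℂ} (hX : Sym η X) {t : ℂ} (ht : t ∈ St η) :
    deriv X (-t) = deriv X t := by
  have h1 : X =ᶠ[𝓝 (-t)] fun s => -(X (-s)) := by
    filter_upwards [(D6_St_open η).mem_nhds (D6_St_neg ht)] with s hs
    rw [hX.odd s hs, neg_neg]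
  rw [h1.deriv_eq]
  have h2 : deriv (fun s => -(X (-s))) (-t) = -deriv (fun s => X (-s)) (-t) := deriv.fun_neg
  rw [h2, deriv_comp_neg, neg_neg, neg_neg]

private theorem D6_deriv_real {η : ℝ} {X : ℂ → ℂ} (hX : Sym η X) {t : ℂ} (ht : t ∈ St η) :
    deriv X (conj t) = conj (deriv X t) := by
  have h1 : X =ᶠ[𝓝 (conj t)] (conj ∘ X ∘ conj) := by
    filter_upwards [(D6_St_open η).mem_nhds (D6_St_conj ht)] with s hs
    simp only [Function.comp_apply]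
    rw [hX.real s hs, Complex.conj_conj]
  rw [h1.deriv_eq, deriv_conj_conj]
  simp only [Function.comp_apply]
  rw [Complex.conj_conj]

private theorem D6_sin {z : ℂ} (hz : ‖z‖ ≤ 13 / 10) : ‖Complex.sin z‖ ≤ 4 := by
  have h1 : ‖Complex.sin z‖ ≤ (Real.exp ‖z‖ + Real.exp ‖z‖) / 2 := by
    unfold Complex.sin
    rw [norm_div, norm_mul, Complex.norm_I, mul_one, Complex.norm_two]
    gcongr
    refine (norm_sub_le _ _).trans ?_
    gcongr
    · refine (Complex.norm_exp_le_exp_norm _).trans ?_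
      rw [norm_mul, norm_neg, Complex.norm_I, mul_one]
    · refine (Complex.norm_exp_le_exp_norm _).trans ?_
      rw [norm_mul, Complex.norm_I, mul_one]
  have h2 : Real.exp ‖z‖ ≤ 4 := by
    have h3 : Real.exp ‖z‖ ≤ Real.exp (13 / 10) := Real.exp_le_exp.2 hz
    have h4 : Real.exp (13 / 10) ≤ 4 := by
      have h5 : Real.exp (13 / 10) = Real.exp 1 * Real.exp (3 / 10) := by
        rw [← Real.exp_add]; norm_num
      have h6 := Real.exp_one_lt_d9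
      have h7 : Real.exp (3 / 10) ≤ 14 / 10 := by
        have := Real.exp_bound' (x := 3 / 10) (by norm_num) (by norm_num) (n := 3) (by norm_num)
        norm_num [Finset.sum_range_succ, Nat.factorial] at this
        linarith
      rw [h5]
      have h8 : 0 < Real.exp (3 / 10) := Real.exp_pos _
      nlinarith
    linarith
  linarith

private theorem D6_cc {x y : ℂ} (hy : ‖y‖ ≤ 5 / 4) (hxy : ‖x - y‖ ≤ 1 / 20) :
    ‖cc x‖ ≤ ‖cc y‖ + 4 * ‖x - y‖ := by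
  have h1 : ‖Complex.cos x - Complex.cos y‖ ≤ 4 * ‖x - y‖ := by
    refine (convex_closedBall y ‖x - y‖).norm_image_sub_le_of_norm_deriv_le
      (f := Complex.cos) (fun z _ => Complex.differentiable_cos z) (fun z hz => ?_) ?_ ?_
    · rw [Complex.deriv_cos, norm_neg]
      apply D6_sin
      rw [Metric.mem_closedBall, dist_eq_norm] at hz
      calc ‖z‖ = ‖(z - y) + y‖ := by ring_nf
        _ ≤ ‖z - y‖ + ‖y‖ := norm_add_le _ _
        _ ≤ 13 / 10 := by linarith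
    · exact Metric.mem_closedBall_self (norm_nonneg _)
    · rw [Metric.mem_closedBall, dist_eq_norm]
  have h2 : cc x = cc y + (Complex.cos x - Complex.cos y) := by
    unfold cc
    ring
  rw [h2]
  exact (norm_add_le _ _).trans (by linarith)


/-- the error of the link equation: differentiable and symmetric -/
private theorem D6_Err {X F : ℂ → ℂ} {η r M : ℝ} (hr : 0 < r) (hd : DifferentiableOn ℂ X (St η))
    (hs : Sym η X) (hF : GoodF η r M X F) :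
    DifferentiableOn ℂ (Err X F) (St η) ∧ Sym η (Err X F) := by
  have hmem : ∀ t ∈ St η, X t ∈ Tube η r X := fun t ht => D6_mem_Tube hr X ht
  refine ⟨?_, ⟨fun t ht => ?_, fun t ht => ?_⟩⟩
  · unfold Err
    refine (DifferentiableOn.add ?_ ?_).sub ?_
    · exact hd.comp (differentiableOn_id.add_const 1) (fun t ht => D6_St_add ht)
    · exact hd.comp (differentiableOn_id.sub_const 1) (fun t ht => D6_St_sub ht)
    · exact hF.diff.comp hd hmem
  · unfold Err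
    have e1 : -t + 1 = -(t - 1) := by ring
    have e2 : -t - 1 = -(t + 1) := by ring
    rw [e1, e2, hs.odd _ (D6_St_sub ht), hs.odd _ (D6_St_add ht), hs.odd t ht,
      hF.odd _ (hmem t ht)]
    ring
  · unfold Err
    have e1 : conj t + 1 = conj (t + 1) := by simp
    have e2 : conj t - 1 = conj (t - 1) := by simp
    rw [e1, e2, hs.real _ (D6_St_sub ht), hs.real _ (D6_St_add ht), hs.real t ht,
      hF.real _ (hmem t ht)]
    simp

/-- homological step: from the correction to the displacement -/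
private theorem D6_hom {C1 C2 C4 : ℝ} (hC1 : 0 < C1) (hC2 : 0 < C2) (hC4 : 0 < C4)
    (h1 : ∀ (X D : ℂ → ℂ) (η ε e : ℝ), η ≤ 7 / 2 → 0 ≤ ε → ε ≤ 1 / 1000 →
      Good η ε X → DifferentiableOn ℂ D (St η) → Sym η D → (∀ t ∈ St η, ‖D t‖ ≤ e * wt t ^ 2) →
      Per η (Mel X D) ∧ (∀ t ∈ St η, ‖Mel X D t‖ ≤ C1 * e) ∧
      (∀ t ∈ St η, Summable (fun n : ℤ => ‖deriv X (t + n) * D (t + n)‖)))
    (h4 : ∀ (X r : ℂ → ℂ) (η ε R : ℝ), η ≤ 7 / 2 → 0 ≤ ε → ε ≤ 1 / 1000 →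
      Good η ε X → DifferentiableOn ℂ r (St η) → Sym η r → (∀ t ∈ St η, ‖r t‖ ≤ R * wt t ^ 3) →
      (∀ t ∈ St η, ∑' n : ℤ, r (t + n) = 0) →
      ∃ h : ℂ → ℂ, DifferentiableOn ℂ h (St η) ∧ Sym η h ∧ (∀ t ∈ St η, ‖h t‖ ≤ C4 * R) ∧
        ∀ t ∈ St η, deriv X t * (deriv X (t + 1) * (h (t + 1) - h t) -
          deriv X (t - 1) * (h t - h (t - 1))) = r t)
    {X D δ : ℂ → ℂ} {η ρ ε e : ℝ} (hρ : 0 < ρ) (hρ1 : ρ ≤ 1) (hη : η ≤ 1) (hε : 0 ≤ ε)
    (hε' : ε ≤ 1 / 1000) (he : 0 < e) (hX : Good η ε X) (hD : DifferentiableOn ℂ D (St η))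
    (hDs : Sym η D) (hDb : ∀ t ∈ St η, ‖D t‖ ≤ e * wt t ^ 2)
    (hδd : DifferentiableOn ℂ δ (Tube (η - 2 * ρ) (ρ / 80) X))
    (hδb : ∀ x ∈ Tube (η - 2 * ρ) (ρ / 80) X, ‖δ x‖ ≤ C2 * (2 * (C1 * e)) / ρ * ‖cc x‖ ^ 2)
    (hδo : ∀ x, δ (-x) = -δ x) (hδr : ∀ x, δ (conj x) = conj (δ x))
    (hM : ∀ t ∈ St (η - 2 * ρ), Mel X (fun s => δ (X s)) t = Mel X D t) :
    ∃ h : ℂ → ℂ, DifferentiableOn ℂ h (St (η - 2 * ρ)) ∧ Sym (η - 2 * ρ) h ∧
      (∀ t ∈ St (η - 2 * ρ), ‖h t‖ ≤ C4 * ((3 * (50 * C1 * C2 + 1)) * e / ρ)) ∧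
      ∀ t ∈ St (η - 2 * ρ), deriv X (t + 1) * (h (t + 1) - h t) -
        deriv X (t - 1) * (h t - h (t - 1)) = δ (X t) - D t := by
  have hle : η - 2 * ρ ≤ η := by linarith
  have hX2 : Good (η - 2 * ρ) ε X := D6_Good_mono hle hX
  have hsub := D6_St_mono hle
  obtain ⟨nf, -, -⟩ := near_facts X η ε (by linarith) hε hε' hX.near
  have hr80 : 0 < ρ / 80 := by positivity
  have hmem : ∀ t ∈ St (η - 2 * ρ), X t ∈ Tube (η - 2 * ρ) (ρ / 80) X :=
    fun t ht => D6_mem_Tube hr80 X ht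
  have hdX : DifferentiableOn ℂ (deriv X) (St η) := hX.near.diff.deriv (D6_St_open η)
  -- bound of `δ ∘ X`
  have hδX : ∀ t ∈ St (η - 2 * ρ), ‖δ (X t)‖ ≤ (50 * C1 * C2 * e / ρ) * wt t ^ 2 := by
    intro t ht
    have h5 := hδb _ (hmem t ht)
    have h6 := (nf t (hsub ht)).2.2.2.2.2.2
    have h7 : ‖cc (X t)‖ ^ 2 ≤ (5 * wt t) ^ 2 := by
      have := norm_nonneg (cc (X t))
      gcongr
    have h8 : 0 ≤ C2 * (2 * (C1 * e)) / ρ := by positivity
    calc ‖δ (X t)‖ ≤ C2 * (2 * (C1 * e)) / ρ * ‖cc (X t)‖ ^ 2 := h5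
      _ ≤ C2 * (2 * (C1 * e)) / ρ * (5 * wt t) ^ 2 := by gcongr
      _ = (50 * C1 * C2 * e / ρ) * wt t ^ 2 := by ring
  have hδXd : DifferentiableOn ℂ (fun s => δ (X s)) (St (η - 2 * ρ)) :=
    hδd.comp (hX.near.diff.mono hsub) hmem
  have hδXs : Sym (η - 2 * ρ) (fun s => δ (X s)) :=
    ⟨fun t ht => by
      change δ (X (-t)) = -δ (X t)
      rw [hX.sym.odd t (hsub ht), hδo], fun t ht => by
      change δ (X (conj t)) = conj (δ (X t))
      rw [hX.sym.real t (hsub ht), hδr]⟩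
  obtain ⟨-, -, sum1⟩ := h1 X (fun s => δ (X s)) (η - 2 * ρ) ε (50 * C1 * C2 * e / ρ)
    (by linarith) hε hε' hX2 hδXd hδXs hδX
  obtain ⟨-, -, sum2⟩ := h1 X D η ε e (by linarith) hε hε' hX hD hDs hDb
  -- the right hand side
  have g1 : DifferentiableOn ℂ (fun t => deriv X t * (δ (X t) - D t)) (St (η - 2 * ρ)) :=
    (hdX.mono hsub).mul (hδXd.sub (hD.mono hsub))
  have g2 : Sym (η - 2 * ρ) (fun t => deriv X t * (δ (X t) - D t)) := by
    refine ⟨fun t ht => ?_, fun t ht => ?_⟩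
    · change deriv X (-t) * (δ (X (-t)) - D (-t)) = -(deriv X t * (δ (X t) - D t))
      rw [D6_deriv_even hX.sym (hsub ht), hX.sym.odd t (hsub ht), hδo, hDs.odd t (hsub ht)]
      ring
    · change deriv X (conj t) * (δ (X (conj t)) - D (conj t)) =
        conj (deriv X t * (δ (X t) - D t))
      rw [D6_deriv_real hX.sym (hsub ht), hX.sym.real t (hsub ht), hδr, hDs.real t (hsub ht)]
      simp
  have g3 : ∀ t ∈ St (η - 2 * ρ), ‖deriv X t * (δ (X t) - D t)‖ ≤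
      (3 * (50 * C1 * C2 + 1)) * e / ρ * wt t ^ 3 := by
    intro t ht
    have h5 := (nf t (hsub ht)).2.1
    have h6 := hδX t ht
    have h7 := hDb t (hsub ht)
    have hw := D6_wt_pos t
    have h8 : e ≤ e / ρ := by
      rw [le_div_iff₀ hρ]
      nlinarith
    calc ‖deriv X t * (δ (X t) - D t)‖ ≤ ‖deriv X t‖ * (‖δ (X t)‖ + ‖D t‖) := by
          rw [norm_mul]
          gcongr
          exact norm_sub_le _ _
      _ ≤ (3 * wt t) * ((50 * C1 * C2 * e / ρ) * wt t ^ 2 + e / ρ * wt t ^ 2) := by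
          gcongr
          exact h7.trans (by gcongr)
      _ = (3 * (50 * C1 * C2 + 1)) * e / ρ * wt t ^ 3 := by ring
  have g4 : ∀ t ∈ St (η - 2 * ρ),
      ∑' n : ℤ, deriv X (t + n) * (δ (X (t + n)) - D (t + n)) = 0 := by
    intro t ht
    have h5 := hM t ht
    unfold Mel at h5
    have s1 : Summable (fun n : ℤ => deriv X (t + n) * δ (X (t + n))) := (sum1 t ht).of_norm
    have s2 : Summable (fun n : ℤ => deriv X (t + n) * D (t + n)) := (sum2 t (hsub ht)).of_norm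
    have h6 : ∑' n : ℤ, deriv X (t + n) * (δ (X (t + n)) - D (t + n)) =
        (∑' n : ℤ, deriv X (t + n) * δ (X (t + n))) - ∑' n : ℤ, deriv X (t + n) * D (t + n) := by
      rw [← s1.tsum_sub s2]
      exact tsum_congr fun n => by ring
    rw [h6, h5, sub_self]
  obtain ⟨h, hh1, hh2, hh3, hh4⟩ := h4 X (fun t => deriv X t * (δ (X t) - D t)) (η - 2 * ρ) ε
    ((3 * (50 * C1 * C2 + 1)) * e / ρ) (by linarith) hε hε' hX2 g1 g2 g3 g4
  refine ⟨h, hh1, hh2, hh3, fun t ht => ?_⟩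
  have h5 := hh4 t ht
  have h6 : deriv X t ≠ 0 := by
    have h7 := (nf t (hsub ht)).1
    have h8 := D6_wt_pos t
    intro h9
    rw [h9, norm_zero] at h7
    linarith
  exact mul_left_cancel₀ h6 h5

private theorem D6_near {X ξ : ℂ → ℂ} {η η' ε a b ρ : ℝ} (hX : Near η ε X) (hη : η' ≤ η)
    (hρ : 0 < ρ) (hρ1 : ρ ≤ 1) (ha : 0 ≤ a) (hξ : DifferentiableOn ℂ ξ (St η'))
    (hb : ∀ t ∈ St η', ‖ξ t‖ ≤ a * wt t) (hab : 256 * a / ρ ^ 2 ≤ b) :
    Near (η' - ρ) (ε + b) (fun s => X s + ξ s) := by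
  have hlam := numbers
  obtain ⟨c1, c2⟩ := cauchy_w ξ η' ρ a lam (by linarith [hlam.1]) (by linarith [hlam.2.1]) hρ hρ1
    hξ hb
  have hsub : St (η' - ρ) ⊆ St η' := D6_St_mono (by linarith)
  have hsub2 : St η' ⊆ St η := D6_St_mono hη
  have hρ2 : ρ ^ 2 ≤ 1 := pow_le_one₀ hρ.le hρ1
  have hρ2' : ρ ^ 2 ≤ ρ := by nlinarith
  have hρ20 : 0 < ρ ^ 2 := by positivity
  have ha1 : a ≤ b := by
    refine le_trans ?_ hab
    rw [le_div_iff₀ hρ20]
    nlinarith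
  have ha2 : 8 * a / ρ ≤ b := by
    refine le_trans ?_ hab
    rw [div_le_div_iff₀ hρ hρ20]
    nlinarith [mul_le_mul_of_nonneg_left hρ2' ha, mul_nonneg ha hρ.le]
  have hXd : ∀ t ∈ St η', DifferentiableAt ℂ X t := fun t ht =>
    hX.diff.differentiableAt ((D6_St_open η).mem_nhds (hsub2 ht))
  have hξd : ∀ t ∈ St η', DifferentiableAt ℂ ξ t := fun t ht =>
    hξ.differentiableAt ((D6_St_open η').mem_nhds ht)
  have hder : ∀ t ∈ St η', deriv (fun s => X s + ξ s) t = deriv X t + deriv ξ t := fun t ht =>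
    deriv_fun_add (hXd t ht) (hξd t ht)
  have hXd2 : ∀ t ∈ St η', DifferentiableAt ℂ (deriv X) t := fun t ht =>
    (hX.diff.deriv (D6_St_open η)).differentiableAt ((D6_St_open η).mem_nhds (hsub2 ht))
  have hξd2 : ∀ t ∈ St η', DifferentiableAt ℂ (deriv ξ) t := fun t ht =>
    (hξ.deriv (D6_St_open η')).differentiableAt ((D6_St_open η').mem_nhds ht)
  have hder2 : ∀ t ∈ St η', deriv (deriv (fun s => X s + ξ s)) t =
      deriv (deriv X) t + deriv (deriv ξ) t := by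
    intro t ht
    have h1 : deriv (fun s => X s + ξ s) =ᶠ[𝓝 t] fun s => deriv X s + deriv ξ s := by
      filter_upwards [(D6_St_open η').mem_nhds ht] with s hs
      exact hder s hs
    rw [h1.deriv_eq]
    exact deriv_fun_add (hXd2 t ht) (hξd2 t ht)
  refine ⟨(hX.diff.mono (hsub.trans hsub2)).add (hξ.mono hsub), fun t ht => ?_, fun t ht => ?_,
    fun t ht => ?_⟩
  · have h1 := hX.c0 t (hsub2 (hsub ht))
    have h2 := hb t (hsub ht)
    have hw := D6_wt_pos t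
    calc ‖X t + ξ t - X0 t‖ = ‖(X t - X0 t) + ξ t‖ := by ring_nf
      _ ≤ ‖X t - X0 t‖ + ‖ξ t‖ := norm_add_le _ _
      _ ≤ ε * wt t + b * wt t := by
        gcongr
        exact h2.trans (by gcongr)
      _ = (ε + b) * wt t := by ring
  · have h1 := hX.c1 t (hsub2 (hsub ht))
    have h2 : ‖deriv ξ t‖ ≤ 8 * a / ρ * wt t := c1 t ht
    have hw := D6_wt_pos t
    rw [hder t (hsub ht)]
    calc ‖deriv X t + deriv ξ t - deriv X0 t‖ = ‖(deriv X t - deriv X0 t) + deriv ξ t‖ := by ring_nf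
      _ ≤ ‖deriv X t - deriv X0 t‖ + ‖deriv ξ t‖ := norm_add_le _ _
      _ ≤ ε * wt t + b * wt t := by
        gcongr
        exact h2.trans (by gcongr)
      _ = (ε + b) * wt t := by ring
  · have h1 := hX.c2 t (hsub2 (hsub ht))
    have h2 : ‖deriv (deriv ξ) t‖ ≤ 256 * a / ρ ^ 2 * wt t := c2 t ht
    have hw := D6_wt_pos t
    rw [hder2 t (hsub ht)]
    calc ‖deriv (deriv X) t + deriv (deriv ξ) t - deriv (deriv X0) t‖ =
          ‖(deriv (deriv X) t - deriv (deriv X0) t) + deriv (deriv ξ) t‖ := by ring_nf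
      _ ≤ ‖deriv (deriv X) t - deriv (deriv X0) t‖ + ‖deriv (deriv ξ) t‖ := norm_add_le _ _
      _ ≤ ε * wt t + b * wt t := by
        gcongr
        exact h2.trans (by gcongr)
      _ = (ε + b) * wt t := by ring

private theorem D6_GoodF {X Y F δ : ℂ → ℂ} {η ρ M b c : ℝ} (hρ : 0 < ρ)
    (hF : GoodF η (ρ / 80) M X F)
    (hYX : ∀ t ∈ St (η - 3 * ρ), ‖Y t - X t‖ ≤ ρ / 160)
    (hδd : DifferentiableOn ℂ δ (Tube (η - 2 * ρ) (ρ / 80) X))
    (hδ2 : ∀ x ∈ Tube (η - 2 * ρ) (ρ / 80) X, ‖deriv (deriv δ) x‖ ≤ b) (hbc : b ≤ c)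
    (hδo : ∀ x, δ (-x) = -δ x) (hδr : ∀ x, δ (conj x) = conj (δ x)) :
    GoodF (η - 3 * ρ) (ρ / 160) (M + c) Y (fun x => F x + δ x) := by
  have hsub : Tube (η - 3 * ρ) (ρ / 160) Y ⊆ Tube (η - 2 * ρ) (ρ / 80) X := by
    rintro x ⟨t, ht, hx⟩
    refine ⟨t, D6_St_mono (by linarith) ht, ?_⟩
    calc ‖x - X t‖ = ‖(x - Y t) + (Y t - X t)‖ := by ring_nf
      _ ≤ ‖x - Y t‖ + ‖Y t - X t‖ := norm_add_le _ _
      _ < ρ / 80 := by linarith [hYX t ht]
  have hsub2 : Tube (η - 2 * ρ) (ρ / 80) X ⊆ Tube η (ρ / 80) X :=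
    D6_Tube_mono (by linarith) le_rfl X
  have ho1 := D6_Tube_open η (ρ / 80) X
  have ho2 := D6_Tube_open (η - 2 * ρ) (ρ / 80) X
  refine ⟨(hF.diff.mono (hsub.trans hsub2)).add (hδd.mono hsub), fun x hx => ?_, fun x hx => ?_,
    fun x hx => ?_⟩
  · change F (-x) + δ (-x) = -(F x + δ x)
    rw [hF.odd x (hsub2 (hsub hx)), hδo]
    ring
  · change F (conj x) + δ (conj x) = conj (F x + δ x)
    rw [hF.real x (hsub2 (hsub hx)), hδr, map_add]
  · have hFd : ∀ y ∈ Tube (η - 2 * ρ) (ρ / 80) X, DifferentiableAt ℂ F y := fun y hy =>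
      hF.diff.differentiableAt (ho1.mem_nhds (hsub2 hy))
    have hδd' : ∀ y ∈ Tube (η - 2 * ρ) (ρ / 80) X, DifferentiableAt ℂ δ y := fun y hy =>
      hδd.differentiableAt (ho2.mem_nhds hy)
    have hFd2 : DifferentiableAt ℂ (deriv F) x :=
      (hF.diff.deriv ho1).differentiableAt (ho1.mem_nhds (hsub2 (hsub hx)))
    have hδd2 : DifferentiableAt ℂ (deriv δ) x :=
      (hδd.deriv ho2).differentiableAt (ho2.mem_nhds (hsub hx))
    have h1 : deriv (fun x => F x + δ x) =ᶠ[𝓝 x] fun y => deriv F y + deriv δ y := by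
      filter_upwards [ho2.mem_nhds (hsub hx)] with y hy
      exact deriv_fun_add (hFd y hy) (hδd' y hy)
    rw [h1.deriv_eq, deriv_fun_add hFd2 hδd2]
    exact (norm_add_le _ _).trans (add_le_add (hF.d2 x (hsub2 (hsub hx)))
      ((hδ2 x (hsub hx)).trans hbc))

private theorem D6_err {X F δ h : ℂ → ℂ} {η ρ ε e M H a b : ℝ} (hρ : 0 < ρ) (hρ1 : ρ ≤ 1 / 12)
    (hη : η ≤ 1) (hε : 0 ≤ ε) (hε' : ε ≤ 1 / 1000) (hM : 0 ≤ M) (hH : 0 ≤ H)
    (ha : 0 ≤ a) (haρ : a ≤ ρ / 160) (hb : 0 ≤ b)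
    (hX : Good η ε X) (hF : GoodF η (ρ / 80) M X F)
    (hDb : ∀ t ∈ St η, ‖Err X F t‖ ≤ e * wt t ^ 2)
    (hδd : DifferentiableOn ℂ δ (Tube (η - 2 * ρ) (ρ / 80) X))
    (hδ1 : ∀ x ∈ Tube (η - 2 * ρ) (ρ / 80) X, ‖deriv δ x‖ ≤ b * ‖cc x‖)
    (hh : ∀ t ∈ St (η - 2 * ρ), ‖h t‖ ≤ H)
    (hξ : ∀ t ∈ St (η - 2 * ρ), ‖deriv X t * h t‖ ≤ a * wt t)
    (heq : ∀ t ∈ St (η - 2 * ρ), deriv X (t + 1) * (h (t + 1) - h t) -
        deriv X (t - 1) * (h t - h (t - 1)) = δ (X t) - Err X F t) (t : ℂ)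
    (ht : t ∈ St (η - 3 * ρ)) :
    ‖Err (fun s => X s + deriv X s * h s) (fun x => F x + δ x) t‖ ≤
      (8 * e / ρ * H + M * a ^ 2 + 6 * b * a) * wt t ^ 2 := by
  have hlam := numbers
  have ht2 : t ∈ St (η - 2 * ρ) := D6_St_mono (by linarith) ht
  have ht1 : t ∈ St (η - ρ) := D6_St_mono (by linarith) ht
  have ht0 : t ∈ St η := D6_St_mono (by linarith) ht
  have hw := D6_wt_pos t
  have hw1 := D6_wt_le t
  have hr80 : 0 < ρ / 80 := by positivity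
  obtain ⟨hDd, -⟩ := D6_Err hr80 hX.near.diff hX.sym hF
  obtain ⟨nf, -, -⟩ := near_facts X η ε (by linarith) hε hε' hX.near
  have hXt : ‖X t‖ ≤ 5 / 4 := (nf t ht0).2.2.2.1
  have hcc : ‖cc (X t)‖ ≤ 5 * wt t := (nf t ht0).2.2.2.2.2.2
  have hXd : ∀ s ∈ St η, DifferentiableAt ℂ X s := fun s hs =>
    hX.near.diff.differentiableAt ((D6_St_open η).mem_nhds hs)
  have hmem : X t ∈ Tube η (ρ / 80) X := D6_mem_Tube hr80 X ht0
  have hFd : DifferentiableAt ℂ F (X t) :=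
    hF.diff.differentiableAt ((D6_Tube_open η (ρ / 80) X).mem_nhds hmem)
  rw [newton_identity X F δ h t (hXd t ht0) (hXd _ (D6_St_add ht0)) (hXd _ (D6_St_sub ht0)) hFd
    (heq t ht2)]
  set ξ : ℂ := deriv X t * h t with hξdef
  have hξt : ‖ξ‖ ≤ a * wt t := hξ t ht2
  have hξρ : ‖ξ‖ ≤ ρ / 160 := by
    refine hξt.trans (le_trans ?_ haρ)
    nlinarith
  -- first term
  have hDb' : ∀ s ∈ St η, ‖Err X F s‖ ≤ e * Real.exp (-(2 * lam * |s.re|)) := by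
    intro s hs
    rw [← D6_wt_sq]
    exact hDb s hs
  obtain ⟨c1, -⟩ := cauchy_w (Err X F) η ρ e (2 * lam) (by linarith [hlam.1])
    (by linarith [hlam.2.1]) hρ (by linarith) hDd hDb'
  have t1 : ‖deriv (Err X F) t * h t‖ ≤ 8 * e / ρ * H * wt t ^ 2 := by
    have h1 := c1 t ht1
    rw [← D6_wt_sq] at h1
    have he0 : 0 ≤ 8 * e / ρ * wt t ^ 2 := (norm_nonneg _).trans h1
    rw [norm_mul]
    calc ‖deriv (Err X F) t‖ * ‖h t‖ ≤ (8 * e / ρ * wt t ^ 2) * H := by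
          gcongr
          exact hh t ht2
      _ = 8 * e / ρ * H * wt t ^ 2 := by ring
  -- second term
  have hball : Metric.ball (X t) (ρ / 80) ⊆ Tube η (ρ / 80) X := by
    intro x hx
    rw [Metric.mem_ball, dist_eq_norm] at hx
    exact ⟨t, ht0, hx⟩
  have t2 : ‖F (X t + ξ) - F (X t) - deriv F (X t) * ξ‖ ≤ M * a ^ 2 * wt t ^ 2 := by
    have h1 := taylor2 F (X t) ξ (ρ / 80) M hM (by linarith) (hF.diff.mono hball)
      (fun s hs => hF.d2 s (hball hs))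
    calc ‖F (X t + ξ) - F (X t) - deriv F (X t) * ξ‖ ≤ M * ‖ξ‖ ^ 2 := h1
      _ ≤ M * (a * wt t) ^ 2 := by gcongr
      _ = M * a ^ 2 * wt t ^ 2 := by ring
  -- third term
  have t3 : ‖δ (X t + ξ) - δ (X t)‖ ≤ 6 * b * a * wt t ^ 2 := by
    have hball2 : Metric.closedBall (X t) ‖ξ‖ ⊆ Tube (η - 2 * ρ) (ρ / 80) X := by
      intro x hx
      rw [Metric.mem_closedBall, dist_eq_norm] at hx
      exact ⟨t, ht2, by linarith⟩
    have h1 : ‖δ (X t + ξ) - δ (X t)‖ ≤ b * (6 * wt t) * ‖(X t + ξ) - X t‖ := by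
      refine (convex_closedBall (X t) ‖ξ‖).norm_image_sub_le_of_norm_deriv_le
        (fun z hz => hδd.differentiableAt
          ((D6_Tube_open (η - 2 * ρ) (ρ / 80) X).mem_nhds (hball2 hz))) (fun z hz => ?_) ?_ ?_
      · refine (hδ1 z (hball2 hz)).trans ?_
        gcongr
        rw [Metric.mem_closedBall, dist_eq_norm] at hz
        have h2 := D6_cc hXt (x := z) (by linarith)
        have h3 : a * wt t ≤ 1 / 1000 * wt t := by
          gcongr
          linarith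
        linarith
      · exact Metric.mem_closedBall_self (norm_nonneg _)
      · rw [Metric.mem_closedBall, dist_eq_norm, add_sub_cancel_left]
    rw [add_sub_cancel_left] at h1
    calc ‖δ (X t + ξ) - δ (X t)‖ ≤ b * (6 * wt t) * ‖ξ‖ := h1
      _ ≤ b * (6 * wt t) * (a * wt t) := by gcongr
      _ = 6 * b * a * wt t ^ 2 := by ring
  calc ‖deriv (Err X F) t * h t - (F (X t + ξ) - F (X t) - deriv F (X t) * ξ) -
        (δ (X t + ξ) - δ (X t))‖
      ≤ ‖deriv (Err X F) t * h t‖ + ‖F (X t + ξ) - F (X t) - deriv F (X t) * ξ‖ +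
        ‖δ (X t + ξ) - δ (X t)‖ :=
        (norm_sub_le _ _).trans (add_le_add (norm_sub_le _ _) le_rfl)
    _ ≤ 8 * e / ρ * H * wt t ^ 2 + M * a ^ 2 * wt t ^ 2 + 6 * b * a * wt t ^ 2 :=
        add_le_add (add_le_add t1 t2) t3
    _ = (8 * e / ρ * H + M * a ^ 2 + 6 * b * a) * wt t ^ 2 := by ring

/-
ROW D6 (STRONG, assembly of one Newton step).
Let ε₁ from inversion. D := Err X F: differentiable on St η (X(t) in Tube), Sym (X, F odd and real), |D| <= e wt^2.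
M := Mel X D, Per η, |M| <= C e (mel_per). m from inversion with ηa = η - ρ, |m| <= 2 C e, Mel X (δ∘X) = M on St (η-ρ), δ = dlt X m (η-ρ).
r t := deriv X t (δ (X t) - D t) on St (η-2ρ): by dlt_near (x = X t in the tube) |δ(X t)| <= C e/ρ |cc(X t)|^2 <= C e/ρ wt^2, so |r| <= C (e/ρ) wt^3;
∑ r(t+n) = M - M = 0 (summability: mel_per for D, and the same bound for δ∘X); Sym from GlobalCorr.odd/real and X.
homological on St (η-2ρ) (Good restricts to smaller strips): h, |h| <= C e/ρ. ξ = deriv X * h, |ξ| <= C (e/ρ) wt. Y = X + ξ.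
cauchy_w with k = lam on St(η-2ρ), loss ρ: |ξ'| <= C e/ρ^2 wt, |ξ''| <= C e/ρ^3 wt: Near (η-3ρ) (ε + C e/ρ^3) Y. Sym Y: deriv X even & real, h odd & real.
Tube: if x in Tube (η-3ρ) (ρ/160) Y then x in Tube (η-2ρ)(ρ/80) X and in Tube η (ρ/80) X as |ξ| <= C e/ρ <= ρ/160 (from the smallness hypothesis C e <= ρ^3, adjust
C). GoodF for F + δ: d2: M + C e/ρ^3.
New error by newton_identity: |Err' h| <= (8·e/ρ) wt^2 (cauchy_w, k = 2 lam <= 4/5) * C e/ρ; Taylor on the ball around X t of radius ρ/80: M |ξ|^2 <= M C e^2/ρ^2 wt^2;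
|δ(X+ξ) - δ(X)| <= |ξ| sup|δ'| on the segment <= C(e/ρ) wt * C e/ρ^2 * |cc x|, |cc x| <= |cc(X t)| + 2|ξ| <= C wt. Total <= C (1+M) e^2/ρ^3 wt^2.
All constants go into one C.
-/
theorem step : ∃ C ε₁ : ℝ, 1 ≤ C ∧ 0 < ε₁ ∧ ε₁ ≤ 1 / 2000 ∧ ∀ (X F : ℂ → ℂ) (η ρ ε e M : ℝ),
    0 < ρ → ρ ≤ 1 / 12 → 1 / 2 + 3 * ρ ≤ η → η ≤ 1 → 0 ≤ ε → 0 < e → 0 ≤ M →
    C * e ≤ ρ ^ 3 → ε + C * e / ρ ^ 3 ≤ ε₁ →
    Good η ε X → GoodF η (ρ / 80) M X F → (∀ t ∈ St η, ‖Err X F t‖ ≤ e * wt t ^ 2) →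
    ∃ Y δ : ℂ → ℂ, Good (η - 3 * ρ) (ε + C * e / ρ ^ 3) Y ∧
      (∀ t ∈ St (η - 3 * ρ), ‖Y t - X t‖ ≤ C * e / ρ ^ 3 * wt t) ∧
      GlobalCorr (C * e) δ ∧
      GoodF (η - 3 * ρ) (ρ / 160) (M + C * e / ρ ^ 3) Y (fun x => F x + δ x) ∧
      ∀ t ∈ St (η - 3 * ρ), ‖Err Y (fun x => F x + δ x) t‖ ≤ C * (1 + M) * e ^ 2 / ρ ^ 3 * wt t ^ 2 := by
  obtain ⟨ε₁, hε₁, hε₁', hinv⟩ := inversion
  obtain ⟨C1, hC1, hmel⟩ := mel_per
  obtain ⟨C2, hC2, hnear⟩ := dlt_near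
  obtain ⟨C3, hC3, hglob⟩ := dlt_global
  obtain ⟨C4, hC4, hhom⟩ := homological
  obtain ⟨K1, hK1⟩ : ∃ K1, K1 = 3 * (50 * C1 * C2 + 1) := ⟨_, rfl⟩
  obtain ⟨K2, hK2⟩ : ∃ K2, K2 = 3 * C4 * K1 := ⟨_, rfl⟩
  have hK1p : 0 < K1 := by rw [hK1]; positivity
  have hK2p : 0 < K2 := by rw [hK2]; positivity
  obtain ⟨C, hC⟩ : ∃ C, C = 1 + 256 * K2 + 2 * C1 * C3 + 2 * C1 * C2 + 8 * C4 * K1 + K2 ^ 2 +
      12 * C1 * C2 * K2 := ⟨_, rfl⟩
  have p1 : 0 < C1 * C3 := by positivity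
  have p2 : 0 < C1 * C2 := by positivity
  have p3 : 0 < C4 * K1 := by positivity
  have p4 : 0 < K2 ^ 2 := by positivity
  have p5 : 0 < C1 * C2 * K2 := by positivity
  have hC1' : 1 ≤ C := by rw [hC]; linarith
  have hC0 : 0 < C := by linarith
  refine ⟨C, ε₁, hC1', hε₁, hε₁', ?_⟩
  intro X F η ρ ε e M hρ hρ1 hη hη1 hε he hM hCe hsmall hX hF hErr
  have hρ3 : 0 < ρ ^ 3 := by positivity
  have hρle : ρ ≤ 1 := by linarith
  have hCe0 : 0 ≤ C * e / ρ ^ 3 := by positivity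
  have hεε : ε ≤ ε₁ := by linarith
  have hε' : ε ≤ 1 / 1000 := by linarith
  have hr80 : 0 < ρ / 80 := by positivity
  obtain ⟨hDd, hDs⟩ := D6_Err hr80 hX.near.diff hX.sym hF
  obtain ⟨hMper, hMb, -⟩ := hmel X (Err X F) η ε e (by linarith) hε hε' hX hDd hDs hErr
  obtain ⟨m, hmper, hmb, hmeq⟩ := hinv X (Mel X (Err X F)) η (η - ρ) ε (C1 * e) (by linarith)
    (by linarith) hη1 hε hεε hX hMper hMb
  obtain ⟨hδd, hδb⟩ := hnear X m η ρ ε (2 * (C1 * e)) hρ hρ1 hη hη1 hε hε' hX.near hmper.diff hmb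
  have hG := hglob X m η ρ ε (2 * (C1 * e)) hρ hρ1 hη hη1 hε hε' hX hmper hmb
  obtain ⟨δ, hδ⟩ : ∃ δ, δ = dlt X m (η - ρ) := ⟨_, rfl⟩
  rw [← hδ] at hδd hδb hG hmeq
  obtain ⟨h, hhd, hhs, hhb, hheq⟩ := D6_hom (C1 := C1) (C2 := C2) (C4 := C4) hC1 hC2 hC4 hmel hhom
    (X := X) (D := Err X F) (δ := δ) hρ hρle hη1 hε hε' he hX hDd hDs hErr hδd
    (fun x hx => (hδb x hx).1) hG.odd hG.real
    (fun t ht => hmeq t (D6_St_mono (by linarith) ht))
  rw [← hK1] at hhb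
  obtain ⟨nf, -, -⟩ := near_facts X η ε (by linarith) hε hε' hX.near
  have hsub : St (η - 2 * ρ) ⊆ St η := D6_St_mono (by linarith)
  -- the displacement
  obtain ⟨a, ha⟩ : ∃ a, a = K2 * e / ρ := ⟨_, rfl⟩
  have ha0 : 0 ≤ a := by rw [ha]; positivity
  have hξ : ∀ t ∈ St (η - 2 * ρ), ‖deriv X t * h t‖ ≤ a * wt t := by
    intro t ht
    have h1 := (nf t (hsub ht)).2.1
    have h2 := hhb t ht
    have hw := D6_wt_pos t
    rw [norm_mul]
    calc ‖deriv X t‖ * ‖h t‖ ≤ (3 * wt t) * (C4 * (K1 * e / ρ)) := by gcongr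
      _ = a * wt t := by rw [ha, hK2]; ring
  have hξd : DifferentiableOn ℂ (fun t => deriv X t * h t) (St (η - 2 * ρ)) :=
    ((hX.near.diff.deriv (D6_St_open η)).mono hsub).mul hhd
  have hρ3' : ρ ^ 3 ≤ ρ ^ 2 := by nlinarith [sq_nonneg ρ]
  have hρ2' : ρ ^ 2 ≤ ρ := by nlinarith
  have haρ : a ≤ ρ / 160 := by
    have h1 : 256 * K2 * e ≤ ρ ^ 3 := by
      refine le_trans ?_ hCe
      have : 256 * K2 ≤ C := by rw [hC]; linarith
      gcongr
    rw [ha, div_le_iff₀ hρ]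
    nlinarith [mul_pos hK2p he]
  have hab : 256 * a / ρ ^ 2 ≤ C * e / ρ ^ 3 := by
    have h1 : 256 * a / ρ ^ 2 = 256 * K2 * e / ρ ^ 3 := by
      rw [ha]
      field_simp
    rw [h1]
    have : 256 * K2 ≤ C := by rw [hC]; linarith
    gcongr
  have haC : a ≤ C * e / ρ ^ 3 := by
    refine le_trans ?_ hab
    rw [le_div_iff₀ (by positivity)]
    nlinarith
  have e23 : η - 2 * ρ - ρ = η - 3 * ρ := by ring
  have hNear : Near (η - 3 * ρ) (ε + C * e / ρ ^ 3) (fun s => X s + deriv X s * h s) := by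
    rw [← e23]
    exact D6_near hX.near (by linarith) hρ hρle ha0 hξd hξ hab
  have hsub3 : St (η - 3 * ρ) ⊆ St (η - 2 * ρ) := D6_St_mono (by linarith)
  have hYX : ∀ t ∈ St (η - 3 * ρ), ‖(X t + deriv X t * h t) - X t‖ ≤ a * wt t := by
    intro t ht
    rw [add_sub_cancel_left]
    exact hξ t (hsub3 ht)
  refine ⟨fun s => X s + deriv X s * h s, δ, ⟨hNear, ⟨fun t ht => ?_, fun t ht => ?_⟩⟩,
    fun t ht => ?_, ?_, ?_, fun t ht => ?_⟩
  · change X (-t) + deriv X (-t) * h (-t) = -(X t + deriv X t * h t)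
    rw [hX.sym.odd t (hsub (hsub3 ht)), D6_deriv_even hX.sym (hsub (hsub3 ht)),
      hhs.odd t (hsub3 ht)]
    ring
  · change X (conj t) + deriv X (conj t) * h (conj t) = conj (X t + deriv X t * h t)
    rw [hX.sym.real t (hsub (hsub3 ht)), D6_deriv_real hX.sym (hsub (hsub3 ht)),
      hhs.real t (hsub3 ht), map_add, map_mul]
  · have hw := D6_wt_pos t
    exact (hYX t ht).trans (by gcongr)
  · refine ⟨hG.diff, fun x hx => (hG.bound x hx).trans ?_, hG.per, hG.odd, hG.real, hG.zero,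
      hG.dzero⟩
    have : 2 * C1 * C3 ≤ C := by rw [hC]; linarith
    calc C3 * (2 * (C1 * e)) = (2 * C1 * C3) * e := by ring
      _ ≤ C * e := by gcongr
  · refine D6_GoodF (b := C2 * (2 * (C1 * e)) / ρ ^ 3) hρ hF (fun t ht => ?_) hδd
      (fun x hx => (hδb x hx).2.2) ?_ hG.odd hG.real
    · refine (hYX t ht).trans (le_trans ?_ haρ)
      have := D6_wt_le t
      nlinarith
    · have : 2 * C1 * C2 ≤ C := by rw [hC]; linarith
      have h1 : C2 * (2 * (C1 * e)) = (2 * C1 * C2) * e := by ring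
      rw [h1]
      gcongr
  · have hE := D6_err (b := C2 * (2 * (C1 * e)) / ρ ^ 2) hρ hρ1 hη1 hε hε' hM (by positivity) ha0 haρ
      (by positivity) hX hF hErr hδd (fun x hx => (hδb x hx).2.1) hhb hξ hheq t ht
    refine hE.trans ?_
    have hw := D6_wt_pos t
    gcongr
    have q1 : 8 * e / ρ * (C4 * (K1 * e / ρ)) ≤ 8 * C4 * K1 * e ^ 2 / ρ ^ 3 := by
      have h1 : 8 * e / ρ * (C4 * (K1 * e / ρ)) = 8 * C4 * K1 * e ^ 2 / ρ ^ 2 := by
        field_simp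
      rw [h1]
      gcongr
    have q2 : M * a ^ 2 ≤ M * (K2 ^ 2 * e ^ 2 / ρ ^ 3) := by
      gcongr
      have h1 : a ^ 2 = K2 ^ 2 * e ^ 2 / ρ ^ 2 := by
        rw [ha]
        field_simp
      rw [h1]
      gcongr
    have q3 : 6 * (C2 * (2 * (C1 * e)) / ρ ^ 2) * a = 12 * C1 * C2 * K2 * e ^ 2 / ρ ^ 3 := by
      rw [ha]
      field_simp
      ring
    rw [q3]
    have hq : 0 ≤ e ^ 2 / ρ ^ 3 := by positivity
    calc 8 * e / ρ * (C4 * (K1 * e / ρ)) + M * a ^ 2 + 12 * C1 * C2 * K2 * e ^ 2 / ρ ^ 3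
        ≤ 8 * C4 * K1 * e ^ 2 / ρ ^ 3 + M * (K2 ^ 2 * e ^ 2 / ρ ^ 3) +
          12 * C1 * C2 * K2 * e ^ 2 / ρ ^ 3 := by linarith
      _ = (8 * C4 * K1 + 12 * C1 * C2 * K2 + M * K2 ^ 2) * (e ^ 2 / ρ ^ 3) := by ring
      _ ≤ (C * (1 + M)) * (e ^ 2 / ρ ^ 3) := by
        gcongr
        have h1 : 8 * C4 * K1 + 12 * C1 * C2 * K2 ≤ C := by rw [hC]; linarith
        have h2 : K2 ^ 2 ≤ C := by rw [hC]; linarith
        nlinarith [mul_le_mul_of_nonneg_left h2 hM]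
      _ = C * (1 + M) * e ^ 2 / ρ ^ 3 := by ring

end LibEY38
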