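import Mathlib

/-!
# LibEY38: an analytic standard map with an exact link (block (a) of MP_be9500_an)

Reference: the integrable Suris map with cos a = 3/5, sinh (lam/2) = 1/5.
-/

open Complex Set Filter Topology MeasureTheory
open scoped ComplexConjugate

namespace LibEY38

noncomputable section

/-- `lam = 2 arsinh (1/5)` (about 0.39738) -/
def lam : ℝ := 2 * Real.arsinh (1 / 5)

/-- `kap = e^lam` (about 1.48792), `kap + 1/kap = 54/25` -/
def kap : ℝ := Real.exp lam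

/-- `aa = arccos (3/5)` (about 0.9273) -/
def aa : ℝ := Real.arccos (3 / 5)

/-- the open strip of half width `η` -/
def St (η : ℝ) : Set ℂ := {t | |t.im| < η}

/-- the weight `e^{-lam |Re t|}` -/
def wt (t : ℂ) : ℝ := Real.exp (-(lam * |t.re|))

/-- the reference link `2 arctan (tanh (lam t / 2) / 2)` -/
def X0 (t : ℂ) : ℂ := 2 * Complex.arctan (Complex.tanh (lam * t / 2) / 2)

/-- `cos x - cos a` -/
def cc (x : ℂ) : ℂ := Complex.cos x - 3 / 5

/-- `1 + 2 q^2 e^{ix} (cos x - cos a)`, `q = 1/4` -/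
def Wf (x : ℂ) : ℂ := 1 + Complex.exp (I * x) * cc x / 8

/-- the (complex) Suris function -/
def FS (x : ℂ) : ℂ := 2 * x + I * (Complex.log (Wf x) - Complex.log (Wf (-x)))

/-- curves `ε`-close to the reference link on the strip, with two derivatives -/
structure Near (η ε : ℝ) (X : ℂ → ℂ) : Prop where
  diff : DifferentiableOn ℂ X (St η)
  c0 : ∀ t ∈ St η, ‖X t - X0 t‖ ≤ ε * wt t
  c1 : ∀ t ∈ St η, ‖deriv X t - deriv X0 t‖ ≤ ε * wt t
  c2 : ∀ t ∈ St η, ‖deriv (deriv X) t - deriv (deriv X0) t‖ ≤ ε * wt t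

/-- odd and real on the strip -/
structure Sym (η : ℝ) (f : ℂ → ℂ) : Prop where
  odd : ∀ t ∈ St η, f (-t) = -f t
  real : ∀ t ∈ St η, f (conj t) = conj (f t)

/-- near, odd, real -/
structure Good (η ε : ℝ) (X : ℂ → ℂ) : Prop where
  near : Near η ε X
  sym : Sym η X

/-- analytic, 1-periodic, odd, real on the strip -/
structure Per (η : ℝ) (m : ℂ → ℂ) : Prop where
  diff : DifferentiableOn ℂ m (St η)
  per : ∀ t ∈ St η, m (t + 1) = m t
  sym : Sym η m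

/-- `(1/2) cot (s/2)` -/
def kc (s : ℂ) : ℂ := Complex.cos (s / 2) / (2 * Complex.sin (s / 2))

/-- the kernel: simple pole at `x = y`, double zeros at `x = ± a`, `2 π`-periodic in `x` -/
def Ker (x y : ℂ) : ℂ := kc (y - x) * (cc x / cc y) ^ 2

/-- `g(t, τ) = X'(t) Ker(X t, X τ)` -/
def gX (X : ℂ → ℂ) (t τ : ℂ) : ℂ := deriv X t * Ker (X t) (X τ)

/-- `(1/2πi) (∫ over the lower segment - ∫ over the upper segment)`, `|Re τ| ≤ 1/2`, `Im τ = ∓ η` -/
def arc (η : ℝ) (f : ℂ → ℂ) : ℂ :=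
  (1 / (2 * (Real.pi : ℂ) * I)) *
    ((∫ r in (-(1 / 2) : ℝ)..(1 / 2), f ((r : ℂ) - (η : ℂ) * I)) -
      ∫ r in (-(1 / 2) : ℝ)..(1 / 2), f ((r : ℂ) + (η : ℂ) * I))

/-- the correction `δ(x) = arc of m(τ) Ker(x, X τ)` -/
def dlt (X m : ℂ → ℂ) (η : ℝ) (x : ℂ) : ℂ := arc η (fun τ => m τ * Ker x (X τ))

/-- the Melnikov sum `∑ X'(t+n) D(t+n)` -/
def Mel (X D : ℂ → ℂ) (t : ℂ) : ℂ := ∑' n : ℤ, deriv X (t + n) * D (t + n)

/-- `J(s, τ) = g(s, τ) - 1/(τ - s)`, extended analytically to `s = τ` -/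
def JX (X : ℂ → ℂ) (s τ : ℂ) : ℂ :=
  -dslope (fun z => if z = τ then 1 else gX X z τ * (τ - z)) τ s

/-- the regular part of the periodised kernel -/
def KX (X : ℂ → ℂ) (t τ : ℂ) : ℂ :=
  JX X t τ + ∑' n : ℕ, (JX X (t + (n + 1)) τ + JX X (t - (n + 1)) τ)

/-- admissible poles: `|Re τ| ≤ 1/2`, `|Im τ| ≤ 1` -/
def Pole (τ : ℂ) : Prop := |τ.re| ≤ 1 / 2 ∧ |τ.im| ≤ 1

/-- the tube of radius `r` around the curve `X (St η)` -/
def Tube (η r : ℝ) (X : ℂ → ℂ) : Set ℂ := {x | ∃ t ∈ St η, ‖x - X t‖ < r}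

/-- `F` is analytic, odd, real with second derivative at most `M` on the tube -/
structure GoodF (η r M : ℝ) (X F : ℂ → ℂ) : Prop where
  diff : DifferentiableOn ℂ F (Tube η r X)
  odd : ∀ x ∈ Tube η r X, F (-x) = -F x
  real : ∀ x ∈ Tube η r X, F (conj x) = conj (F x)
  d2 : ∀ x ∈ Tube η r X, ‖deriv (deriv F) x‖ ≤ M

/-- a global correction: periodic, odd, real, analytic and at most `B` near the real axis, double zero at `a` -/
structure GlobalCorr (B : ℝ) (δ : ℂ → ℂ) : Prop where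
  diff : DifferentiableOn ℂ δ (St (1 / 25))
  bound : ∀ x ∈ St (1 / 25), ‖δ x‖ ≤ B
  per : ∀ x, δ (x + 2 * Real.pi) = δ x
  odd : ∀ x, δ (-x) = -δ x
  real : ∀ x, δ (conj x) = conj (δ x)
  zero : δ aa = 0
  dzero : deriv δ aa = 0

/-- the error of the link equation -/
def Err (X F : ℂ → ℂ) (t : ℂ) : ℂ := X (t + 1) + X (t - 1) - F (X t)

/-- the local neighbourhood of the eye -/
def NN : Set ℂ := {x | |x.re| < 1 ∧ |x.im| < 1 / 4}

/-- The final map: complex function `Fc` (restriction to the reals is the force `F`), link curve `X`;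
`ε` measures the distance to the Suris map near the eye and to the reference link. -/
structure EyeMap (ε : ℝ) (N : ℕ) (Fc X : ℂ → ℂ) : Prop where
  npos : 1 ≤ N
  diff : DifferentiableOn ℂ Fc (St (1 / 25))
  odd : ∀ x ∈ St (1 / 25), Fc (-x) = -Fc x
  real : ∀ x ∈ St (1 / 25), Fc (conj x) = conj (Fc x)
  per : ∀ x ∈ St (1 / 25), Fc (x + 2 * Real.pi) = Fc x + 2 * Real.pi * (N + 2)
  close : ∀ x : ℂ, |x.re| ≤ 19 / 20 → |x.im| < 1 / 25 → ‖Fc x - FS x‖ ≤ ε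
  faa : Fc aa = 2 * aa
  dfaa : deriv Fc aa = 54 / 25
  dpos : ∀ x : ℝ, 1 ≤ (deriv Fc x).re
  convex : ∀ x : ℝ, 0 ≤ x → x ≤ 6 / 5 → x / 20 ≤ (deriv (deriv Fc) x).re
  d0 : 9 / 5 < (deriv Fc 0).re ∧ (deriv Fc 0).re < 39 / 20
  big : ∀ x : ℝ, 6 / 5 ≤ x → x ≤ Real.pi → 149 / 50 < (deriv Fc x).re
  wrap : (Fc (6 / 5)).re + 12 / 5 < 2 * Real.pi
  good : Good (1 / 2) ε X
  link : ∀ t : ℝ, X (t + 1) + X (t - 1) = Fc (X t)

end

end LibEY38
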