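import Pool.Agent.LibEY38.Defs
import Pool.Agent.LibEY38.A1
import Pool.Agent.LibEY38.B3
import Pool.Agent.LibEY38.B4
import Pool.Agent.LibEY38.B5
import Pool.Agent.LibEY38.B2

open Complex Set Filter Topology MeasureTheory
open scoped ComplexConjugate

namespace LibEY38

/-
ROW E0 (MEDIUM). The starting point of the iteration.
err0: Err X0 (FS + G) t = -G(X0 t) by FS_X0. G has double zeros at ±aa (odd): on the ball B(aa, 1/20) ⊂ NN (aa < 19/20) |G x| <= ε (20|x-aa|)^2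
(Schwarz lemma applied to dslope twice, or Taylor / Cauchy: G'' bounded by C ε on the smaller ball, taylor), same at -aa; away from the two points |G| <= ε is
enough. |X0 t ∓ aa| <= 6 wt t (X0_bounds), and if 6 wt t >= 1/20·(1/2) then wt t is bounded below. So |G(X0 t)| <= C ε wt^2.
X0 t ∈ NN for t ∈ St 1 (X0_lens).
good0: Tube 1 (1/960) X0 ⊂ {|Re| < 24/25, |Im| < 11/50} ⊂ NN ∩ St (2/5); second derivative of G by Cauchy on balls of radius 1/100 ⊂ NN: <= C ε <= 1 if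
ε <= ε₀; FS_d2_bound for FS. odd/real: FS_sym and the hypotheses. near0: differences are zero.
-/

private lemma E0_St_mono {a b : ℝ} (h : a ≤ b) : St a ⊆ St b := fun t ht =>
  lt_of_lt_of_le (show |t.im| < a from ht) h

theorem near0 : Good 1 0 X0 := by
  refine ⟨⟨X0_ode.1.mono (E0_St_mono (by norm_num)), ?_, ?_, ?_⟩, ⟨?_, ?_⟩⟩
  · intro t _; simp
  · intro t _; simp
  · intro t _; simp
  · intro t ht; exact X0_sym.odd t (E0_St_mono (by norm_num) ht)
  · intro t ht; exact X0_sym.real t (E0_St_mono (by norm_num) ht)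

private lemma E0_NN_open : IsOpen NN := by
  have h1 : IsOpen {x : ℂ | |x.re| < 1} :=
    isOpen_lt (continuous_abs.comp Complex.continuous_re) continuous_const
  have h2 : IsOpen {x : ℂ | |x.im| < 1 / 4} :=
    isOpen_lt (continuous_abs.comp Complex.continuous_im) continuous_const
  exact h1.inter h2

private lemma E0_St_open (η : ℝ) : IsOpen (St η) :=
  isOpen_lt (continuous_abs.comp Complex.continuous_im) continuous_const

private lemma E0_NN_neg {x : ℂ} (hx : x ∈ NN) : -x ∈ NN := by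
  refine ⟨?_, ?_⟩
  · show |(-x).re| < 1
    rw [Complex.neg_re, abs_neg]; exact hx.1
  · show |(-x).im| < 1 / 4
    rw [Complex.neg_im, abs_neg]; exact hx.2

private lemma E0_near {x y : ℂ} {r A B : ℝ} (h : ‖x - y‖ ≤ r) (h1 : |y.re| ≤ A) (h2 : |y.im| ≤ B) :
    |x.re| ≤ A + r ∧ |x.im| ≤ B + r := by
  have h3 : |(x - y).re| ≤ r := le_trans (Complex.abs_re_le_norm _) h
  have h4 : |(x - y).im| ≤ r := le_trans (Complex.abs_im_le_norm _) h
  rw [Complex.sub_re] at h3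
  rw [Complex.sub_im] at h4
  rw [abs_le] at h1 h2 h3 h4 ⊢
  rw [abs_le]
  refine ⟨⟨?_, ?_⟩, ?_, ?_⟩ <;> linarith [h1.1, h1.2, h2.1, h2.2, h3.1, h3.2, h4.1, h4.2]

/-- Cauchy estimate for the second derivative -/
private lemma E0_cauchy {G : ℂ → ℂ} {ε r : ℝ} (hr : 0 < r) {x : ℂ}
    (hG : DifferentiableOn ℂ G NN) (hb : ∀ y ∈ NN, ‖G y‖ ≤ ε)
    (hx : Metric.closedBall x r ⊆ NN) : ‖deriv (deriv G) x‖ ≤ 2 * ε / r ^ 2 := by
  have h1 : DiffContOnCl ℂ G (Metric.ball x r) := by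
    apply DifferentiableOn.diffContOnCl
    rw [closure_ball x hr.ne']
    exact hG.mono hx
  have h2 := Complex.norm_iteratedDeriv_le_of_forall_mem_sphere_norm_le 2 hr h1
    (C := ε) (fun z hz => hb z (hx (Metric.sphere_subset_closedBall hz)))
  have h3 : iteratedDeriv 2 G x = deriv (deriv G) x := by
    rw [iteratedDeriv_succ, iteratedDeriv_one]
  rw [h3] at h2
  simpa [Nat.factorial] using h2

private lemma E0_quad {G : ℂ → ℂ} {ε : ℝ} (hε : 0 < ε)
    (hG : DifferentiableOn ℂ G NN) (hb : ∀ y ∈ NN, ‖G y‖ ≤ ε)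
    (h0 : G aa = 0) (h0' : deriv G aa = 0) {x : ℂ} (hx : x ∈ NN) :
    ‖G x‖ ≤ 3200 * ε * ‖x - aa‖ ^ 2 := by
  obtain ⟨_, _, _, _, _, _, _, _, _, ha1, ha2⟩ := numbers
  rcases le_or_gt (1 / 40) ‖x - aa‖ with h | h
  · have h1 : (1 / 40 : ℝ) ^ 2 ≤ ‖x - aa‖ ^ 2 := by gcongr
    calc ‖G x‖ ≤ ε := hb x hx
      _ ≤ 3200 * ε * (1 / 40) ^ 2 := by nlinarith
      _ ≤ 3200 * ε * ‖x - aa‖ ^ 2 := by gcongr
  · -- balls
    have hball : ∀ y ∈ Metric.ball (aa : ℂ) (1 / 40), Metric.closedBall y (1 / 40) ⊆ NN := by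
      intro y hy z hz
      rw [Metric.mem_ball, dist_eq_norm] at hy
      rw [Metric.mem_closedBall, dist_eq_norm] at hz
      have h3 : ‖z - (aa : ℂ)‖ < 1 / 20 := by
        calc ‖z - (aa : ℂ)‖ = ‖(z - y) + (y - aa)‖ := by ring_nf
          _ ≤ ‖z - y‖ + ‖y - aa‖ := norm_add_le _ _
          _ < 1 / 20 := by linarith
      have h4 := Complex.abs_re_le_norm (z - (aa : ℂ))
      have h5 := Complex.abs_im_le_norm (z - (aa : ℂ))
      rw [Complex.sub_re, Complex.ofReal_re] at h4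
      rw [Complex.sub_im, Complex.ofReal_im, sub_zero] at h5
      have h4' := abs_le.1 h4
      refine ⟨?_, ?_⟩
      · show |z.re| < 1
        rw [abs_lt]; constructor <;> linarith [h4'.1, h4'.2]
      · show |z.im| < 1 / 4
        linarith
    have hsub : Metric.ball (aa : ℂ) (1 / 40) ⊆ NN := fun y hy =>
      hball y hy (Metric.mem_closedBall_self (by norm_num))
    have hd2 : ∀ y ∈ Metric.ball (aa : ℂ) (1 / 40), ‖deriv (deriv G) y‖ ≤ 3200 * ε := by
      intro y hy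
      have := E0_cauchy (by norm_num : (0 : ℝ) < 1 / 40) hG hb (hball y hy)
      calc ‖deriv (deriv G) y‖ ≤ 2 * ε / (1 / 40) ^ 2 := this
        _ = 3200 * ε := by ring
    have hGat : ∀ y ∈ Metric.ball (aa : ℂ) (1 / 40), DifferentiableAt ℂ G y := fun y hy =>
      (hG y (hsub hy)).differentiableAt (E0_NN_open.mem_nhds (hsub hy))
    have hG'at : ∀ y ∈ Metric.ball (aa : ℂ) (1 / 40), DifferentiableAt ℂ (deriv G) y := by
      intro y hy
      exact ((hG.deriv E0_NN_open) y (hsub hy)).differentiableAt (E0_NN_open.mem_nhds (hsub hy))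
    have haa : (aa : ℂ) ∈ Metric.ball (aa : ℂ) (1 / 40) := Metric.mem_ball_self (by norm_num)
    have hx' : x ∈ Metric.ball (aa : ℂ) (1 / 40) := by
      rw [Metric.mem_ball, dist_eq_norm]; exact h
    -- first derivative
    have hd1 : ∀ y ∈ Metric.ball (aa : ℂ) (1 / 40), ‖deriv G y‖ ≤ 3200 * ε * ‖y - aa‖ := by
      intro y hy
      have := (convex_ball (aa : ℂ) (1 / 40)).norm_image_sub_le_of_norm_deriv_le hG'at hd2 haa hy
      rwa [h0', sub_zero] at this
    -- on the smaller ball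
    set s := ‖x - (aa : ℂ)‖ with hs
    have hd1' : ∀ y ∈ Metric.closedBall (aa : ℂ) s, ‖deriv G y‖ ≤ 3200 * ε * s := by
      intro y hy
      rw [Metric.mem_closedBall, dist_eq_norm] at hy
      have hy' : y ∈ Metric.ball (aa : ℂ) (1 / 40) := by
        rw [Metric.mem_ball, dist_eq_norm]; linarith
      calc ‖deriv G y‖ ≤ 3200 * ε * ‖y - aa‖ := hd1 y hy'
        _ ≤ 3200 * ε * s := by gcongr
    have hat : ∀ y ∈ Metric.closedBall (aa : ℂ) s, DifferentiableAt ℂ G y := by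
      intro y hy
      rw [Metric.mem_closedBall, dist_eq_norm] at hy
      exact hGat y (by rw [Metric.mem_ball, dist_eq_norm]; linarith)
    have hfin := (convex_closedBall (aa : ℂ) s).norm_image_sub_le_of_norm_deriv_le hat hd1'
      (Metric.mem_closedBall_self (norm_nonneg _))
      (by rw [Metric.mem_closedBall, dist_eq_norm] : x ∈ Metric.closedBall (aa : ℂ) s)
    rw [h0, sub_zero] at hfin
    calc ‖G x‖ ≤ 3200 * ε * s * ‖x - aa‖ := hfin
      _ = 3200 * ε * s ^ 2 := by rw [← hs]; ring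

theorem start : ∃ C ε₀ M : ℝ, 0 < C ∧ 0 < ε₀ ∧ 0 < M ∧ ∀ (G : ℂ → ℂ) (ε : ℝ), 0 < ε → ε ≤ ε₀ →
    DifferentiableOn ℂ G NN → (∀ x ∈ NN, ‖G x‖ ≤ ε) → (∀ x ∈ NN, G (-x) = -G x) →
    (∀ x ∈ NN, G (conj x) = conj (G x)) → G aa = 0 → deriv G aa = 0 →
    GoodF 1 (1 / 960) M X0 (fun x => FS x + G x) ∧
    ∀ t ∈ St 1, ‖Err X0 (fun x => FS x + G x) t‖ ≤ C * ε * wt t ^ 2 := by
  obtain ⟨M1, hM1, hM⟩ := FS_d2_bound
  refine ⟨115200, 1, M1 + 20000, by norm_num, by norm_num, by linarith, ?_⟩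
  intro G ε hε hε1 hG hb hodd hreal h0 h0'
  -- the tube
  have htube : ∀ x ∈ Tube 1 (1 / 960) X0, |x.re| ≤ 24 / 25 ∧ |x.im| ≤ 11 / 50 := by
    rintro x ⟨t, ht, hxt⟩
    obtain ⟨h1, h2⟩ := X0_lens t ht
    obtain ⟨h3, h4⟩ := E0_near hxt.le h1 h2
    constructor <;> linarith
  have htNN : ∀ x ∈ Tube 1 (1 / 960) X0, x ∈ NN := fun x hx =>
    ⟨lt_of_le_of_lt (htube x hx).1 (by norm_num), lt_of_le_of_lt (htube x hx).2 (by norm_num)⟩
  have htSt : ∀ x ∈ Tube 1 (1 / 960) X0, x ∈ St (2 / 5) := fun x hx =>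
    lt_of_le_of_lt (htube x hx).2 (by norm_num)
  have htSt' : ∀ x ∈ Tube 1 (1 / 960) X0, x ∈ St (1 / 2) := fun x hx =>
    E0_St_mono (by norm_num) (htSt x hx)
  refine ⟨⟨?_, ?_, ?_, ?_⟩, ?_⟩
  · exact (FS_diff.mono htSt').add (hG.mono htNN)
  · intro x hx
    show FS (-x) + G (-x) = -(FS x + G x)
    rw [FS_sym.odd x (htSt' x hx), hodd x (htNN x hx)]
    ring
  · intro x hx
    show FS (conj x) + G (conj x) = conj (FS x + G x)
    rw [FS_sym.real x (htSt' x hx), hreal x (htNN x hx), map_add]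
  · intro x hx
    have hU : IsOpen (NN ∩ St (1 / 2)) := E0_NN_open.inter (E0_St_open _)
    have hxU : x ∈ NN ∩ St (1 / 2) := ⟨htNN x hx, htSt' x hx⟩
    have hF1 : ∀ y ∈ NN ∩ St (1 / 2), DifferentiableAt ℂ FS y := fun y hy =>
      (FS_diff y hy.2).differentiableAt ((E0_St_open _).mem_nhds hy.2)
    have hG1 : ∀ y ∈ NN ∩ St (1 / 2), DifferentiableAt ℂ G y := fun y hy =>
      (hG y hy.1).differentiableAt (E0_NN_open.mem_nhds hy.1)
    have hev : deriv (fun y => FS y + G y) =ᶠ[𝓝 x] fun y => deriv FS y + deriv G y := by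
      filter_upwards [hU.mem_nhds hxU] with y hy
      exact deriv_add (hF1 y hy) (hG1 y hy)
    have hF2 : DifferentiableAt ℂ (deriv FS) x :=
      ((FS_diff.deriv (E0_St_open _)) x hxU.2).differentiableAt ((E0_St_open _).mem_nhds hxU.2)
    have hG2 : DifferentiableAt ℂ (deriv G) x :=
      ((hG.deriv E0_NN_open) x hxU.1).differentiableAt (E0_NN_open.mem_nhds hxU.1)
    have hd : deriv (deriv fun y => FS y + G y) x = deriv (deriv FS) x + deriv (deriv G) x := by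
      rw [hev.deriv_eq]
      exact deriv_add hF2 hG2
    rw [hd]
    have hball : Metric.closedBall x (1 / 100) ⊆ NN := by
      intro z hz
      rw [Metric.mem_closedBall, dist_eq_norm] at hz
      obtain ⟨h3, h4⟩ := E0_near hz (htube x hx).1 (htube x hx).2
      exact ⟨lt_of_le_of_lt h3 (by norm_num), lt_of_le_of_lt h4 (by norm_num)⟩
    have h5 := E0_cauchy (by norm_num : (0 : ℝ) < 1 / 100) hG hb hball
    have h6 : 2 * ε / (1 / 100) ^ 2 ≤ 20000 := by
      have : 2 * ε / (1 / 100) ^ 2 = 20000 * ε := by ring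
      rw [this]; linarith
    calc ‖deriv (deriv FS) x + deriv (deriv G) x‖
        ≤ ‖deriv (deriv FS) x‖ + ‖deriv (deriv G) x‖ := norm_add_le _ _
      _ ≤ M1 + 20000 := add_le_add (hM x (htSt x hx)) (h5.trans h6)
  · intro t ht
    have ht7 : t ∈ St (7 / 2) := E0_St_mono (by norm_num) ht
    have hE : Err X0 (fun x => FS x + G x) t = -G (X0 t) := by
      show X0 (t + 1) + X0 (t - 1) - (FS (X0 t) + G (X0 t)) = -G (X0 t)
      rw [FS_X0 t ht7]; ring
    rw [hE, norm_neg]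
    obtain ⟨hl1, hl2⟩ := X0_lens t ht
    have hNN : X0 t ∈ NN :=
      ⟨lt_of_le_of_lt hl1 (by norm_num), lt_of_le_of_lt hl2 (by norm_num)⟩
    obtain ⟨_, _, _, _, hp, hm, _, _⟩ := X0_bounds t ht7
    have hw : 0 ≤ wt t := (Real.exp_pos _).le
    rcases le_total 0 t.re with h | h
    · calc ‖G (X0 t)‖ ≤ 3200 * ε * ‖X0 t - aa‖ ^ 2 := E0_quad hε hG hb h0 h0' hNN
        _ ≤ 3200 * ε * (6 * wt t) ^ 2 := by
            have := hp h
            gcongr
        _ = 115200 * ε * wt t ^ 2 := by ring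
    · have h1 : ‖G (X0 t)‖ = ‖G (-(X0 t))‖ := by rw [hodd _ hNN, norm_neg]
      have h2 : ‖-(X0 t) - (aa : ℂ)‖ = ‖X0 t + aa‖ := by
        rw [← norm_neg]; congr 1; ring
      calc ‖G (X0 t)‖ = ‖G (-(X0 t))‖ := h1
        _ ≤ 3200 * ε * ‖-(X0 t) - (aa : ℂ)‖ ^ 2 := E0_quad hε hG hb h0 h0' (E0_NN_neg hNN)
        _ = 3200 * ε * ‖X0 t + aa‖ ^ 2 := by rw [h2]
        _ ≤ 3200 * ε * (6 * wt t) ^ 2 := by
            have := hm h
            gcongr
        _ = 115200 * ε * wt t ^ 2 := by ring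

end LibEY38
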