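import Pool.Agent.LibEY38.Defs
import Pool.Agent.LibEY38.D6
import Pool.Agent.LibEY38.E0

open Complex Set Filter Topology MeasureTheory
open scoped ComplexConjugate

namespace LibEY38

private theorem E1_seq {A B : Type} [AddCommMonoid B] (P : ℕ → A → B → Prop)
    (R : ℕ → A → A → B → Prop) (x0 : A) (h0 : P 0 x0 0)
    (hstep : ∀ j X Δ, P j X Δ → ∃ (Y : A) (δ : B), P (j + 1) Y (Δ + δ) ∧ R j X Y δ) :
    ∃ (Xs : ℕ → A) (δs : ℕ → B), ∀ j, P j (Xs j) (∑ i ∈ Finset.range j, δs i) ∧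
      R j (Xs j) (Xs (j + 1)) (δs j) := by
  have hA : Nonempty A := ⟨x0⟩
  have hB : Nonempty B := ⟨0⟩
  choose! Y δ hP hR using hstep
  let st : ℕ → A × B := fun n =>
    Nat.rec (x0, 0) (fun j p => (Y j p.1 p.2, p.2 + δ j p.1 p.2)) n
  have hst : ∀ j, P j (st j).1 (st j).2 := by
    intro j
    induction j with
    | zero => exact h0
    | succ j ih => exact hP j _ _ ih
  have hsum : ∀ j, (st j).2 = ∑ i ∈ Finset.range j, δ i (st i).1 (st i).2 := by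
    intro j
    induction j with
    | zero => rfl
    | succ j ih =>
      rw [Finset.sum_range_succ, ← ih]
  refine ⟨fun j => (st j).1, fun j => δ j (st j).1 (st j).2, fun j => ⟨?_, ?_⟩⟩
  · rw [← hsum j]
    exact hst j
  · exact hR j _ _ (hst j)

private theorem E1_wt_nonneg (t : ℂ) : 0 ≤ wt t := (Real.exp_pos _).le

private theorem E1_wt_le (t : ℂ) : wt t ≤ 1 := by
  unfold wt
  rw [Real.exp_le_one_iff]
  have h1 : 0 ≤ lam := by
    unfold lam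
    have := Real.arsinh_nonneg_iff.mpr (show (0 : ℝ) ≤ 1 / 5 by norm_num)
    linarith
  have := mul_nonneg h1 (abs_nonneg t.re)
  linarith

private theorem E1_St_mono {a b : ℝ} (h : a ≤ b) : St a ⊆ St b := fun _ ht => lt_of_lt_of_le ht h

private theorem E1_good {η η' ε ε' : ℝ} {X : ℂ → ℂ} (h : Good η ε X) (hη : η' ≤ η) (hε : ε ≤ ε') :
    Good η' ε' X := by
  refine ⟨⟨h.near.diff.mono (E1_St_mono hη), ?_, ?_, ?_⟩, ?_, ?_⟩
  · exact fun t ht => (h.near.c0 t (E1_St_mono hη ht)).trans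
      (mul_le_mul_of_nonneg_right hε (E1_wt_nonneg t))
  · exact fun t ht => (h.near.c1 t (E1_St_mono hη ht)).trans
      (mul_le_mul_of_nonneg_right hε (E1_wt_nonneg t))
  · exact fun t ht => (h.near.c2 t (E1_St_mono hη ht)).trans
      (mul_le_mul_of_nonneg_right hε (E1_wt_nonneg t))
  · exact fun t ht => h.sym.odd t (E1_St_mono hη ht)
  · exact fun t ht => h.sym.real t (E1_St_mono hη ht)

private theorem E1_corr {B B' : ℝ} {δ : ℂ → ℂ} (h : GlobalCorr B δ) (hB : B ≤ B') :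
    GlobalCorr B' δ :=
  ⟨h.diff, fun x hx => (h.bound x hx).trans hB, h.per, h.odd, h.real, h.zero, h.dzero⟩

/-
ROW E1 (MEDIUM/STRONG). The iteration.
η_j = 1/2 + 1/2^(j+1), ρ_j = (1/12)/2^j (η_{j+1} = η_j - 3ρ_j, η_0 = 1, 1/2 + 3ρ_j <= η_j), e_j = C₀ ε 16^{-j}, M_j <= M + 1, ε_j = ∑_{i<j} C e_i/ρ_i^3 =
C C₀ ε 12^3 ∑ 2^{-i} <= 2·1728·C C₀ ε <= ε₁. Step: C e_j <= ρ_j^3 (16^{-j} <= 8^{-j}) and e_{j+1}: C (2+M) e_j^2/ρ_j^3 = C(2+M) C₀^2 ε^2 1728 16^{-2j} 8^j <= C₀ ε 16^{-(j+1)}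
if 1728·16·C(2+M)C₀ ε <= 1. Build by dependent recursion on a Σ-type / choose: state
P j (X, Δ) := Good η_j ε_j X ∧ GoodF η_j (ρ_j/80) M_j X (FS + G + Δ) ∧ error bound; exists_seq (Classical.choose). C e_j/ρ_j^3 = C C₀ ε 1728 2^{-j}.
Good with a larger ε: monotone. All the conclusions on St (1/2) only need restriction.
-/
theorem newton_iter : ∃ C ε₀ : ℝ, 0 < C ∧ 0 < ε₀ ∧ ∀ (G : ℂ → ℂ) (ε : ℝ), 0 < ε → ε ≤ ε₀ →
    DifferentiableOn ℂ G NN → (∀ x ∈ NN, ‖G x‖ ≤ ε) → (∀ x ∈ NN, G (-x) = -G x) →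
    (∀ x ∈ NN, G (conj x) = conj (G x)) → G aa = 0 → deriv G aa = 0 →
    ∃ (Xs δs : ℕ → ℂ → ℂ), ∀ j : ℕ, Good (1 / 2) (C * ε) (Xs j) ∧
      GlobalCorr (C * ε * (1 / 16) ^ j) (δs j) ∧
      (∀ t ∈ St (1 / 2), ‖Xs (j + 1) t - Xs j t‖ ≤ C * ε * (1 / 2) ^ j * wt t) ∧
      (∀ t ∈ St (1 / 2),
        ‖Err (Xs j) (fun x => FS x + G x + ∑ i ∈ Finset.range j, δs i x) t‖ ≤ C * ε * (1 / 16) ^ j) := by
  obtain ⟨Cs, ε₁, hCs, hε₁, hε₁', hstep⟩ := step
  obtain ⟨C0, ε0, M, hC0, hε0, hM, hstart⟩ := start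
  have hCs0 : 0 < Cs := lt_of_lt_of_le one_pos hCs
  have hden : 0 < 1728 * Cs * C0 := by positivity
  refine ⟨3456 * Cs * C0, min ε0 (min (ε₁ / 2) (1 / (16 * (2 + M))) / (1728 * Cs * C0)),
    by positivity, lt_min hε0 (div_pos (lt_min (by positivity) (by positivity)) hden), ?_⟩
  intro G ε hε hεle hG1 hG2 hG3 hG4 hG5 hG6
  obtain ⟨hF0, hE0⟩ := hstart G ε hε (hεle.trans (min_le_left _ _)) hG1 hG2 hG3 hG4 hG5 hG6
  have hK1 : 1728 * Cs * C0 * ε ≤ min (ε₁ / 2) (1 / (16 * (2 + M))) := by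
    have := hεle.trans (min_le_right _ _)
    rw [le_div_iff₀ hden] at this
    linarith
  set K : ℝ := 1728 * Cs * C0 * ε with hK
  have hK0 : 0 < K := by positivity
  have hK2 : 2 * K ≤ ε₁ := by linarith [hK1.trans (min_le_left _ _)]
  have hK3 : K ≤ 1 / 4000 := by linarith
  have hK4 : 16 * (2 + M) * K ≤ 1 := by
    have := hK1.trans (min_le_right _ _)
    rw [le_div_iff₀ (by positivity)] at this
    linarith
  let P : ℕ → (ℂ → ℂ) → (ℂ → ℂ) → Prop := fun j X Δ =>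
    Good (1 / 2 + 1 / 2 * (1 / 2) ^ j) (2 * K * (1 - (1 / 2) ^ j)) X ∧
    GoodF (1 / 2 + 1 / 2 * (1 / 2) ^ j) (1 / 12 * (1 / 2) ^ j / 80) (M + 2 * K * (1 - (1 / 2) ^ j)) X
      (fun x => FS x + G x + Δ x) ∧
    ∀ t ∈ St (1 / 2 + 1 / 2 * (1 / 2) ^ j), ‖Err X (fun x => FS x + G x + Δ x) t‖ ≤
      C0 * ε * (1 / 16) ^ j * wt t ^ 2
  let R : ℕ → (ℂ → ℂ) → (ℂ → ℂ) → (ℂ → ℂ) → Prop := fun j X Y δ =>
    GlobalCorr (Cs * (C0 * ε * (1 / 16) ^ j)) δ ∧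
    ∀ t ∈ St (1 / 2), ‖Y t - X t‖ ≤ K * (1 / 2) ^ j * wt t
  have hP0 : P 0 X0 0 := by
    refine ⟨E1_good near0 (by norm_num) (by norm_num), ?_, ?_⟩
    · have e1 : (1 / 2 + 1 / 2 * (1 / 2) ^ 0 : ℝ) = 1 := by norm_num
      have e2 : (1 / 12 * (1 / 2) ^ 0 / 80 : ℝ) = 1 / 960 := by norm_num
      have e3 : M + 2 * K * (1 - (1 / 2) ^ 0) = M := by norm_num
      have e4 : (fun x => FS x + G x + (0 : ℂ → ℂ) x) = fun x => FS x + G x := by
        funext x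
        simp
      rw [e1, e2, e3, e4]
      exact hF0
    · have e1 : (1 / 2 + 1 / 2 * (1 / 2) ^ 0 : ℝ) = 1 := by norm_num
      have e4 : (fun x => FS x + G x + (0 : ℂ → ℂ) x) = fun x => FS x + G x := by
        funext x
        simp
      rw [e1, e4]
      intro t ht
      rw [pow_zero, mul_one]
      exact hE0 t ht
  have hPR : ∀ j X Δ, P j X Δ → ∃ (Y δ : ℂ → ℂ), P (j + 1) Y (Δ + δ) ∧ R j X Y δ := by
    intro j X Δ hP
    obtain ⟨hg, hf, he⟩ := hP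
    have hu : (0 : ℝ) < (1 / 2) ^ j := by positivity
    have hu1 : ((1 / 2 : ℝ)) ^ j ≤ 1 := pow_le_one₀ (by norm_num) (by norm_num)
    have h16 : ((1 / 16 : ℝ)) ^ j = ((1 / 2 : ℝ) ^ j) ^ 4 := by
      rw [← pow_mul, mul_comm j 4, pow_mul]
      norm_num
    have hsucc : ((1 / 2 : ℝ)) ^ (j + 1) = 1 / 2 * (1 / 2) ^ j := by rw [pow_succ]; ring
    have hsucc16 : ((1 / 16 : ℝ)) ^ (j + 1) = 1 / 16 * (1 / 16) ^ j := by rw [pow_succ]; ring
    set u : ℝ := (1 / 2 : ℝ) ^ j with hudef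
    have hKu : Cs * (C0 * ε * (1 / 16) ^ j) / (1 / 12 * u) ^ 3 = K * u := by
      rw [h16, hK]
      field_simp
      ring
    have hKu1 : K * u ≤ K := by nlinarith
    have hc1 : Cs * (C0 * ε * (1 / 16) ^ j) ≤ (1 / 12 * u) ^ 3 := by
      have h3 : 0 < (1 / 12 * u) ^ 3 := by positivity
      have := (div_le_one h3).mp (show Cs * (C0 * ε * (1 / 16) ^ j) / (1 / 12 * u) ^ 3 ≤ 1 by
        rw [hKu]; linarith)
      exact this
    have hc2 : 2 * K * (1 - u) + Cs * (C0 * ε * (1 / 16) ^ j) / (1 / 12 * u) ^ 3 ≤ ε₁ := by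
      rw [hKu]
      nlinarith
    obtain ⟨Y, δ, h1, h2, h3, h4, h5⟩ := hstep X (fun x => FS x + G x + Δ x)
      (1 / 2 + 1 / 2 * u) (1 / 12 * u) (2 * K * (1 - u)) (C0 * ε * (1 / 16) ^ j)
      (M + 2 * K * (1 - u)) (by positivity) (by linarith) (by linarith) (by linarith)
      (by nlinarith) (by positivity) (by nlinarith) hc1 hc2 hg hf he
    have e1 : 1 / 2 + 1 / 2 * u - 3 * (1 / 12 * u) = 1 / 2 + 1 / 2 * (1 / 2) ^ (j + 1) := by
      rw [hsucc]; ring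
    have e2 : 2 * K * (1 - u) + Cs * (C0 * ε * (1 / 16) ^ j) / (1 / 12 * u) ^ 3 =
        2 * K * (1 - (1 / 2) ^ (j + 1)) := by
      rw [hKu, hsucc]; ring
    have e3 : M + 2 * K * (1 - u) + Cs * (C0 * ε * (1 / 16) ^ j) / (1 / 12 * u) ^ 3 =
        M + 2 * K * (1 - (1 / 2) ^ (j + 1)) := by
      rw [hKu, hsucc]; ring
    have e4 : 1 / 12 * u / 160 = 1 / 12 * (1 / 2) ^ (j + 1) / 80 := by
      rw [hsucc]; ring
    have e5 : (fun x => FS x + G x + Δ x + δ x) = fun x => FS x + G x + (Δ + δ) x := by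
      funext x
      simp only [Pi.add_apply]
      ring
    rw [e1] at h1 h2 h4 h5
    rw [e2] at h1
    rw [e3, e4, e5] at h4
    rw [e5] at h5
    refine ⟨Y, δ, ⟨h1, h4, ?_⟩, h3, ?_⟩
    · intro t ht
      refine (h5 t ht).trans (mul_le_mul_of_nonneg_right ?_ (sq_nonneg _))
      have e6 : Cs * (1 + (M + 2 * K * (1 - u))) * (C0 * ε * (1 / 16) ^ j) ^ 2 / (1 / 12 * u) ^ 3 =
          (1 + (M + 2 * K * (1 - u))) * (C0 * ε * (1 / 16) ^ j) * (K * u) := by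
        rw [← hKu]; ring
      rw [e6, hsucc16]
      have h6 : (1 + (M + 2 * K * (1 - u))) * (K * u) ≤ 1 / 16 := by
        have h7 : 1 + (M + 2 * K * (1 - u)) ≤ 2 + M := by nlinarith
        have h8 : (1 + (M + 2 * K * (1 - u))) * (K * u) ≤ (2 + M) * K :=
          mul_le_mul h7 hKu1 (by positivity) (by linarith)
        linarith
      have h9 : 0 ≤ C0 * ε * (1 / 16) ^ j := by positivity
      calc (1 + (M + 2 * K * (1 - u))) * (C0 * ε * (1 / 16) ^ j) * (K * u)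
          = (C0 * ε * (1 / 16) ^ j) * ((1 + (M + 2 * K * (1 - u))) * (K * u)) := by ring
        _ ≤ (C0 * ε * (1 / 16) ^ j) * (1 / 16) := mul_le_mul_of_nonneg_left h6 h9
        _ = C0 * ε * (1 / 16 * (1 / 16) ^ j) := by ring
    · intro t ht
      have ht' : t ∈ St (1 / 2 + 1 / 2 * (1 / 2) ^ (j + 1)) :=
        E1_St_mono (by have : (0 : ℝ) < (1 / 2) ^ (j + 1) := by positivity
                       linarith) ht
      have := h2 t ht'
      rw [hKu] at this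
      exact this
  obtain ⟨Xs, δs, hseq⟩ := E1_seq P R X0 hP0 hPR
  refine ⟨Xs, δs, fun j => ?_⟩
  obtain ⟨⟨hg, _, he⟩, hc, hd⟩ := hseq j
  have hu : (0 : ℝ) < (1 / 2) ^ j := by positivity
  have hv : (0 : ℝ) < (1 / 16) ^ j := by positivity
  have hCC : 3456 * Cs * C0 * ε = 2 * K := by rw [hK]; ring
  refine ⟨E1_good hg (by linarith) (by rw [hCC]; nlinarith), E1_corr hc ?_, ?_, ?_⟩
  · have : 0 < Cs * C0 * ε * (1 / 16) ^ j := by positivity
    linarith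
  · intro t ht
    refine (hd t ht).trans (mul_le_mul_of_nonneg_right ?_ (E1_wt_nonneg t))
    rw [hCC]
    nlinarith
  · intro t ht
    have h1 := he t (E1_St_mono (by linarith) ht)
    have e : (fun x => FS x + G x + (∑ i ∈ Finset.range j, δs i) x) =
        fun x => FS x + G x + ∑ i ∈ Finset.range j, δs i x := by
      funext x
      rw [Finset.sum_apply]
    rw [e] at h1
    refine h1.trans ?_
    have h2 : wt t ^ 2 ≤ 1 := pow_le_one₀ (E1_wt_nonneg t) (E1_wt_le t)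
    have h3 : 0 ≤ C0 * ε * (1 / 16) ^ j := by positivity
    have h4 : C0 * ε * (1 / 16) ^ j * wt t ^ 2 ≤ C0 * ε * (1 / 16) ^ j * 1 :=
      mul_le_mul_of_nonneg_left h2 h3
    have h5 : C0 * ε * (1 / 16) ^ j ≤ 3456 * Cs * (C0 * ε * (1 / 16) ^ j) := by
      nlinarith
    calc C0 * ε * (1 / 16) ^ j * wt t ^ 2 ≤ C0 * ε * (1 / 16) ^ j * 1 := h4
      _ ≤ 3456 * Cs * (C0 * ε * (1 / 16) ^ j) := by rw [mul_one]; exact h5
      _ = 3456 * Cs * C0 * ε * (1 / 16) ^ j := by ring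

end LibEY38
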