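import Pool.Agent.LibEY38.Defs
import Pool.Agent.LibEY38.B3
import Pool.Agent.LibEY38.B5
import Pool.Agent.LibEY38.E1
import Pool.Agent.LibEY38.N1

open Complex Set Filter Topology MeasureTheory
open scoped ComplexConjugate

namespace LibEY38

/-
ROW E2 (MEDIUM). The limit.
X = lim Xs j (uniformly Cauchy on St (1/2)): analytic (TendstoLocallyUniformlyOn.differentiableOn), derivatives converge locally uniformly
(TendstoLocallyUniformlyOn.deriv), so Near (1/2) (C ε) X passes to the limit; Sym too. δ = ∑ δs i: GlobalCorr (2Cε): summable on St (1/25); per, odd, real for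
every x: off the strip the series may diverge, so define δ x := if x ∈ St (1/25) then ∑' i, δs i x else 0 (St (1/25) is invariant under x + 2π, -x, conj).
dzero: derivative of the sum (differentiable limit, deriv converges) or hasSum of derivatives.
link at real t: Xs j t is real (Sym.real: conj t = t) so it lies in St (1/25) and in NN? (|X| <= 5/4 only): only FS and ∑ δs are used on the real axis, G must be
differentiable (continuous) at X t: hypothesis G is Differentiable ℂ G (entire) here. Continuity of FS (St (1/2)), G and uniform convergence of ∑ δs give the limit of Err = 0.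
(E1 is applied with G restricted to NN.)
-/
private theorem E2_open (η : ℝ) : IsOpen (St η) :=
  isOpen_lt (continuous_abs.comp Complex.continuous_im) continuous_const

private theorem E2_wt_le (t : ℂ) : wt t ≤ 1 := by
  unfold wt
  rw [Real.exp_le_one_iff]
  have h1 : 0 ≤ lam := by
    unfold lam
    have : 0 ≤ Real.arsinh (1 / 5) := Real.arsinh_nonneg_iff.2 (by norm_num)
    linarith
  have := mul_nonneg h1 (abs_nonneg t.re)
  linarith

private theorem E2_wt_pos (t : ℂ) : 0 < wt t := Real.exp_pos _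

private theorem E2_conj_St {η : ℝ} {t : ℂ} (ht : t ∈ St η) : conj t ∈ St η := by
  show |(conj t).im| < η
  rw [Complex.conj_im, abs_neg]
  exact ht

private theorem E2_neg_St {η : ℝ} {t : ℂ} (ht : t ∈ St η) : -t ∈ St η := by
  show |(-t).im| < η
  rw [Complex.neg_im, abs_neg]
  exact ht

private theorem E2_Good_mono {η ε ε' : ℝ} (h : ε ≤ ε') {X : ℂ → ℂ} (hX : Good η ε X) : Good η ε' X := by
  have hw : ∀ t, ε * wt t ≤ ε' * wt t := fun t => mul_le_mul_of_nonneg_right h (E2_wt_pos t).le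
  exact ⟨⟨hX.near.diff, fun t ht => (hX.near.c0 t ht).trans (hw t),
    fun t ht => (hX.near.c1 t ht).trans (hw t), fun t ht => (hX.near.c2 t ht).trans (hw t)⟩, hX.sym⟩

private theorem E2_limit {c : ℝ} {e : ℝ} (Xs : ℕ → ℂ → ℂ) (hG : ∀ j, Good (1 / 2) e (Xs j))
    (hc0 : 0 ≤ c)
    (hc : ∀ j, ∀ t ∈ St (1 / 2), ‖Xs (j + 1) t - Xs j t‖ ≤ c * (1 / 2) ^ j * wt t) :
    ∃ X : ℂ → ℂ, Good (1 / 2) e X ∧ ∀ t ∈ St (1 / 2), Tendsto (fun j => Xs j t) atTop (𝓝 (X t)) := by
  have hstep : ∀ t ∈ St (1 / 2), ∀ j, dist (Xs j t) (Xs (j + 1) t) ≤ c * (1 / 2) ^ j := by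
    intro t ht j
    rw [dist_comm, dist_eq_norm]
    refine (hc j t ht).trans ?_
    have h1 : 0 ≤ c * (1 / 2) ^ j := by positivity
    calc c * (1 / 2) ^ j * wt t ≤ c * (1 / 2) ^ j * 1 := mul_le_mul_of_nonneg_left (E2_wt_le t) h1
      _ = c * (1 / 2) ^ j := mul_one _
  have hex : ∀ t : ℂ, ∃ x : ℂ, t ∈ St (1 / 2) → Tendsto (fun j => Xs j t) atTop (𝓝 x) := by
    intro t
    by_cases ht : t ∈ St (1 / 2)
    · obtain ⟨x, hx⟩ := cauchySeq_tendsto_of_complete
        (cauchySeq_of_le_geometric (1 / 2) c (by norm_num) (hstep t ht))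
      exact ⟨x, fun _ => hx⟩
    · exact ⟨0, fun h => absurd h ht⟩
  choose X hX using hex
  have hunif : TendstoUniformlyOn Xs X atTop (St (1 / 2)) := by
    rw [Metric.tendstoUniformlyOn_iff]
    intro ε hε
    have h1 : Tendsto (fun n : ℕ => c * (1 / 2 : ℝ) ^ n / (1 - 1 / 2)) atTop (𝓝 0) := by
      have h2 : Tendsto (fun n : ℕ => (1 / 2 : ℝ) ^ n) atTop (𝓝 0) :=
        tendsto_pow_atTop_nhds_zero_of_lt_one (by norm_num) (by norm_num)
      have h3 := (h2.const_mul c).div_const (1 - 1 / 2)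
      rwa [mul_zero, zero_div] at h3
    filter_upwards [h1.eventually (gt_mem_nhds hε)] with n hn t ht
    rw [dist_comm]
    exact lt_of_le_of_lt (dist_le_of_le_geometric_of_tendsto (1 / 2) c (by norm_num) (hstep t ht)
      (hX t ht) n) hn
  have hloc : TendstoLocallyUniformlyOn Xs X atTop (St (1 / 2)) := hunif.tendstoLocallyUniformlyOn
  have hopen := E2_open (1 / 2)
  have hdiff : ∀ᶠ n in atTop, DifferentiableOn ℂ (Xs n) (St (1 / 2)) :=
    Eventually.of_forall fun n => (hG n).near.diff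
  have hdiff1 : ∀ᶠ n in atTop, DifferentiableOn ℂ ((_root_.deriv ∘ Xs) n) (St (1 / 2)) :=
    Eventually.of_forall fun n => (hG n).near.diff.deriv hopen
  have hd1 : TendstoLocallyUniformlyOn (_root_.deriv ∘ Xs) (_root_.deriv X) atTop (St (1 / 2)) :=
    hloc.deriv hdiff hopen
  have hd2 : TendstoLocallyUniformlyOn (_root_.deriv ∘ (_root_.deriv ∘ Xs)) (_root_.deriv (_root_.deriv X))
      atTop (St (1 / 2)) := hd1.deriv hdiff1 hopen
  refine ⟨X, ⟨⟨hloc.differentiableOn hdiff hopen, ?_, ?_, ?_⟩, ⟨?_, ?_⟩⟩, fun t ht => hX t ht⟩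
  · intro t ht
    refine le_of_tendsto ((hX t ht).sub_const _).norm (Eventually.of_forall fun n => ?_)
    exact (hG n).near.c0 t ht
  · intro t ht
    refine le_of_tendsto ((hd1.tendsto_at ht).sub_const _).norm (Eventually.of_forall fun n => ?_)
    exact (hG n).near.c1 t ht
  · intro t ht
    refine le_of_tendsto ((hd2.tendsto_at ht).sub_const _).norm (Eventually.of_forall fun n => ?_)
    exact (hG n).near.c2 t ht
  · intro t ht
    refine tendsto_nhds_unique (hX (-t) (E2_neg_St ht)) ?_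
    have h1 := (hX t ht).neg
    refine h1.congr fun n => ?_
    exact ((hG n).sym.odd t ht).symm
  · intro t ht
    refine tendsto_nhds_unique (hX (conj t) (E2_conj_St ht)) ?_
    have h1 := (Complex.continuous_conj.tendsto (X t)).comp (hX t ht)
    refine h1.congr fun n => ?_
    exact ((hG n).sym.real t ht).symm

private theorem E2_hasSum (c : ℝ) : HasSum (fun i : ℕ => c * (1 / 16 : ℝ) ^ i) (c * (16 / 15)) := by
  have h1 : HasSum (fun i : ℕ => (1 / 16 : ℝ) ^ i) (1 - 1 / 16)⁻¹ :=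
    hasSum_geometric_of_lt_one (by norm_num) (by norm_num)
  have h2 : ((1 : ℝ) - 1 / 16)⁻¹ = 16 / 15 := by norm_num
  rw [h2] at h1
  exact h1.mul_left c

private theorem E2_aa (η : ℝ) (hη : 0 < η) (x : ℝ) : (x : ℂ) ∈ St η := by
  show |(x : ℂ).im| < η
  rw [Complex.ofReal_im, abs_zero]
  exact hη

open scoped Classical in
private theorem E2_delta {c : ℝ} (hc : 0 ≤ c) (δs : ℕ → ℂ → ℂ)
    (hδ : ∀ j : ℕ, GlobalCorr (c * (1 / 16) ^ j) (δs j)) :
    ∃ δ : ℂ → ℂ, GlobalCorr (2 * c) δ ∧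
      TendstoUniformlyOn (fun N x => ∑ i ∈ Finset.range N, δs i x) δ atTop (St (1 / 25)) := by
  let δ : ℂ → ℂ := fun x => if x ∈ St (1 / 25) then ∑' i, δs i x else 0
  have hin : ∀ x ∈ St (1 / 25), δ x = ∑' i, δs i x := fun x hx => if_pos hx
  have hout : ∀ x, x ∉ St (1 / 25) → δ x = 0 := fun x hx => if_neg hx
  have hopen := E2_open (1 / 25)
  have hsum := E2_hasSum c
  have hle : ∀ (i : ℕ) (w : ℂ), w ∈ St (1 / 25) → ‖δs i w‖ ≤ c * (1 / 16 : ℝ) ^ i :=
    fun i w hw => (hδ i).bound w hw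
  have hdiff := differentiableOn_tsum_of_summable_norm hsum.summable (fun i => (hδ i).diff) hopen hle
  have hper : ∀ x : ℂ, x + 2 * Real.pi ∈ St (1 / 25) ↔ x ∈ St (1 / 25) := by
    intro x
    show |(x + 2 * Real.pi).im| < 1 / 25 ↔ |x.im| < 1 / 25
    have : (x + 2 * Real.pi).im = x.im := by simp
    rw [this]
  have hneg : ∀ x : ℂ, -x ∈ St (1 / 25) ↔ x ∈ St (1 / 25) := by
    intro x
    constructor
    · intro h
      have := E2_neg_St h
      rwa [neg_neg] at this
    · exact E2_neg_St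
  have hconj : ∀ x : ℂ, conj x ∈ St (1 / 25) ↔ x ∈ St (1 / 25) := by
    intro x
    constructor
    · intro h
      have := E2_conj_St h
      rwa [Complex.conj_conj] at this
    · exact E2_conj_St
  have haa : (aa : ℂ) ∈ St (1 / 25) := E2_aa _ (by norm_num) aa
  refine ⟨δ, ⟨?_, ?_, ?_, ?_, ?_, ?_, ?_⟩, ?_⟩
  · exact hdiff.congr fun x hx => hin x hx
  · intro x hx
    rw [hin x hx]
    refine (tsum_of_norm_bounded hsum fun i => hle i x hx).trans ?_
    nlinarith
  · intro x
    by_cases hx : x ∈ St (1 / 25)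
    · rw [hin x hx, hin _ ((hper x).2 hx)]
      exact tsum_congr fun i => (hδ i).per x
    · rw [hout x hx, hout _ (fun h => hx ((hper x).1 h))]
  · intro x
    by_cases hx : x ∈ St (1 / 25)
    · rw [hin x hx, hin _ ((hneg x).2 hx), ← tsum_neg]
      exact tsum_congr fun i => (hδ i).odd x
    · rw [hout x hx, hout _ (fun h => hx ((hneg x).1 h)), neg_zero]
  · intro x
    by_cases hx : x ∈ St (1 / 25)
    · rw [hin x hx, hin _ ((hconj x).2 hx), Complex.conj_tsum]
      exact tsum_congr fun i => (hδ i).real x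
    · rw [hout x hx, hout _ (fun h => hx ((hconj x).1 h)), map_zero]
  · rw [hin _ haa]
    have : (fun i => δs i aa) = fun _ => 0 := funext fun i => (hδ i).zero
    rw [this, tsum_zero]
  · have h1 := hasSum_deriv_of_summable_norm hsum.summable (fun i => (hδ i).diff) hopen hle haa
    have h2 : (fun i => deriv (δs i) aa) = fun _ => 0 := funext fun i => (hδ i).dzero
    rw [h2] at h1
    have h3 := h1.unique hasSum_zero
    have h4 : δ =ᶠ[𝓝 (aa : ℂ)] fun w => ∑' i, δs i w := by
      filter_upwards [hopen.mem_nhds haa] with w hw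
      exact hin w hw
    rw [h4.deriv_eq, h3]
  · have h1 := tendstoUniformlyOn_tsum_nat hsum.summable hle
    exact h1.congr_right fun x hx => (hin x hx).symm

theorem newton_main : ∃ C ε₀ : ℝ, 0 < C ∧ 0 < ε₀ ∧ ∀ (G : ℂ → ℂ) (ε : ℝ), 0 < ε → ε ≤ ε₀ →
    Differentiable ℂ G → (∀ x ∈ NN, ‖G x‖ ≤ ε) → (∀ x, G (-x) = -G x) →
    (∀ x, G (conj x) = conj (G x)) → G aa = 0 → deriv G aa = 0 →
    ∃ (X δ : ℂ → ℂ), Good (1 / 2) (C * ε) X ∧ GlobalCorr (C * ε) δ ∧
      ∀ t : ℝ, X (t + 1) + X (t - 1) = FS (X t) + G (X t) + δ (X t) := by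
  obtain ⟨C, ε₀, hC, hε₀, hmain⟩ := newton_iter
  refine ⟨2 * C, ε₀, by linarith, hε₀, ?_⟩
  intro G ε hε hε' hG hGb hGo hGr hGa hGd
  obtain ⟨Xs, δs, hj⟩ := hmain G ε hε hε' hG.differentiableOn hGb (fun x _ => hGo x)
    (fun x _ => hGr x) hGa hGd
  have hCε : 0 ≤ C * ε := by positivity
  obtain ⟨X, hX, hXt⟩ := E2_limit Xs (fun j => (hj j).1) hCε (fun j => (hj j).2.2.1)
  obtain ⟨δ, hδ, hδu⟩ := E2_delta hCε δs (fun j => (hj j).2.1)
  have h2 : 2 * C * ε = 2 * (C * ε) := by ring
  refine ⟨X, δ, E2_Good_mono (by rw [h2]; linarith) hX, ?_, ?_⟩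
  · rw [h2]
    exact hδ
  · intro t
    have hreal : ∀ (Y : ℂ → ℂ), Good (1 / 2) (C * ε) Y → ∀ η : ℝ, 0 < η → Y t ∈ St η := by
      intro Y hY η hη
      have h3 := hY.sym.real t (E2_aa _ (by norm_num) t)
      rw [Complex.conj_ofReal] at h3
      have h4 : (Y t).im = 0 := Complex.conj_eq_iff_im.1 h3.symm
      show |(Y t).im| < η
      rw [h4, abs_zero]
      exact hη
    have ht0 : (t : ℂ) ∈ St (1 / 2) := E2_aa _ (by norm_num) t
    have ht1 : (t : ℂ) + 1 ∈ St (1 / 2) := by
      have := E2_aa (1 / 2) (by norm_num) (t + 1)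
      push_cast at this
      exact this
    have ht2 : (t : ℂ) - 1 ∈ St (1 / 2) := by
      have := E2_aa (1 / 2) (by norm_num) (t - 1)
      push_cast at this
      exact this
    have hFS : Tendsto (fun j => FS (Xs j t)) atTop (𝓝 (FS (X t))) := by
      have h5 : ContinuousAt FS (X t) :=
        (FS_diff.continuousOn).continuousAt ((E2_open _).mem_nhds (hreal X hX _ (by norm_num)))
      exact h5.tendsto.comp (hXt t ht0)
    have hGt : Tendsto (fun j => G (Xs j t)) atTop (𝓝 (G (X t))) :=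
      (hG.continuous.tendsto (X t)).comp (hXt t ht0)
    have hδt : Tendsto (fun j => ∑ i ∈ Finset.range j, δs i (Xs j t)) atTop (𝓝 (δ (X t))) := by
      refine hδu.tendsto_comp (hδ.diff.continuousOn (X t) (hreal X hX _ (by norm_num))) ?_
      rw [tendsto_nhdsWithin_iff]
      exact ⟨hXt t ht0, Eventually.of_forall fun j => hreal (Xs j) (hj j).1 _ (by norm_num)⟩
    have hlim := ((hXt _ ht1).add (hXt _ ht2)).sub ((hFS.add hGt).add hδt)
    have hzero : Tendsto (fun j => Xs j (t + 1) + Xs j (t - 1) -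
        (FS (Xs j t) + G (Xs j t) + ∑ i ∈ Finset.range j, δs i (Xs j t))) atTop (𝓝 0) := by
      have h6 : Tendsto (fun j : ℕ => C * ε * (1 / 16 : ℝ) ^ j) atTop (𝓝 0) := by
        have h7 : Tendsto (fun n : ℕ => (1 / 16 : ℝ) ^ n) atTop (𝓝 0) :=
          tendsto_pow_atTop_nhds_zero_of_lt_one (by norm_num) (by norm_num)
        have h8 := h7.const_mul (C * ε)
        rwa [mul_zero] at h8
      refine squeeze_zero_norm (fun j => ?_) h6
      exact (hj j).2.2.2 t ht0
    have := tendsto_nhds_unique hlim hzero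
    exact sub_eq_zero.1 this

end LibEY38
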