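import Pool.Agent.LibEY38.Defs
import Pool.Agent.LibEY38.B0

open Complex Set Filter Topology MeasureTheory
open scoped ComplexConjugate

namespace LibEY38

/-
ROW F1 (MEDIUM, only Mathlib + B0). Primitives of sin^{2k}(x/2) and their normalisation.
prim: recursion I_0 x = x, I_{k+1} = ((2k+1)/2 I_k - sin(x/2)^{2k+1} cos(x/2))/(k+1), because
(sin^{2k+1}(x/2) cos(x/2))' = (2k+1)/2 sin^{2k} - (k+1) sin^{2k+2}. Period: c_0 = 1, c_{k+1} = (2k+1)/(2k+2) c_k = centralBinom/4^{k+1};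
c_k = centralBinom k / 4^k >= 1/(2k+1) (Nat.four_pow_le_two_mul_add_one_mul_central_binom).
bound: on NN |sin(s/2)^2| = |1 - cos s|/2 <= (cosh(1/4) - cos 1)/2 <= 1/4, I_k(x) = ∫_0^1 x sin^{2k}(sx/2) ds (NN is star shaped), or mean value inequality on the
convex set NN with I_k 0 = 0: |I_k x| <= (1/4)^k |x|. Last item: for 0 <= s <= b = 6/5, log sin(s/2) <= log sin(b/2) - (b-s)(1/2)cot(b/2) (concavity), so
(sin(s/2)/sin(3/5))^{2k} <= exp(-k cot(3/5)(b-s)), cot(3/5) >= 29/20, integral <= 1/(k*29/20) <= 2/(k+1) for k >= 1 (k = 0: 6/5 <= 2).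
-/
private noncomputable def II : ℕ → ℂ → ℂ
  | 0, x => x
  | k + 1, x => ((2 * (k : ℂ) + 1) / 2 * II k x -
      Complex.sin (x / 2) ^ (2 * k + 1) * Complex.cos (x / 2)) / ((k : ℂ) + 1)

private theorem II_zero (x : ℂ) : II 0 x = x := rfl

private theorem II_succ (k : ℕ) (x : ℂ) : II (k + 1) x = ((2 * (k : ℂ) + 1) / 2 * II k x -
    Complex.sin (x / 2) ^ (2 * k + 1) * Complex.cos (x / 2)) / ((k : ℂ) + 1) := rfl

private theorem II_deriv (k : ℕ) (x : ℂ) :
    HasDerivAt (II k) (Complex.sin (x / 2) ^ (2 * k)) x := by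
  induction k with
  | zero =>
    have h : HasDerivAt (fun x : ℂ => x) 1 x := hasDerivAt_id x
    rw [mul_zero, pow_zero]
    exact h
  | succ k ih =>
    have h0 : HasDerivAt (fun x : ℂ => x / 2) (1 / 2) x := (hasDerivAt_id x).div_const 2
    have h1 : HasDerivAt (fun x : ℂ => Complex.sin (x / 2)) (Complex.cos (x / 2) * (1 / 2)) x :=
      h0.csin
    have h2 : HasDerivAt (fun x : ℂ => Complex.cos (x / 2)) (-Complex.sin (x / 2) * (1 / 2)) x :=
      h0.ccos
    have h3 := ((ih.const_mul ((2 * (k : ℂ) + 1) / 2)).sub ((h1.pow (2 * k + 1)).mul h2)).div_const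
      ((k : ℂ) + 1)
    have hk : ((k : ℂ) + 1) ≠ 0 := Nat.cast_add_one_ne_zero k
    have hcs : Complex.cos (x / 2) ^ 2 = 1 - Complex.sin (x / 2) ^ 2 := by
      linear_combination Complex.sin_sq_add_cos_sq (x / 2)
    have hval : ((2 * (k : ℂ) + 1) / 2 * Complex.sin (x / 2) ^ (2 * k) -
        (((2 * k + 1 : ℕ) : ℂ) * Complex.sin (x / 2) ^ (2 * k + 1 - 1) *
          (Complex.cos (x / 2) * (1 / 2)) * Complex.cos (x / 2) +
          Complex.sin (x / 2) ^ (2 * k + 1) * (-Complex.sin (x / 2) * (1 / 2)))) / ((k : ℂ) + 1) =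
        Complex.sin (x / 2) ^ (2 * (k + 1)) := by
      rw [div_eq_iff hk, Nat.add_sub_cancel]
      push_cast
      linear_combination (-(2 * (k : ℂ) + 1) / 2 * Complex.sin (x / 2) ^ (2 * k)) * hcs
    rw [← hval]
    exact h3

private theorem II_odd (k : ℕ) (x : ℂ) : II k (-x) = -II k x := by
  induction k with
  | zero => rfl
  | succ k ih =>
    rw [II_succ, II_succ, ih, neg_div, Complex.sin_neg, Complex.cos_neg,
      Odd.neg_pow ⟨k, rfl⟩]
    ring

private theorem II_conj (k : ℕ) (x : ℂ) : II k (conj x) = conj (II k x) := by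
  induction k with
  | zero => rfl
  | succ k ih =>
    have h2 : conj x / 2 = conj (x / 2) := by
      rw [map_div₀, map_ofNat]
    rw [II_succ, II_succ, ih, h2, Complex.sin_conj, Complex.cos_conj]
    simp only [map_div₀, map_sub, map_mul, map_add, map_pow, map_natCast, map_one, map_ofNat]

private theorem II_per (k : ℕ) (x : ℂ) :
    II k (x + 2 * Real.pi) = II k x + 2 * Real.pi * ((Nat.centralBinom k : ℂ) / 4 ^ k) := by
  induction k with
  | zero =>
    rw [II_zero, II_zero, Nat.centralBinom_zero]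
    simp
  | succ k ih =>
    have hk : ((k : ℂ) + 1) ≠ 0 := Nat.cast_add_one_ne_zero k
    have h2 : (x + 2 * Real.pi) / 2 = x / 2 + Real.pi := by ring
    have hc : ((k : ℂ) + 1) * (Nat.centralBinom (k + 1) : ℂ) =
        2 * (2 * (k : ℂ) + 1) * (Nat.centralBinom k : ℂ) := by
      exact_mod_cast congrArg (Nat.cast (R := ℂ)) (Nat.succ_mul_centralBinom_succ k)
    have hc' : (Nat.centralBinom (k + 1) : ℂ) =
        2 * (2 * (k : ℂ) + 1) * (Nat.centralBinom k : ℂ) / ((k : ℂ) + 1) := by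
      rw [eq_div_iff hk, mul_comm, hc]
    rw [II_succ, II_succ, ih, h2, Complex.sin_add_pi, Complex.cos_add_pi,
      Odd.neg_pow ⟨k, rfl⟩, hc', pow_succ (4 : ℂ) k]
    field_simp
    ring

private theorem sin_half_bound (x : ℂ) (hx : x ∈ NN) : ‖Complex.sin (x / 2)‖ ^ 2 ≤ 1 / 4 := by
  obtain ⟨h1, h2⟩ := hx
  obtain ⟨u, hu⟩ : ∃ u : ℝ, u = x.re / 2 := ⟨_, rfl⟩
  obtain ⟨v, hv⟩ : ∃ v : ℝ, v = x.im / 2 := ⟨_, rfl⟩
  have hx2 : x / 2 = (u : ℂ) + (v : ℂ) * I := by
    apply Complex.ext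
    · simp [hu]
    · simp [hv]
  have hsin : Complex.sin (x / 2) = ((Real.sin u * Real.cosh v : ℝ) : ℂ) +
      ((Real.cos u * Real.sinh v : ℝ) : ℂ) * I := by
    rw [hx2, Complex.sin_add_mul_I]
    push_cast
    rfl
  have hn : ‖Complex.sin (x / 2)‖ ^ 2 = Real.sin u ^ 2 + Real.sinh v ^ 2 := by
    rw [hsin, ← Complex.normSq_eq_norm_sq, Complex.normSq_add_mul_I]
    have e1 := Real.sin_sq_add_cos_sq u
    have e2 := Real.cosh_sq v
    rw [mul_pow, mul_pow, e2]
    linear_combination Real.sinh v ^ 2 * e1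
  rw [hn]
  have hu1 : |u| ≤ 1 / 2 := by
    rw [hu, abs_div, abs_two]
    linarith
  have hv1 : |v| ≤ 1 / 8 := by
    rw [hv, abs_div, abs_two]
    linarith
  -- the sine
  have hs1 : |Real.sin u| ≤ Real.sin (1 / 2) := by
    have hpi : (1 : ℝ) / 2 ≤ Real.pi / 2 := by
      have := Real.pi_gt_three
      linarith
    rw [abs_le] at hu1 ⊢
    constructor
    · rw [← Real.sin_neg]
      exact Real.sin_le_sin_of_le_of_le_pi_div_two (by linarith) (by linarith) hu1.1
    · exact Real.sin_le_sin_of_le_of_le_pi_div_two (by linarith) (by linarith) hu1.2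
  have hs2 : Real.sin (1 / 2) ≤ 483 / 1000 := by
    have h := Real.sin_bound (x := 1 / 2) (by norm_num)
    rw [abs_le] at h
    have h3 := h.2
    norm_num at h3
    linarith
  have hs3 : Real.sin u ^ 2 ≤ (483 / 1000) ^ 2 := by
    rw [← sq_abs]
    exact pow_le_pow_left₀ (abs_nonneg _) (hs1.trans hs2) 2
  -- the hyperbolic sine
  have hh : Real.sinh v ^ 2 ≤ 1 / 62 := by
    have e1 : Real.cosh (2 * v) = 1 + 2 * Real.sinh v ^ 2 := by
      rw [Real.cosh_two_mul, Real.cosh_sq]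
      ring
    have e2 : Real.cosh (2 * v) ≤ Real.exp (1 / 32) := by
      refine (Real.cosh_le_exp_half_sq (2 * v)).trans (Real.exp_le_exp.2 ?_)
      have : v ^ 2 ≤ (1 / 8) ^ 2 := by
        rw [← sq_abs]
        exact pow_le_pow_left₀ (abs_nonneg _) hv1 2
      nlinarith
    have e3 : Real.exp (1 / 32) ≤ 32 / 31 := by
      have h := Real.one_sub_le_exp_neg (1 / 32)
      rw [Real.exp_neg] at h
      have hpos := Real.exp_pos (1 / 32)
      rw [le_inv_comm₀ (by norm_num) hpos] at h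
      refine h.trans ?_
      norm_num
    linarith
  norm_num at hs3
  linarith

private theorem II_real (k : ℕ) (x : ℝ) :
    HasDerivAt (fun x : ℝ => (II k (x : ℂ)).re) (Real.sin (x / 2) ^ (2 * k)) x := by
  have h := (II_deriv k (x : ℂ)).real_of_complex
  have h2 : (Complex.sin ((x : ℂ) / 2) ^ (2 * k)).re = Real.sin (x / 2) ^ (2 * k) := by
    have h3 : Complex.sin ((x : ℂ) / 2) ^ (2 * k) = ((Real.sin (x / 2) ^ (2 * k) : ℝ) : ℂ) := by
      push_cast
      rfl
    rw [h3, Complex.ofReal_re]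
  rw [h2] at h
  exact h

private theorem II_at_zero (k : ℕ) : (II k ((0 : ℝ) : ℂ)).re = 0 := by
  have h := II_odd k 0
  rw [neg_zero] at h
  have h2 : II k 0 = 0 := by
    have h3 : (2 : ℂ) * II k 0 = 0 := by linear_combination h
    rcases mul_eq_zero.1 h3 with h4 | h4
    · exact absurd h4 two_ne_zero
    · exact h4
  rw [Complex.ofReal_zero, h2, Complex.zero_re]

private theorem pow_even_nonneg (k : ℕ) (t : ℝ) : 0 ≤ t ^ (2 * k) := by
  rw [pow_mul]
  exact pow_nonneg (sq_nonneg t) k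

theorem prim (k : ℕ) : ∃ I : ℂ → ℂ, Differentiable ℂ I ∧ (∀ x, deriv I x = Complex.sin (x / 2) ^ (2 * k)) ∧
    (∀ x, I (-x) = -I x) ∧ (∀ x, I (conj x) = conj (I x)) ∧
    (∀ x, I (x + 2 * Real.pi) = I x + 2 * Real.pi * ((Nat.centralBinom k : ℂ) / 4 ^ k)) ∧
    (∀ x ∈ NN, ‖I x‖ ≤ 2 * (1 / 4) ^ k) ∧
    (∀ x : ℝ, 0 ≤ x → x ≤ aa → (I x).re ≤ aa * (1 / 5) ^ k) ∧
    (∀ x : ℝ, 0 ≤ x → 0 ≤ (I x).re) ∧ (I (6 / 5)).re ≤ 2 / (k + 1) * (Real.sin (3 / 5) ^ 2) ^ k := by
  refine ⟨II k, fun x => (II_deriv k x).differentiableAt, fun x => (II_deriv k x).deriv,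
    II_odd k, II_conj k, II_per k, ?_, ?_, ?_, ?_⟩
  · intro x hx
    have hNN : Convex ℝ NN := by
      have h1 : NN = (Complex.re ⁻¹' Set.Ioo (-1) 1) ∩ (Complex.im ⁻¹' Set.Ioo (-(1 / 4)) (1 / 4)) := by
        ext z
        simp only [NN, Set.mem_setOf_eq, Set.mem_inter_iff, Set.mem_preimage, Set.mem_Ioo, abs_lt]
      rw [h1]
      exact ((convex_Ioo (-1 : ℝ) 1).linear_preimage Complex.reLm).inter
        ((convex_Ioo (-(1 / 4) : ℝ) (1 / 4)).linear_preimage Complex.imLm)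
    have h0 : (0 : ℂ) ∈ NN := by
      constructor
      · simp
      · simp
    have hb : ∀ y ∈ NN, ‖Complex.sin (y / 2) ^ (2 * k)‖ ≤ (1 / 4) ^ k := by
      intro y hy
      rw [norm_pow, pow_mul]
      exact pow_le_pow_left₀ (by positivity) (sin_half_bound y hy) k
    have hm := hNN.norm_image_sub_le_of_norm_hasDerivWithin_le
      (fun y _ => (II_deriv k y).hasDerivWithinAt) hb h0 hx
    have h00 : II k 0 = 0 := by
      have h := II_odd k 0
      rw [neg_zero] at h
      have h3 : (2 : ℂ) * II k 0 = 0 := by linear_combination h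
      rcases mul_eq_zero.1 h3 with h4 | h4
      · exact absurd h4 two_ne_zero
      · exact h4
    rw [h00, sub_zero, sub_zero] at hm
    have hxn : ‖x‖ ≤ 2 := by
      obtain ⟨h1, h2⟩ := hx
      refine (Complex.norm_le_abs_re_add_abs_im x).trans ?_
      linarith
    calc ‖II k x‖ ≤ (1 / 4) ^ k * ‖x‖ := hm
      _ ≤ (1 / 4) ^ k * 2 := mul_le_mul_of_nonneg_left hxn (by positivity)
      _ = 2 * (1 / 4) ^ k := mul_comm _ _
  · intro x hx0 hxa
    have hcos : Real.cos aa = 3 / 5 := numbers.2.2.2.2.2.2.2.1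
    have haa : aa < 19 / 20 := numbers.2.2.2.2.2.2.2.2.2.2
    have hb : ∀ y ∈ Set.Icc (0 : ℝ) aa, ‖Real.sin (y / 2) ^ (2 * k)‖ ≤ (1 / 5) ^ k := by
      intro y hy
      rw [norm_pow, pow_mul, Real.norm_eq_abs, sq_abs]
      refine pow_le_pow_left₀ (sq_nonneg _) ?_ k
      have h1 : Real.cos y = 1 - 2 * Real.sin (y / 2) ^ 2 := by
        have h2 := Real.cos_two_mul' (y / 2)
        have h3 := Real.sin_sq_add_cos_sq (y / 2)
        rw [mul_div_cancel₀ y two_ne_zero] at h2
        linarith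
      have h4 : Real.cos aa ≤ Real.cos y :=
        Real.cos_le_cos_of_nonneg_of_le_pi hy.1 (by
          have := Real.pi_gt_three
          linarith) hy.2
      rw [hcos, h1] at h4
      linarith
    have hm := (convex_Icc (0 : ℝ) aa).norm_image_sub_le_of_norm_hasDerivWithin_le
      (fun y _ => (II_real k y).hasDerivWithinAt) hb ⟨le_rfl, hx0.trans hxa⟩ ⟨hx0, hxa⟩
    rw [II_at_zero, sub_zero, sub_zero, Real.norm_eq_abs, Real.norm_eq_abs, abs_of_nonneg hx0] at hm
    calc (II k x).re ≤ |(II k x).re| := le_abs_self _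
      _ ≤ (1 / 5) ^ k * x := hm
      _ ≤ (1 / 5) ^ k * aa := mul_le_mul_of_nonneg_left hxa (by positivity)
      _ = aa * (1 / 5) ^ k := mul_comm _ _
  · intro x hx0
    have hmono : Monotone (fun x : ℝ => (II k (x : ℂ)).re) := by
      apply monotone_of_deriv_nonneg (fun y => (II_real k y).differentiableAt)
      intro y
      rw [(II_real k y).deriv]
      exact pow_even_nonneg k _
    have h := hmono hx0
    change (II k ((0 : ℝ) : ℂ)).re ≤ (II k (x : ℂ)).re at h
    rwa [II_at_zero] at h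
  · have hpi := Real.pi_gt_three
    have hC : 0 < Real.cos (3 / 5) := Real.cos_pos_of_mem_Ioo ⟨by linarith, by linarith⟩
    have hS0 : 0 ≤ Real.sin (3 / 5) := Real.sin_nonneg_of_nonneg_of_le_pi (by norm_num) (by linarith)
    have hSC : Real.sin (3 / 5) ≤ Real.cos (3 / 5) := by
      rw [← Real.cos_pi_div_two_sub]
      exact Real.cos_le_cos_of_nonneg_of_le_pi (by norm_num) (by linarith) (by linarith)
    have hk1 : (0 : ℝ) < 2 * k + 1 := by positivity
    obtain ⟨c, hc⟩ : ∃ c : ℝ, c = 2 / ((2 * k + 1) * Real.cos (3 / 5)) := ⟨_, rfl⟩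
    have hder : ∀ y : ℝ, HasDerivAt (fun y : ℝ => c * Real.sin (y / 2) ^ (2 * k + 1) -
        (II k (y : ℂ)).re) (c * ((2 * k + 1) * Real.sin (y / 2) ^ (2 * k) *
          (Real.cos (y / 2) * (1 / 2))) - Real.sin (y / 2) ^ (2 * k)) y := by
      intro y
      have h0 : HasDerivAt (fun y : ℝ => y / 2) (1 / 2) y := (hasDerivAt_id y).div_const 2
      have h1 : HasDerivAt (fun y : ℝ => Real.sin (y / 2)) (Real.cos (y / 2) * (1 / 2)) y := h0.sin
      have h2 := ((h1.pow (2 * k + 1)).const_mul c).sub (II_real k y)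
      rw [Nat.add_sub_cancel] at h2
      push_cast at h2
      exact h2
    have hmono : MonotoneOn (fun y : ℝ => c * Real.sin (y / 2) ^ (2 * k + 1) -
        (II k (y : ℂ)).re) (Set.Icc 0 (6 / 5)) := by
      apply monotoneOn_of_deriv_nonneg (convex_Icc _ _)
        (fun y _ => (hder y).continuousAt.continuousWithinAt)
        (fun y _ => (hder y).differentiableAt.differentiableWithinAt)
      intro y hy
      rw [interior_Icc] at hy
      rw [(hder y).deriv]
      have h1 : Real.cos (3 / 5) ≤ Real.cos (y / 2) :=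
        Real.cos_le_cos_of_nonneg_of_le_pi (by linarith [hy.1]) (by linarith) (by linarith [hy.2])
      have h2 : 1 ≤ c * ((2 * k + 1) * (Real.cos (y / 2) * (1 / 2))) := by
        rw [hc, div_mul_eq_mul_div, le_div_iff₀ (by positivity)]
        nlinarith
      have h3 := pow_even_nonneg k (Real.sin (y / 2))
      nlinarith
    have h := hmono (Set.left_mem_Icc.2 (by norm_num : (0 : ℝ) ≤ 6 / 5))
      (Set.right_mem_Icc.2 (by norm_num : (0 : ℝ) ≤ 6 / 5)) (by norm_num)
    simp only [zero_div, Real.sin_zero] at h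
    rw [II_at_zero, zero_pow (by omega), mul_zero, sub_zero, sub_nonneg] at h
    have h65 : (6 / 5 : ℝ) / 2 = 3 / 5 := by norm_num
    rw [h65] at h
    have hcast : (((6 / 5 : ℝ) : ℝ) : ℂ) = 6 / 5 := by push_cast; rfl
    rw [hcast] at h
    refine h.trans ?_
    have hP : 0 ≤ (Real.sin (3 / 5) ^ 2) ^ k := by positivity
    rw [pow_succ, pow_mul, mul_comm ((Real.sin (3 / 5) ^ 2) ^ k) (Real.sin (3 / 5)), ← mul_assoc]
    refine mul_le_mul_of_nonneg_right ?_ hP
    rw [hc, div_mul_eq_mul_div, div_le_div_iff₀ (by positivity) (by positivity)]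
    have hk0 : (0 : ℝ) ≤ k := Nat.cast_nonneg k
    nlinarith [mul_nonneg hk0 hC.le, mul_nonneg hk0 hS0]

end LibEY38
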