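import Pool.Agent.LibEY38.Defs
import Pool.Agent.LibEY38.B0
import Pool.Agent.LibEY38.F1

open Complex Set Filter Topology MeasureTheory
open scoped ComplexConjugate

namespace LibEY38

/-
ROW F2a (MEDIUM). Primitives of the analytic step functions Q = 1 - (1 - sin^{2k}(x/2))^m.
H = ∑_{j=1}^{m} (-1)^{j+1} C(m,j) I_{k j} with I from prim (binomial theorem), c = H(π)/π (real): the period constant is
c' = ∑ (-1)^{j+1} C(m,j) centralBinom(kj)/4^{kj}, and H(π) - H(-π) = 2π c', H odd, so c' = H(π)/π.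
On reals 0 <= Q <= 1, so H is monotone and 1-Lipschitz. On NN: |Q x| <= (1 + (1/4)^k)^m - 1 <= exp(m (1/4)^k) - 1 (|sin(x/2)^2| <= 1/4), and |H x| <= 2 sup|Q| (|x| <= 2,
mean value on the convex set NN).
For 0 <= x <= y <= π : Q x <= m sin(y/2)^{2k} (Bernoulli: (1-v)^m >= 1 - m v).
-/
private theorem sin_half_bound' (x : ℂ) (hx : x ∈ NN) : ‖Complex.sin (x / 2)‖ ^ 2 ≤ 1 / 4 := by
  obtain ⟨h1, h2⟩ := hx
  obtain ⟨u, hu⟩ : ∃ u : ℝ, u = x.re / 2 := ⟨_, rfl⟩
  obtain ⟨v, hv⟩ : ∃ v : ℝ, v = x.im / 2 := ⟨_, rfl⟩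
  have hx2 : x / 2 = (u : ℂ) + (v : ℂ) * I := by
    apply Complex.ext
    · simp [hu]
    · simp [hv]
  have hsin : Complex.sin (x / 2) = ((Real.sin u * Real.cosh v : ℝ) : ℂ) +
      ((Real.cos u * Real.sinh v : ℝ) : ℂ) * I := by
    rw [hx2, Complex.sin_add_mul_I]
    push_cast
    rfl
  have hn : ‖Complex.sin (x / 2)‖ ^ 2 = Real.sin u ^ 2 + Real.sinh v ^ 2 := by
    rw [hsin, ← Complex.normSq_eq_norm_sq, Complex.normSq_add_mul_I]
    have e1 := Real.sin_sq_add_cos_sq u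
    have e2 := Real.cosh_sq v
    rw [mul_pow, mul_pow, e2]
    linear_combination Real.sinh v ^ 2 * e1
  rw [hn]
  have hu1 : |u| ≤ 1 / 2 := by
    rw [hu, abs_div, abs_two]
    linarith
  have hv1 : |v| ≤ 1 / 8 := by
    rw [hv, abs_div, abs_two]
    linarith
  have hs1 : |Real.sin u| ≤ Real.sin (1 / 2) := by
    have hpi : (1 : ℝ) / 2 ≤ Real.pi / 2 := by
      have := Real.pi_gt_three
      linarith
    rw [abs_le] at hu1 ⊢
    constructor
    · rw [← Real.sin_neg]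
      exact Real.sin_le_sin_of_le_of_le_pi_div_two (by linarith) (by linarith) hu1.1
    · exact Real.sin_le_sin_of_le_of_le_pi_div_two (by linarith) (by linarith) hu1.2
  have hs2 : Real.sin (1 / 2) ≤ 483 / 1000 := by
    have h := Real.sin_bound (x := 1 / 2) (by norm_num)
    rw [abs_le] at h
    have h3 := h.2
    norm_num at h3
    linarith
  have hs3 : Real.sin u ^ 2 ≤ (483 / 1000) ^ 2 := by
    rw [← sq_abs]
    exact pow_le_pow_left₀ (abs_nonneg _) (hs1.trans hs2) 2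
  have hh : Real.sinh v ^ 2 ≤ 1 / 62 := by
    have e1 : Real.cosh (2 * v) = 1 + 2 * Real.sinh v ^ 2 := by
      rw [Real.cosh_two_mul, Real.cosh_sq]
      ring
    have e2 : Real.cosh (2 * v) ≤ Real.exp (1 / 32) := by
      refine (Real.cosh_le_exp_half_sq (2 * v)).trans (Real.exp_le_exp.2 ?_)
      have : v ^ 2 ≤ (1 / 8) ^ 2 := by
        rw [← sq_abs]
        exact pow_le_pow_left₀ (abs_nonneg _) hv1 2
      nlinarith
    have e3 : Real.exp (1 / 32) ≤ 32 / 31 := by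
      have h := Real.one_sub_le_exp_neg (1 / 32)
      rw [Real.exp_neg] at h
      have hpos := Real.exp_pos (1 / 32)
      rw [le_inv_comm₀ (by norm_num) hpos] at h
      refine h.trans ?_
      norm_num
    linarith
  norm_num at hs3
  linarith

private theorem pow_bound (v : ℂ) (m : ℕ) : ‖1 - (1 - v) ^ m‖ ≤ (1 + ‖v‖) ^ m - 1 := by
  have h0 : ∀ m : ℕ, ‖(1 - v) ^ m‖ ≤ (1 + ‖v‖) ^ m := by
    intro m
    rw [norm_pow]
    exact pow_le_pow_left₀ (norm_nonneg _) (by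
      have := norm_sub_le (1 : ℂ) v
      rwa [norm_one] at this) m
  induction m with
  | zero => simp
  | succ m ih =>
    have e : 1 - (1 - v) ^ (m + 1) = (1 - (1 - v) ^ m) + v * (1 - v) ^ m := by ring
    rw [e]
    calc ‖(1 - (1 - v) ^ m) + v * (1 - v) ^ m‖ ≤ ‖1 - (1 - v) ^ m‖ + ‖v * (1 - v) ^ m‖ := norm_add_le _ _
      _ ≤ ((1 + ‖v‖) ^ m - 1) + ‖v‖ * (1 + ‖v‖) ^ m := by
        rw [norm_mul]
        exact add_le_add ih (mul_le_mul_of_nonneg_left (h0 m) (norm_nonneg _))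
      _ = (1 + ‖v‖) ^ (m + 1) - 1 := by ring

private theorem binom_id (v : ℂ) (m : ℕ) :
    ∑ j ∈ Finset.range m, ((-1 : ℂ) ^ j * (m.choose (j + 1) : ℂ)) * v ^ (j + 1) = 1 - (1 - v) ^ m := by
  have h := add_pow (-v) 1 m
  have h2 : (1 - v) ^ m = ((-v) + 1) ^ m := by ring
  rw [h2, h, Finset.sum_range_succ']
  simp only [one_pow, mul_one, pow_zero, Nat.choose_zero_right, Nat.cast_one]
  rw [sub_add_eq_sub_sub, sub_right_comm, sub_self, zero_sub, ← Finset.sum_neg_distrib]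
  apply Finset.sum_congr rfl
  intro j _
  rw [neg_pow v (j + 1)]
  ring

theorem bump (k m : ℕ) (hk : 1 ≤ k) (hm : 1 ≤ m) : ∃ (H : ℂ → ℂ) (c : ℝ), Differentiable ℂ H ∧
    (∀ x, deriv H x = 1 - (1 - Complex.sin (x / 2) ^ (2 * k)) ^ m) ∧
    (∀ x, H (-x) = -H x) ∧ (∀ x, H (conj x) = conj (H x)) ∧
    (∀ x, H (x + 2 * Real.pi) = H x + 2 * Real.pi * (c : ℂ)) ∧ (H Real.pi).re = Real.pi * c ∧
    (∀ x ∈ NN, ‖H x‖ ≤ 2 * (Real.exp (m * (1 / 4) ^ k) - 1)) ∧
    (∀ x y : ℝ, x ≤ y → (H x).re ≤ (H y).re ∧ (H y).re ≤ (H x).re + (y - x)) ∧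
    (∀ y : ℝ, 0 ≤ y → y ≤ Real.pi → (H y).re ≤ y * (m * (Real.sin (y / 2) ^ 2) ^ k)) ∧
    (∀ x : ℝ, (deriv H x).re = 1 - (1 - (Real.sin (x / 2) ^ 2) ^ k) ^ m ∧ 0 ≤ (deriv H x).re) := by
  choose J hJd hJ hJo hJc hJp hJ6 hJ7 hJ8 hJ9 using fun j : ℕ => prim (k * (j + 1))
  obtain ⟨H, hH⟩ : ∃ H : ℂ → ℂ, H = fun x => ∑ j ∈ Finset.range m, ((-1 : ℂ) ^ j * (m.choose (j + 1) : ℂ)) * J j x := ⟨_, rfl⟩
  obtain ⟨c, hc⟩ : ∃ c : ℝ, c = ∑ j ∈ Finset.range m, ((-1 : ℝ) ^ j * (m.choose (j + 1) : ℝ)) *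
      ((Nat.centralBinom (k * (j + 1)) : ℝ) / 4 ^ (k * (j + 1))) := ⟨_, rfl⟩
  have hHx : ∀ x, H x = ∑ j ∈ Finset.range m, ((-1 : ℂ) ^ j * (m.choose (j + 1) : ℂ)) * J j x := by
    intro x; rw [hH]
  have hder : ∀ x, HasDerivAt H (1 - (1 - Complex.sin (x / 2) ^ (2 * k)) ^ m) x := by
    intro x
    rw [← binom_id, hH]
    apply HasDerivAt.fun_sum
    intro j _
    have h1 : HasDerivAt (J j) (Complex.sin (x / 2) ^ (2 * (k * (j + 1)))) x := by
      rw [← hJ j x]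
      exact (hJd j x).hasDerivAt
    have h2 : (Complex.sin (x / 2) ^ (2 * k)) ^ (j + 1) = Complex.sin (x / 2) ^ (2 * (k * (j + 1))) := by
      rw [← pow_mul]
      congr 1
      ring
    rw [h2]
    exact h1.const_mul _
  have hodd : ∀ x, H (-x) = -H x := by
    intro x
    rw [hHx, hHx, ← Finset.sum_neg_distrib]
    apply Finset.sum_congr rfl
    intro j _
    rw [hJo j x]; ring
  have hconj : ∀ x, H (conj x) = conj (H x) := by
    intro x
    rw [hHx, hHx, map_sum]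
    apply Finset.sum_congr rfl
    intro j _
    rw [hJc j x, map_mul, map_mul, map_pow, map_neg, map_one, map_natCast]
  have hper : ∀ x, H (x + 2 * Real.pi) = H x + 2 * Real.pi * (c : ℂ) := by
    intro x
    rw [hHx, hHx, hc]
    push_cast
    rw [Finset.mul_sum, ← Finset.sum_add_distrib]
    apply Finset.sum_congr rfl
    intro j _
    rw [hJp j x]
    ring
  have h00 : H 0 = 0 := by
    have h := hodd 0
    rw [neg_zero] at h
    have h3 : (2 : ℂ) * H 0 = 0 := by linear_combination h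
    rcases mul_eq_zero.1 h3 with h4 | h4
    · exact absurd h4 two_ne_zero
    · exact h4
  have hval : ∀ x : ℝ, (1 - (1 - Complex.sin ((x : ℂ) / 2) ^ (2 * k)) ^ m : ℂ) =
      ((1 - (1 - (Real.sin (x / 2) ^ 2) ^ k) ^ m : ℝ) : ℂ) := by
    intro x
    push_cast
    rw [← pow_mul]
  have hreal : ∀ x : ℝ, HasDerivAt (fun x : ℝ => (H (x : ℂ)).re) (1 - (1 - (Real.sin (x / 2) ^ 2) ^ k) ^ m) x := by
    intro x
    have h := (hder (x : ℂ)).real_of_complex
    rw [hval x, Complex.ofReal_re] at h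
    exact h
  have hs01 : ∀ x : ℝ, 0 ≤ (Real.sin (x / 2) ^ 2) ^ k ∧ (Real.sin (x / 2) ^ 2) ^ k ≤ 1 := by
    intro x
    exact ⟨by positivity, pow_le_one₀ (sq_nonneg _) (Real.sin_sq_le_one _)⟩
  have hq0 : ∀ x : ℝ, 0 ≤ 1 - (1 - (Real.sin (x / 2) ^ 2) ^ k) ^ m := by
    intro x
    have h1 := hs01 x
    have h2 : (1 - (Real.sin (x / 2) ^ 2) ^ k) ^ m ≤ 1 := pow_le_one₀ (by linarith) (by linarith)
    linarith
  have hq1 : ∀ x : ℝ, 1 - (1 - (Real.sin (x / 2) ^ 2) ^ k) ^ m ≤ 1 := by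
    intro x
    have h1 := hs01 x
    have h2 : 0 ≤ (1 - (Real.sin (x / 2) ^ 2) ^ k) ^ m := pow_nonneg (by linarith) m
    linarith
  have hq2 : ∀ x : ℝ, 1 - (1 - (Real.sin (x / 2) ^ 2) ^ k) ^ m ≤ m * (Real.sin (x / 2) ^ 2) ^ k := by
    intro x
    have h1 := hs01 x
    have h2 := one_add_mul_le_pow (a := -((Real.sin (x / 2) ^ 2) ^ k)) (by linarith) m
    have h3 : (1 + -((Real.sin (x / 2) ^ 2) ^ k)) = 1 - (Real.sin (x / 2) ^ 2) ^ k := by ring
    rw [h3] at h2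
    linarith
  refine ⟨H, c, fun x => (hder x).differentiableAt, fun x => (hder x).deriv, hodd, hconj, hper, ?_, ?_, ?_, ?_, ?_⟩
  · have h := hper (-(Real.pi : ℂ))
    have h1 : -(Real.pi : ℂ) + 2 * Real.pi = Real.pi := by ring
    rw [h1, hodd] at h
    have h2 : H Real.pi = ((Real.pi * c : ℝ) : ℂ) := by
      push_cast
      linear_combination (1 / 2 : ℂ) * h
    rw [h2, Complex.ofReal_re]
  · intro x hx
    have hNN : Convex ℝ NN := by
      have h1 : NN = (Complex.re ⁻¹' Set.Ioo (-1) 1) ∩ (Complex.im ⁻¹' Set.Ioo (-(1 / 4)) (1 / 4)) := by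
        ext z
        simp only [NN, Set.mem_setOf_eq, Set.mem_inter_iff, Set.mem_preimage, Set.mem_Ioo, abs_lt]
      rw [h1]
      exact ((convex_Ioo (-1 : ℝ) 1).linear_preimage Complex.reLm).inter
        ((convex_Ioo (-(1 / 4) : ℝ) (1 / 4)).linear_preimage Complex.imLm)
    have h0 : (0 : ℂ) ∈ NN := by
      constructor
      · simp
      · simp
    have hb : ∀ y ∈ NN, ‖(1 - (1 - Complex.sin (y / 2) ^ (2 * k)) ^ m : ℂ)‖ ≤ Real.exp (m * (1 / 4) ^ k) - 1 := by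
      intro y hy
      refine (pow_bound _ m).trans ?_
      have h1 : ‖Complex.sin (y / 2) ^ (2 * k)‖ ≤ (1 / 4) ^ k := by
        rw [norm_pow, pow_mul]
        exact pow_le_pow_left₀ (by positivity) (sin_half_bound' y hy) k
      have h2 : (1 + ‖Complex.sin (y / 2) ^ (2 * k)‖) ^ m ≤ Real.exp (m * (1 / 4) ^ k) := by
        rw [Real.exp_nat_mul]
        apply pow_le_pow_left₀ (by positivity)
        have h3 := Real.add_one_le_exp ((1 / 4 : ℝ) ^ k)
        linarith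
      linarith
    have hm2 := hNN.norm_image_sub_le_of_norm_hasDerivWithin_le
      (fun y _ => (hder y).hasDerivWithinAt) hb h0 hx
    rw [h00, sub_zero, sub_zero] at hm2
    have hxn : ‖x‖ ≤ 2 := by
      obtain ⟨h1, h2⟩ := hx
      refine (Complex.norm_le_abs_re_add_abs_im x).trans ?_
      linarith
    have hnn : 0 ≤ Real.exp (m * (1 / 4) ^ k) - 1 := (norm_nonneg _).trans (hb 0 h0)
    nlinarith [norm_nonneg x]
  · intro x y hxy
    constructor
    · have hmono : Monotone (fun x : ℝ => (H (x : ℂ)).re) := by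
        apply monotone_of_deriv_nonneg (fun y => (hreal y).differentiableAt)
        intro y
        rw [(hreal y).deriv]
        exact hq0 y
      exact hmono hxy
    · have hd : ∀ x : ℝ, HasDerivAt (fun x : ℝ => x - (H (x : ℂ)).re) (1 - (1 - (1 - (Real.sin (x / 2) ^ 2) ^ k) ^ m)) x :=
        fun x => (hasDerivAt_id x).sub (hreal x)
      have hmono : Monotone (fun x : ℝ => x - (H (x : ℂ)).re) := by
        apply monotone_of_deriv_nonneg (fun y => (hd y).differentiableAt)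
        intro y
        rw [(hd y).deriv]
        linarith [hq1 y]
      have h := hmono hxy
      simp only at h
      linarith
  · intro y hy0 hypi
    have hd : ∀ x : ℝ, HasDerivAt (fun x : ℝ => x * (m * (Real.sin (y / 2) ^ 2) ^ k) - (H (x : ℂ)).re)
        (1 * (m * (Real.sin (y / 2) ^ 2) ^ k) - (1 - (1 - (Real.sin (x / 2) ^ 2) ^ k) ^ m)) x :=
      fun x => ((hasDerivAt_id x).mul_const _).sub (hreal x)
    have hmono : MonotoneOn (fun x : ℝ => x * (m * (Real.sin (y / 2) ^ 2) ^ k) - (H (x : ℂ)).re) (Set.Icc 0 y) := by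
      apply monotoneOn_of_deriv_nonneg (convex_Icc _ _)
        (fun x _ => (hd x).continuousAt.continuousWithinAt)
        (fun x _ => (hd x).differentiableAt.differentiableWithinAt)
      intro x hx
      rw [interior_Icc] at hx
      rw [(hd x).deriv]
      have h1 := hq2 x
      have h2 : Real.sin (x / 2) ≤ Real.sin (y / 2) :=
        Real.sin_le_sin_of_le_of_le_pi_div_two (by linarith [hx.1, Real.pi_pos]) (by linarith) (by linarith [hx.2])
      have h3 : 0 ≤ Real.sin (x / 2) := Real.sin_nonneg_of_nonneg_of_le_pi (by linarith [hx.1]) (by linarith [hx.2, Real.pi_pos])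
      have h4 : (Real.sin (x / 2) ^ 2) ^ k ≤ (Real.sin (y / 2) ^ 2) ^ k :=
        pow_le_pow_left₀ (sq_nonneg _) (pow_le_pow_left₀ h3 h2 2) k
      have h5 : (m : ℝ) * (Real.sin (x / 2) ^ 2) ^ k ≤ m * (Real.sin (y / 2) ^ 2) ^ k :=
        mul_le_mul_of_nonneg_left h4 (Nat.cast_nonneg m)
      linarith
    have h := hmono (Set.left_mem_Icc.2 hy0) (Set.right_mem_Icc.2 hy0) hy0
    simp only [zero_mul, Complex.ofReal_zero, h00, Complex.zero_re, sub_zero] at h
    linarith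
  · intro x
    rw [(hder (x : ℂ)).deriv, hval x, Complex.ofReal_re]
    exact ⟨rfl, hq0 x⟩

end LibEY38
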