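import Pool.Agent.LibEY38.Defs
import Pool.Agent.LibEY38.B0
import Pool.Agent.LibEY38.F1
import Pool.Agent.LibEY38.F2a

open Complex Set Filter Topology MeasureTheory
open scoped ComplexConjugate

namespace LibEY38

/-
ROW F2. The explicit perturbation, for EVERY degree N >= 1: steep outside, tiny near the eye, double zeros at ±aa.
G x = Λ (H x - α x - β sin x), H from bump k m, m = ⌈3/s^k⌉₊, s = sin(3/5)^2, k large.
-/

private theorem F2_choose (s r1 r2 η : ℝ) (hs1 : 1 / 4 < s) (hs2 : s < 1) (h10 : 0 < r1) (h1 : r1 < s)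
    (h20 : 0 < r2) (h2 : r2 < s) (hη : 0 < η) :
    ∃ k m : ℕ, 1 ≤ k ∧ 1 ≤ m ∧ 3 ≤ m * s ^ k ∧ m * (1 / 4 : ℝ) ^ k ≤ η ∧ m * r1 ^ k ≤ η ∧ m * r2 ^ k ≤ η := by
  have hs0 : 0 < s := by linarith
  have key : ∀ r : ℝ, 0 < r → r < s → ∀ᶠ k : ℕ in atTop, 3 * (r / s) ^ k + r ^ k ≤ η := by
    intro r hr0 hr
    have t : Tendsto (fun k : ℕ => 3 * (r / s) ^ k + r ^ k) atTop (𝓝 (3 * 0 + 0)) := by
      refine ((tendsto_pow_atTop_nhds_zero_of_lt_one (by positivity) ?_).const_mul 3).add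
        (tendsto_pow_atTop_nhds_zero_of_lt_one hr0.le (by linarith))
      rw [div_lt_one hs0]; exact hr
    exact t.eventually (eventually_le_nhds (by simpa using hη))
  obtain ⟨k, ⟨hk1, hk2⟩, hk3, hk4⟩ := (((eventually_ge_atTop 1).and (key (1 / 4) (by norm_num) hs1)).and
    ((key r1 h10 h1).and (key r2 h20 h2))).exists
  have hsk : 0 < s ^ k := by positivity
  have hup : ((⌈3 / s ^ k⌉₊ : ℕ) : ℝ) ≤ 3 / s ^ k + 1 := (Nat.ceil_lt_add_one (by positivity)).le
  have gen : ∀ r : ℝ, 0 < r → 3 * (r / s) ^ k + r ^ k ≤ η → ((⌈3 / s ^ k⌉₊ : ℕ) : ℝ) * r ^ k ≤ η := by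
    intro r hr0 hr
    have hrk : 0 ≤ r ^ k := by positivity
    have := mul_le_mul_of_nonneg_right hup hrk
    have e : (3 / s ^ k + 1) * r ^ k = 3 * (r / s) ^ k + r ^ k := by
      rw [div_pow]; ring
    linarith
  refine ⟨k, ⌈3 / s ^ k⌉₊, hk1, ?_, ?_, gen _ (by norm_num) hk2, gen _ h10 hk3, gen _ h20 hk4⟩
  · rw [Nat.one_le_ceil_iff]; positivity
  · have := Nat.le_ceil (3 / s ^ k)
    have h := mul_le_mul_of_nonneg_right this hsk.le
    rwa [div_mul_cancel₀ _ hsk.ne'] at h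

private theorem F2_sin_bounds : (318 : ℝ) / 1000 < Real.sin (3 / 5) ^ 2 ∧ Real.sin (3 / 5) ^ 2 < 1 ∧ 1 / 2 < Real.sin (3 / 5) ∧
    Real.sin (117 / 200) ^ 2 < 312 / 1000 ∧ 0 < Real.sin (117 / 200) := by
  have h1 : (3 / 5 : ℝ) - (3 / 5) ^ 3 / 6 < Real.sin (3 / 5) := Real.sin_gt_sub_cube (by norm_num)
  have h2 : Real.sin (3 / 5) < 3 / 5 := Real.sin_lt (by norm_num)
  have h3 : 564 / 1000 < Real.sin (3 / 5) := by
    refine lt_of_le_of_lt ?_ h1
    norm_num
  have h4 := Real.sin_bound (x := 117 / 200) (by rw [abs_of_pos] <;> norm_num)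
  have h5 := (abs_le.mp h4).2
  rw [abs_of_pos (by norm_num)] at h5
  have h6 : Real.sin (117 / 200) ≤ 558 / 1000 := by
    norm_num at h5 ⊢
    linarith
  have h7 : 0 < Real.sin (117 / 200) := Real.sin_pos_of_pos_of_lt_pi (by norm_num) (by linarith [Real.pi_gt_three])
  refine ⟨?_, ?_, by linarith, ?_, h7⟩ <;> nlinarith

private theorem F2_exp3 : Real.exp (-3) < 1 / 20 := by
  rw [Real.exp_neg, ← one_div]
  apply one_div_lt_one_div_of_lt (by norm_num)
  have h : (2.7182818283 : ℝ) < Real.exp 1 := Real.exp_one_gt_d9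
  have h3 : Real.exp 3 = Real.exp 1 ^ 3 := by
    rw [← Real.exp_nat_mul]; norm_num
  rw [h3]
  have := pow_lt_pow_left₀ h (by norm_num) (n := 3) (by norm_num)
  refine lt_trans ?_ this
  norm_num

private theorem F2_exp_le (t : ℝ) (h0 : 0 ≤ t) (h1 : t ≤ 1 / 2) : Real.exp t - 1 ≤ 2 * t := by
  have h2 := Real.exp_bound_div_one_sub_of_interval h0 (by linarith : t < 1)
  have h3 : 1 / (1 - t) ≤ 1 + 2 * t := by
    rw [div_le_iff₀ (by linarith)]
    nlinarith
  linarith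

private theorem F2_sin_norm (x : ℂ) (hx2 : |x.im| < 1 / 4) : ‖Complex.sin x‖ ≤ 2 := by
  have h1 : Complex.sin x = (Complex.exp (-x * I) - Complex.exp (x * I)) * I / 2 := rfl
  rw [h1]
  rw [norm_div, norm_mul, Complex.norm_I, mul_one]
  have h2 : ‖(2 : ℂ)‖ = 2 := by simp
  rw [h2, div_le_iff₀ (by norm_num)]
  refine le_trans (norm_sub_le _ _) ?_
  rw [Complex.norm_exp, Complex.norm_exp]
  have e1 : (-x * I).re = x.im := by simp
  have e2 : (x * I).re = -x.im := by simp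
  rw [e1, e2]
  have h6 : Real.exp (1 / 4) ≤ 2 := by
    have := Real.exp_bound_div_one_sub_of_interval (x := 1 / 4) (by norm_num) (by norm_num)
    refine this.trans ?_
    norm_num
  have h3 : Real.exp x.im ≤ 2 := by
    have h5 : Real.exp x.im ≤ Real.exp (1 / 4) := Real.exp_le_exp.mpr (by linarith [abs_lt.mp hx2])
    linarith
  have h4 : Real.exp (-x.im) ≤ 2 := by
    have h5 : Real.exp (-x.im) ≤ Real.exp (1 / 4) := Real.exp_le_exp.mpr (by linarith [(abs_lt.mp hx2).1])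
    linarith
  linarith

theorem perturbation (ε : ℝ) (hε : 0 < ε) (N : ℕ) (hN : 1 ≤ N) : ∃ (G : ℂ → ℂ), Differentiable ℂ G ∧
    (∀ x ∈ NN, ‖G x‖ ≤ ε) ∧ (∀ x, G (-x) = -G x) ∧ (∀ x, G (conj x) = conj (G x)) ∧
    (∀ x, G (x + 2 * Real.pi) = G x + 2 * Real.pi * N) ∧ G aa = 0 ∧ deriv G aa = 0 ∧
    (∀ x : ℝ, -ε ≤ (deriv G x).re) ∧
    (∀ x : ℝ, 6 / 5 ≤ x → x ≤ Real.pi → 29 / 20 - ε ≤ (deriv G x).re) ∧
    (∀ x : ℝ, 0 ≤ x → x ≤ 6 / 5 → -ε * x ≤ (deriv (deriv G) x).re) ∧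
    (G (6 / 5)).re ≤ 1 / 2 := by
  obtain ⟨hs1, hs2, hs3, hr1, hr10⟩ := F2_sin_bounds
  obtain ⟨-, -, -, -, -, -, -, hcosa, hsina, haa1, haa2⟩ := numbers
  have hpi3 := Real.pi_gt_d2
  have hpi4 := Real.pi_lt_d2
  set s : ℝ := Real.sin (3 / 5) ^ 2 with hs
  have hN0 : (1 : ℝ) ≤ N := by exact_mod_cast hN
  set ε' : ℝ := min ε 1 with hε'
  have hε'0 : 0 < ε' := lt_min hε (by norm_num)
  have hεε : ε' ≤ ε := min_le_left _ _
  have hε1 : ε' ≤ 1 := min_le_right _ _
  set η : ℝ := ε' / (1000 * N) with hη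
  have hη0 : 0 < η := by positivity
  have hNη : N * η = ε' / 1000 := by rw [hη]; field_simp
  have hη1 : η ≤ 1 / 1000 := by
    have : η ≤ N * η := by nlinarith
    linarith
  set δ : ℝ := 1 / (12 * N) with hδ
  have hδ0 : 0 < δ := by positivity
  have hNδ : N * δ = 1 / 12 := by rw [hδ]; field_simp
  have hδ1 : δ ≤ 1 / 12 := by
    have : δ ≤ N * δ := by nlinarith
    linarith
  set r2 : ℝ := Real.sin ((6 / 5 - δ) / 2) ^ 2 with hr2
  have hr2s0 : 0 < Real.sin ((6 / 5 - δ) / 2) := Real.sin_pos_of_pos_of_lt_pi (by linarith) (by linarith)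
  have hr20 : 0 < r2 := by positivity
  have hr2s : r2 < s := by
    rw [hr2, hs]
    apply pow_lt_pow_left₀ _ hr2s0.le (by norm_num)
    apply Real.sin_lt_sin_of_lt_of_le_pi_div_two <;> linarith
  obtain ⟨k, m, hk1, hm1, hms, hM, hM1, hM2⟩ := F2_choose s (Real.sin (117 / 200) ^ 2) r2 η (by linarith) hs2
    (by positivity) (by linarith) hr20 hr2s hη0
  obtain ⟨H, c, Hd, Hder, Hodd, Hreal, Hper, Hpi, HNN, Hmono, Hup, Hre⟩ := bump k m hk1 hm1
  set M : ℝ := m * (1 / 4 : ℝ) ^ k with hMdef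
  have hm0 : (1 : ℝ) ≤ m := by exact_mod_cast hm1
  have hM0 : 0 < M := by positivity
  -- values at aa
  have hsaa : Real.sin (aa / 2) ^ 2 = 1 / 5 := by
    rw [Real.sin_sq_eq_half_sub, show 2 * (aa / 2) = aa by ring, hcosa]
    norm_num
  have h54 : (m : ℝ) * (1 / 5) ^ k ≤ M := by
    rw [hMdef]
    apply mul_le_mul_of_nonneg_left _ (by linarith)
    exact pow_le_pow_left₀ (by norm_num) (by norm_num) k
  set S : ℝ := (deriv H aa).re with hS
  have hSe : S = 1 - (1 - (1 / 5 : ℝ) ^ k) ^ m := by rw [hS, (Hre aa).1, hsaa]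
  have hS0 : 0 ≤ S := (Hre aa).2
  have h5k1 : (1 / 5 : ℝ) ^ k ≤ 1 := pow_le_one₀ (by norm_num) (by norm_num)
  have hSM : S ≤ M := by
    rw [hSe]
    have := one_add_mul_le_pow (a := -(1 / 5 : ℝ) ^ k) (by linarith) m
    have e : (1 + -(1 / 5 : ℝ) ^ k) = 1 - (1 / 5 : ℝ) ^ k := by ring
    rw [e] at this
    linarith
  have hH0 : H 0 = 0 := by
    have := Hodd 0
    rw [neg_zero] at this
    have h2 : (2 : ℂ) * H 0 = 0 := by linear_combination this
    simpa using h2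
  set Ia : ℝ := (H aa).re with hIa
  have hIa0 : 0 ≤ Ia := by
    have := (Hmono 0 aa (by linarith)).1
    rw [Complex.ofReal_zero, hH0, Complex.zero_re] at this
    exact this
  have hIa1 : Ia ≤ M := by
    have := Hup aa (by linarith) (by linarith)
    rw [hsaa] at this
    have h1 : aa * (m * (1 / 5 : ℝ) ^ k) ≤ 1 * M := mul_le_mul (by linarith) h54 (by positivity) (by norm_num)
    linarith
  have hHaa : H aa = (Ia : ℂ) := by
    have h1 : conj (H aa) = H aa := by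
      rw [← Hreal, Complex.conj_ofReal]
    rw [hIa]
    exact (Complex.conj_eq_iff_re.mp h1).symm
  have hQaa : 1 - (1 - Complex.sin ((aa : ℂ) / 2) ^ (2 * k)) ^ m = (S : ℂ) := by
    have e : Complex.sin ((aa : ℂ) / 2) ^ (2 * k) = (((1 / 5 : ℝ) ^ k : ℝ) : ℂ) := by
      rw [pow_mul, ← hsaa]
      push_cast
      rfl
    rw [e, hSe]
    push_cast
    ring
  set D : ℝ := 4 / 5 - 3 / 5 * aa with hD
  have hD0 : 23 / 100 < D := by rw [hD]; linarith
  set β : ℝ := (Ia - aa * S) / D with hβ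
  have hβD : β * D = Ia - aa * S := by rw [hβ]; field_simp
  have haS : aa * S ≤ M := by nlinarith
  have haS0 : 0 ≤ aa * S := by positivity
  have hβ1 : |β| ≤ 5 * M := by
    rw [hβ, abs_div, abs_of_pos (by linarith : 0 < D), div_le_iff₀ (by linarith)]
    have h1 : |Ia - aa * S| ≤ M := by rw [abs_le]; constructor <;> linarith
    have h2 : 5 * M * (23 / 100) ≤ 5 * M * D := mul_le_mul_of_nonneg_left hD0.le (by positivity)
    linarith
  set α : ℝ := S - 3 / 5 * β with hα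
  have hβ2 := abs_le.mp hβ1
  have hα1 : |α| ≤ 4 * M := by
    rw [abs_le, hα]; constructor <;> linarith
  have hα2 := abs_le.mp hα1
  -- the steep part
  have hsteep : ∀ x : ℝ, 6 / 5 ≤ x → x ≤ Real.pi → 19 / 20 ≤ (deriv H x).re := by
    intro x hx1 hx2
    rw [(Hre x).1]
    have hsin : Real.sin (3 / 5) ≤ Real.sin (x / 2) := by
      apply Real.sin_le_sin_of_le_of_le_pi_div_two
      · linarith
      · linarith
      · linarith
    have hv : s ^ k ≤ (Real.sin (x / 2) ^ 2) ^ k := by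
      rw [hs]
      apply pow_le_pow_left₀ (by positivity)
      exact pow_le_pow_left₀ (by linarith) hsin 2
    have hv1 : (Real.sin (x / 2) ^ 2) ^ k ≤ 1 := pow_le_one₀ (by positivity) (Real.sin_sq_le_one _)
    have h1 : (1 - (Real.sin (x / 2) ^ 2) ^ k) ^ m ≤ Real.exp (-s ^ k) ^ m := by
      apply pow_le_pow_left₀ (by linarith)
      have := Real.add_one_le_exp (-s ^ k)
      linarith
    have h2 : Real.exp (-s ^ k) ^ m ≤ Real.exp (-3) := by
      rw [← Real.exp_nat_mul]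
      apply Real.exp_le_exp.mpr
      linarith
    have h3 := F2_exp3
    linarith
  -- real part of H as a real function
  have hHr : ∀ x : ℝ, HasDerivAt (fun x : ℝ => (H x).re) (deriv H x).re x := fun x =>
    HasDerivAt.real_of_complex (Hd x).hasDerivAt
  have hlow : 19 / 20 * (Real.pi - 6 / 5) ≤ (H Real.pi).re - (H ((6 / 5 : ℝ) : ℂ)).re := by
    have := Convex.mul_sub_le_image_sub_of_le_deriv (D := Set.Icc (6 / 5 : ℝ) Real.pi) (convex_Icc _ _)
      (f := fun x : ℝ => (H x).re) (fun x _ => (hHr x).continuousAt.continuousWithinAt)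
      (fun x _ => (hHr x).differentiableAt.differentiableWithinAt) (C := 19 / 20) (by
        intro x hx
        rw [interior_Icc] at hx
        rw [(hHr x).deriv]
        exact hsteep x hx.1.le hx.2.le) (6 / 5) ⟨le_rfl, by linarith⟩ Real.pi ⟨by linarith, le_rfl⟩ (by linarith)
    exact this
  have hH65 : 0 ≤ (H ((6 / 5 : ℝ) : ℂ)).re := by
    have := (Hmono 0 (6 / 5) (by norm_num)).1
    rw [Complex.ofReal_zero, hH0, Complex.zero_re] at this
    exact this
  have hc1 : 504 / 1000 ≤ c := by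
    rw [Hpi] at hlow
    by_contra hcon
    push Not at hcon
    have : Real.pi * c < Real.pi * (504 / 1000) := mul_lt_mul_of_pos_left hcon Real.pi_pos
    linarith
  have hc2 : c ≤ 629 / 1000 := by
    have h1 := (Hmono (117 / 100) Real.pi (by linarith)).2
    have h2 := Hup (117 / 100) (by norm_num) (by linarith)
    rw [show (117 / 100 : ℝ) / 2 = 117 / 200 by norm_num] at h2
    rw [Hpi] at h1
    have h3 : Real.pi * c ≤ 117 / 100 * η + (Real.pi - 117 / 100) := by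
      have : (117 / 100 : ℝ) * (m * (Real.sin (117 / 200) ^ 2) ^ k) ≤ 117 / 100 * η :=
        mul_le_mul_of_nonneg_left hM1 (by norm_num)
      linarith
    by_contra hcon
    push Not at hcon
    have : Real.pi * (629 / 1000) < Real.pi * c := mul_lt_mul_of_pos_left hcon Real.pi_pos
    linarith
  have hcα1 : 1 / 2 ≤ c - α := by linarith
  have hcα2 : c - α ≤ 633 / 1000 := by linarith
  have hcα0 : 0 < c - α := by linarith
  set Λ : ℝ := N / (c - α) with hΛ
  have hΛc : Λ * (c - α) = N := by rw [hΛ]; field_simp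
  have hΛ0 : 0 < Λ := by positivity
  have hΛ2 : Λ ≤ 2 * N := by
    rw [hΛ, div_le_iff₀ hcα0]
    nlinarith
  have hΛ1 : 1579 / 1000 ≤ Λ := by
    rw [hΛ, le_div_iff₀ hcα0]
    linarith
  have hMη : M ≤ η := hM
  have hΛM : Λ * M ≤ ε' / 500 := by
    have : Λ * M ≤ 2 * N * η := mul_le_mul hΛ2 hMη hM0.le (by positivity)
    linarith
  have hΛM0 : 0 < Λ * M := by positivity
  -- the function
  set G : ℂ → ℂ := fun x => (Λ : ℂ) * (H x - (α : ℂ) * x - (β : ℂ) * Complex.sin x) with hG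
  have hGd : Differentiable ℂ G := by
    rw [hG]
    exact ((Hd.sub (differentiable_id.const_mul _)).sub (Complex.differentiable_sin.const_mul _)).const_mul _
  have hHH : ∀ x, HasDerivAt H (1 - (1 - Complex.sin (x / 2) ^ (2 * k)) ^ m) x := by
    intro x
    rw [← Hder]; exact (Hd x).hasDerivAt
  have hGder : ∀ x, HasDerivAt G ((Λ : ℂ) * (1 - (1 - Complex.sin (x / 2) ^ (2 * k)) ^ m - α - β * Complex.cos x)) x := by
    intro x
    have h2 : HasDerivAt (fun x : ℂ => (α : ℂ) * x) ((α : ℂ) * 1) x := (hasDerivAt_id x).const_mul _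
    have h3 : HasDerivAt (fun x : ℂ => (β : ℂ) * Complex.sin x) ((β : ℂ) * Complex.cos x) x :=
      (Complex.hasDerivAt_sin x).const_mul _
    have := (((hHH x).sub h2).sub h3).const_mul (Λ : ℂ)
    rw [mul_one] at this
    exact this
  have hGderiv : deriv G = fun x => (Λ : ℂ) * (1 - (1 - Complex.sin (x / 2) ^ (2 * k)) ^ m - α - β * Complex.cos x) := by
    ext x; exact (hGder x).deriv
  have hre : ∀ x : ℝ, (deriv G x).re = Λ * ((deriv H x).re - α - β * Real.cos x) := by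
    intro x
    rw [(Hre x).1, hGderiv]
    have : (Λ : ℂ) * (1 - (1 - Complex.sin ((x : ℂ) / 2) ^ (2 * k)) ^ m - α - β * Complex.cos x) =
        ((Λ * (1 - (1 - (Real.sin (x / 2) ^ 2) ^ k) ^ m - α - β * Real.cos x) : ℝ) : ℂ) := by
      rw [pow_mul]
      push_cast; rfl
    show ((Λ : ℂ) * (1 - (1 - Complex.sin ((x : ℂ) / 2) ^ (2 * k)) ^ m - α - β * Complex.cos x)).re = _
    rw [this, Complex.ofReal_re]
  have hcosβ : ∀ x : ℝ, |β * Real.cos x| ≤ 5 * M := by
    intro x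
    rw [abs_mul]
    have h1 := Real.abs_cos_le_one x
    calc |β| * |Real.cos x| ≤ 5 * M * 1 := mul_le_mul hβ1 h1 (abs_nonneg _) (by positivity)
      _ = 5 * M := by ring
  have hlow2 : ∀ x : ℝ, -(9 * M) ≤ -α - β * Real.cos x := by
    intro x
    have := (abs_le.mp (hcosβ x)).2
    linarith
  refine ⟨G, hGd, ?_, ?_, ?_, ?_, ?_, ?_, ?_, ?_, ?_, ?_⟩
  · -- bound on NN
    intro x hx
    have hx1 : |x.re| < 1 := hx.1
    have hx2 : |x.im| < 1 / 4 := hx.2
    have hxn : ‖x‖ ≤ 2 := by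
      have := Complex.norm_le_abs_re_add_abs_im x
      linarith
    have hsin := F2_sin_norm x hx2
    have hJ := HNN x hx
    have hE := F2_exp_le M hM0.le (by linarith)
    have h1 : ‖G x‖ ≤ Λ * (4 * M + 4 * M * 2 + 5 * M * 2) := by
      rw [hG]
      show ‖(Λ : ℂ) * (H x - (α : ℂ) * x - (β : ℂ) * Complex.sin x)‖ ≤ _
      rw [norm_mul, Complex.norm_real, Real.norm_of_nonneg hΛ0.le]
      refine mul_le_mul_of_nonneg_left ?_ hΛ0.le
      refine (norm_sub_le _ _).trans ?_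
      refine add_le_add ((norm_sub_le _ _).trans (add_le_add (by linarith) ?_)) ?_
      · rw [norm_mul, Complex.norm_real, Real.norm_eq_abs]
        exact mul_le_mul hα1 hxn (norm_nonneg _) (by positivity)
      · rw [norm_mul, Complex.norm_real, Real.norm_eq_abs]
        exact mul_le_mul hβ1 hsin (norm_nonneg _) (by positivity)
    refine h1.trans ?_
    have : Λ * (4 * M + 4 * M * 2 + 5 * M * 2) = 22 * (Λ * M) := by ring
    rw [this]
    linarith
  · intro x
    simp only [hG, Hodd, Complex.sin_neg]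
    ring
  · intro x
    simp only [hG]
    rw [Hreal, Complex.sin_conj]
    simp only [map_mul, map_sub, Complex.conj_ofReal]
  · intro x
    simp only [hG]
    rw [Hper, Complex.sin_add_two_pi]
    have : (2 : ℂ) * Real.pi * N = 2 * Real.pi * ((Λ * (c - α) : ℝ) : ℂ) := by
      rw [hΛc]; simp
    rw [this]
    push_cast
    ring
  · simp only [hG]
    rw [hHaa, ← Complex.ofReal_sin, hsina]
    have : (Λ : ℂ) * ((Ia : ℂ) - α * aa - β * ((4 / 5 : ℝ) : ℂ)) = ((Λ * (Ia - α * aa - β * (4 / 5)) : ℝ) : ℂ) := by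
      push_cast; ring
    rw [this]
    have h0 : Ia - α * aa - β * (4 / 5) = 0 := by
      rw [hα]
      rw [hD] at hβD
      linarith
    rw [h0]; simp
  · rw [hGderiv]
    show (Λ : ℂ) * (1 - (1 - Complex.sin ((aa : ℂ) / 2) ^ (2 * k)) ^ m - α - β * Complex.cos aa) = 0
    rw [hQaa, ← Complex.ofReal_cos, hcosa]
    have : (Λ : ℂ) * ((S : ℂ) - α - β * ((3 / 5 : ℝ) : ℂ)) = ((Λ * (S - α - β * (3 / 5)) : ℝ) : ℂ) := by
      push_cast; ring
    rw [this]
    have h0 : S - α - β * (3 / 5) = 0 := by rw [hα]; ring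
    rw [h0]; simp
  · intro x
    rw [hre x]
    have h1 := (Hre x).2
    have h2 := hlow2 x
    have h3 : -(9 * M) ≤ (deriv H x).re - α - β * Real.cos x := by linarith
    have := mul_le_mul_of_nonneg_left h3 hΛ0.le
    have e : Λ * -(9 * M) = -(9 * (Λ * M)) := by ring
    rw [e] at this
    linarith
  · intro x hx1 hx2
    rw [hre x]
    have h1 := hsteep x hx1 hx2
    have h2 := hlow2 x
    have h3 : 19 / 20 - 9 * M ≤ (deriv H x).re - α - β * Real.cos x := by linarith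
    have h4 := mul_le_mul_of_nonneg_left h3 hΛ0.le
    have e : Λ * (19 / 20 - 9 * M) = 19 / 20 * Λ - 9 * (Λ * M) := by ring
    rw [e] at h4
    linarith
  · intro x hx1 hx2
    have hd2 : HasDerivAt (deriv G) ((Λ : ℂ) * (-(m * (1 - Complex.sin ((x : ℂ) / 2) ^ (2 * k)) ^ (m - 1) *
        (-((2 * k : ℕ) * Complex.sin ((x : ℂ) / 2) ^ (2 * k - 1) *
        (Complex.cos ((x : ℂ) / 2) * (1 / 2))))) - β * (-Complex.sin x))) (x : ℂ) := by
      rw [hGderiv]
      have h0 : HasDerivAt (fun x : ℂ => x / 2) (1 / 2) (x : ℂ) := (hasDerivAt_id _).div_const 2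
      have h1 : HasDerivAt (fun x : ℂ => Complex.sin (x / 2)) (Complex.cos ((x : ℂ) / 2) * (1 / 2)) (x : ℂ) :=
        (Complex.hasDerivAt_sin _).comp (x : ℂ) h0
      have h2 := ((h1.pow (2 * k)).const_sub (1 : ℂ)).pow m
      have h3 : HasDerivAt (fun x : ℂ => (β : ℂ) * Complex.cos x) ((β : ℂ) * (-Complex.sin x)) (x : ℂ) :=
        (Complex.hasDerivAt_cos _).const_mul _
      have := (((h2.const_sub (1 : ℂ)).sub_const (α : ℂ)).sub h3).const_mul (Λ : ℂ)
      exact this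
    rw [hd2.deriv]
    have e : (Λ : ℂ) * (-(m * (1 - Complex.sin ((x : ℂ) / 2) ^ (2 * k)) ^ (m - 1) *
        (-((2 * k : ℕ) * Complex.sin ((x : ℂ) / 2) ^ (2 * k - 1) *
        (Complex.cos ((x : ℂ) / 2) * (1 / 2))))) - β * (-Complex.sin x)) =
        ((Λ * (m * (1 - Real.sin (x / 2) ^ (2 * k)) ^ (m - 1) * ((2 * k : ℕ) * Real.sin (x / 2) ^ (2 * k - 1) *
          (Real.cos (x / 2) * (1 / 2))) + β * Real.sin x) : ℝ) : ℂ) := by
      push_cast; ring
    rw [e, Complex.ofReal_re]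
    have h1 : 0 ≤ Real.sin (x / 2) := Real.sin_nonneg_of_nonneg_of_le_pi (by linarith) (by linarith)
    have h2 : 0 ≤ Real.cos (x / 2) := Real.cos_nonneg_of_neg_pi_div_two_le_of_le (by linarith) (by linarith)
    have h3 : Real.sin x ≤ x := Real.sin_le hx1
    have h3' : 0 ≤ Real.sin x := Real.sin_nonneg_of_nonneg_of_le_pi hx1 (by linarith)
    have h31 : Real.sin (x / 2) ^ (2 * k) ≤ 1 := pow_le_one₀ h1 (Real.sin_le_one _)
    have h32 : 0 ≤ 1 - Real.sin (x / 2) ^ (2 * k) := by linarith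
    have h4 : 0 ≤ m * (1 - Real.sin (x / 2) ^ (2 * k)) ^ (m - 1) * ((2 * k : ℕ) * Real.sin (x / 2) ^ (2 * k - 1) *
          (Real.cos (x / 2) * (1 / 2))) := by positivity
    have h5 : -(5 * M) * Real.sin x ≤ β * Real.sin x := mul_le_mul_of_nonneg_right hβ2.1 h3'
    have h6 : 5 * M * Real.sin x ≤ 5 * M * x := mul_le_mul_of_nonneg_left h3 (by positivity)
    have h7 : -(5 * M) * x ≤ m * (1 - Real.sin (x / 2) ^ (2 * k)) ^ (m - 1) * ((2 * k : ℕ) * Real.sin (x / 2) ^ (2 * k - 1) *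
          (Real.cos (x / 2) * (1 / 2))) + β * Real.sin x := by
      linarith
    have h8 := mul_le_mul_of_nonneg_left h7 hΛ0.le
    refine le_trans ?_ h8
    have h9 : 5 * (Λ * M) ≤ ε := by linarith
    have := mul_le_mul_of_nonneg_right h9 hx1
    linarith
  · have e : G (6 / 5) = (Λ : ℂ) * (H ((6 / 5 : ℝ) : ℂ) - ((α * (6 / 5) + β * Real.sin (6 / 5) : ℝ) : ℂ)) := by
      simp only [hG]
      push_cast
      ring
    rw [e, Complex.re_ofReal_mul, Complex.sub_re, Complex.ofReal_re]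
    have hsin : |β * Real.sin (6 / 5)| ≤ 5 * M := by
      rw [abs_mul]
      have h1 := Real.abs_sin_le_one (6 / 5)
      calc |β| * |Real.sin (6 / 5)| ≤ 5 * M * 1 := mul_le_mul hβ1 h1 (abs_nonneg _) (by positivity)
        _ = 5 * M := by ring
    have hsin' := abs_le.mp hsin
    have h1 := (Hmono (6 / 5 - δ) (6 / 5) (by linarith)).2
    have h2 := Hup (6 / 5 - δ) (by linarith) (by linarith)
    have h3 : (6 / 5 - δ) * (m * (Real.sin ((6 / 5 - δ) / 2) ^ 2) ^ k) ≤ 6 / 5 * η :=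
      mul_le_mul (by linarith) hM2 (by positivity) (by norm_num)
    have h4 : (H ((6 / 5 : ℝ) : ℂ)).re - (α * (6 / 5) + β * Real.sin (6 / 5)) ≤ 12 * η + δ := by
      linarith
    have h5 := mul_le_mul_of_nonneg_left h4 hΛ0.le
    refine h5.trans ?_
    have h6 : Λ * (12 * η + δ) ≤ 2 * N * (12 * η + δ) := mul_le_mul_of_nonneg_right hΛ2 (by positivity)
    refine h6.trans ?_
    have : 2 * (N : ℝ) * (12 * η + δ) = 24 * (N * η) + 2 * (N * δ) := by ring
    rw [this, hNη, hNδ]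
    linarith

end LibEY38
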