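import Pool.Agent.LibEY38.Defs
import Pool.Agent.LibEY38.B5

open Complex Set Filter Topology MeasureTheory
open scoped ComplexConjugate

namespace LibEY38

private theorem F3_mem (x : ℝ) : (x : ℂ) ∈ St (1 / 2) := by
  change |((x : ℂ)).im| < 1 / 2
  rw [Complex.ofReal_im, abs_zero]
  norm_num

private theorem F3_open : IsOpen (St (1 / 2)) := by
  have h : Continuous fun t : ℂ => |t.im| := Complex.continuous_im.abs
  exact isOpen_lt h continuous_const

private noncomputable def F3_al (x : ℝ) : ℝ := 1 + (1 - 3 / 5 * Real.cos x) / 8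

private noncomputable def F3_D (x : ℝ) : ℝ := F3_al x ^ 2 - 13 / 50 * Real.sin x ^ 2

private theorem F3_D_eq (x : ℝ) :
    F3_D x = (1609 - 270 * Real.cos x + 425 * Real.cos x ^ 2) / 1600 := by
  unfold F3_D F3_al
  rw [Real.sin_sq]
  ring

private theorem F3_D_pos (x : ℝ) : 0 < F3_D x := by
  rw [F3_D_eq]
  nlinarith [sq_nonneg (Real.cos x - 1 / 3), Real.cos_le_one x, Real.neg_one_le_cos x]

private theorem F3_d1 (x : ℝ) : deriv FS x = ((2 * F3_al x / F3_D x : ℝ) : ℂ) := by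
  rw [(FS_deriv x (F3_mem x)).2]
  unfold F3_D F3_al
  push_cast
  ring

private theorem F3_bd (x : ℝ) : 8 / 5 ≤ 2 * F3_al x / F3_D x ∧ 2 * F3_al x / F3_D x ≤ 23 / 10 := by
  have hD := F3_D_pos x
  rw [le_div_iff₀ hD, div_le_iff₀ hD]
  rw [F3_D_eq]
  unfold F3_al
  have h1 := Real.cos_le_one x
  have h2 := Real.neg_one_le_cos x
  constructor
  · nlinarith [Real.cos_sq_le_one x]
  · nlinarith [sq_nonneg (Real.cos x - 1 / 5)]

private theorem F3_cos : 7 / 20 ≤ Real.cos (6 / 5) := by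
  have h1 := (abs_le.1 (Real.cos_bound (x := 3 / 10) (by norm_num [abs_of_pos]))).1
  have h2 : |(3 / 10 : ℝ)| = 3 / 10 := abs_of_pos (by norm_num)
  rw [h2] at h1
  have h3 : 0.9545 ≤ Real.cos (3 / 10) := by norm_num at h1 ⊢; linarith
  have h4 : Real.cos (3 / 5) = 2 * Real.cos (3 / 10) ^ 2 - 1 := by
    rw [← Real.cos_two_mul]
    norm_num
  have h5 : Real.cos (6 / 5) = 2 * Real.cos (3 / 5) ^ 2 - 1 := by
    rw [← Real.cos_two_mul]
    norm_num
  have h6 : 0.8221 ≤ Real.cos (3 / 5) := by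
    rw [h4]
    nlinarith
  rw [h5]
  nlinarith

private theorem F3_E (x : ℝ) (h0 : 0 ≤ x) (h1 : x ≤ 6 / 5) :
    0.158 * F3_D x ^ 2 ≤ 3 / 20 * F3_D x - 2 * F3_al x * (3 / 20 * F3_al x - 13 / 25 * Real.cos x) := by
  have hc : 7 / 20 ≤ Real.cos x :=
    F3_cos.trans (Real.cos_le_cos_of_nonneg_of_le_pi h0 (by linarith [Real.pi_gt_three]) h1)
  have hc1 := Real.cos_le_one x
  have hD := F3_D_pos x
  have hL : F3_D x ≤ 0.9792 + 0.19 * (Real.cos x - 7 / 20) := by
    rw [F3_D_eq]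
    nlinarith [mul_nonneg (sub_nonneg.2 hc) (sub_nonneg.2 hc1)]
  have hD2 : F3_D x ^ 2 ≤ 1.1028 * F3_D x := by nlinarith
  have hE : 0.17555 + 1.155 * (Real.cos x - 7 / 20) ≤
      3 / 20 * F3_D x - 2 * F3_al x * (3 / 20 * F3_al x - 13 / 25 * Real.cos x) := by
    rw [F3_D_eq]
    unfold F3_al
    nlinarith [mul_nonneg (sub_nonneg.2 hc) (sub_nonneg.2 hc1)]
  nlinarith

private theorem F3_d2 (x : ℝ) : deriv (deriv FS) x = ((Real.sin x *
    (3 / 20 * F3_D x - 2 * F3_al x * (3 / 20 * F3_al x - 13 / 25 * Real.cos x)) / F3_D x ^ 2 : ℝ) : ℂ) := by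
  have h0 : deriv FS =ᶠ[𝓝 (x : ℂ)] fun z => 2 * (1 + (1 - 3 / 5 * Complex.cos z) / 8) /
      ((1 + (1 - 3 / 5 * Complex.cos z) / 8) ^ 2 - 13 / 50 * Complex.sin z ^ 2) := by
    filter_upwards [F3_open.mem_nhds (F3_mem x)] with z hz
    exact (FS_deriv z hz).2
  rw [h0.deriv_eq]
  have h1 : HasDerivAt (fun z : ℂ => 1 + (1 - 3 / 5 * Complex.cos z) / 8)
      (3 / 40 * Complex.sin x) (x : ℂ) := by
    refine (((((Complex.hasDerivAt_cos (x : ℂ)).const_mul (3 / 5)).const_sub 1).div_const 8).const_add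
      1).congr_deriv ?_
    ring
  have h2 : HasDerivAt (fun z : ℂ => (1 + (1 - 3 / 5 * Complex.cos z) / 8) ^ 2 -
      13 / 50 * Complex.sin z ^ 2)
      (2 * (1 + (1 - 3 / 5 * Complex.cos x) / 8) * (3 / 40 * Complex.sin x) -
        13 / 50 * (2 * Complex.sin x * Complex.cos x)) (x : ℂ) := by
    refine ((h1.pow 2).sub (((Complex.hasDerivAt_sin (x : ℂ)).pow 2).const_mul (13 / 50))).congr_deriv ?_
    push_cast
    ring
  have h3 := ((h1.const_mul 2).div h2 (FS_deriv x (F3_mem x)).1).deriv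
  have h4 : (fun z : ℂ => 2 * (1 + (1 - 3 / 5 * Complex.cos z) / 8) /
      ((1 + (1 - 3 / 5 * Complex.cos z) / 8) ^ 2 - 13 / 50 * Complex.sin z ^ 2)) =
      (fun z : ℂ => 2 * (1 + (1 - 3 / 5 * Complex.cos z) / 8)) /
      (fun z : ℂ => (1 + (1 - 3 / 5 * Complex.cos z) / 8) ^ 2 - 13 / 50 * Complex.sin z ^ 2) := rfl
  rw [h4, h3]
  unfold F3_D F3_al
  push_cast
  ring

/-
ROW F3 (MEDIUM, numbers). Shape of the Suris function on the real line.
With y = cos x: FS' = 2 al/(al^2 - (13/50)(1-y^2)), al = 1 + (1 - 3y/5)/8. Bounds: 8/5 <= FS' <= 23/10 (true range [1.6667, 2.2596]): polynomial inequalities in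
y ∈ [-1,1] (denominator >= .9...): nlinarith. Second derivative: FS'' = -sin x d/dy (2al/Dn), d/dy <= -1/6·... for y ∈ [cos(6/5), 1] (cos(6/5) > 9/25); true minimum of FS''(x)/x on
(0,6/5] is .161 (at 6/5), claim 1/10. sin x >= x (1 - x^2/6) >= (3/4) x on [0,6/5]. FS(6/5) = .. <= (23/10)(6/5) by the mean value theorem and FS 0 = 0.
Derivatives are real on the real axis (FS_sym).
-/
theorem FS_shape : (∀ x : ℝ, 8 / 5 ≤ (deriv FS x).re ∧ (deriv FS x).re ≤ 23 / 10) ∧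
    (∀ x : ℝ, 0 ≤ x → x ≤ 6 / 5 → 1 / 10 * x ≤ (deriv (deriv FS) x).re) ∧
    (FS (6 / 5)).re ≤ 69 / 25 := by
  refine ⟨fun x => ?_, fun x h0 h1 => ?_, ?_⟩
  · rw [F3_d1, Complex.ofReal_re]
    exact F3_bd x
  · rw [F3_d2, Complex.ofReal_re]
    have hD := F3_D_pos x
    have hE := F3_E x h0 h1
    have hs : 2 / Real.pi * x ≤ Real.sin x := Real.mul_le_sin h0 (by linarith [Real.pi_gt_three])
    have hp : (0.634 : ℝ) ≤ 2 / Real.pi := by
      rw [le_div_iff₀ Real.pi_pos]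
      linarith [Real.pi_lt_d2]
    have hs0 : 0 ≤ Real.sin x := Real.sin_nonneg_of_nonneg_of_le_pi h0 (by linarith [Real.pi_gt_three])
    have hD2 : 0 < F3_D x ^ 2 := pow_pos hD 2
    rw [le_div_iff₀ hD2]
    have h2 : Real.sin x * (0.158 * F3_D x ^ 2) ≤ Real.sin x *
        (3 / 20 * F3_D x - 2 * F3_al x * (3 / 20 * F3_al x - 13 / 25 * Real.cos x)) :=
      mul_le_mul_of_nonneg_left hE hs0
    refine le_trans ?_ h2
    have h3 : 0.634 * x ≤ Real.sin x := (mul_le_mul_of_nonneg_right hp h0).trans hs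
    have h4 : 1 / 10 * x ≤ Real.sin x * 0.158 := by linarith
    calc 1 / 10 * x * F3_D x ^ 2 ≤ Real.sin x * 0.158 * F3_D x ^ 2 :=
          mul_le_mul_of_nonneg_right h4 hD2.le
      _ = Real.sin x * (0.158 * F3_D x ^ 2) := by ring
  · have hder : ∀ x : ℝ, HasDerivAt (fun x : ℝ => (FS x).re) (deriv FS x).re x := by
      intro x
      have h1 : DifferentiableAt ℂ FS x := FS_diff.differentiableAt (F3_open.mem_nhds (F3_mem x))
      exact h1.hasDerivAt.real_of_complex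
    have h2 := image_sub_le_mul_sub_of_deriv_le (f := fun x : ℝ => (FS x).re)
      (fun x => (hder x).differentiableAt) (C := 23 / 10) (fun x => by
        rw [(hder x).deriv, F3_d1, Complex.ofReal_re]
        exact (F3_bd x).2) (x := 0) (y := 6 / 5) (by norm_num)
    have h3 : FS ((0 : ℝ) : ℂ) = 0 := by
      unfold FS
      simp
    have h4 : (((6 / 5 : ℝ) : ℝ) : ℂ) = 6 / 5 := by push_cast; ring
    rw [h3, h4, Complex.zero_re] at h2
    norm_num at h2 ⊢
    exact h2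

end LibEY38
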