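import Pool.Agent.LibEY38.Defs
import Pool.Agent.LibEY38.A1
import Pool.Agent.LibEY38.B0
import Pool.Agent.LibEY38.B5
import Pool.Agent.LibEY38.E2
import Pool.Agent.LibEY38.F2
import Pool.Agent.LibEY38.F3

open Complex Set Filter Topology MeasureTheory
open scoped ComplexConjugate

namespace LibEY38

private theorem F4_mem (x : ℝ) {r : ℝ} (hr : 0 < r) : (x : ℂ) ∈ St r := by
  change |((x : ℂ)).im| < r
  rw [Complex.ofReal_im, abs_zero]
  exact hr

private theorem F4_open (r : ℝ) : IsOpen (St r) := by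
  have h : Continuous fun t : ℂ => |t.im| := Complex.continuous_im.abs
  exact isOpen_lt h continuous_const

private theorem F4_mono {r s : ℝ} (h : r ≤ s) : St r ⊆ St s := fun x hx => lt_of_lt_of_le hx h

private theorem F4_convex (r : ℝ) : Convex ℝ (St r) := by
  have e : St r = Complex.imCLM ⁻¹' (Set.Ioo (-r) r) := by
    ext x
    change |x.im| < r ↔ _
    rw [abs_lt]
    rfl
  rw [e]
  exact (convex_Ioo (-r) r).linear_preimage (Complex.imCLM : ℂ →ₗ[ℝ] ℝ)

private theorem F4_der {δ : ℂ → ℂ} {B : ℝ} (h : GlobalCorr B δ) :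
    (∀ x ∈ St (1 / 50), ‖deriv δ x‖ ≤ 400 * B) ∧
    (∀ x ∈ St (1 / 50), ‖deriv (deriv δ) x‖ ≤ 640000 * B) := by
  have h1 := cauchy_w δ (1 / 25) (1 / 50) B 0 le_rfl (by norm_num) (by norm_num) (by norm_num) h.diff (by
    intro t ht
    rw [zero_mul, neg_zero, Real.exp_zero, mul_one]
    exact h.bound t ht)
  have e : (1 / 25 - 1 / 50 : ℝ) = 1 / 50 := by norm_num
  rw [e] at h1
  refine ⟨fun x hx => ?_, fun x hx => ?_⟩
  · have h2 := h1.1 x hx
    rw [zero_mul, neg_zero, Real.exp_zero, mul_one] at h2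
    refine h2.trans (le_of_eq ?_)
    ring
  · have h2 := h1.2 x hx
    rw [zero_mul, neg_zero, Real.exp_zero, mul_one] at h2
    refine h2.trans (le_of_eq ?_)
    ring

private theorem F4_der3 {δ : ℂ → ℂ} {B : ℝ} (h : GlobalCorr B δ) (x : ℝ) :
    ‖deriv (deriv δ) x‖ ≤ 512000000 * B * |x| := by
  have hd1 : DifferentiableOn ℂ (deriv δ) (St (1 / 25)) := h.diff.deriv (F4_open _)
  have hd2 : DifferentiableOn ℂ (deriv (deriv δ)) (St (1 / 25)) := hd1.deriv (F4_open _)
  have hd2' : DifferentiableOn ℂ (deriv (deriv δ)) (St (1 / 50)) := hd2.mono (F4_mono (by norm_num))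
  have h1 := cauchy_w (deriv (deriv δ)) (1 / 50) (1 / 100) (640000 * B) 0 le_rfl (by norm_num)
    (by norm_num) (by norm_num) hd2' (by
      intro t ht
      rw [zero_mul, neg_zero, Real.exp_zero, mul_one]
      exact (F4_der h).2 t ht)
  have e : (1 / 50 - 1 / 100 : ℝ) = 1 / 100 := by norm_num
  rw [e] at h1
  have hev : ∀ y, deriv δ (-y) = deriv δ y := by
    intro y
    have h2 : (fun z => δ (-z)) = fun z => -δ z := by
      funext z
      exact h.odd z
    have h3 := congrArg (fun f : ℂ → ℂ => deriv f y) h2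
    rw [deriv_comp_neg, deriv.fun_neg] at h3
    exact neg_injective h3
  have h0 : deriv (deriv δ) 0 = 0 := by
    have h2 : (fun z => deriv δ (-z)) = deriv δ := by
      funext z
      exact hev z
    have h3 := congrArg (fun f : ℂ → ℂ => deriv f 0) h2
    rw [deriv_comp_neg, neg_zero] at h3
    exact self_eq_neg.1 h3.symm
  have h4 := Convex.norm_image_sub_le_of_norm_deriv_le (f := deriv (deriv δ)) (C := 512000000 * B)
    (s := St (1 / 100)) (x := 0) (y := (x : ℂ))
    (fun y hy => hd2.differentiableAt ((F4_open _).mem_nhds (F4_mono (by norm_num) hy)))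
    (fun y hy => by
      have h5 := h1.1 y hy
      rw [zero_mul, neg_zero, Real.exp_zero, mul_one] at h5
      refine h5.trans (le_of_eq ?_)
      ring) (F4_convex _) (by
        have := F4_mem 0 (r := 1 / 100) (by norm_num)
        rwa [Complex.ofReal_zero] at this) (F4_mem x (by norm_num))
  rw [h0, sub_zero, sub_zero, Complex.norm_real, Real.norm_eq_abs] at h4
  exact h4

private theorem F4_abs {z : ℂ} {B : ℝ} (h : ‖z‖ ≤ B) : -B ≤ z.re ∧ z.re ≤ B :=
  abs_le.1 ((Complex.abs_re_le_norm z).trans h)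

/-
ROW F4 (MEDIUM, assembly of block (a)). Existence of the eye maps, for every N >= 1.
Given ε, N, apply perturbation with ε' small (C ε' <= ε etc.), newton_main: Fc = FS + G + δ. diff: FS_diff (St (1/2)), G entire, GlobalCorr. δ and its derivatives on the real
axis are at most C' C ε' (cauchy_w with k = 0, ρ = 1/50; second and third derivative), δ odd so |δ''(x)| <= C'Cε'|x| (δ''(0) = 0, mean value with the third derivative).
d0: FS'(0) = 40/21 (FS_deriv at 0), 9/5 < 40/21 - small; for the upper bound deriv G 0 small: Cauchy estimate at 0 (ball of radius 1/5 ⊂ NN).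
close: |x.re| <= 19/20, |x.im| < 1/25: x ∈ NN so |G| <= ε'. faa: cc aa = 0: FS_aa. dpos: 8/5 - small >= 1. convex: (1/10 - small) x >= x/20.
big: 8/5 + 29/20 - small = 3.05 - small > 2.98. wrap: 69/25 + 1/2 + small + 12/5 = 5.66 + small < 6.28. per: FS_per + 2πN.
-/
theorem exists_eyeMap (ε : ℝ) (hε : 0 < ε) (N : ℕ) (hN : 1 ≤ N) : ∃ (Fc X : ℂ → ℂ), EyeMap ε N Fc X := by
  obtain ⟨C, ε₀, hC, hε₀, hmain⟩ := newton_main
  obtain ⟨ε', h0, h1, h2, h3⟩ : ∃ ε' : ℝ, 0 < ε' ∧ ε' ≤ ε₀ ∧ ε' + C * ε' ≤ ε ∧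
      ε' + C * ε' ≤ 1 / 10 ^ 12 := by
    have hC1 : 0 < 1 + C := by linarith
    have hm : 0 < min ε (1 / 10 ^ 12) := lt_min hε (by norm_num)
    refine ⟨min ε₀ (min ε (1 / 10 ^ 12) / (1 + C)), lt_min hε₀ (div_pos hm hC1), min_le_left _ _, ?_, ?_⟩
    · have h4 : min ε₀ (min ε (1 / 10 ^ 12) / (1 + C)) * (1 + C) ≤ min ε (1 / 10 ^ 12) := by
        rw [← le_div_iff₀ hC1]
        exact min_le_right _ _
      have h5 := h4.trans (min_le_left ε (1 / 10 ^ 12))
      linarith
    · have h4 : min ε₀ (min ε (1 / 10 ^ 12) / (1 + C)) * (1 + C) ≤ min ε (1 / 10 ^ 12) := by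
        rw [← le_div_iff₀ hC1]
        exact min_le_right _ _
      have h5 := h4.trans (min_le_right ε (1 / 10 ^ 12))
      linarith
  have hCε : 0 < C * ε' := mul_pos hC h0
  obtain ⟨G, hGd, hGb, hGo, hGr, hGp, hGa, hGa', hG1, hG2, hG3, hG4⟩ := perturbation ε' h0 N hN
  obtain ⟨X, δ, hX, hδ, hlink⟩ := hmain G ε' h0 h1 hGd hGb hGo hGr hGa hGa'
  obtain ⟨hS1, hS2, hS3⟩ := FS_shape
  have hsub : St (1 / 25) ⊆ St (1 / 2) := F4_mono (by norm_num)
  have hFd : ∀ x ∈ St (1 / 25), DifferentiableAt ℂ FS x := fun x hx =>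
    FS_diff.differentiableAt ((F4_open _).mem_nhds (hsub hx))
  have hδd : ∀ x ∈ St (1 / 25), DifferentiableAt ℂ δ x := fun x hx =>
    hδ.diff.differentiableAt ((F4_open _).mem_nhds hx)
  have hd1 : ∀ x ∈ St (1 / 25), deriv (fun x => FS x + G x + δ x) x = deriv FS x + deriv G x + deriv δ x := by
    intro x hx
    exact (((hFd x hx).hasDerivAt.add (hGd x).hasDerivAt).add (hδd x hx).hasDerivAt).deriv
  have hd2 : ∀ x ∈ St (1 / 25), deriv (deriv (fun x => FS x + G x + δ x)) x =
      deriv (deriv FS) x + deriv (deriv G) x + deriv (deriv δ) x := by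
    intro x hx
    have h4 : deriv (fun x => FS x + G x + δ x) =ᶠ[𝓝 x] fun x => deriv FS x + deriv G x + deriv δ x := by
      filter_upwards [(F4_open _).mem_nhds hx] with z hz
      exact hd1 z hz
    rw [h4.deriv_eq]
    have h5 : DifferentiableAt ℂ (deriv FS) x :=
      (FS_diff.deriv (F4_open _)).differentiableAt ((F4_open _).mem_nhds (hsub hx))
    have h6 : DifferentiableAt ℂ (deriv G) x :=
      (hGd.differentiableOn.deriv isOpen_univ).differentiableAt (isOpen_univ.mem_nhds (Set.mem_univ x))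
    have h7 : DifferentiableAt ℂ (deriv δ) x :=
      (hδ.diff.deriv (F4_open _)).differentiableAt ((F4_open _).mem_nhds hx)
    exact ((h5.hasDerivAt.add h6.hasDerivAt).add h7.hasDerivAt).deriv
  have hm : ∀ x : ℝ, (x : ℂ) ∈ St (1 / 25) := fun x => F4_mem x (by norm_num)
  have hd1r : ∀ x : ℝ, (deriv (fun x => FS x + G x + δ x) (x : ℂ)).re =
      (deriv FS x).re + (deriv G x).re + (deriv δ x).re := by
    intro x
    rw [hd1 _ (hm x), Complex.add_re, Complex.add_re]
  have hδ1 : ∀ x : ℝ, -(400 * (C * ε')) ≤ (deriv δ x).re := fun x =>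
    (F4_abs ((F4_der hδ).1 x (F4_mem x (by norm_num)))).1
  have hG0 : ‖deriv G 0‖ ≤ 5 * ε' := by
    have h4 := Complex.norm_deriv_le_of_forall_mem_sphere_norm_le (f := G) (c := 0) (R := 1 / 5) (C := ε')
      (by norm_num) hGd.diffContOnCl (fun z hz => by
        have h5 : ‖z‖ = 1 / 5 := by
          rw [mem_sphere_zero_iff_norm] at hz
          exact hz
        refine hGb z ⟨?_, ?_⟩
        · have := Complex.abs_re_le_norm z
          linarith
        · have := Complex.abs_im_le_norm z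
          linarith)
    refine h4.trans (le_of_eq ?_)
    ring
  have hFS0 : (deriv FS ((0 : ℝ) : ℂ)).re = 40 / 21 := by
    rw [(FS_deriv _ (F4_mem 0 (by norm_num))).2, Complex.ofReal_zero, Complex.cos_zero, Complex.sin_zero]
    have h4 : (2 * (1 + (1 - 3 / 5 * 1) / 8) / ((1 + (1 - 3 / 5 * 1) / 8) ^ 2 - 13 / 50 * 0 ^ 2) : ℂ) =
        ((40 / 21 : ℝ) : ℂ) := by
      push_cast
      norm_num
    rw [h4, Complex.ofReal_re]
  refine ⟨fun x => FS x + G x + δ x, X, ?_⟩
  refine
    { npos := hN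
      diff := fun x hx => (((hFd x hx).add (hGd x)).add (hδd x hx)).differentiableWithinAt
      odd := fun x hx => ?_
      real := fun x hx => ?_
      per := fun x hx => ?_
      close := fun x hx1 hx2 => ?_
      faa := ?_
      dfaa := ?_
      dpos := fun x => ?_
      convex := fun x hx1 hx2 => ?_
      d0 := ?_
      big := fun x hx1 hx2 => ?_
      wrap := ?_
      good := ⟨⟨hX.near.diff, ?_, ?_, ?_⟩, hX.sym⟩
      link := fun t => hlink t }
  · rw [FS_sym.odd x (hsub hx), hGo, hδ.odd]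
    ring
  · rw [FS_sym.real x (hsub hx), hGr, hδ.real, map_add, map_add]
  · rw [FS_per, hGp, hδ.per]
    ring
  · have h4 : FS x + G x + δ x - FS x = G x + δ x := by ring
    rw [h4]
    have h5 : x ∈ NN := ⟨by linarith, by linarith⟩
    have h6 := norm_add_le (G x) (δ x)
    have h7 := hGb x h5
    have h8 := hδ.bound x hx2
    linarith
  · rw [FS_aa.1, hGa, hδ.zero]
    ring
  · rw [hd1 _ (hm aa), FS_aa.2, hGa', hδ.dzero]
    ring
  · rw [hd1r]
    have h4 := (hS1 x).1
    have h5 := hG1 x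
    have h6 := hδ1 x
    norm_num at h3
    linarith
  · rw [hd2 _ (hm x), Complex.add_re, Complex.add_re]
    have h4 := hS2 x hx1 hx2
    have h5 := hG3 x hx1 hx2
    have h6 := (F4_abs (F4_der3 hδ x)).1
    rw [abs_of_nonneg hx1] at h6
    norm_num at h3
    have h7 : 0 ≤ (1 / 20 - ε' - 512000000 * (C * ε')) * x := by
      apply mul_nonneg _ hx1
      linarith
    nlinarith
  · have h4 := hd1r 0
    rw [hFS0, Complex.ofReal_zero] at h4
    have h5 := F4_abs hG0
    have h6 := F4_abs ((F4_der hδ).1 0 (by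
      have := F4_mem 0 (r := 1 / 50) (by norm_num)
      rwa [Complex.ofReal_zero] at this))
    rw [h4]
    norm_num at h3
    constructor
    · linarith [h5.1, h6.1]
    · linarith [h5.2, h6.2]
  · rw [hd1r]
    have h4 := (hS1 x).1
    have h5 := hG2 x hx1 hx2
    have h6 := hδ1 x
    norm_num at h3
    linarith
  · have h4 : ((6 / 5 : ℂ)) = ((6 / 5 : ℝ) : ℂ) := by push_cast; ring
    have h5 := hδ.bound ((6 / 5 : ℝ) : ℂ) (hm (6 / 5))
    rw [← h4] at h5
    have h6 := (F4_abs h5).2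
    rw [Complex.add_re, Complex.add_re]
    norm_num at h3
    have h7 := Real.pi_gt_three
    linarith
  · intro t ht
    refine (hX.near.c0 t ht).trans ?_
    exact mul_le_mul_of_nonneg_right (by linarith) (Real.exp_pos _).le
  · intro t ht
    refine (hX.near.c1 t ht).trans ?_
    exact mul_le_mul_of_nonneg_right (by linarith) (Real.exp_pos _).le
  · intro t ht
    refine (hX.near.c2 t ht).trans ?_
    exact mul_le_mul_of_nonneg_right (by linarith) (Real.exp_pos _).le

end LibEY38
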