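import Pool.Agent.LibEY38.Defs
import Pool.Agent.LibEY38.B0
import Pool.Agent.LibEY38.B1
import Pool.Agent.LibEY38.B2
import Pool.Agent.LibEY38.B3
import Pool.Agent.LibEY38.N1

open Complex Set Filter Topology MeasureTheory
open scoped ComplexConjugate

namespace LibEY38

/-
ROW U0 (MEDIUM). The real curve.
For real t: conj t = t so X t is real: x t := (X t).re, x1 t := (deriv X t).re, x2 t := (deriv (deriv X) t).re (HasDerivAt.real_of_complex;
deriv X and deriv (deriv X) are differentiable on the open strip, and real on the real axis: derivative of a real function, or Sym for deriv X). Positivity: deriv X0 t =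
(lam/2)/(cosh^2 (1+z^2)) is real positive for real t (X0_ode, 4th item) and >= (3/20) wt, |X' - X0'| <= wt/1000. Bounds from near_facts, limit from
|X t - aa| <= 7 wt t -> 0.
-/
private theorem U0_open (η : ℝ) : IsOpen (St η) :=
  isOpen_lt (continuous_abs.comp Complex.continuous_im) continuous_const

private theorem U0_mem {η : ℝ} (hη : 0 < η) (t : ℝ) : (t : ℂ) ∈ St η := by
  change |(t : ℂ).im| < η
  rw [Complex.ofReal_im, abs_zero]
  exact hη

private theorem U0_wt (t : ℝ) : wt (t : ℂ) = Real.exp (-(lam * |t|)) := by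
  unfold wt
  rw [Complex.ofReal_re]

/-- a holomorphic function real on the reals has a real derivative there -/
private theorem U0_real {η : ℝ} (hη : 0 < η) {f : ℂ → ℂ} (hf : DifferentiableOn ℂ f (St η))
    (hr : ∀ t : ℝ, f t = ((f t).re : ℂ)) (t : ℝ) :
    HasDerivAt (fun r : ℝ => (f r).re) (deriv f t).re t ∧ deriv f t = ((deriv f t).re : ℂ) := by
  have h1 : HasDerivAt f (deriv f t) (t : ℂ) :=
    ((hf t (U0_mem hη t)).differentiableAt ((U0_open η).mem_nhds (U0_mem hη t))).hasDerivAt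
  have h2 := h1.real_of_complex
  refine ⟨h2, ?_⟩
  have h3 : HasDerivAt (fun r : ℝ => f (r : ℂ)) (deriv f t) t := h1.comp_ofReal
  have h4 : HasDerivAt (fun r : ℝ => (((f r).re : ℝ) : ℂ)) (((deriv f t).re : ℝ) : ℂ) t :=
    h2.ofReal_comp
  have h5 : (fun r : ℝ => f (r : ℂ)) = fun r : ℝ => (((f r).re : ℝ) : ℂ) := funext hr
  rw [h5] at h3
  exact h3.unique h4

private theorem U0_pos (t : ℝ) : ∃ p : ℝ, 0 < p ∧ deriv X0 (t : ℂ) = (p : ℂ) := by
  obtain ⟨hl, _⟩ := numbers
  have h := X0_ode.2.2.2.1 (t : ℂ) (U0_mem (by norm_num) t)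
  have hz : (Complex.tanh (lam * t / 2) / 2 : ℂ) = ((Real.tanh (lam * t / 2) / 2 : ℝ) : ℂ) := by
    push_cast
    rfl
  have hc : Complex.cosh (lam * t / 2) = ((Real.cosh (lam * t / 2) : ℝ) : ℂ) := by
    push_cast
    rfl
  rw [hz, hc] at h
  have hpos : (0 : ℝ) < 1 + (Real.tanh (lam * t / 2) / 2) ^ 2 := by positivity
  have hcp : (0 : ℝ) < Real.cosh (lam * t / 2) := Real.cosh_pos _
  have hlp : (0 : ℝ) < lam := by linarith
  refine ⟨lam / (2 * Real.cosh (lam * t / 2) ^ 2) / (1 + (Real.tanh (lam * t / 2) / 2) ^ 2), by positivity, ?_⟩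
  have hne : ((1 + (Real.tanh (lam * t / 2) / 2) ^ 2 : ℝ) : ℂ) ≠ 0 :=
    Complex.ofReal_ne_zero.mpr hpos.ne'
  rw [Complex.ofReal_div, eq_div_iff hne]
  rw [Complex.ofReal_add, Complex.ofReal_one, Complex.ofReal_pow, h]
  rw [Complex.ofReal_div, Complex.ofReal_mul, Complex.ofReal_pow, Complex.ofReal_ofNat]

theorem real_curve (X : ℂ → ℂ) (ε : ℝ) (hε : 0 ≤ ε) (hε' : ε ≤ 1 / 1000) (hX : Good (1 / 2) ε X) :
    ∃ x x1 x2 : ℝ → ℝ, (∀ t : ℝ, X t = (x t : ℂ)) ∧ (∀ t, HasDerivAt x (x1 t) t) ∧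
      (∀ t, HasDerivAt x1 (x2 t) t) ∧ (∀ t, x (-t) = -x t) ∧
      (∀ t, 1 / 10 * Real.exp (-(lam * |t|)) ≤ x1 t) ∧ (∀ t, x1 t ≤ 3 * Real.exp (-(lam * |t|))) ∧
      (∀ t, |x2 t| ≤ 3 * Real.exp (-(lam * |t|))) ∧ Tendsto x atTop (𝓝 aa) := by
  have hl : (0 : ℝ) < lam := by linarith [numbers.1]
  have h12 : (0 : ℝ) < 1 / 2 := by norm_num
  have hXr : ∀ t : ℝ, X t = ((X t).re : ℂ) := by
    intro t
    have h := hX.sym.real (t : ℂ) (U0_mem h12 t)
    rw [Complex.conj_ofReal] at h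
    exact (Complex.conj_eq_iff_re.mp h.symm).symm
  have hd0 := hX.near.diff
  have hd1 : DifferentiableOn ℂ (deriv X) (St (1 / 2)) := hd0.deriv (U0_open _)
  have hr1 : ∀ t : ℝ, deriv X t = ((deriv X t).re : ℂ) := fun t => (U0_real h12 hd0 hXr t).2
  have hfac := near_facts X (1 / 2) ε (by norm_num) hε hε' hX.near
  refine ⟨fun t => (X t).re, fun t => (deriv X t).re, fun t => (deriv (deriv X) t).re, hXr,
    fun t => (U0_real h12 hd0 hXr t).1, fun t => (U0_real h12 hd1 hr1 t).1, ?_, ?_, ?_, ?_, ?_⟩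
  · intro t
    change (X ((-t : ℝ) : ℂ)).re = -(X t).re
    rw [Complex.ofReal_neg, hX.sym.odd (t : ℂ) (U0_mem h12 t), Complex.neg_re]
  · intro t
    change 1 / 10 * Real.exp (-(lam * |t|)) ≤ (deriv X t).re
    rw [← U0_wt]
    obtain ⟨p, hp, hp'⟩ := U0_pos t
    have h1 := hX.near.c1 (t : ℂ) (U0_mem h12 t)
    have h2 := (X0_bounds (t : ℂ) (U0_mem (by norm_num) t)).1
    rw [hp', Complex.norm_real, Real.norm_eq_abs, abs_of_pos hp] at h2
    rw [hp'] at h1
    have h3 := (Complex.abs_re_le_norm (deriv X t - (p : ℂ))).trans h1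
    rw [Complex.sub_re, Complex.ofReal_re] at h3
    have h4 := (abs_le.mp h3).1
    have hw : 0 < wt (t : ℂ) := Real.exp_pos _
    nlinarith
  · intro t
    change (deriv X t).re ≤ 3 * Real.exp (-(lam * |t|))
    rw [← U0_wt]
    exact (le_abs_self _).trans ((Complex.abs_re_le_norm _).trans (hfac.1 (t : ℂ) (U0_mem h12 t)).2.1)
  · intro t
    change |(deriv (deriv X) t).re| ≤ 3 * Real.exp (-(lam * |t|))
    rw [← U0_wt]
    exact (Complex.abs_re_le_norm _).trans (hfac.1 (t : ℂ) (U0_mem h12 t)).2.2.1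
  · have hlim : Tendsto (fun t : ℝ => 7 * Real.exp (-(lam * t))) atTop (𝓝 0) := by
      have h1 : Tendsto (fun t : ℝ => lam * t) atTop atTop := tendsto_id.const_mul_atTop hl
      have h2 := (Real.tendsto_exp_neg_atTop_nhds_zero.comp h1).const_mul 7
      rw [mul_zero] at h2
      exact h2
    rw [tendsto_iff_dist_tendsto_zero]
    refine squeeze_zero' (Filter.Eventually.of_forall fun _ => dist_nonneg) ?_ hlim
    filter_upwards [eventually_ge_atTop (0 : ℝ)] with t ht
    have h1 := (hfac.1 (t : ℂ) (U0_mem h12 t)).2.2.2.2.1 (by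
      rw [Complex.ofReal_re]
      exact ht)
    rw [U0_wt, abs_of_nonneg ht] at h1
    refine le_trans ?_ h1
    rw [Real.dist_eq]
    have h2 := Complex.abs_re_le_norm (X t - (aa : ℂ))
    rw [Complex.sub_re, Complex.ofReal_re] at h2
    exact h2

end LibEY38
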