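import Pool.Agent.LibEY38.Defs

open Complex Set Filter Topology MeasureTheory
open scoped ComplexConjugate

namespace LibEY38

/-
ROW U1 (MEDIUM/STRONG, only Mathlib). Strict concavity of the link, purely dynamical.
x increasing, x(t) > 0 iff t > 0 (odd), x < a. Differentiate x(t+1) + x(t-1) = F(x t): x1(t+1) + x1(t-1) = F1(x t) x1 t, so with R t = x1(t+1)/x1 t:
R t + 1/R(t-1) = F1(x t). Differentiate (R has a bounded derivative R' = (x2(t+1) x1 t - x1(t+1) x2 t)/(x1 t)^2, |R'| <= C'):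
R'(t) - R'(t-1)/R(t-1)^2 = F2(x t) x1 t, i.e. R'(t-1) = R(t-1)^2 (R'(t) - F2(x t) x1 t). Iterate from t: R'(t) = -∑_{n=1}^{N} (∏_{k<n} R(t+k))^2 F2(x(t+n)) x1(t+n)
+ (∏_{k<N} R(t+k))^2 R'(t+N), ∏_{k<N} R(t+k) = x1(t+N)/x1 t -> 0. For t > -1 all t + n > 0: R'(t) <= -(R t)^2 F2(x(t+1)) x1(t+1) < 0.
x odd => x1 even => R(-1-t) = x1(-t)/x1(-1-t) = x1 t/x1(t+1) = 1/R t; so R'(t) < 0 also for t < 0. Hence R strictly decreasing on R.
Limits: R is monotone and bounded (ratio of the exponential bounds), L = lim at +oo satisfies L + 1/L = F1(a) = kap + 1/kap (F1 continuous at a), so L = kap or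
1/kap; L = kap > 1 is impossible since x1(t+N)/x1 t -> 0. So R > 1/kap everywhere, and R t = 1/R(-1-t) < kap.
-/
theorem ratio_anti (x x1 x2 F F1 F2 : ℝ → ℝ) (lam c C a : ℝ) (hlam : 0 < lam) (hc : 0 < c) (ha : 0 < a)
    (hx : ∀ t, HasDerivAt x (x1 t) t) (hx1 : ∀ t, HasDerivAt x1 (x2 t) t) (hodd : ∀ t, x (-t) = -x t)
    (h1 : ∀ t, c * Real.exp (-(lam * |t|)) ≤ x1 t) (h2 : ∀ t, x1 t ≤ C * Real.exp (-(lam * |t|)))
    (h3 : ∀ t, |x2 t| ≤ C * Real.exp (-(lam * |t|))) (hlim : Tendsto x atTop (𝓝 a))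
    (hF : ∀ y, HasDerivAt F (F1 y) y) (hF1 : ∀ y, HasDerivAt F1 (F2 y) y)
    (hpos : ∀ y, 0 < y → y < a → 0 < F2 y) (hFa : F1 a = Real.exp lam + Real.exp (-lam))
    (hlink : ∀ t, x (t + 1) + x (t - 1) = F (x t)) :
    StrictAnti (fun t => x1 (t + 1) / x1 t) ∧
    (∀ t, Real.exp (-lam) < x1 (t + 1) / x1 t ∧ x1 (t + 1) / x1 t < Real.exp lam) := by
  have hexp : ∀ t : ℝ, 0 < Real.exp (-(lam * |t|)) := fun t => Real.exp_pos _
  have hx1pos : ∀ t, 0 < x1 t := fun t => lt_of_lt_of_le (mul_pos hc (hexp t)) (h1 t)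
  have hCpos : 0 < C := by
    have h := lt_of_lt_of_le (hx1pos 0) (h2 0)
    exact (pos_iff_pos_of_mul_pos h).2 (hexp 0)
  have hmono : StrictMono x := strictMono_of_deriv_pos fun t => by
    rw [(hx t).deriv]
    exact hx1pos t
  have hx0 : x 0 = 0 := by
    have h := hodd 0
    rw [neg_zero] at h
    linarith
  have hxpos : ∀ t, 0 < t → 0 < x t := fun t ht => by
    have h := hmono ht
    rwa [hx0] at h
  have hxlt : ∀ t, x t < a := fun t =>
    lt_of_lt_of_le (hmono (lt_add_one t)) (hmono.monotone.ge_of_tendsto hlim (t + 1))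
  have hev : ∀ t, x1 (-t) = x1 t := by
    intro t
    have e1 : HasDerivAt (fun s => x (-s)) (-(x1 (-t))) t := by
      have h := (hx (-t)).comp t (hasDerivAt_neg t)
      rw [mul_neg_one] at h
      exact h
    have e2 : HasDerivAt (fun s => x (-s)) (-(x1 t)) t := by
      have h : (fun s => x (-s)) = fun s => -x s := funext hodd
      rw [h]
      exact (hx t).neg
    have h := e1.unique e2
    linarith
  have hod2 : ∀ t, x2 (-t) = -x2 t := by
    intro t
    have e1 : HasDerivAt (fun s => x1 (-s)) (-(x2 (-t))) t := by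
      have h := (hx1 (-t)).comp t (hasDerivAt_neg t)
      rw [mul_neg_one] at h
      exact h
    have e2 : HasDerivAt (fun s => x1 (-s)) (x2 t) t := by
      have h : (fun s => x1 (-s)) = x1 := funext hev
      rw [h]
      exact hx1 t
    have h := e1.unique e2
    linarith
  have hlink1 : ∀ t, x1 (t + 1) + x1 (t - 1) = F1 (x t) * x1 t := by
    intro t
    have e1 : HasDerivAt (fun s => x (s + 1) + x (s - 1)) (x1 (t + 1) + x1 (t - 1)) t :=
      ((hx (t + 1)).comp_add_const t 1).add ((hx (t - 1)).comp_sub_const t 1)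
    have e2 : HasDerivAt (fun s => x (s + 1) + x (s - 1)) (F1 (x t) * x1 t) t := by
      have h : (fun s => x (s + 1) + x (s - 1)) = fun s => F (x s) := funext hlink
      rw [h]
      exact (hF (x t)).comp t (hx t)
    exact e1.unique e2
  have hlink2 : ∀ t, x2 (t + 1) + x2 (t - 1) = F2 (x t) * x1 t * x1 t + F1 (x t) * x2 t := by
    intro t
    have e1 : HasDerivAt (fun s => x1 (s + 1) + x1 (s - 1)) (x2 (t + 1) + x2 (t - 1)) t :=
      ((hx1 (t + 1)).comp_add_const t 1).add ((hx1 (t - 1)).comp_sub_const t 1)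
    have e2 : HasDerivAt (fun s => x1 (s + 1) + x1 (s - 1))
        (F2 (x t) * x1 t * x1 t + F1 (x t) * x2 t) t := by
      have h : (fun s => x1 (s + 1) + x1 (s - 1)) = fun s => F1 (x s) * x1 s := funext hlink1
      rw [h]
      exact ((hF1 (x t)).comp t (hx t)).mul (hx1 t)
    exact e1.unique e2
  obtain ⟨W, hWdef⟩ : ∃ W : ℝ → ℝ, ∀ t, W t = x2 (t + 1) * x1 t - x1 (t + 1) * x2 t :=
    ⟨_, fun _ => rfl⟩
  have hW : ∀ t, W t - W (t - 1) = F2 (x t) * x1 t ^ 3 := by
    intro t
    have e1 := hlink1 t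
    have e2 := hlink2 t
    rw [hWdef, hWdef, sub_add_cancel]
    linear_combination x1 t * e2 - x2 t * e1
  have hWsym : ∀ t, W (-1 - t) = W t := by
    intro t
    rw [hWdef, hWdef]
    have e1 : -1 - t + 1 = -t := by ring
    have e2 : -1 - t = -(t + 1) := by ring
    rw [e1, e2, hev, hev, hod2, hod2]
    ring
  have hWneg1 : ∀ t, -1 < t → W t < 0 := by
    intro t ht
    have hs : StrictMono (fun n : ℕ => W (t + n)) := by
      refine strictMono_nat_of_lt_succ fun n => ?_
      have e1 := hW (t + ((n + 1 : ℕ) : ℝ))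
      have e2 : t + ((n + 1 : ℕ) : ℝ) - 1 = t + n := by push_cast; ring
      rw [e2] at e1
      have hn : (0 : ℝ) ≤ n := Nat.cast_nonneg n
      have hp : 0 < t + ((n + 1 : ℕ) : ℝ) := by push_cast; linarith
      have e3 : 0 < F2 (x (t + ((n + 1 : ℕ) : ℝ))) * x1 (t + ((n + 1 : ℕ) : ℝ)) ^ 3 :=
        mul_pos (hpos _ (hxpos _ hp) (hxlt _)) (pow_pos (hx1pos _) 3)
      show W (t + n) < W (t + ((n + 1 : ℕ) : ℝ))
      linarith
    have hl : Tendsto (fun n : ℕ => W (t + n)) atTop (𝓝 0) := by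
      have hb : ∀ s : ℝ, |W s| ≤ 2 * C ^ 2 * Real.exp (-(lam * |s|)) := by
        intro s
        have hE : Real.exp (-(lam * |s + 1|)) ≤ 1 :=
          Real.exp_le_one_iff.2 (by
            have := mul_nonneg hlam.le (abs_nonneg (s + 1))
            linarith)
        have q1 : |x2 (s + 1)| ≤ C := (h3 (s + 1)).trans (mul_le_of_le_one_right hCpos.le hE)
        have q2 : |x1 (s + 1)| ≤ C := by
          rw [abs_of_pos (hx1pos _)]
          exact (h2 (s + 1)).trans (mul_le_of_le_one_right hCpos.le hE)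
        have q3 : |x1 s| ≤ C * Real.exp (-(lam * |s|)) := by
          rw [abs_of_pos (hx1pos _)]
          exact h2 s
        have q4 := h3 s
        rw [hWdef]
        calc |x2 (s + 1) * x1 s - x1 (s + 1) * x2 s| ≤
              |x2 (s + 1) * x1 s| + |x1 (s + 1) * x2 s| := abs_sub _ _
          _ = |x2 (s + 1)| * |x1 s| + |x1 (s + 1)| * |x2 s| := by rw [abs_mul, abs_mul]
          _ ≤ C * (C * Real.exp (-(lam * |s|))) + C * (C * Real.exp (-(lam * |s|))) :=
              add_le_add (mul_le_mul q1 q3 (abs_nonneg _) hCpos.le)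
                (mul_le_mul q2 q4 (abs_nonneg _) hCpos.le)
          _ = 2 * C ^ 2 * Real.exp (-(lam * |s|)) := by ring
      have hz : Tendsto (fun n : ℕ => 2 * C ^ 2 * Real.exp (-(lam * |t + n|))) atTop (𝓝 0) := by
        have e1 : Tendsto (fun n : ℕ => t + (n : ℝ)) atTop atTop :=
          tendsto_atTop_add_const_left _ t tendsto_natCast_atTop_atTop
        have e2 : Tendsto (fun n : ℕ => lam * |t + (n : ℝ)|) atTop atTop :=
          (tendsto_abs_atTop_atTop.comp e1).const_mul_atTop hlam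
        have e3 := (Real.tendsto_exp_neg_atTop_nhds_zero.comp e2).const_mul (2 * C ^ 2)
        rw [mul_zero] at e3
        exact e3
      exact squeeze_zero_norm (fun n => by rw [Real.norm_eq_abs]; exact hb _) hz
    have e1 : W (t + ((1 : ℕ) : ℝ)) ≤ 0 := hs.monotone.ge_of_tendsto hl 1
    have e2 : W (t + ((0 : ℕ) : ℝ)) < W (t + ((1 : ℕ) : ℝ)) := hs Nat.zero_lt_one
    rw [Nat.cast_zero, add_zero] at e2
    exact lt_of_lt_of_le e2 e1
  have hWneg : ∀ t, W t < 0 := by
    intro t
    rcases lt_or_ge (-1) t with h | h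
    · exact hWneg1 t h
    · rw [← hWsym]
      exact hWneg1 _ (by linarith)
  have hRd : ∀ t, HasDerivAt (fun t => x1 (t + 1) / x1 t) (W t / x1 t ^ 2) t := by
    intro t
    have e1 := ((hx1 (t + 1)).comp_add_const t 1).div (hx1 t) (hx1pos t).ne'
    rw [hWdef]
    exact e1
  have hanti : StrictAnti (fun t => x1 (t + 1) / x1 t) := strictAnti_of_deriv_neg fun t => by
    rw [(hRd t).deriv]
    exact div_neg_of_neg_of_pos (hWneg t) (pow_pos (hx1pos t) 2)
  obtain ⟨R, hR⟩ : ∃ R : ℝ → ℝ, R = fun t => x1 (t + 1) / x1 t := ⟨_, rfl⟩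
  have hRt : ∀ t, R t = x1 (t + 1) / x1 t := fun t => by rw [hR]
  rw [← hR] at hanti ⊢
  have hRpos : ∀ t, 0 < R t := fun t => by
    rw [hRt]
    exact div_pos (hx1pos _) (hx1pos _)
  have hm : 0 < c / C * Real.exp (-lam) := by positivity
  have hRlow : ∀ t, c / C * Real.exp (-lam) ≤ R t := by
    intro t
    rw [hRt, le_div_iff₀ (hx1pos t)]
    have q1 : Real.exp (-lam) * Real.exp (-(lam * |t|)) ≤ Real.exp (-(lam * |t + 1|)) := by
      rw [← Real.exp_add]
      apply Real.exp_le_exp.2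
      have q2 : |t + 1| ≤ |t| + 1 := by
        have := abs_add_le t 1
        rwa [abs_one] at this
      nlinarith
    calc c / C * Real.exp (-lam) * x1 t ≤
          c / C * Real.exp (-lam) * (C * Real.exp (-(lam * |t|))) :=
            mul_le_mul_of_nonneg_left (h2 t) hm.le
      _ = c * (Real.exp (-lam) * Real.exp (-(lam * |t|))) := by
          field_simp
      _ ≤ c * Real.exp (-(lam * |t + 1|)) := mul_le_mul_of_nonneg_left q1 hc.le
      _ ≤ x1 (t + 1) := h1 _
  obtain ⟨L, hL⟩ : ∃ L : ℝ, Tendsto R atTop (𝓝 L) :=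
    ⟨_, tendsto_atTop_ciInf hanti.antitone ⟨0, by
      rintro _ ⟨t, rfl⟩
      exact (hRpos t).le⟩⟩
  have hLpos : 0 < L := lt_of_lt_of_le hm (ge_of_tendsto' hL hRlow)
  have hLeq : L + L⁻¹ = Real.exp lam + Real.exp (-lam) := by
    rw [← hFa]
    have e1 : Tendsto (fun t => R t + (R (t - 1))⁻¹) atTop (𝓝 (L + L⁻¹)) := by
      have e2 : Tendsto (fun t : ℝ => R (t - 1)) atTop (𝓝 L) :=
        hL.comp (tendsto_atTop_add_const_right atTop (-1 : ℝ) tendsto_id)
      exact hL.add (e2.inv₀ hLpos.ne')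
    have e3 : Tendsto (fun t => R t + (R (t - 1))⁻¹) atTop (𝓝 (F1 a)) := by
      have e4 : (fun t => R t + (R (t - 1))⁻¹) = fun t => F1 (x t) := by
        funext t
        rw [hRt, hRt, sub_add_cancel, inv_div, ← add_div, hlink1 t, mul_div_assoc,
          div_self (hx1pos t).ne', mul_one]
      rw [e4]
      exact (hF1 a).continuousAt.tendsto.comp hlim
    exact tendsto_nhds_unique e1 e3
  have hprod : Real.exp lam * Real.exp (-lam) = 1 := by
    rw [← Real.exp_add, add_neg_cancel, Real.exp_zero]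
  have hfac : (L - Real.exp lam) * (L - Real.exp (-lam)) = 0 := by
    have e1 : L * L⁻¹ = 1 := mul_inv_cancel₀ hLpos.ne'
    linear_combination L * hLeq - e1 + hprod
  have hLle : ∀ t, L ≤ R t := fun t => hanti.antitone.le_of_tendsto hL t
  have hLlt : ∀ t, L < R t := fun t => lt_of_le_of_lt (hLle (t + 1)) (hanti (lt_add_one t))
  have hLval : L = Real.exp (-lam) := by
    rcases mul_eq_zero.1 hfac with h | h
    · exfalso
      have h' : L = Real.exp lam := by linarith
      have hL1 : 1 < L := by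
        rw [h']
        exact Real.one_lt_exp_iff.2 hlam
      have hinc : ∀ n : ℕ, x1 0 ≤ x1 n := by
        intro n
        induction n with
        | zero => rw [Nat.cast_zero]
        | succ n ih =>
          have e1 : 1 < R n := lt_of_lt_of_le hL1 (hLle _)
          rw [hRt, one_lt_div (hx1pos _)] at e1
          rw [Nat.cast_succ]
          exact ih.trans e1.le
      have hz : Tendsto (fun n : ℕ => C * Real.exp (-(lam * |(n : ℝ)|))) atTop (𝓝 0) := by
        have e1 : Tendsto (fun n : ℕ => (n : ℝ)) atTop atTop := tendsto_natCast_atTop_atTop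
        have e2 : Tendsto (fun n : ℕ => lam * |(n : ℝ)|) atTop atTop :=
          (tendsto_abs_atTop_atTop.comp e1).const_mul_atTop hlam
        have e3 := (Real.tendsto_exp_neg_atTop_nhds_zero.comp e2).const_mul C
        rw [mul_zero] at e3
        exact e3
      have h0 : x1 0 ≤ 0 := ge_of_tendsto' hz fun n => (hinc n).trans (h2 n)
      exact absurd (hx1pos 0) (not_lt.2 h0)
    · linarith
  refine ⟨hanti, fun t => ?_⟩
  rw [← hRt t]
  have k1 : Real.exp (-lam) < R t := by
    rw [← hLval]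
    exact hLlt t
  refine ⟨k1, ?_⟩
  have k2 : Real.exp (-lam) < R (-1 - t) := by
    rw [← hLval]
    exact hLlt _
  have k3 : R (-1 - t) * R t = 1 := by
    rw [hRt, hRt]
    have e1 : -1 - t + 1 = -t := by ring
    have e2 : -1 - t = -(t + 1) := by ring
    rw [e1, e2, hev, hev]
    have := (hx1pos t).ne'
    have := (hx1pos (t + 1)).ne'
    field_simp
  have k4 : Real.exp (-lam) * R t < 1 := by
    calc Real.exp (-lam) * R t < R (-1 - t) * R t := mul_lt_mul_of_pos_right k2 (hRpos t)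
      _ = 1 := k3
  calc R t = Real.exp lam * (Real.exp (-lam) * R t) := by rw [← mul_assoc, hprod, one_mul]
    _ < Real.exp lam * 1 := mul_lt_mul_of_pos_left k4 (Real.exp_pos _)
    _ = Real.exp lam := mul_one _

end LibEY38
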