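import Pool.Agent.LibEY38.Defs

open Complex Set Filter Topology MeasureTheory
open scoped ComplexConjugate

namespace LibEY38

/-
ROW U2 (MEDIUM, only Mathlib). From the curve to the link function u.
x : ℝ → (-a, a) is a strictly increasing C^1 bijection (limits ±a). u y := x (x⁻¹ y + 1) for |y| < a, u y := y otherwise. u (x t) = x (t+1).
HasDerivAt u (x1(t+1)/x1 t) (x t) (inverse function: HasDerivAt.of_local_left_inverse / strict monotone homeomorphism onto the interval).
Continuity at ±a: y < u y < a on (-a,a) gives the limits: at a: y < u y < a; at -a: u y -> -a because u is monotone and t -> -oo.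
u(-u(x t)) = u(x(-t-1)) = x(-t) = -x t. F (x t) = x(t+1) + x(t-1) = u(x t) - u(-(x t)) as u(x(-t)) = x(1-t) = -x(t-1). deriv u strictly anti: deriv u (x t) = R t, x
increasing.
-/
theorem link_u (x x1 F : ℝ → ℝ) (lam a : ℝ) (ha : 0 < a)
    (hx : ∀ t, HasDerivAt x (x1 t) t) (hodd : ∀ t, x (-t) = -x t) (h1 : ∀ t, 0 < x1 t)
    (hlim : Tendsto x atTop (𝓝 a)) (hlink : ∀ t, x (t + 1) + x (t - 1) = F (x t))
    (hR : StrictAnti (fun t => x1 (t + 1) / x1 t))
    (hR' : ∀ t, Real.exp (-lam) < x1 (t + 1) / x1 t ∧ x1 (t + 1) / x1 t < Real.exp lam) :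
    ∃ u : ℝ → ℝ, Continuous u ∧ u a = a ∧ u (-a) = -a ∧ (∀ y, a ≤ |y| → u y = y) ∧
      (∀ y ∈ Ioo (-a) a, DifferentiableAt ℝ u y ∧ Real.exp (-lam) < deriv u y ∧ deriv u y < Real.exp lam ∧
        y < u y ∧ u y < a ∧ u (-u y) = -y ∧ F y = u y - u (-y)) ∧
      StrictAntiOn (deriv u) (Ioo (-a) a) := by
  have hsm : StrictMono x := by
    apply strictMono_of_deriv_pos
    intro t
    rw [(hx t).deriv]
    exact h1 t
  have hcont : Continuous x := continuous_iff_continuousAt.mpr fun t => (hx t).continuousAt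
  have hlt : ∀ t, x t < a := fun t =>
    lt_of_lt_of_le (hsm (lt_add_one t)) (hsm.monotone.ge_of_tendsto hlim (t + 1))
  have hgt : ∀ t, -a < x t := by
    intro t
    have h := hlt (-t)
    rw [hodd] at h
    linarith
  have hsurj : ∀ y, |y| < a → ∃ t, x t = y := by
    intro y hy
    obtain ⟨hy1, hy2⟩ := abs_lt.mp hy
    have hup : ∃ t, y ≤ x t := by
      obtain ⟨t, ht⟩ := ((tendsto_order.mp hlim).1 y hy2).exists
      exact ⟨t, ht.le⟩
    have hdn : ∃ t, x t ≤ y := by
      obtain ⟨t, ht⟩ := ((tendsto_order.mp hlim).1 (-y) (by linarith)).exists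
      refine ⟨-t, ?_⟩
      rw [hodd]
      linarith
    obtain ⟨t, ht⟩ := mem_range_of_exists_le_of_exists_ge hcont hdn hup
    exact ⟨t, ht⟩
  choose! s hs using hsurj
  have habs : ∀ t, |x t| < a := fun t => abs_lt.mpr ⟨hgt t, hlt t⟩
  have hsx : ∀ t, s (x t) = t := fun t => hsm.injective (hs (x t) (habs t))
  have hmem : ∀ y, |y| < a → ∀ᶠ z in 𝓝 y, |z| < a := fun y hy =>
    (continuous_abs.continuousAt (x := y)).eventually (gt_mem_nhds hy)
  have hscont : ∀ t, ContinuousAt s (x t) := by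
    intro t
    unfold ContinuousAt
    rw [hsx]
    refine tendsto_order.mpr ⟨fun b hb => ?_, fun b hb => ?_⟩
    · filter_upwards [hmem _ (habs t), lt_mem_nhds (hsm hb)] with z hz1 hz2
      rw [← hs z hz1] at hz2
      exact hsm.lt_iff_lt.mp hz2
    · filter_upwards [hmem _ (habs t), gt_mem_nhds (hsm hb)] with z hz1 hz2
      rw [← hs z hz1] at hz2
      exact hsm.lt_iff_lt.mp hz2
  have hsder : ∀ t, HasDerivAt s (x1 t)⁻¹ (x t) := by
    intro t
    refine HasDerivAt.of_local_left_inverse (f := x) (hscont t) ?_ (h1 t).ne' ?_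
    · rw [hsx]
      exact hx t
    · filter_upwards [hmem _ (habs t)] with z hz
      exact hs z hz
  let u : ℝ → ℝ := fun y => if |y| < a then x (s y + 1) else y
  have hu1 : ∀ t, u (x t) = x (t + 1) := by
    intro t
    change (if |x t| < a then x (s (x t) + 1) else x t) = _
    rw [if_pos (habs t), hsx]
  have hu2 : ∀ y, a ≤ |y| → u y = y := by
    intro y hy
    exact if_neg (not_lt.mpr hy)
  have huder : ∀ t, HasDerivAt u (x1 (t + 1) / x1 t) (x t) := by
    intro t
    have e1 : HasDerivAt (fun y => s y + 1) (x1 t)⁻¹ (x t) := (hsder t).add_const 1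
    have e2 : HasDerivAt x (x1 (t + 1)) ((fun y => s y + 1) (x t)) := by
      change HasDerivAt x (x1 (t + 1)) (s (x t) + 1)
      rw [hsx]
      exact hx (t + 1)
    have e3 := HasDerivAt.comp (x t) e2 e1
    rw [← div_eq_mul_inv] at e3
    refine e3.congr_of_eventuallyEq ?_
    filter_upwards [hmem _ (habs t)] with z hz
    exact if_pos hz
  have hmono : Monotone u := by
    intro y y' hyy
    by_cases hy : |y| < a
    · obtain ⟨t, rfl⟩ : ∃ t, x t = y := ⟨s y, hs y hy⟩
      by_cases hy' : |y'| < a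
      · obtain ⟨t', rfl⟩ : ∃ t, x t = y' := ⟨s y', hs y' hy'⟩
        rw [hu1, hu1]
        exact hsm.monotone (by linarith [hsm.le_iff_le.mp hyy])
      · rw [hu1, hu2 y' (not_lt.mp hy')]
        have h2 : a ≤ y' := by
          rcases le_abs.mp (not_lt.mp hy') with h | h
          · exact h
          · linarith [hgt t]
        linarith [hlt (t + 1)]
    · by_cases hy' : |y'| < a
      · obtain ⟨t', rfl⟩ : ∃ t, x t = y' := ⟨s y', hs y' hy'⟩
        rw [hu1, hu2 y (not_lt.mp hy)]
        have h2 : y ≤ -a := by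
          rcases le_abs.mp (not_lt.mp hy) with h | h
          · linarith [hlt t']
          · linarith
        linarith [hgt (t' + 1)]
      · rw [hu2 y (not_lt.mp hy), hu2 y' (not_lt.mp hy')]
        exact hyy
  have hus : Function.Surjective u := by
    intro w
    by_cases hw : |w| < a
    · refine ⟨x (s w - 1), ?_⟩
      rw [hu1, sub_add_cancel, hs w hw]
    · exact ⟨w, hu2 w (not_lt.mp hw)⟩
  refine ⟨u, hmono.continuous_of_surjective hus, hu2 a (le_abs_self a), hu2 (-a) ?_, hu2, ?_, ?_⟩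
  · rw [abs_neg]
    exact le_abs_self a
  · intro y hy
    obtain ⟨t, rfl⟩ : ∃ t, x t = y := ⟨s y, hs y (abs_lt.mpr hy)⟩
    have hd := (huder t).deriv
    refine ⟨(huder t).differentiableAt, ?_, ?_, ?_, ?_, ?_, ?_⟩
    · rw [hd]
      exact (hR' t).1
    · rw [hd]
      exact (hR' t).2
    · rw [hu1]
      exact hsm (lt_add_one t)
    · rw [hu1]
      exact hlt _
    · rw [hu1, ← hodd, hu1, ← hodd]
      congr 1
      ring
    · rw [hu1, ← hodd, hu1, ← hlink]
      have e : -t + 1 = -(t - 1) := by ring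
      rw [e, hodd]
      ring
  · intro y hy y' hy' hyy
    obtain ⟨t, rfl⟩ : ∃ t, x t = y := ⟨s y, hs y (abs_lt.mpr hy)⟩
    obtain ⟨t', rfl⟩ : ∃ t, x t = y' := ⟨s y', hs y' (abs_lt.mpr hy')⟩
    rw [(huder t).deriv, (huder t').deriv]
    exact hR (hsm.lt_iff_lt.mp hyy)

end LibEY38
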