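import Pool.Agent.LibEY38.Defs
import Pool.Agent.LibEY38.B0
import Pool.Agent.LibEY38.B5
import Pool.Agent.LibEY38.U0
import Pool.Agent.LibEY38.U1
import Pool.Agent.LibEY38.U2
import Pool.Agent.LibEye.Defs

open Complex Set Filter Topology MeasureTheory
open scoped ComplexConjugate

namespace LibEY38

private lemma ofReal_mem_St (x : ℝ) {η : ℝ} (hη : 0 < η) : (x : ℂ) ∈ St η := by
  simp [St, hη]

private lemma isOpen_St (η : ℝ) : IsOpen (St η) := by
  have : Continuous fun t : ℂ => |t.im| := Complex.continuous_im.abs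
  exact isOpen_lt this continuous_const

private lemma St_conj {η : ℝ} {t : ℂ} (h : t ∈ St η) : conj t ∈ St η := by
  simpa [St] using h

/-- the real force -/
theorem force_facts (ε : ℝ) (N : ℕ) (Fc X : ℂ → ℂ) (H : EyeMap ε N Fc X) :
    (∀ x : ℝ, Fc x = (((Fc x).re : ℝ) : ℂ)) ∧
    (∀ x : ℝ, HasDerivAt (fun y : ℝ => (Fc y).re) (deriv Fc x).re x) ∧
    (∀ x : ℝ, HasDerivAt (fun y : ℝ => (deriv Fc y).re) (deriv (deriv Fc) x).re x) ∧
    AnalyticOnNhd ℝ (fun x : ℝ => (Fc x).re) univ ∧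
    (∀ x : ℝ, (Fc (-x : ℝ)).re = -(Fc x).re) ∧
    (∀ x : ℝ, (Fc ((x + 2 * Real.pi : ℝ) : ℂ)).re = (Fc x).re + 2 * Real.pi * (N + 2)) := by
  have hO : IsOpen (St (1/25)) := isOpen_St _
  have hm : ∀ x : ℝ, (x : ℂ) ∈ St (1/25) := fun x => ofReal_mem_St x (by norm_num)
  have hd : ∀ x : ℝ, HasDerivAt Fc (deriv Fc x) x := fun x =>
    ((H.diff x (hm x)).differentiableAt (hO.mem_nhds (hm x))).hasDerivAt
  have hd1 : DifferentiableOn ℂ (deriv Fc) (St (1/25)) := H.diff.deriv hO
  have hd2 : ∀ x : ℝ, HasDerivAt (deriv Fc) (deriv (deriv Fc) x) x := fun x =>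
    ((hd1 x (hm x)).differentiableAt (hO.mem_nhds (hm x))).hasDerivAt
  refine ⟨fun x => ?_, fun x => ?_, fun x => ?_, ?_, fun x => ?_, fun x => ?_⟩
  · have h := H.real x (hm x)
    rw [Complex.conj_ofReal] at h
    exact (Complex.conj_eq_iff_re.mp h.symm).symm
  · exact (hd x).real_of_complex
  · exact (hd2 x).real_of_complex
  · intro x _
    have h1 : AnalyticAt ℂ Fc (x : ℂ) := H.diff.analyticAt (hO.mem_nhds (hm x))
    have h2 : AnalyticAt ℝ Fc (x : ℂ) := h1.restrictScalars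
    have h3 : AnalyticAt ℝ (fun y : ℝ => Fc (y : ℂ)) x :=
      AnalyticAt.comp (g := Fc) (f := fun y : ℝ => (y : ℂ)) h2 (Complex.ofRealCLM.analyticAt x)
    exact (Complex.reCLM.analyticAt _).comp h3
  · have h := H.odd x (hm x)
    rw [Complex.ofReal_neg, h, Complex.neg_re]
  · have h := H.per x (hm x)
    have e : ((x + 2 * Real.pi : ℝ) : ℂ) = (x : ℂ) + 2 * Real.pi := by push_cast; ring
    rw [e, h]
    have : (2 * (Real.pi : ℂ) * ((N : ℂ) + 2)) = ((2 * Real.pi * (N + 2) : ℝ) : ℂ) := by push_cast; ring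
    rw [this, Complex.add_re, Complex.ofReal_re]

theorem eyeHyp_of_eyeMap (ε : ℝ) (N : ℕ) (Fc X : ℂ → ℂ) (hε : 0 ≤ ε) (hε' : ε ≤ 1 / 1000)
    (H : EyeMap ε N Fc X) :
    ∃ u : ℝ → ℝ, Pool.Agent.LibEye.EyeHyp (fun x : ℝ => (Fc x).re) u ((N : ℤ) + 2) aa (6 / 5) kap := by
  obtain ⟨hre, hF, hF1, han, hodd, hper⟩ := force_facts ε N Fc X H
  obtain ⟨hl1, hl2, hk1, hk2, hk3, hch, hsh, hca, hsa, ha1, ha2⟩ := numbers
  obtain ⟨x, x1, x2, hX, hx, hx1, hxo, hb1, hb2, hb3, hlim⟩ := real_curve X ε hε hε' H.good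
  have haa : 0 < aa := by linarith
  have hlam : 0 < lam := by linarith
  have hpi : (3.1415 : ℝ) < Real.pi := Real.pi_gt_d4
  have hkap : Real.exp lam + Real.exp (-lam) = 54/25 := by
    rw [Real.exp_neg, ← hk3]; unfold kap; ring
  have hcast : ∀ t : ℝ, ((t + 1 : ℝ) : ℂ) = (t : ℂ) + 1 := fun t => by push_cast; ring
  have hcast' : ∀ t : ℝ, ((t - 1 : ℝ) : ℂ) = (t : ℂ) - 1 := fun t => by push_cast; ring
  have hlink : ∀ t, x (t + 1) + x (t - 1) = (Fc (x t)).re := by
    intro t
    have h := H.link t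
    rw [← hcast, ← hcast', hX, hX, hX] at h
    rw [← h, ← Complex.ofReal_add, Complex.ofReal_re]
  have hR := ratio_anti x x1 x2 (fun y : ℝ => (Fc y).re) (fun y : ℝ => (deriv Fc y).re)
    (fun y : ℝ => (deriv (deriv Fc) y).re) lam (1/10) 3 aa hlam (by norm_num) haa hx hx1 hxo hb1 hb2 hb3 hlim
    hF hF1 (fun y h0 h1 => by have := H.convex y h0.le (by linarith); linarith) (by rw [H.dfaa, hkap]; norm_num) hlink
  have hpos : ∀ t, 0 < x1 t := fun t => lt_of_lt_of_le (by positivity) (hb1 t)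
  obtain ⟨u, hcu, hua, hua', huo, hui, hanti⟩ := link_u x x1 (fun y : ℝ => (Fc y).re) lam aa haa hx hxo hpos hlim
    hlink hR.1 hR.2
  have hderiv : ∀ y : ℝ, deriv (fun y : ℝ => (Fc y).re) y = (deriv Fc y).re := fun y => (hF y).deriv
  have hkinv : 1 / kap = Real.exp (-lam) := by rw [Real.exp_neg]; unfold kap; ring
  refine ⟨u, ?_⟩
  refine
    { ha := haa
      hab := by linarith
      hκ := hk1
      hF := ?_
      hodd := ?_
      hper := ?_
      hFa := ?_
      hdFab := ?_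
      hout := ?_
      hwrap := ?_
      hcu := hcu
      hu := fun y hy => (hui y hy).1
      hanti := hanti
      hlow := fun y hy => by rw [hkinv]; exact (hui y hy).2.1
      hua := hua
      hua' := hua'
      hinv := fun y hy => (hui y hy).2.2.2.2.2.1
      hup := fun y hy => (hui y hy).2.2.2.1
      hFu := fun y hy => (hui y hy).2.2.2.2.2.2 }
  · exact (contDiff_iff_contDiffAt.mpr fun y => (han y (mem_univ y)).contDiffAt)
  · intro y
    have := hodd y
    simpa using this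
  · intro y
    have := hper y
    simp only [this]
    push_cast
    ring
  · show (Fc aa).re = 2 * aa
    rw [H.faa]; simp
  · intro y hy
    rw [hderiv, hk3]
    -- monotonicity of the derivative
    have hmono : StrictMonoOn (fun y : ℝ => (deriv Fc y).re) (Icc aa (6/5)) := by
      apply strictMonoOn_of_deriv_pos (convex_Icc _ _)
      · exact fun z _ => (hF1 z).continuousAt.continuousWithinAt
      · intro z hz
        rw [interior_Icc] at hz
        rw [(hF1 z).deriv]
        have := H.convex z (by linarith [hz.1]) hz.2.le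
        have h5 := hz.1
        linarith
    have h := hmono (left_mem_Icc.mpr (by linarith)) ⟨hy.1.le, hy.2⟩ hy.1
    have h2 : (deriv Fc (aa : ℂ)).re = 54/25 := by rw [H.dfaa]; norm_num
    simp only [h2] at h
    exact h
  · intro y hy
    rw [hderiv]
    have := H.big y hy.1 hy.2
    linarith
  · have h := H.wrap
    have e : ((6/5 : ℝ) : ℂ) = 6/5 := by push_cast; ring
    simp only [e]
    linarith

end LibEY38
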