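import Pool.Agent.LibEY38.F4
import Pool.Agent.LibEY38.U3
import Pool.Agent.LibEye.Final

open Complex Set Filter Topology MeasureTheory
open scoped ComplexConjugate

namespace LibEY38

open Pool.Agent.LibEye

/-- the force of an eye map has the structure used outside the eye, is analytic and elliptic at 0 -/
theorem glue (N : ℕ) (hN : 1 ≤ N) : ∃ (F F1 F2 u : ℝ → ℝ) (a b κ : ℝ), EyeHyp F u ((N : ℤ) + 2) a b κ ∧
    AnalyticOnNhd ℝ F univ ∧ (∀ x, HasDerivAt F (F1 x) x) ∧ (∀ x, HasDerivAt F1 (F2 x) x) ∧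
    9 / 5 < F1 0 ∧ F1 0 < 39 / 20 ∧ (∀ x, 0 ≤ x → x ≤ 6 / 5 → x / 20 ≤ F2 x) ∧ |deriv F 0| < 2 := by
  obtain ⟨Fc, X, H⟩ := exists_eyeMap (1 / 1000) (by norm_num) N hN
  obtain ⟨u, hu⟩ := eyeHyp_of_eyeMap (1 / 1000) N Fc X (by norm_num) le_rfl H
  obtain ⟨hre, hF, hF1, han, hodd, hper⟩ := force_facts (1 / 1000) N Fc X H
  have h0 := H.d0
  refine ⟨fun x : ℝ => (Fc x).re, fun x : ℝ => (deriv Fc x).re, fun x : ℝ => (deriv (deriv Fc) x).re, u, aa, 6 / 5,
    kap, hu, han, hF, hF1, ?_, ?_, fun x h1 h2 => H.convex x h1 h2, ?_⟩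
  · simpa using h0.1
  · simpa using h0.2
  · rw [(hF 0).deriv, abs_lt]
    constructor
    · have := h0.1
      simp only [Complex.ofReal_zero]
      linarith
    · have := h0.2
      simp only [Complex.ofReal_zero]
      linarith

end LibEY38
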